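import Pool.Agent.Lib.MP_973905_nt.K4.Stmts
import Pool.Agent.Lib.MP_973905_nt.F4.Afe
import Pool.Agent.Lib.MP_973905_nt.F4.FFr

/-! (A2) The approximate functional equation with a bump as remainder. -/

namespace Pool.Agent.Lib.MP_973905_nt
namespace K4

open MeasureTheory ProbabilityTheory Complex Filter Topology K1 F4 Set

namespace AfeB

open F4.Afe (gi gi_diff gi_zero gi_norm gi_EG gi_far aw aw_nonneg aw_cont aw_int aw_total aw_le cs
  line_shift zeta1_EG zeta1_eq zeta_fe' zeta_tsum dir_tail FF_EG norm_exp_line int_pole)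

/-! ### A residue formula in a strip -/

lemma EG_of_far {a b M c : ℝ} {h : ℂ → ℂ} (hc : ContinuousOn h {w : ℂ | a ≤ w.re})
    (hM : 0 ≤ M) (hc0 : 0 ≤ c)
    (hb : ∀ w : ℂ, a ≤ w.re → w.re ≤ b → 1 ≤ |w.im| → ‖h w‖ ≤ M * Real.exp (c * |w.im|)) :
    Afe.EG a b h := by
  have hcomp : IsCompact (Icc a b ×ℂ Icc (-1) 1) := isCompact_Icc.reProdIm isCompact_Icc
  have hc' : ContinuousOn h (Icc a b ×ℂ Icc (-1) 1) := hc.mono fun w hw => by
    rw [mem_reProdIm] at hw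
    exact hw.1.1
  obtain ⟨M', hM'⟩ := hcomp.exists_bound_of_continuousOn hc'
  refine ⟨max M (max M' 0), c, le_max_of_le_left hM, hc0, fun w h1 h2 => ?_⟩
  rcases le_total 1 |w.im| with h3 | h3
  · refine (hb w h1 h2 h3).trans ?_
    gcongr
    exact le_max_left _ _
  · have h4 : w ∈ Icc a b ×ℂ Icc (-1) 1 := by
      rw [mem_reProdIm]
      exact ⟨⟨h1, h2⟩, abs_le.1 h3⟩
    have h5 : 1 ≤ Real.exp (c * |w.im|) := Real.one_le_exp (by positivity)
    calc ‖h w‖ ≤ M' := hM' w h4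
      _ ≤ max M (max M' 0) := (le_max_left _ _).trans (le_max_right _ _)
      _ ≤ max M (max M' 0) * Real.exp (c * |w.im|) :=
          le_mul_of_one_le_right ((le_max_right M' 0).trans (le_max_right _ _)) h5

lemma residue2 {B : ℝ} (hB : 0 < B) {m : ℂ → ℂ}
    (hd : DifferentiableOn ℂ m {w : ℂ | -(B + 1 / 4) < w.re}) (hE : Afe.EG (-B) B m) :
    (Integrable fun v : ℝ => cexp (2 * ((B : ℂ) + v * I) ^ 2) * m (B + v * I) *
      ((B : ℂ) + v * I)⁻¹) ∧
    (Integrable fun v : ℝ => cexp (2 * ((B : ℂ) + v * I) ^ 2) * m (-((B : ℂ) + v * I)) *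
      ((B : ℂ) + v * I)⁻¹) ∧
    ∫ v : ℝ, cexp (2 * ((B : ℂ) + v * I) ^ 2) * m (B + v * I) * ((B : ℂ) + v * I)⁻¹ =
      2 * Real.pi * m 0 - ∫ v : ℝ, cexp (2 * ((B : ℂ) + v * I) ^ 2) * m (-((B : ℂ) + v * I)) *
      ((B : ℂ) + v * I)⁻¹ := by
  set U : Set ℂ := {w : ℂ | -(B + 1 / 4) < w.re} with hU
  have hUo : IsOpen U := isOpen_lt continuous_const continuous_re
  have h0U : (0 : ℂ) ∈ U := by
    simp only [hU, mem_ofPred_eq, zero_re]
    linarith
  set d : ℂ → ℂ := dslope m 0 with hdd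
  have hd' : DifferentiableOn ℂ d U :=
    (differentiableOn_dslope (hUo.mem_nhds h0U)).mpr hd
  have hdne : ∀ w : ℂ, w ≠ 0 → d w = (m w - m 0) * w⁻¹ := by
    intro w hw
    rw [hdd, dslope_of_ne _ hw, slope_def_field, sub_zero, div_eq_mul_inv]
  have hsub : {w : ℂ | -B ≤ w.re} ⊆ U := by
    intro w hw
    simp only [mem_ofPred_eq] at hw
    simp only [hU, mem_ofPred_eq]
    linarith
  have hdE : Afe.EG (-B) B d := by
    obtain ⟨M, c, hM, hc, hb⟩ := hE.sub (Afe.EG.const _ _ (m 0))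
    refine EG_of_far (hd'.continuousOn.mono hsub) hM hc fun w h1 h2 h3 => ?_
    have h4 : 1 ≤ ‖w‖ := h3.trans (Complex.abs_im_le_norm w)
    have hw : w ≠ 0 := by
      intro h
      rw [h, norm_zero] at h4
      linarith
    rw [hdne w hw, norm_mul, norm_inv]
    calc ‖m w - m 0‖ * ‖w‖⁻¹ ≤ ‖m w - m 0‖ * 1 := by
          gcongr
          exact inv_le_one_of_one_le₀ h4
      _ ≤ _ := by rw [mul_one]; exact hb w h1 h2
  set Kf : ℂ → ℂ := fun w => cexp (2 * w ^ 2) * d w with hK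
  have hKd : DifferentiableOn ℂ Kf U := by
    apply DifferentiableOn.mul _ hd'
    apply Differentiable.differentiableOn
    fun_prop
  obtain ⟨M, hM, hMb⟩ := hdE.gauss
  have hint : Integrable fun t : ℝ => M * Real.exp (-1 * (t - 0) ^ 2) :=
    ((integrable_exp_neg_mul_sq one_pos).comp_sub_right 0).const_mul M
  obtain ⟨ht1, ht2⟩ := Shift.tendsto_gauss (K := M) (b := 1) (τ := 0) one_pos
  have hKb : ∀ x : ℝ, -B ≤ x → x ≤ B → ∀ t : ℝ,
      ‖Kf (x + t * I)‖ ≤ M * Real.exp (-1 * (t - 0) ^ 2) := by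
    intro x hx1 hx2 t
    have h1 := hMb (x + t * I) (by simpa using hx1) (by simpa using hx2)
    have e : (x + t * I : ℂ).im = t := by simp
    rw [e] at h1
    rw [show (-1 : ℝ) * (t - 0) ^ 2 = -t ^ 2 by ring]
    exact h1
  have hshift := Shift.vshift (h := Kf) (α := -(B + 1 / 4)) (β := B + 1) (σ₁ := B) (σ₂ := -B)
    (by linarith) (by linarith) (by linarith) (by linarith)
    (hKd.mono fun w hw => hw.1) hint ht1 ht2 (by
      intro x hx t
      rw [uIcc_of_ge (by linarith), mem_Icc] at hx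
      exact hKb x hx.1 hx.2 t)
  have hcont : ∀ x : ℝ, -B ≤ x → Continuous fun t : ℝ => Kf (x + t * I) := by
    intro x hx
    apply hKd.continuousOn.comp_continuous (by fun_prop)
    intro t
    apply hsub
    simpa using hx
  have hintK : Integrable fun t : ℝ => Kf (B + t * I) :=
    hint.mono' (hcont B (by linarith)).aestronglyMeasurable
      (Eventually.of_forall fun t => hKb B (by linarith) le_rfl t)
  have hintK2 : Integrable fun t : ℝ => Kf ((-B : ℝ) + t * I) :=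
    hint.mono' (hcont (-B) le_rfl).aestronglyMeasurable
      (Eventually.of_forall fun t => hKb (-B) le_rfl (by linarith) t)
  have hline : ∀ v : ℝ, (B : ℂ) + v * I ≠ 0 := by
    intro v hv
    have := congrArg re hv
    simp at this
    linarith
  have hintP : Integrable fun v : ℝ => cexp (2 * ((B : ℂ) + v * I) ^ 2) * ((B : ℂ) + v * I)⁻¹ := by
    have hf : Integrable (fun v : ℝ => (Real.exp (2 * B ^ 2) * B⁻¹) * Real.exp (-2 * v ^ 2)) :=
      (integrable_exp_neg_mul_sq (by norm_num)).const_mul _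
    refine hf.mono' ?_ (Eventually.of_forall fun v => ?_)
    · apply Continuous.aestronglyMeasurable
      apply Continuous.mul (by fun_prop)
      exact Continuous.inv₀ (by fun_prop) hline
    · rw [norm_mul, norm_inv, norm_exp_line]
      have e2 : B ≤ ‖(B : ℂ) + v * I‖ := by
        have := Complex.abs_re_le_norm ((B : ℂ) + v * I)
        simpa [abs_of_pos hB] using this
      calc Real.exp (2 * B ^ 2) * Real.exp (-2 * v ^ 2) * ‖(B : ℂ) + v * I‖⁻¹
          ≤ Real.exp (2 * B ^ 2) * Real.exp (-2 * v ^ 2) * B⁻¹ := by gcongr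
        _ = _ := by ring
  have hs1 : ∀ v : ℝ, cexp (2 * ((B : ℂ) + v * I) ^ 2) * m (B + v * I) *
      ((B : ℂ) + v * I)⁻¹ = Kf (B + v * I) +
        m 0 * (cexp (2 * ((B : ℂ) + v * I) ^ 2) * ((B : ℂ) + v * I)⁻¹) := by
    intro v
    rw [hK]
    simp only
    rw [hdne _ (hline v)]
    ring
  have hs2 : ∀ v : ℝ, cexp (2 * ((B : ℂ) + v * I) ^ 2) * m (-((B : ℂ) + v * I)) *
      ((B : ℂ) + v * I)⁻¹ =
        m 0 * (cexp (2 * ((B : ℂ) + v * I) ^ 2) * ((B : ℂ) + v * I)⁻¹) -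
        Kf (((-B : ℝ) : ℂ) + ((-v : ℝ) : ℂ) * I) := by
    intro v
    have e : ((-B : ℝ) : ℂ) + ((-v : ℝ) : ℂ) * I = -((B : ℂ) + v * I) := by
      push_cast
      ring
    rw [e, hK]
    simp only
    rw [hdne _ (neg_ne_zero.2 (hline v)), neg_sq, inv_neg]
    ring
  have hintK3 : Integrable fun v : ℝ => Kf (((-B : ℝ) : ℂ) + ((-v : ℝ) : ℂ) * I) :=
    hintK2.comp_neg
  have e3 : ∫ v : ℝ, Kf (((-B : ℝ) : ℂ) + ((-v : ℝ) : ℂ) * I) =
      ∫ v : ℝ, Kf (((-B : ℝ) : ℂ) + (v : ℂ) * I) :=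
    integral_neg_eq_self (fun t : ℝ => Kf ((-B : ℝ) + t * I)) volume
  simp only [hs1, hs2]
  refine ⟨hintK.add (hintP.const_mul _), (hintP.const_mul _).sub hintK3, ?_⟩
  rw [integral_add hintK (hintP.const_mul _), integral_sub (hintP.const_mul _) hintK3,
    hshift, e3, integral_const_mul, int_pole hB]
  ring

/-! ### Smooth partial sums -/

/-- smooth partial sums of zeta -/
noncomputable def QQ (φ : ℝ → ℝ) (T : ℝ) (z : ℂ) : ℂ :=
  ∑ n ∈ Finset.Icc 1 ⌊T⌋₊, (φ (Real.log n / Real.log T) : ℂ) * (n : ℂ) ^ (-z)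

/-- the difference of the two cutoffs -/
noncomputable def fD (δ x : ℝ) : ℝ := Pc δ x - Pb δ x

lemma Pc_nonneg (δ x : ℝ) : 0 ≤ Pc δ x :=
  mul_nonneg (Real.smoothTransition.nonneg _) (Real.smoothTransition.nonneg _)

lemma Pc_le_one (δ x : ℝ) : Pc δ x ≤ 1 :=
  mul_le_one₀ (Real.smoothTransition.le_one _) (Real.smoothTransition.nonneg _)
    (Real.smoothTransition.le_one _)

lemma Pb_nonneg' (δ x : ℝ) : 0 ≤ Pb δ x :=
  mul_nonneg (Real.smoothTransition.nonneg _) (Real.smoothTransition.nonneg _)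

lemma Pb_le_one' (δ x : ℝ) : Pb δ x ≤ 1 :=
  mul_le_one₀ (Real.smoothTransition.le_one _) (Real.smoothTransition.nonneg _)
    (Real.smoothTransition.le_one _)

lemma Pc_one {δ x : ℝ} (hδ : 0 < δ) (h1 : -1 ≤ x) (h2 : x ≤ 1 / 2 + δ) : Pc δ x = 1 := by
  rw [Pc, Real.smoothTransition.one_of_one_le,
    Real.smoothTransition.one_of_one_le (by linarith), mul_one]
  rw [le_div_iff₀ hδ]
  linarith

lemma Pb_zero' {δ x : ℝ} (hδ : 0 < δ) (h : 1 / 2 - δ ≤ x) : Pb δ x = 0 := by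
  rw [Pb, Real.smoothTransition.zero_of_nonpos, zero_mul]
  exact div_nonpos_of_nonpos_of_nonneg (by linarith) hδ.le

lemma QQ_split (δ T : ℝ) (z : ℂ) : QQ (Pc δ) T z = QQ (Pb δ) T z + QQ (fD δ) T z := by
  unfold QQ fD
  rw [← Finset.sum_add_distrib]
  refine Finset.sum_congr rfl fun n _ => ?_
  push_cast
  ring

lemma QQ_SH (δ T : ℝ) (z : ℂ) : QQ (Pb δ) T z = SH δ T (fs z) := rfl

lemma QQ_conj (φ : ℝ → ℝ) (T : ℝ) (z : ℂ) :
    QQ φ T (starRingEnd ℂ z) = starRingEnd ℂ (QQ φ T z) := by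
  unfold QQ
  rw [map_sum]
  refine Finset.sum_congr rfl fun n hn => ?_
  rw [map_mul, conj_ofReal]
  congr 1
  rw [← map_neg]
  have h : (n : ℂ) = ((n : ℝ) : ℂ) := by push_cast; rfl
  rw [h, cpow_conj _ _ (by
    rw [arg_ofReal_of_nonneg (Nat.cast_nonneg n)]
    exact Real.pi_ne_zero.symm), conj_ofReal]

lemma QQ_diff (φ : ℝ → ℝ) (T : ℝ) : Differentiable ℂ (QQ φ T) := by
  unfold QQ
  apply Differentiable.fun_sum
  intro n hn
  rw [Finset.mem_Icc] at hn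
  apply Differentiable.const_mul
  intro z
  have : (n : ℂ) ≠ 0 := by
    have : n ≠ 0 := by omega
    exact_mod_cast this
  exact differentiableAt_id.neg.const_cpow (Or.inl this)

lemma QQ_EG (φ : ℝ → ℝ) (T : ℝ) (a b : ℝ) : Afe.EG a b (QQ φ T) := by
  unfold QQ
  apply Afe.EG.sum
  intro n hn
  rw [Finset.mem_Icc] at hn
  apply (Afe.EG.const a b _).mul
  refine Afe.EG.of_le (M := (n : ℝ) ^ (-a)) fun w h1 h2 => ?_
  rw [norm_natCast_cpow_of_pos (by omega), neg_re]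
  have : (1 : ℝ) ≤ n := by exact_mod_cast hn.1
  exact Real.rpow_le_rpow_of_exponent_le this (by linarith)

lemma QQ_bound (φ : ℝ → ℝ) (T a : ℝ) : ∃ M : ℝ, 0 ≤ M ∧ ∀ w : ℂ, a ≤ w.re → ‖QQ φ T w‖ ≤ M := by
  refine ⟨∑ n ∈ Finset.Icc 1 ⌊T⌋₊, |φ (Real.log n / Real.log T)| * (n : ℝ) ^ (-a),
    Finset.sum_nonneg fun n _ => by positivity, fun w hw => ?_⟩
  unfold QQ
  refine (norm_sum_le _ _).trans (Finset.sum_le_sum fun n hn => ?_)
  rw [Finset.mem_Icc] at hn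
  have hn1 : (1 : ℝ) ≤ n := by exact_mod_cast hn.1
  rw [norm_mul, norm_natCast_cpow_of_pos (by omega), neg_re, norm_real, Real.norm_eq_abs]
  gcongr

lemma zeta_sub_QQ {δ T : ℝ} (hδ : 0 < δ) (hδ1 : δ ≤ 1 / 2) (hT : 1 < T) {z : ℂ}
    (hz : 2 ≤ z.re) : ‖riemannZeta z - QQ (Pc δ) T z‖ ≤
      2 * Real.exp (-((1 / 2 + δ) * (z.re - 2)) * Real.log T) := by
  have hT0 : 0 < T := by linarith
  have hL : 0 < Real.log T := Real.log_pos hT
  set q : ℕ → ℂ := fun n => if n ∈ Finset.Icc 1 ⌊T⌋₊ then (Pc δ (Real.log n / Real.log T) : ℂ)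
    else 0 with hq
  have h1 : QQ (Pc δ) T z = ∑' n : ℕ, q n * (n : ℂ) ^ (-z) := by
    rw [tsum_eq_sum (s := Finset.Icc 1 ⌊T⌋₊)]
    · unfold QQ
      refine Finset.sum_congr rfl fun n hn => ?_
      rw [hq]
      simp only [if_pos hn]
    · intro n hn
      rw [hq]
      simp only [if_neg hn, zero_mul]
  have hs1 : Summable fun n : ℕ => q n * (n : ℂ) ^ (-z) := by
    refine summable_of_ne_finset_zero (s := Finset.Icc 1 ⌊T⌋₊) fun n hn => ?_
    rw [hq]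
    simp only [if_neg hn, zero_mul]
  have hs2 : Summable fun n : ℕ => (if n = 0 then 0 else 1) * (n : ℂ) ^ (-z) :=
    (dir_tail (c := fun n : ℕ => if n = 0 then 0 else 1) (N := 1) (z := z) le_rfl hz
    (by intro n; split_ifs <;> simp) (by
      intro n hn
      have : n = 0 := by
        have : (n : ℝ) < 1 := hn
        have : n < 1 := by exact_mod_cast this
        omega
      simp [this])).1
  have h2 : riemannZeta z - QQ (Pc δ) T z =
      ∑' n : ℕ, ((if n = 0 then 0 else 1) - q n) * (n : ℂ) ^ (-z) := by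
    rw [zeta_tsum hz, h1, ← hs2.tsum_sub hs1]
    refine tsum_congr fun n => ?_
    rw [sub_mul]
  rw [h2]
  have hN : 1 ≤ T ^ (1 / 2 + δ : ℝ) := Real.one_le_rpow hT.le (by linarith)
  refine (dir_tail hN hz (c := fun n : ℕ => (if n = 0 then 0 else 1) - q n) ?_ ?_).2.trans ?_
  · intro n
    by_cases hn : n = 0
    · subst hn
      rw [hq]
      simp
    · by_cases hm : n ∈ Finset.Icc 1 ⌊T⌋₊
      · rw [hq]
        simp only [if_neg hn, if_pos hm]
        have h3 : (1 : ℂ) - (Pc δ (Real.log n / Real.log T) : ℂ) =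
          ((1 - Pc δ (Real.log n / Real.log T) : ℝ) : ℂ) := by push_cast; rfl
        rw [h3, norm_real, Real.norm_eq_abs,
          abs_of_nonneg (by linarith [Pc_le_one δ (Real.log n / Real.log T)])]
        linarith [Pc_nonneg δ (Real.log n / Real.log T)]
      · rw [hq]
        simp only [if_neg hn, if_neg hm]
        simp
  · intro n hn
    by_cases hn0 : n = 0
    · subst hn0
      rw [hq]
      simp
    · have hnpos : 0 < n := Nat.pos_of_ne_zero hn0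
      have hn1 : (1 : ℝ) ≤ n := by exact_mod_cast hnpos
      have hlog : Real.log n ≤ (1 / 2 + δ) * Real.log T := by
        rw [← Real.log_rpow hT0]
        exact Real.log_le_log (by linarith) hn.le
      have hnT : (n : ℝ) ≤ T := by
        refine hn.le.trans ?_
        calc T ^ (1 / 2 + δ : ℝ) ≤ T ^ (1 : ℝ) :=
              Real.rpow_le_rpow_of_exponent_le hT.le (by linarith)
          _ = T := Real.rpow_one T
      have hm : n ∈ Finset.Icc 1 ⌊T⌋₊ := by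
        rw [Finset.mem_Icc]
        exact ⟨hnpos, Nat.le_floor hnT⟩
      rw [hq]
      simp only [if_neg hn0, if_pos hm]
      rw [Pc_one hδ]
      · simp
      · have : 0 ≤ Real.log n / Real.log T := div_nonneg (Real.log_nonneg hn1) hL.le
        linarith
      · rw [div_le_iff₀ hL]
        exact hlog
  · rw [← Real.rpow_mul hT0.le, Real.rpow_def_of_pos hT0]
    apply le_of_eq
    congr 2
    ring

/-- the short sum to the left -/
lemma Qb_bound {δ T : ℝ} (hδ : 0 < δ) (hδ1 : δ ≤ 1 / 2) (hT : 1 < T) {z : ℂ} {b : ℝ}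
    (hb : 0 ≤ b) (hz : z.re = -b) : ‖QQ (Pb δ) T z‖ ≤
      Real.exp (Real.log T + (1 / 2 - δ) * b * Real.log T) := by
  have hT0 : 0 < T := by linarith
  have hL : 0 < Real.log T := Real.log_pos hT
  unfold QQ
  have hterm : ∀ n ∈ Finset.Icc 1 ⌊T⌋₊,
      ‖(Pb δ (Real.log n / Real.log T) : ℂ) * (n : ℂ) ^ (-z)‖ ≤
        Real.exp ((1 / 2 - δ) * b * Real.log T) := by
    intro n hn
    rw [Finset.mem_Icc] at hn
    have hn1 : (1 : ℝ) ≤ n := by exact_mod_cast hn.1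
    rw [norm_mul, norm_natCast_cpow_of_pos (by omega), neg_re, hz, neg_neg, norm_real,
      Real.norm_eq_abs, abs_of_nonneg (Pb_nonneg' _ _)]
    rcases le_total (1 / 2 - δ) (Real.log n / Real.log T) with h | h
    · rw [Pb_zero' hδ h, zero_mul]
      positivity
    · rw [div_le_iff₀ hL] at h
      calc Pb δ (Real.log n / Real.log T) * (n : ℝ) ^ b ≤ 1 * (n : ℝ) ^ b := by
            gcongr
            exact Pb_le_one' _ _
        _ = Real.exp (Real.log n * b) := by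
            rw [one_mul, Real.rpow_def_of_pos (by linarith)]
        _ ≤ _ := by
            apply Real.exp_le_exp.2
            nlinarith
  refine (norm_sum_le _ _).trans ((Finset.sum_le_sum hterm).trans ?_)
  rw [Finset.sum_const, Nat.card_Icc, nsmul_eq_mul, Real.exp_add, Real.exp_log hT0]
  gcongr
  simpa using Nat.floor_le hT0.le

/-- the bump polynomial on the line `Re w = 1 / (δ log T)` -/
lemma QQ_bump {δ T : ℝ} (hδ : 0 < δ) (hT : 1 < T) (t v : ℝ) :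
    ((Real.exp (1 / (2 * δ)) : ℝ) : ℂ) *
      QQ (fD δ) T (1 / 2 + t * I + (((1 / (δ * Real.log T) : ℝ) : ℂ) + v * I)) =
    ∑ n ∈ Finset.Icc 1 ⌊T⌋₊, qg (fB δ) T v n * fs (1 / 2 + t * I) n := by
  have hL : 0 < Real.log T := Real.log_pos hT
  unfold QQ qg fs
  rw [Finset.mul_sum]
  refine Finset.sum_congr rfl fun n hn => ?_
  rw [Finset.mem_Icc] at hn
  have hn0 : (n : ℂ) ≠ 0 := by
    have : n ≠ 0 := by omega
    exact_mod_cast this
  set x : ℝ := Real.log n / Real.log T with hx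
  have hlog : Real.log n = x * Real.log T := by
    rw [hx]
    field_simp
  rw [cpow_def_of_ne_zero hn0, cpow_def_of_ne_zero hn0, cpow_def_of_ne_zero hn0,
    ← natCast_log, hlog]
  unfold fB
  rw [show Pc δ x - Pb δ x = fD δ x from rfl]
  push_cast
  have hLc : (Real.log T : ℂ) ≠ 0 := by exact_mod_cast hL.ne'
  have hδc : (δ : ℂ) ≠ 0 := by exact_mod_cast hδ.ne'
  have e1 : cexp (1 / (2 * δ)) * cexp (x * Real.log T *
      -(1 / 2 + t * I + (1 / (δ * Real.log T) + v * I))) =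
      cexp (x + (1 / 2 - x) / δ) * (cexp (x * Real.log T * -(1 / Real.log T + v * I)) *
        cexp (x * Real.log T * -(1 / 2 + t * I))) := by
    rw [← Complex.exp_add, ← Complex.exp_add, ← Complex.exp_add]
    congr 1
    field_simp
    ring
  linear_combination (fD δ x : ℂ) * e1

/-! ### The factor that removes the poles -/

/-- removes the poles of the factor of the functional equation -/
noncomputable def P2 (r : ℕ) (s w : ℂ) : ℂ := ∏ n ∈ Finset.range (2 * r), (1 + w / (s - 1 - n))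

/-- the full factor -/
noncomputable def PP (r : ℕ) (s w : ℂ) : ℂ := (s + w - 1) / (s - 1) * P2 r s w

lemma P2_zero (r : ℕ) (s : ℂ) : P2 r s 0 = 1 := by simp [P2]

lemma PP_zero {r : ℕ} {s : ℂ} (hs : s - 1 ≠ 0) : PP r s 0 = 1 := by
  rw [PP, P2_zero, add_zero, div_self hs, mul_one]

lemma P2_diff (r : ℕ) (s : ℂ) : Differentiable ℂ (P2 r s) := by
  unfold P2
  apply Differentiable.fun_finsetProd
  intro n _
  fun_prop

lemma PP_diff (r : ℕ) (s : ℂ) : Differentiable ℂ (PP r s) := by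
  unfold PP
  exact Differentiable.mul (by fun_prop) (P2_diff r s)

lemma EG_prod {a b : ℝ} {ι : Type*} (S : Finset ι) {h : ι → ℂ → ℂ}
    (h1 : ∀ i ∈ S, Afe.EG a b (h i)) : Afe.EG a b (fun w => ∏ i ∈ S, h i w) := by
  classical
  induction S using Finset.induction_on with
  | empty => simpa using Afe.EG.const a b 1
  | insert i S hi ih =>
    have h2 := (h1 i (Finset.mem_insert_self i S)).mul
      (ih fun j hj => h1 j (Finset.mem_insert_of_mem hj))
    refine h2.congr fun w _ _ => by rw [Finset.prod_insert hi]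

lemma P2_EG (r : ℕ) (s : ℂ) (a b : ℝ) : Afe.EG a b (P2 r s) := by
  unfold P2
  apply EG_prod
  intro n _
  have h1 : Afe.EG a b fun w : ℂ => 1 + w * (s - 1 - n)⁻¹ :=
    (Afe.EG.const a b 1).add ((Afe.EG.id a b).mul (Afe.EG.const a b _))
  exact h1.congr fun w _ _ => by rw [div_eq_mul_inv]

lemma PP_EG (r : ℕ) (s : ℂ) (a b : ℝ) : Afe.EG a b (PP r s) := by
  unfold PP
  apply Afe.EG.mul _ (P2_EG r s a b)
  have h1 : Afe.EG a b fun w : ℂ => (s + w - 1) * (s - 1)⁻¹ :=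
    (((Afe.EG.const a b s).add (Afe.EG.id a b)).sub (Afe.EG.const a b 1)).mul
      (Afe.EG.const a b _)
  exact h1.congr fun w _ _ => by rw [div_eq_mul_inv]

lemma im_le {s : ℂ} {t : ℝ} (ht : 0 ≤ t) (hs : s.im = t) (n : ℕ) : t ≤ ‖s - 1 - n‖ := by
  have := abs_im_le_norm (s - 1 - n)
  rw [sub_im, sub_im, hs, one_im, natCast_im, sub_zero, sub_zero, abs_of_nonneg ht] at this
  exact this

lemma P2_norm {r : ℕ} {s : ℂ} {t : ℝ} (ht : 0 < t) (hs : s.im = t) (hr : 2 * (r : ℝ) ≤ t) (w : ℂ) :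
    ‖P2 r s w‖ ≤ Real.exp ‖w‖ := by
  unfold P2
  rw [norm_prod]
  have h1 : ∀ n ∈ Finset.range (2 * r), ‖1 + w / (s - 1 - n)‖ ≤ Real.exp (‖w‖ / t) := by
    intro n _
    have h2 := im_le ht.le hs n
    calc ‖1 + w / (s - 1 - n)‖ ≤ ‖(1 : ℂ)‖ + ‖w / (s - 1 - n)‖ := norm_add_le _ _
      _ = 1 + ‖w‖ / ‖s - 1 - n‖ := by rw [norm_one, norm_div]
      _ ≤ 1 + ‖w‖ / t := by gcongr
      _ ≤ _ := by linarith [Real.add_one_le_exp (‖w‖ / t)]
  refine (Finset.prod_le_prod (fun _ _ => norm_nonneg _) h1).trans ?_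
  rw [Finset.prod_const, Finset.card_range, ← Real.exp_nat_mul]
  apply Real.exp_le_exp.2
  rw [mul_div_assoc', div_le_iff₀ ht]
  push_cast
  have := norm_nonneg w
  nlinarith

lemma P1_norm {s : ℂ} {t : ℝ} (ht : 1 ≤ t) (hs : s.im = t) (w : ℂ) :
    ‖(s + w - 1) / (s - 1)‖ ≤ Real.exp ‖w‖ := by
  have h1 : 1 ≤ ‖s - 1‖ := by
    have := im_le (by linarith : 0 ≤ t) hs 0
    simp only [Nat.cast_zero, sub_zero] at this
    linarith
  refine (F4.Afe.norm_p h1).trans ?_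
  linarith [Real.add_one_le_exp ‖w‖]

lemma PP_norm {r : ℕ} {s : ℂ} {t : ℝ} (ht : 1 ≤ t) (hs : s.im = t) (hr : 2 * (r : ℝ) ≤ t) (w : ℂ) :
    ‖PP r s w‖ ≤ Real.exp (2 * ‖w‖) := by
  unfold PP
  rw [norm_mul, two_mul, Real.exp_add]
  exact mul_le_mul (P1_norm ht hs w) (P2_norm (by linarith) hs hr w) (norm_nonneg _)
    (Real.exp_pos _).le

lemma FF_add_even {z : ℂ} (hz : 0 < z.re) (r : ℕ) :
    FF (z + 2 * r) = FF z * ((-1 / (2 * Real.pi) ^ 2) ^ r * ∏ n ∈ Finset.range (2 * r), (z + n)) := by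
  have hne : ∀ n : ℕ, z + n ≠ 0 := by
    intro n h
    have := congrArg re h
    rw [add_re, natCast_re, zero_re] at this
    have : (0 : ℝ) ≤ n := Nat.cast_nonneg n
    linarith
  induction r with
  | zero => simp
  | succ r ih =>
    have e : z + 2 * ((r + 1 : ℕ) : ℂ) = (z + 2 * r) + 2 := by
      push_cast
      ring
    have h0 : z + 2 * (r : ℂ) ≠ 0 := by
      have := hne (2 * r)
      push_cast at this
      exact this
    have h1 : z + 2 * (r : ℂ) + 1 ≠ 0 := by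
      have := hne (2 * r + 1)
      push_cast at this
      rwa [← add_assoc] at this
    rw [e, F4.FFr.FF_add_two h0 h1, ih, show 2 * (r + 1) = 2 * r + 1 + 1 by ring,
      Finset.prod_range_succ, Finset.prod_range_succ]
    push_cast
    ring

/-- the constant -/
noncomputable def cc (r : ℕ) (s : ℂ) : ℂ :=
  (-(2 * Real.pi) ^ 2) ^ r * (∏ n ∈ Finset.range (2 * r), (s - 1 - n))⁻¹

lemma P2_FF {r : ℕ} {s z w : ℂ} (hs : ∀ n : ℕ, s - 1 - n ≠ 0) (hz : 0 < z.re)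
    (hzw : z = 1 - s + w) : FF z * P2 r s (-w) = cc r s * FF (z + 2 * r) := by
  have h1 : P2 r s (-w) = (∏ n ∈ Finset.range (2 * r), (z + n)) *
      (∏ n ∈ Finset.range (2 * r), (s - 1 - n))⁻¹ := by
    unfold P2
    have h2 : ∀ n ∈ Finset.range (2 * r), (1 + -w / (s - 1 - n) : ℂ) =
        (-1) * (z + n) * (s - 1 - n)⁻¹ := by
      intro n _
      have := hs n
      rw [hzw]
      field_simp
      ring
    rw [Finset.prod_congr rfl h2, Finset.prod_mul_distrib, Finset.prod_mul_distrib,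
      Finset.prod_const, Finset.card_range, pow_mul, neg_one_sq, one_pow, one_mul,
      Finset.prod_inv_distrib]
  have hpi : (2 * Real.pi : ℂ) ^ 2 ≠ 0 := pow_ne_zero _ two_pi_ne
  have h3 : (-(2 * Real.pi : ℂ) ^ 2) ^ r * (-1 / (2 * Real.pi : ℂ) ^ 2) ^ r = 1 := by
    rw [← mul_pow]
    have : (-(2 * Real.pi : ℂ) ^ 2) * (-1 / (2 * Real.pi : ℂ) ^ 2) = 1 := by
      field_simp
    rw [this, one_pow]
  rw [h1, FF_add_even hz, cc]
  linear_combination (-(FF z * (∏ n ∈ Finset.range (2 * r), (z + n)) *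
      (∏ n ∈ Finset.range (2 * r), (s - 1 - n))⁻¹)) * h3

lemma cc_norm {r : ℕ} {s : ℂ} {t : ℝ} (ht : 0 < t) (hs : s.im = t) :
    ‖cc r s‖ ≤ (2 * Real.pi) ^ (2 * r) * (t ^ (2 * r))⁻¹ := by
  unfold cc
  rw [norm_mul, norm_pow, norm_neg, norm_pow, norm_inv, norm_prod, ← pow_mul]
  have h5 : ‖(2 * Real.pi : ℂ)‖ = 2 * Real.pi := by
    rw [norm_mul, Complex.norm_real, Real.norm_eq_abs, abs_of_pos Real.pi_pos]
    simp
  rw [h5]
  have h6 : t ^ (2 * r) ≤ ∏ n ∈ Finset.range (2 * r), ‖s - 1 - n‖ := by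
    calc t ^ (2 * r) = ∏ n ∈ Finset.range (2 * r), t := by
          rw [Finset.prod_const, Finset.card_range]
      _ ≤ _ := Finset.prod_le_prod (fun _ _ => ht.le) fun n _ => im_le ht.le hs n
  gcongr

/-! ### Bounds on the two lines -/

lemma gauss_exp (m v : ℝ) : Real.exp (-2 * v ^ 2) * Real.exp (m * |v|) ≤
    Real.exp (m ^ 2 / 4) * Real.exp (-v ^ 2) := by
  rw [← Real.exp_add, ← Real.exp_add]
  apply Real.exp_le_exp.2
  have := sq_nonneg (m / 2 - |v|)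
  have h2 := sq_abs v
  nlinarith

lemma pow_le_exp_abs (j : ℕ) (v : ℝ) : (1 + |v|) ^ j ≤ Real.exp (j * |v|) := by
  have h1 : 1 + |v| ≤ Real.exp |v| := by linarith [Real.add_one_le_exp |v|]
  calc (1 + |v|) ^ j ≤ (Real.exp |v|) ^ j := by gcongr
    _ = Real.exp (j * |v|) := by rw [← Real.exp_nat_mul]

/-- The two kernels on the line `Re w = 1 / (δ L)`. -/
lemma gi_line2 {L δ κ : ℝ} {K : ℕ} (hδ : 0 < δ) (hK : 0 < K) (hL : 0 < L)
    (hκ : κ = δ / (4 * K)) (v : ℝ) :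
    ‖gi L κ K ((1 / (δ * L) : ℝ) + v * I)‖ ≤ Real.exp (1 / (2 * δ)) *
      (Real.exp (1 / 4) * (16 * K) ^ K * ((1 + δ * L * |v|) ^ K)⁻¹) ∧
    ‖gi L κ K (-((1 / (δ * L) : ℝ) + v * I))‖ ≤ Real.exp (-(1 / (2 * δ))) *
      (Real.exp (1 / 4) * (16 * K) ^ K * ((1 + δ * L * |v|) ^ K)⁻¹) := by
  have hK0 : (0 : ℝ) < K := by exact_mod_cast hK
  have hK1 : (1 : ℝ) ≤ K := by exact_mod_cast hK
  have hκ0 : 0 < κ := by rw [hκ]; positivity
  set w : ℂ := ((1 / (δ * L) : ℝ) : ℂ) + v * I with hw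
  have hre : w.re = 1 / (δ * L) := by simp [hw]
  have him : w.im = v := by simp [hw]
  have hn : |v| ≤ ‖w‖ := by
    have := abs_im_le_norm w
    rwa [him] at this
  have h1 : (1 + δ * L * |v|) / (4 * K) ≤ 1 + κ * L * ‖w‖ := by
    have h2 : κ * L * |v| ≤ κ * L * ‖w‖ := by gcongr
    have h3 : (1 + δ * L * |v|) / (4 * K) = 1 / (4 * K) + κ * L * |v| := by
      rw [hκ]
      field_simp
    have h4 : 1 / (4 * (K : ℝ)) ≤ 1 := by
      rw [div_le_one (by positivity)]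
      linarith
    linarith
  have h2 : 0 < 1 + δ * L * |v| := by positivity
  have hpow : ∀ y : ℝ, y ≤ 1 / (4 * K) → (4 * Real.exp y / (1 + κ * L * ‖w‖)) ^ K ≤
      Real.exp (1 / 4) * (16 * K) ^ K * ((1 + δ * L * |v|) ^ K)⁻¹ := by
    intro y hy
    have h3 : 4 * Real.exp y / (1 + κ * L * ‖w‖) ≤
        Real.exp (1 / (4 * K)) * (16 * K) * (1 + δ * L * |v|)⁻¹ := by
      calc 4 * Real.exp y / (1 + κ * L * ‖w‖)
          ≤ 4 * Real.exp (1 / (4 * K)) / ((1 + δ * L * |v|) / (4 * K)) := by gcongr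
        _ = _ := by
          field_simp
          ring
    have h0 : 0 ≤ 4 * Real.exp y / (1 + κ * L * ‖w‖) := by positivity
    refine (pow_le_pow_left₀ h0 h3 K).trans (le_of_eq ?_)
    rw [mul_pow, mul_pow, inv_pow, ← Real.exp_nat_mul]
    congr 3
    field_simp
  constructor
  · refine (gi_norm L κ K w hL.le hκ0.le).trans ?_
    rw [hre, max_eq_left (by positivity)]
    have e1 : L * (1 / (δ * L)) / 2 = 1 / (2 * δ) := by field_simp
    have e2 : κ * L * (1 / (δ * L)) = 1 / (4 * K) := by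
      rw [hκ]
      field_simp
    rw [e1, e2]
    have := hpow (1 / (4 * K)) le_rfl
    gcongr
  · refine (gi_norm L κ K (-w) hL.le hκ0.le).trans ?_
    rw [neg_re, hre, norm_neg]
    have e0 : max (-(1 / (δ * L))) 0 = 0 := max_eq_right (by
      have : 0 < 1 / (δ * L) := by positivity
      linarith)
    rw [e0, mul_zero]
    have e1 : L * -(1 / (δ * L)) / 2 = -(1 / (2 * δ)) := by field_simp
    rw [e1]
    have := hpow 0 (by positivity)
    gcongr

lemma main2 {Λ q v D E : ℝ} {K : ℕ} {F G g w : ℂ} (hΛ : 1 ≤ Λ)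
    (hw : w = ((1 / Λ : ℝ) : ℂ) + v * I) (hq : 0 ≤ q) (hE : 0 ≤ E) (hD : 0 ≤ D)
    (hG : ‖G‖ ≤ Real.exp (2 * ‖w‖))
    (hFg : ‖F‖ * ‖g‖ ≤ D * (1 + |v|) * q * (E * ((1 + Λ * |v|) ^ K)⁻¹)) :
    ‖cexp (2 * w ^ 2) * (F * G * g) * w⁻¹‖ ≤
      (Real.exp 2 * Real.exp 2 * Real.exp (9 / 4) * D * E) * (aw Λ K v * q) := by
  have hΛ0 : 0 < Λ := by linarith
  have hre : w.re = 1 / Λ := by rw [hw]; simp
  have him : w.im = v := by rw [hw]; simp
  have h1L : 1 / Λ ≤ 1 := by rw [div_le_one hΛ0]; exact hΛ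
  have h1L0 : 0 < 1 / Λ := by positivity
  have hwn : ‖w‖ ≤ 1 + |v| := by
    have := norm_le_abs_re_add_abs_im w
    rw [hre, him, abs_of_pos h1L0] at this
    linarith
  have hwn2 : 1 / Λ ≤ ‖w‖ := by
    have := abs_re_le_norm w
    rwa [hre, abs_of_pos h1L0] at this
  have hinv : ‖w⁻¹‖ ≤ Λ := by
    rw [norm_inv]
    calc ‖w‖⁻¹ ≤ (1 / Λ)⁻¹ := by gcongr
      _ = Λ := by rw [one_div, inv_inv]
  have he : ‖cexp (2 * w ^ 2)‖ ≤ Real.exp 2 * Real.exp (-2 * v ^ 2) := by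
    rw [hw, norm_exp_line]
    gcongr
    have : (1 / Λ) ^ 2 ≤ 1 := pow_le_one₀ h1L0.le h1L
    linarith
  have hG' : ‖G‖ ≤ Real.exp 2 * Real.exp (2 * |v|) := by
    refine hG.trans ?_
    rw [← Real.exp_add]
    exact Real.exp_le_exp.2 (by linarith)
  have hv : 1 + |v| ≤ Real.exp |v| := by linarith [Real.add_one_le_exp |v|]
  have hg3 := gauss_exp 3 v
  set R : ℝ := ((1 + Λ * |v|) ^ K)⁻¹ with hR
  have hR0 : 0 ≤ R := by positivity
  rw [norm_mul, norm_mul, norm_mul, norm_mul]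
  calc ‖cexp (2 * w ^ 2)‖ * (‖F‖ * ‖G‖ * ‖g‖) * ‖w⁻¹‖
      = ‖cexp (2 * w ^ 2)‖ * ((‖F‖ * ‖g‖) * ‖G‖) * ‖w⁻¹‖ := by ring
    _ ≤ (Real.exp 2 * Real.exp (-2 * v ^ 2)) * ((D * (Real.exp |v|) * q * (E * R)) *
        (Real.exp 2 * Real.exp (2 * |v|))) * Λ := by
        have : ‖F‖ * ‖g‖ ≤ D * Real.exp |v| * q * (E * R) := hFg.trans (by gcongr)
        gcongr
    _ = (Real.exp 2 * Real.exp 2 * D * E) * (Λ * R * q) *
        (Real.exp (-2 * v ^ 2) * (Real.exp (2 * |v|) * Real.exp |v|)) := by ring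
    _ = (Real.exp 2 * Real.exp 2 * D * E) * (Λ * R * q) *
        (Real.exp (-2 * v ^ 2) * Real.exp (3 * |v|)) := by
        rw [← Real.exp_add (2 * |v|)]
        congr 3
        ring
    _ ≤ (Real.exp 2 * Real.exp 2 * D * E) * (Λ * R * q) *
        (Real.exp (3 ^ 2 / 4) * Real.exp (-v ^ 2)) := by gcongr
    _ = _ := by
        unfold aw
        rw [show (3 : ℝ) ^ 2 / 4 = 9 / 4 by norm_num]
        ring

lemma tail2 {B v ρ γ : ℝ} {R G g w : ℂ} (hB : 1 ≤ B) (hw : w = (B : ℂ) + v * I) {j : ℕ}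
    (hρ : 0 ≤ ρ) (hR : ‖R‖ ≤ ρ * (1 + |v|) ^ j) (hg : ‖g‖ ≤ γ)
    (hG : ‖G‖ ≤ Real.exp (2 * ‖w‖)) :
    ‖cexp (2 * w ^ 2) * (R * G * g) * w⁻¹‖ ≤
      (Real.exp (2 * B ^ 2) * Real.exp (2 * B) * Real.exp (((j : ℝ) + 2) ^ 2 / 4)) * (ρ * γ) *
        Real.exp (-1 * v ^ 2) := by
  have hγ : 0 ≤ γ := (norm_nonneg g).trans hg
  have hB0 : 0 < B := by linarith
  have hre : w.re = B := by rw [hw]; simp
  have him : w.im = v := by rw [hw]; simp
  have hwn : ‖w‖ ≤ B + |v| := by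
    have := norm_le_abs_re_add_abs_im w
    rwa [hre, him, abs_of_pos hB0] at this
  have hwn2 : B ≤ ‖w‖ := by
    have := abs_re_le_norm w
    rwa [hre, abs_of_pos hB0] at this
  have hinv : ‖w⁻¹‖ ≤ 1 := by
    rw [norm_inv]
    exact inv_le_one_of_one_le₀ (hB.trans hwn2)
  have he : ‖cexp (2 * w ^ 2)‖ ≤ Real.exp (2 * B ^ 2) * Real.exp (-2 * v ^ 2) := by
    rw [hw, norm_exp_line]
  have hG' : ‖G‖ ≤ Real.exp (2 * B) * Real.exp (2 * |v|) := by
    refine hG.trans ?_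
    rw [← Real.exp_add]
    exact Real.exp_le_exp.2 (by linarith)
  have hv := pow_le_exp_abs j v
  have hg3 := gauss_exp ((j : ℝ) + 2) v
  rw [norm_mul, norm_mul, norm_mul, norm_mul]
  calc ‖cexp (2 * w ^ 2)‖ * (‖R‖ * ‖G‖ * ‖g‖) * ‖w⁻¹‖
      ≤ (Real.exp (2 * B ^ 2) * Real.exp (-2 * v ^ 2)) * ((ρ * Real.exp (j * |v|)) *
        (Real.exp (2 * B) * Real.exp (2 * |v|)) * γ) * 1 := by
        have : ‖R‖ ≤ ρ * Real.exp (j * |v|) := hR.trans (by gcongr)
        gcongr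
    _ = (Real.exp (2 * B ^ 2) * Real.exp (2 * B) * (ρ * γ)) *
        (Real.exp (-2 * v ^ 2) * (Real.exp (j * |v|) * Real.exp (2 * |v|))) := by ring
    _ = (Real.exp (2 * B ^ 2) * Real.exp (2 * B) * (ρ * γ)) *
        (Real.exp (-2 * v ^ 2) * Real.exp (((j : ℝ) + 2) * |v|)) := by
        rw [← Real.exp_add (j * |v|)]
        congr 3
        ring
    _ ≤ (Real.exp (2 * B ^ 2) * Real.exp (2 * B) * (ρ * γ)) *
        (Real.exp (((j : ℝ) + 2) ^ 2 / 4) * Real.exp (-v ^ 2)) := by gcongr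
    _ = _ := by
        rw [show (-1 : ℝ) * v ^ 2 = -v ^ 2 by ring]
        ring

lemma FF_line2 {L δ t v : ℝ} (hδ : 0 < δ) (hΛ : 1 ≤ δ * L) (ht : 0 ≤ t)
    (ht2 : 1 + t ≤ 2 * Real.exp ((1 + δ / 4) * L)) :
    ‖FF (1 - (1 / 2 + t * I) + (((1 / (δ * L) : ℝ) : ℂ) + v * I))‖ ≤
      (2 * Real.exp (9 / 4) * Real.exp (1 / 4)) * Real.exp (1 / δ) * (1 + |v|) := by
  have hL0 : 0 < δ * L := by linarith
  have hL : 0 < L := by
    by_contra h
    push Not at h
    nlinarith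
  set x : ℝ := 1 / (δ * L) with hx
  have h1L : x ≤ 1 := by rw [hx, div_le_one hL0]; exact hΛ
  have h1L0 : 0 < x := by positivity
  have h1 := FF_bound h1L0.le h1L (v - t)
  have e : (1 - (1 / 2 + t * I) + ((x : ℂ) + v * I) : ℂ) =
      ((1 / 2 + x : ℝ) : ℂ) + ((v - t : ℝ) : ℂ) * I := by
    push_cast
    ring
  rw [e]
  refine h1.trans ?_
  have h2 : 1 + |v - t| ≤ (1 + t) * (1 + |v|) := by
    have h3 : |v - t| ≤ |v| + t := by
      have := abs_sub v t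
      rwa [abs_of_nonneg ht] at this
    have := abs_nonneg v
    nlinarith
  have h3 : (1 + |v - t|) ^ x ≤ 2 * (Real.exp (1 / 4) * Real.exp (1 / δ)) * (1 + |v|) := by
    calc (1 + |v - t|) ^ x ≤ ((2 * Real.exp ((1 + δ / 4) * L)) * (1 + |v|)) ^ x := by
          apply Real.rpow_le_rpow (by positivity) _ h1L0.le
          refine h2.trans ?_
          gcongr
      _ = 2 ^ x * Real.exp ((1 + δ / 4) * L) ^ x * (1 + |v|) ^ x := by
          rw [Real.mul_rpow (by positivity) (by positivity),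
            Real.mul_rpow (by positivity) (by positivity)]
      _ ≤ 2 ^ (1 : ℝ) * (Real.exp (1 / 4) * Real.exp (1 / δ)) * (1 + |v|) ^ (1 : ℝ) := by
          have e1 : Real.exp ((1 + δ / 4) * L) ^ x = Real.exp (1 / 4) * Real.exp (1 / δ) := by
            rw [← Real.exp_mul, ← Real.exp_add]
            congr 1
            rw [hx]
            field_simp
            ring
          rw [e1]
          gcongr
          · norm_num
          · linarith [abs_nonneg v]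
      _ = _ := by rw [Real.rpow_one, Real.rpow_one]
  calc Real.exp (9 / 4) * (1 + |v - t|) ^ x
      ≤ Real.exp (9 / 4) * (2 * (Real.exp (1 / 4) * Real.exp (1 / δ)) * (1 + |v|)) := by gcongr
    _ = _ := by ring

/-- the context -/
structure Cx (r K : ℕ) (δ κ B T L t : ℝ) (s : ℂ) : Prop where
  hδ : 0 < δ
  hδ1 : δ ≤ 1 / 2000
  hK : 0 < K
  hκ : κ = δ / (4 * K)
  hr : B = 2 * (r : ℝ)
  hB : 4 ≤ δ * B
  hT : 3 ≤ T
  hL : L = Real.log T
  hΛ : 1 ≤ δ * L
  ht : B ≤ t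
  ht1 : Real.exp ((1 - δ / 4) * L) ≤ t
  ht2 : t ≤ Real.exp ((1 + δ / 4) * L)
  hs : s = 1 / 2 + t * I

namespace Cx

variable {r K : ℕ} {δ κ B T L t : ℝ} {s : ℂ}

lemma L0 (c : Cx r K δ κ B T L t s) : 0 < L := by
  rw [c.hL]
  exact Real.log_pos (by linarith [c.hT])

lemma κ0 (c : Cx r K δ κ B T L t s) : 0 < κ := by
  have h1 := c.hδ
  have h2 : (0 : ℝ) < K := by exact_mod_cast c.hK
  rw [c.hκ]
  positivity

lemma κK (c : Cx r K δ κ B T L t s) : κ * K = δ / 4 := by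
  have h2 : (0 : ℝ) < K := by exact_mod_cast c.hK
  rw [c.hκ]
  field_simp

lemma B1 (c : Cx r K δ κ B T L t s) : 8000 ≤ B := by
  have h1 := c.hδ
  have h2 := c.hδ1
  have h3 := c.hB
  by_contra h
  push Not at h
  nlinarith

lemma t1 (c : Cx r K δ κ B T L t s) : 1 ≤ t := by linarith [c.B1, c.ht]

lemma sre (c : Cx r K δ κ B T L t s) : s.re = 1 / 2 := by simp [c.hs]

lemma sim (c : Cx r K δ κ B T L t s) : s.im = t := by simp [c.hs]

lemma sne (c : Cx r K δ κ B T L t s) (n : ℕ) : s - 1 - n ≠ 0 := by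
  intro h
  have h1 := im_le (by linarith [c.t1] : 0 ≤ t) c.sim n
  rw [h, norm_zero] at h1
  linarith [c.t1]

lemma s1 (c : Cx r K δ κ B T L t s) : s - 1 ≠ 0 := by
  have := c.sne 0
  simpa using this

lemma PPn (c : Cx r K δ κ B T L t s) (w : ℂ) : ‖PP r s w‖ ≤ Real.exp (2 * ‖w‖) :=
  PP_norm c.t1 c.sim (by rw [← c.hr]; exact c.ht) w

lemma PPn' (c : Cx r K δ κ B T L t s) (w : ℂ) : ‖PP r s (-w)‖ ≤ Real.exp (2 * ‖w‖) := by
  have := c.PPn (-w)
  rwa [norm_neg] at this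

lemma P1n (c : Cx r K δ κ B T L t s) (w : ℂ) : ‖(s + w - 1) / (s - 1)‖ ≤ Real.exp (2 * ‖w‖) := by
  refine (P1_norm c.t1 c.sim w).trans (Real.exp_le_exp.2 ?_)
  linarith [norm_nonneg w]

lemma tT (c : Cx r K δ κ B T L t s) : 1 + t ≤ 2 * Real.exp ((1 + δ / 4) * L) := by
  have h1 := c.hδ
  have h2 := c.L0
  have h3 : 1 ≤ Real.exp ((1 + δ / 4) * L) := Real.one_le_exp (by positivity)
  linarith [c.ht2]

/-- first tail -/
lemma err1 (c : Cx r K δ κ B T L t s) (v : ℝ) :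
    ‖cexp (2 * ((B : ℂ) + v * I) ^ 2) * ((riemannZeta (s + (B + v * I)) -
      QQ (Pc δ) T (s + (B + v * I))) * PP r s (B + v * I) * gi L κ K (B + v * I)) *
      ((B : ℂ) + v * I)⁻¹‖ ≤
    (Real.exp (2 * B ^ 2) * Real.exp (2 * B) * Real.exp ((((0 : ℕ) : ℝ) + 2) ^ 2 / 4)) *
      ((2 * 4 ^ K) * Real.exp (-L)) * Real.exp (-1 * v ^ 2) := by
  have hδ := c.hδ
  have hδ1 := c.hδ1
  have hB := c.hB
  have hB1 := c.B1
  have hL0 := c.L0
  set w : ℂ := (B : ℂ) + v * I with hw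
  have hwre : w.re = B := by simp [hw]
  have h1re : (s + w).re = B + 1 / 2 := by rw [add_re, c.sre, hwre]; ring
  have hz1 := zeta_sub_QQ hδ (by linarith) (by linarith [c.hT] : 1 < T) (z := s + w)
    (by rw [h1re]; linarith)
  rw [h1re, ← c.hL] at hz1
  have hg1 := (gi_far (L := L) (κ := κ) (B := B) (v := v) (K := K) hL0.le c.κ0.le
    (by linarith)).1
  refine (tail2 (by linarith) hw (j := 0)
    (ρ := 2 * Real.exp (-((1 / 2 + δ) * (B + 1 / 2 - 2)) * L)) (by positivity)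
    (by rw [pow_zero, mul_one]; exact hz1) hg1 (c.PPn w)).trans ?_
  have h4 : (2 * Real.exp (-((1 / 2 + δ) * (B + 1 / 2 - 2)) * L)) *
      (4 ^ K * Real.exp (L * B / 2 + κ * L * B * K)) ≤ 2 * 4 ^ K * Real.exp (-L) := by
    have e1 : (2 * Real.exp (-((1 / 2 + δ) * (B + 1 / 2 - 2)) * L)) *
      (4 ^ K * Real.exp (L * B / 2 + κ * L * B * K)) = 2 * 4 ^ K *
      Real.exp (-((1 / 2 + δ) * (B + 1 / 2 - 2)) * L + (L * B / 2 + κ * L * B * K)) := by
      rw [Real.exp_add (-((1 / 2 + δ) * (B + 1 / 2 - 2)) * L)]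
      ring
    rw [e1]
    have e2 : -((1 / 2 + δ) * (B + 1 / 2 - 2)) * L + (L * B / 2 + κ * L * B * K) ≤ -L := by
      have e3 : κ * L * B * K = δ / 4 * (L * B) := by
        rw [← c.κK]
        ring
      rw [e3]
      have e4 : -((1 / 2 + δ) * (B + 1 / 2 - 2)) + (B / 2 + δ / 4 * B) ≤ -1 := by nlinarith
      nlinarith
    gcongr
  gcongr

/-- second tail -/
lemma err2 (c : Cx r K δ κ B T L t s) {CF : ℝ} (hCF : 0 < CF) (hFF : ∀ u : ℝ,
    ‖FF (1 / 2 + 2 * r + u * I)‖ ≤ CF * (1 + |u|) ^ (2 * r)) (v : ℝ) :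
    ‖cexp (2 * ((B : ℂ) + v * I) ^ 2) * ((FF (1 - s + (B + v * I)) *
      (riemannZeta (1 - s + (B + v * I)) -
      QQ (Pc δ) T (1 - s + (B + v * I)))) * PP r s (-(B + v * I)) * gi L κ K (-(B + v * I))) *
      ((B : ℂ) + v * I)⁻¹‖ ≤
    (Real.exp (2 * B ^ 2) * Real.exp (2 * B) * Real.exp ((((2 * r : ℕ) : ℝ) + 2) ^ 2 / 4)) *
      ((CF * 2 ^ (2 * r) * 2 * 4 ^ K) * Real.exp (-L)) * Real.exp (-1 * v ^ 2) := by
  have hδ := c.hδ
  have hδ1 := c.hδ1
  have hB := c.hB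
  have hB1 := c.B1
  have hL0 := c.L0
  set w : ℂ := (B : ℂ) + v * I with hw
  have hwre : w.re = B := by simp [hw]
  have h1re : (1 - s + w).re = B + 1 / 2 := by
    rw [add_re, sub_re, c.sre, hwre, one_re]; ring
  have hz1 := zeta_sub_QQ hδ (by linarith) (by linarith [c.hT] : 1 < T) (z := 1 - s + w)
    (by rw [h1re]; linarith)
  rw [h1re, ← c.hL] at hz1
  have hg2 := (gi_far (L := L) (κ := κ) (B := B) (v := v) (K := K) hL0.le c.κ0.le
    (by linarith)).2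
  have hFFw : ‖FF (1 - s + w)‖ ≤ CF * 2 ^ (2 * r) *
      Real.exp ((1 + δ / 4) * L * B) * (1 + |v|) ^ (2 * r) := by
    have e : (1 - s + w : ℂ) = 1 / 2 + 2 * r + ((v - t : ℝ) : ℂ) * I := by
      rw [c.hs, hw, c.hr]
      push_cast
      ring
    rw [e]
    refine (hFF (v - t)).trans ?_
    have h5 : 1 + |v - t| ≤ (2 * Real.exp ((1 + δ / 4) * L)) * (1 + |v|) := by
      have h6 : |v - t| ≤ |v| + t := by
        have := abs_sub v t
        rwa [abs_of_nonneg (by linarith [c.t1] : 0 ≤ t)] at this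
      have h7 := abs_nonneg v
      have h8 := c.t1
      calc 1 + |v - t| ≤ (1 + t) * (1 + |v|) := by nlinarith
        _ ≤ _ := by
          gcongr
          exact c.tT
    calc CF * (1 + |v - t|) ^ (2 * r)
        ≤ CF * ((2 * Real.exp ((1 + δ / 4) * L)) * (1 + |v|)) ^ (2 * r) := by gcongr
      _ = CF * (2 ^ (2 * r) * Real.exp ((1 + δ / 4) * L) ^ (2 * r) *
          (1 + |v|) ^ (2 * r)) := by rw [mul_pow, mul_pow]
      _ = _ := by
          rw [← Real.exp_nat_mul]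
          have e4 : ((2 * r : ℕ) : ℝ) * ((1 + δ / 4) * L) = (1 + δ / 4) * L * B := by
            rw [c.hr]
            push_cast
            ring
          rw [e4]
          ring
  refine (tail2 (by linarith) hw (j := 2 * r)
    (R := FF (1 - s + w) * (riemannZeta (1 - s + w) - QQ (Pc δ) T (1 - s + w)))
    (ρ := CF * 2 ^ (2 * r) * Real.exp ((1 + δ / 4) * L * B) *
      (2 * Real.exp (-((1 / 2 + δ) * (B + 1 / 2 - 2)) * L))) (by positivity)
    (by
      rw [norm_mul]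
      calc ‖FF (1 - s + w)‖ * ‖riemannZeta (1 - s + w) - QQ (Pc δ) T (1 - s + w)‖
          ≤ (CF * 2 ^ (2 * r) * Real.exp ((1 + δ / 4) * L * B) * (1 + |v|) ^ (2 * r)) *
            (2 * Real.exp (-((1 / 2 + δ) * (B + 1 / 2 - 2)) * L)) := by gcongr
        _ = _ := by ring) hg2 (c.PPn' w)).trans ?_
  have h4 : (CF * 2 ^ (2 * r) * Real.exp ((1 + δ / 4) * L * B) *
      (2 * Real.exp (-((1 / 2 + δ) * (B + 1 / 2 - 2)) * L))) *
      (4 ^ K * Real.exp (-(L * B / 2))) ≤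
      CF * 2 ^ (2 * r) * 2 * 4 ^ K * Real.exp (-L) := by
    have e1 : (CF * 2 ^ (2 * r) * Real.exp ((1 + δ / 4) * L * B) *
      (2 * Real.exp (-((1 / 2 + δ) * (B + 1 / 2 - 2)) * L))) *
      (4 ^ K * Real.exp (-(L * B / 2))) = CF * 2 ^ (2 * r) * 2 * 4 ^ K *
      Real.exp ((1 + δ / 4) * L * B + (-((1 / 2 + δ) * (B + 1 / 2 - 2)) * L +
        -(L * B / 2))) := by
      rw [Real.exp_add, Real.exp_add]
      ring
    rw [e1]
    have e2 : (1 + δ / 4) * L * B + (-((1 / 2 + δ) * (B + 1 / 2 - 2)) * L +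
        -(L * B / 2)) ≤ -L := by
      have e4 : (1 + δ / 4) * B + (-((1 / 2 + δ) * (B + 1 / 2 - 2)) - B / 2) ≤ -1 := by nlinarith
      nlinarith
    gcongr
  gcongr

/-- the short sum, first part -/
lemma err3 (c : Cx r K δ κ B T L t s) (v : ℝ) :
    ‖cexp (2 * ((B : ℂ) + v * I) ^ 2) * (QQ (Pb δ) T (s + -(B + v * I)) *
      PP r s (-(B + v * I)) * gi L κ K (-(B + v * I))) * ((B : ℂ) + v * I)⁻¹‖ ≤
    (Real.exp (2 * B ^ 2) * Real.exp (2 * B) * Real.exp ((((0 : ℕ) : ℝ) + 2) ^ 2 / 4)) *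
      (4 ^ K * Real.exp (-L)) * Real.exp (-1 * v ^ 2) := by
  have hδ := c.hδ
  have hδ1 := c.hδ1
  have hB := c.hB
  have hB1 := c.B1
  have hL0 := c.L0
  set w : ℂ := (B : ℂ) + v * I with hw
  have hwre : w.re = B := by simp [hw]
  have h1re : (s + -w).re = -(B - 1 / 2) := by rw [add_re, neg_re, c.sre, hwre]; ring
  have hz1 := Qb_bound hδ (by linarith) (by linarith [c.hT] : 1 < T) (z := s + -w)
    (b := B - 1 / 2) (by linarith) h1re
  rw [← c.hL] at hz1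
  have hg2 := (gi_far (L := L) (κ := κ) (B := B) (v := v) (K := K) hL0.le c.κ0.le
    (by linarith)).2
  refine (tail2 (by linarith) hw (j := 0)
    (ρ := Real.exp (L + (1 / 2 - δ) * (B - 1 / 2) * L)) (by positivity)
    (by rw [pow_zero, mul_one]; exact hz1) hg2 (c.PPn' w)).trans ?_
  have h4 : Real.exp (L + (1 / 2 - δ) * (B - 1 / 2) * L) *
      (4 ^ K * Real.exp (-(L * B / 2))) ≤ 4 ^ K * Real.exp (-L) := by
    have e1 : Real.exp (L + (1 / 2 - δ) * (B - 1 / 2) * L) *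
      (4 ^ K * Real.exp (-(L * B / 2))) = 4 ^ K *
      Real.exp ((L + (1 / 2 - δ) * (B - 1 / 2) * L) + -(L * B / 2)) := by
      rw [Real.exp_add _ (-(L * B / 2))]
      ring
    rw [e1]
    have e2 : (L + (1 / 2 - δ) * (B - 1 / 2) * L) + -(L * B / 2) ≤ -L := by
      have e4 : (1 + (1 / 2 - δ) * (B - 1 / 2)) - B / 2 ≤ -1 := by nlinarith
      nlinarith
    gcongr
  gcongr

/-- the short sum, second part -/
lemma err4 (c : Cx r K δ κ B T L t s) (v : ℝ) :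
    ‖cexp (2 * ((B : ℂ) + v * I) ^ 2) * ((cc r s * FF (1 - s + 2 * r + -(B + v * I)) *
      QQ (Pb δ) T (1 - s + -(B + v * I))) * ((s + (B + v * I) - 1) / (s - 1)) *
      gi L κ K (B + v * I)) * ((B : ℂ) + v * I)⁻¹‖ ≤
    (Real.exp (2 * B ^ 2) * Real.exp (2 * B) * Real.exp ((((0 : ℕ) : ℝ) + 2) ^ 2 / 4)) *
      (((2 * Real.pi) ^ (2 * r) * 4 ^ K) * Real.exp (-L)) * Real.exp (-1 * v ^ 2) := by
  have hδ := c.hδ
  have hδ1 := c.hδ1
  have hB := c.hB
  have hB1 := c.B1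
  have hL0 := c.L0
  set w : ℂ := (B : ℂ) + v * I with hw
  have hwre : w.re = B := by simp [hw]
  have h1re : (1 - s + -w).re = -(B - 1 / 2) := by
    rw [add_re, sub_re, neg_re, c.sre, hwre, one_re]; ring
  have hz1 := Qb_bound hδ (by linarith) (by linarith [c.hT] : 1 < T) (z := 1 - s + -w)
    (b := B - 1 / 2) (by linarith) h1re
  rw [← c.hL] at hz1
  have hg1 := (gi_far (L := L) (κ := κ) (B := B) (v := v) (K := K) hL0.le c.κ0.le
    (by linarith)).1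
  have hF : ‖FF (1 - s + 2 * r + -w)‖ = 1 := by
    have e : (1 - s + 2 * r + -w : ℂ) = ((1 / 2 : ℝ) : ℂ) + ((-t - v : ℝ) : ℂ) * I := by
      rw [c.hs, hw, c.hr]
      push_cast
      ring
    rw [e, FF_half]
  have ht0 : 0 < t := by linarith [c.t1]
  have hcc : ‖cc r s‖ ≤ (2 * Real.pi) ^ (2 * r) * Real.exp (-((1 - δ / 4) * L * B)) := by
    refine (cc_norm ht0 c.sim).trans ?_
    gcongr
    rw [Real.exp_neg]
    apply inv_anti₀ (Real.exp_pos _)
    calc Real.exp ((1 - δ / 4) * L * B) = Real.exp ((1 - δ / 4) * L) ^ (2 * r) := by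
          rw [← Real.exp_nat_mul]
          congr 1
          rw [c.hr]
          push_cast
          ring
      _ ≤ t ^ (2 * r) := by
          gcongr
          exact c.ht1
  refine (tail2 (by linarith) hw (j := 0)
    (R := cc r s * FF (1 - s + 2 * r + -w) * QQ (Pb δ) T (1 - s + -w))
    (ρ := (2 * Real.pi) ^ (2 * r) * Real.exp (-((1 - δ / 4) * L * B)) *
      Real.exp (L + (1 / 2 - δ) * (B - 1 / 2) * L)) (by positivity)
    (by
      rw [pow_zero, mul_one, norm_mul, norm_mul, hF, mul_one]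
      gcongr) hg1 (c.P1n w)).trans ?_
  have h4 : (2 * Real.pi) ^ (2 * r) * Real.exp (-((1 - δ / 4) * L * B)) *
      Real.exp (L + (1 / 2 - δ) * (B - 1 / 2) * L) *
      (4 ^ K * Real.exp (L * B / 2 + κ * L * B * K)) ≤
      (2 * Real.pi) ^ (2 * r) * 4 ^ K * Real.exp (-L) := by
    have e1 : (2 * Real.pi) ^ (2 * r) * Real.exp (-((1 - δ / 4) * L * B)) *
      Real.exp (L + (1 / 2 - δ) * (B - 1 / 2) * L) *
      (4 ^ K * Real.exp (L * B / 2 + κ * L * B * K)) = (2 * Real.pi) ^ (2 * r) * 4 ^ K *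
      Real.exp (-((1 - δ / 4) * L * B) + ((L + (1 / 2 - δ) * (B - 1 / 2) * L) +
        (L * B / 2 + κ * L * B * K))) := by
      rw [Real.exp_add (-((1 - δ / 4) * L * B)), Real.exp_add _ (L * B / 2 + κ * L * B * K)]
      ring
    rw [e1]
    have e2 : -((1 - δ / 4) * L * B) + ((L + (1 / 2 - δ) * (B - 1 / 2) * L) +
        (L * B / 2 + κ * L * B * K)) ≤ -L := by
      have e3 : κ * L * B * K = δ / 4 * (L * B) := by
        rw [← c.κK]
        ring
      rw [e3]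
      have e4 : -((1 - δ / 4) * B) + ((1 + (1 / 2 - δ) * (B - 1 / 2)) + (B / 2 + δ / 4 * B)) ≤
          -1 := by nlinarith
      nlinarith
    gcongr
  gcongr

end Cx

lemma J_bound {F : ℝ → ℂ} {b : ℝ} (hb0 : 0 ≤ b)
    (hb : ∀ v, ‖F v‖ ≤ b * Real.exp (-1 * v ^ 2)) : ‖∫ v, F v‖ ≤ 2 * b := by
  have h1 : Integrable fun v : ℝ => b * Real.exp (-1 * v ^ 2) :=
    (integrable_exp_neg_mul_sq one_pos).const_mul _
  refine (norm_integral_le_of_norm_le h1 (Eventually.of_forall hb)).trans ?_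
  rw [integral_const_mul, integral_gaussian, mul_comm]
  have h2 : Real.sqrt (Real.pi / 1) ≤ 2 := by
    rw [div_one, Real.sqrt_le_left (by norm_num)]
    linarith [Real.pi_le_four]
  gcongr

namespace Cx

variable {r K : ℕ} {δ κ B T L t : ℝ} {s : ℂ}

/-- the right half of the identity -/
lemma right (c : Cx r K δ κ B T L t s) {inn : ℂ → ℂ}
    (hinn : inn = fun w => riemannZeta₁ (s + w) * (s - 1)⁻¹ * P2 r s w * gi L κ K w)
    (hi : Integrable fun v : ℝ => cexp (2 * ((B : ℂ) + v * I) ^ 2) * inn (B + v * I) *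
      ((B : ℂ) + v * I)⁻¹) :
    ‖(∫ v : ℝ, cexp (2 * ((B : ℂ) + v * I) ^ 2) * inn (B + v * I) * ((B : ℂ) + v * I)⁻¹) -
      2 * Real.pi * QQ (Pb δ) T s -
      ∫ v : ℝ, cexp (2 * (((1 / (δ * L) : ℝ) : ℂ) + v * I) ^ 2) *
        (QQ (fD δ) T (s + (((1 / (δ * L) : ℝ) : ℂ) + v * I)) *
        PP r s (((1 / (δ * L) : ℝ) : ℂ) + v * I) *
        gi L κ K (((1 / (δ * L) : ℝ) : ℂ) + v * I)) * (((1 / (δ * L) : ℝ) : ℂ) + v * I)⁻¹‖ ≤
    2 * ((Real.exp (2 * B ^ 2) * Real.exp (2 * B) * Real.exp ((((0 : ℕ) : ℝ) + 2) ^ 2 / 4)) *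
      ((2 * 4 ^ K) * Real.exp (-L))) +
    2 * ((Real.exp (2 * B ^ 2) * Real.exp (2 * B) * Real.exp ((((0 : ℕ) : ℝ) + 2) ^ 2 / 4)) *
      (4 ^ K * Real.exp (-L))) := by
  have hL0 := c.L0
  have hB1 := c.B1
  have hB0 : 0 < B := by linarith
  have hΛ := c.hΛ
  set x₀ : ℝ := 1 / (δ * L) with hx₀
  have hx0 : 0 < x₀ := by
    have := c.hδ
    positivity
  have hx1 : x₀ ≤ B := by
    have : x₀ ≤ 1 := by
      rw [hx₀, div_le_one (by linarith)]
      exact hΛ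
    linarith
  set mb : ℂ → ℂ := fun w => QQ (Pb δ) T (s + w) * PP r s w * gi L κ K w with hmb
  set md : ℂ → ℂ := fun w => QQ (fD δ) T (s + w) * PP r s w * gi L κ K w with hmd
  have hdiff : ∀ φ : ℝ → ℝ, Differentiable ℂ fun w => QQ φ T (s + w) * PP r s w * gi L κ K w := by
    intro φ
    have h1 : Differentiable ℂ fun w : ℂ => QQ φ T (s + w) := (QQ_diff φ T).comp (by fun_prop)
    exact (h1.mul (PP_diff r s)).mul (gi_diff L κ K)
  have hEG : ∀ φ : ℝ → ℝ, ∀ a b : ℝ,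
      Afe.EG a b fun w => QQ φ T (s + w) * PP r s w * gi L κ K w := by
    intro φ a b
    have h1 : Afe.EG a b fun w : ℂ => QQ φ T (s + w) := (QQ_EG φ T _ _).comp_add s
    exact (h1.mul (PP_EG r s _ _)).mul (gi_EG L κ K hL0.le c.κ0.le _ _)
  obtain ⟨hi1, hi2, he1⟩ := residue2 hB0 (m := mb) (hdiff (Pb δ)).differentiableOn
    (hEG (Pb δ) _ _)
  obtain ⟨-, hi4, he2⟩ := line_shift hx0 hx1 (m := md) (hdiff (fD δ)).differentiableOn
    (hEG (fD δ) _ _)
  have hmb0 : mb 0 = QQ (Pb δ) T s := by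
    simp only [hmb]
    rw [add_zero, PP_zero c.s1, gi_zero, mul_one, mul_one]
  set τ : ℂ → ℂ := fun w => (riemannZeta (s + w) - QQ (Pc δ) T (s + w)) * PP r s w *
    gi L κ K w with hτ
  have hsplit : ∀ v : ℝ, cexp (2 * ((B : ℂ) + v * I) ^ 2) * inn (B + v * I) *
      ((B : ℂ) + v * I)⁻¹ =
      cexp (2 * ((B : ℂ) + v * I) ^ 2) * mb (B + v * I) * ((B : ℂ) + v * I)⁻¹ +
      cexp (2 * ((B : ℂ) + v * I) ^ 2) * md (B + v * I) * ((B : ℂ) + v * I)⁻¹ +
      cexp (2 * ((B : ℂ) + v * I) ^ 2) * τ (B + v * I) * ((B : ℂ) + v * I)⁻¹ := by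
    intro v
    set w : ℂ := (B : ℂ) + v * I with hw
    have hwre : w.re = B := by simp [hw]
    have h1 : inn w = riemannZeta (s + w) * PP r s w * gi L κ K w := by
      rw [hinn]
      simp only [PP]
      have : s + w ≠ 1 := by
        intro h'
        have := congrArg re h'
        rw [add_re, c.sre, hwre, one_re] at this
        linarith
      rw [zeta1_eq this]
      ring
    rw [h1]
    simp only [hmb, hmd, hτ]
    rw [QQ_split]
    ring
  have hi5 : Integrable fun v : ℝ =>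
      cexp (2 * ((B : ℂ) + v * I) ^ 2) * τ (B + v * I) * ((B : ℂ) + v * I)⁻¹ := by
    refine ((hi.sub hi1).sub hi4).congr (Eventually.of_forall fun v => ?_)
    have := hsplit v
    simp only [Pi.sub_apply]
    linear_combination this
  have htot : (∫ v : ℝ, cexp (2 * ((B : ℂ) + v * I) ^ 2) * inn (B + v * I) *
      ((B : ℂ) + v * I)⁻¹) = (2 * Real.pi * mb 0 -
        ∫ v : ℝ, cexp (2 * ((B : ℂ) + v * I) ^ 2) * mb (-((B : ℂ) + v * I)) *
          ((B : ℂ) + v * I)⁻¹) +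
      (∫ v : ℝ, cexp (2 * ((x₀ : ℂ) + v * I) ^ 2) * md (x₀ + v * I) * ((x₀ : ℂ) + v * I)⁻¹) +
      ∫ v : ℝ, cexp (2 * ((B : ℂ) + v * I) ^ 2) * τ (B + v * I) * ((B : ℂ) + v * I)⁻¹ := by
    rw [← he1, ← he2, ← F4.Afe.int3 hi1 hi4 hi5]
    exact integral_congr_ae (Eventually.of_forall hsplit)
  rw [htot, hmb0]
  have hb1 := J_bound (F := fun v : ℝ => cexp (2 * ((B : ℂ) + v * I) ^ 2) * τ (B + v * I) *
    ((B : ℂ) + v * I)⁻¹) (by positivity) c.err1
  have hb3 := J_bound (F := fun v : ℝ => cexp (2 * ((B : ℂ) + v * I) ^ 2) *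
    mb (-((B : ℂ) + v * I)) * ((B : ℂ) + v * I)⁻¹) (by positivity) c.err3
  have e : ∀ a b d f : ℂ, a - b + d + f - a - d = f - b := by
    intro a b d f
    ring
  rw [e]
  exact (norm_sub_le _ _).trans (add_le_add hb1 hb3)

/-- the left half of the identity -/
lemma left (c : Cx r K δ κ B T L t s) {CF : ℝ} (hCF : 0 < CF) (hFF : ∀ u : ℝ,
    ‖FF (1 / 2 + 2 * r + u * I)‖ ≤ CF * (1 + |u|) ^ (2 * r)) {inn : ℂ → ℂ}
    (hinn : inn = fun w => riemannZeta₁ (s + w) * (s - 1)⁻¹ * P2 r s w * gi L κ K w)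
    (hi : Integrable fun v : ℝ => cexp (2 * ((B : ℂ) + v * I) ^ 2) * inn (-((B : ℂ) + v * I)) *
      ((B : ℂ) + v * I)⁻¹) :
    ‖(∫ v : ℝ, cexp (2 * ((B : ℂ) + v * I) ^ 2) * inn (-((B : ℂ) + v * I)) *
        ((B : ℂ) + v * I)⁻¹) -
      2 * Real.pi * (FF (1 - s) * QQ (Pb δ) T (1 - s)) -
      ∫ v : ℝ, cexp (2 * (((1 / (δ * L) : ℝ) : ℂ) + v * I) ^ 2) *
        ((FF (1 - s + (((1 / (δ * L) : ℝ) : ℂ) + v * I)) *
        QQ (fD δ) T (1 - s + (((1 / (δ * L) : ℝ) : ℂ) + v * I))) *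
        PP r s (-(((1 / (δ * L) : ℝ) : ℂ) + v * I)) *
        gi L κ K (-(((1 / (δ * L) : ℝ) : ℂ) + v * I))) * (((1 / (δ * L) : ℝ) : ℂ) + v * I)⁻¹‖ ≤
    2 * ((Real.exp (2 * B ^ 2) * Real.exp (2 * B) *
        Real.exp ((((2 * r : ℕ) : ℝ) + 2) ^ 2 / 4)) *
      ((CF * 2 ^ (2 * r) * 2 * 4 ^ K) * Real.exp (-L))) +
    2 * ((Real.exp (2 * B ^ 2) * Real.exp (2 * B) * Real.exp ((((0 : ℕ) : ℝ) + 2) ^ 2 / 4)) *
      (((2 * Real.pi) ^ (2 * r) * 4 ^ K) * Real.exp (-L))) := by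
  have hL0 := c.L0
  have hB1 := c.B1
  have hB0 : 0 < B := by linarith
  have hΛ := c.hΛ
  set x₀ : ℝ := 1 / (δ * L) with hx₀
  have hx0 : 0 < x₀ := by
    have := c.hδ
    positivity
  have hx1 : x₀ ≤ B := by
    have : x₀ ≤ 1 := by
      rw [hx₀, div_le_one (by linarith)]
      exact hΛ
    linarith
  have h1sre : (1 - s).re = 1 / 2 := by rw [sub_re, c.sre, one_re]; norm_num
  have h2sre : (1 - s + 2 * r : ℂ).re = 1 / 2 + B := by
    rw [add_re, h1sre, c.hr]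
    simp
  set nb : ℂ → ℂ := fun w => (cc r s * FF (1 - s + 2 * r + w) * QQ (Pb δ) T (1 - s + w)) *
    ((s + -w - 1) / (s - 1)) * gi L κ K (-w) with hnb
  set nd : ℂ → ℂ := fun w => (FF (1 - s + w) * QQ (fD δ) T (1 - s + w)) * PP r s (-w) *
    gi L κ K (-w) with hnd
  have hgid : Differentiable ℂ fun w : ℂ => gi L κ K (-w) := (gi_diff L κ K).comp (by fun_prop)
  have hgiE : ∀ a b : ℝ, Afe.EG a b fun w : ℂ => gi L κ K (-w) := fun a b =>
    (gi_EG L κ K hL0.le c.κ0.le _ _).comp_neg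
  have hPd : Differentiable ℂ fun w : ℂ => (s + -w - 1) / (s - 1) := by fun_prop
  have hPE : ∀ a b : ℝ, Afe.EG a b fun w : ℂ => (s + -w - 1) / (s - 1) := by
    intro a b
    have h1 : Afe.EG a b fun w : ℂ => (s + (-1) * w - 1) * (s - 1)⁻¹ :=
      (((Afe.EG.const a b s).add ((Afe.EG.const a b (-1)).mul (Afe.EG.id a b))).sub
        (Afe.EG.const a b 1)).mul (Afe.EG.const a b _)
    exact h1.congr fun w _ _ => by rw [div_eq_mul_inv, neg_one_mul]
  have hnbd : DifferentiableOn ℂ nb {w : ℂ | -(B + 1 / 4) < w.re} := by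
    intro w hw
    have hw' : -(B + 1 / 4) < w.re := hw
    have h1 : DifferentiableAt ℂ (fun w : ℂ => FF (1 - s + 2 * r + w)) w := by
      apply DifferentiableAt.comp w (g := FF)
      · apply FF_diff
        rw [add_re, h2sre]
        linarith
      · fun_prop
    have h2 : Differentiable ℂ fun w : ℂ => QQ (Pb δ) T (1 - s + w) :=
      (QQ_diff (Pb δ) T).comp (by fun_prop)
    exact ((((h1.const_mul (cc r s)).mul (h2 w)).mul (hPd w)).mul
      (hgid w)).differentiableWithinAt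
  have hnbE : Afe.EG (-B) B nb := by
    have h1 : Afe.EG (-B) B fun w : ℂ => FF (1 - s + 2 * r + w) := by
      apply Afe.EG.comp_add
      rw [h2sre]
      exact (FF_EG (b := B + (1 / 2 + B))).mono (by linarith) le_rfl
    have h2 : Afe.EG (-B) B fun w : ℂ => QQ (Pb δ) T (1 - s + w) :=
      (QQ_EG (Pb δ) T _ _).comp_add (1 - s)
    exact (((((Afe.EG.const _ _ (cc r s)).mul h1).mul h2).mul (hPE _ _)).mul (hgiE _ _))
  have hndd : DifferentiableOn ℂ nd {w : ℂ | 0 < w.re} := by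
    intro w hw
    have hw' : 0 < w.re := hw
    have h1 : DifferentiableAt ℂ (fun w : ℂ => FF (1 - s + w)) w := by
      apply DifferentiableAt.comp w (g := FF)
      · apply FF_diff
        rw [add_re, h1sre]
        linarith
      · fun_prop
    have h2 : Differentiable ℂ fun w : ℂ => QQ (fD δ) T (1 - s + w) :=
      (QQ_diff (fD δ) T).comp (by fun_prop)
    have h3 : Differentiable ℂ fun w : ℂ => PP r s (-w) := (PP_diff r s).comp (by fun_prop)
    exact (((h1.mul (h2 w)).mul (h3 w)).mul (hgid w)).differentiableWithinAt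
  have hndE : Afe.EG x₀ B nd := by
    have h1 : Afe.EG x₀ B fun w : ℂ => FF (1 - s + w) := by
      apply Afe.EG.comp_add
      rw [h1sre]
      exact (FF_EG (b := B + 1 / 2)).mono (by linarith) le_rfl
    have h2 : Afe.EG x₀ B fun w : ℂ => QQ (fD δ) T (1 - s + w) :=
      (QQ_EG (fD δ) T _ _).comp_add (1 - s)
    have h3 : Afe.EG x₀ B fun w : ℂ => PP r s (-w) := (PP_EG r s _ _).comp_neg
    exact ((h1.mul h2).mul h3).mul (hgiE _ _)
  obtain ⟨hi1, hi2, he1⟩ := residue2 hB0 (m := nb) hnbd hnbE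
  obtain ⟨-, hi4, he2⟩ := line_shift hx0 hx1 (m := nd) hndd hndE
  have hnb0 : nb 0 = FF (1 - s) * QQ (Pb δ) T (1 - s) := by
    simp only [hnb]
    have h1 := P2_FF (r := r) (s := s) (z := 1 - s) (w := 0) c.sne (by rw [h1sre]; norm_num)
      (by rw [add_zero])
    rw [neg_zero, P2_zero, mul_one] at h1
    rw [add_zero, add_zero, neg_zero, add_zero, div_self c.s1, gi_zero, mul_one, mul_one, h1]
  set τ : ℂ → ℂ := fun w => (FF (1 - s + w) * (riemannZeta (1 - s + w) -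
    QQ (Pc δ) T (1 - s + w))) * PP r s (-w) * gi L κ K (-w) with hτ
  have hsplit : ∀ v : ℝ, cexp (2 * ((B : ℂ) + v * I) ^ 2) * inn (-((B : ℂ) + v * I)) *
      ((B : ℂ) + v * I)⁻¹ =
      cexp (2 * ((B : ℂ) + v * I) ^ 2) * nb (B + v * I) * ((B : ℂ) + v * I)⁻¹ +
      cexp (2 * ((B : ℂ) + v * I) ^ 2) * nd (B + v * I) * ((B : ℂ) + v * I)⁻¹ +
      cexp (2 * ((B : ℂ) + v * I) ^ 2) * τ (B + v * I) * ((B : ℂ) + v * I)⁻¹ := by
    intro v
    set w : ℂ := (B : ℂ) + v * I with hw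
    have hwre : w.re = B := by simp [hw]
    have hzre : (1 - s + w).re = 1 / 2 + B := by rw [add_re, h1sre, hwre]
    have h2 : inn (-w) = FF (1 - s + w) * riemannZeta (1 - s + w) * PP r s (-w) *
        gi L κ K (-w) := by
      rw [hinn]
      simp only [PP]
      have h3 : s + -w ≠ 1 := by
        intro h'
        have := congrArg re h'
        rw [add_re, neg_re, c.sre, hwre, one_re] at this
        linarith
      have h4 : riemannZeta (s + -w) = FF (1 - s + w) * riemannZeta (1 - s + w) := by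
        have h5 := zeta_fe' (z := 1 - s + w) (by rw [hzre]; linarith) (by
          intro h'
          have := congrArg re h'
          rw [hzre, one_re] at this
          linarith)
        rw [← h5]
        congr 1
        ring
      rw [zeta1_eq h3, h4]
      ring
    have h3 : nb w = (FF (1 - s + w) * QQ (Pb δ) T (1 - s + w)) * PP r s (-w) *
        gi L κ K (-w) := by
      simp only [hnb]
      have h4 := P2_FF (r := r) (s := s) (z := 1 - s + w) (w := w) c.sne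
        (by rw [hzre]; linarith) rfl
      have e4 : (1 - s + 2 * r + w : ℂ) = 1 - s + w + 2 * r := by ring
      rw [e4, ← h4, PP]
      ring
    rw [h2, h3]
    simp only [hnd, hτ]
    rw [QQ_split]
    ring
  have hi5 : Integrable fun v : ℝ =>
      cexp (2 * ((B : ℂ) + v * I) ^ 2) * τ (B + v * I) * ((B : ℂ) + v * I)⁻¹ := by
    refine ((hi.sub hi1).sub hi4).congr (Eventually.of_forall fun v => ?_)
    have := hsplit v
    simp only [Pi.sub_apply]
    linear_combination this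
  have htot : (∫ v : ℝ, cexp (2 * ((B : ℂ) + v * I) ^ 2) * inn (-((B : ℂ) + v * I)) *
      ((B : ℂ) + v * I)⁻¹) = (2 * Real.pi * nb 0 -
        ∫ v : ℝ, cexp (2 * ((B : ℂ) + v * I) ^ 2) * nb (-((B : ℂ) + v * I)) *
          ((B : ℂ) + v * I)⁻¹) +
      (∫ v : ℝ, cexp (2 * ((x₀ : ℂ) + v * I) ^ 2) * nd (x₀ + v * I) * ((x₀ : ℂ) + v * I)⁻¹) +
      ∫ v : ℝ, cexp (2 * ((B : ℂ) + v * I) ^ 2) * τ (B + v * I) * ((B : ℂ) + v * I)⁻¹ := by
    rw [← he1, ← he2, ← F4.Afe.int3 hi1 hi4 hi5]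
    exact integral_congr_ae (Eventually.of_forall hsplit)
  rw [htot, hnb0]
  have hb1 := J_bound (F := fun v : ℝ => cexp (2 * ((B : ℂ) + v * I) ^ 2) * τ (B + v * I) *
    ((B : ℂ) + v * I)⁻¹) (by positivity) (c.err2 hCF hFF)
  have hb3 := J_bound (F := fun v : ℝ => cexp (2 * ((B : ℂ) + v * I) ^ 2) *
    nb (-((B : ℂ) + v * I)) * ((B : ℂ) + v * I)⁻¹)
    (b := (Real.exp (2 * B ^ 2) * Real.exp (2 * B) * Real.exp ((((0 : ℕ) : ℝ) + 2) ^ 2 / 4)) *
      (((2 * Real.pi) ^ (2 * r) * 4 ^ K) * Real.exp (-L))) (by positivity) (fun v => by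
      have h := c.err4 v
      simp only [hnb]
      rw [neg_neg]
      exact h)
  have e : ∀ a b d f : ℂ, a - b + d + f - a - d = f - b := by
    intro a b d f
    ring
  rw [e]
  exact (norm_sub_le _ _).trans (add_le_add hb1 hb3)

end Cx

/-- the norm of the bump polynomial -/
noncomputable def qf (δ T t v : ℝ) : ℝ :=
  ‖∑ n ∈ Finset.Icc 1 ⌊T⌋₊, qg (fB δ) T v n * fs (1 / 2 + t * I) n‖

/-- the constant of the kernel -/
noncomputable def EK (K : ℕ) : ℝ := Real.exp (1 / 4) * (16 * K) ^ K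

lemma EK_nonneg (K : ℕ) : 0 ≤ EK K := by
  unfold EK
  positivity

lemma qf_nonneg (δ T t v : ℝ) : 0 ≤ qf δ T t v := norm_nonneg _

namespace Cx

variable {r K : ℕ} {δ κ B T L t : ℝ} {s : ℂ}

lemma qf_eq (c : Cx r K δ κ B T L t s) (v : ℝ) : qf δ T t v = Real.exp (1 / (2 * δ)) *
    ‖QQ (fD δ) T (s + (((1 / (δ * L) : ℝ) : ℂ) + v * I))‖ := by
  unfold qf
  rw [← QQ_bump c.hδ (by linarith [c.hT]), norm_mul, norm_real, Real.norm_eq_abs,
    abs_of_pos (Real.exp_pos _), c.hs, c.hL]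

lemma qf_cont (c : Cx r K δ κ B T L t s) : Continuous (qf δ T t) := by
  have h : qf δ T t = fun v : ℝ => Real.exp (1 / (2 * δ)) *
    ‖QQ (fD δ) T (s + (((1 / (δ * L) : ℝ) : ℂ) + v * I))‖ := funext c.qf_eq
  rw [h]
  apply Continuous.mul continuous_const
  apply Continuous.norm
  exact (QQ_diff (fD δ) T).continuous.comp (by fun_prop)

lemma qf_bdd (c : Cx r K δ κ B T L t s) : ∃ M : ℝ, 0 ≤ M ∧ ∀ v, qf δ T t v ≤ M := by
  obtain ⟨M, hM, hb⟩ := QQ_bound (fD δ) T 0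
  refine ⟨Real.exp (1 / (2 * δ)) * M, by positivity, fun v => ?_⟩
  rw [c.qf_eq]
  gcongr
  apply hb
  rw [add_re, c.sre, add_re, ofReal_re, re_ofReal_mul, I_re, mul_zero, add_zero]
  have h1 := c.hδ
  have h2 := c.L0
  positivity

lemma int_qf (c : Cx r K δ κ B T L t s) (j N : ℕ) :
    Integrable fun v => aw (δ * L) N v * qf δ T t v ^ j := by
  have h1 := c.hδ
  have h2 := c.L0
  have h3 : 0 ≤ δ * L := by positivity
  obtain ⟨M, hM, hb⟩ := c.qf_bdd
  refine ((aw_int h3 N).mul_const (M ^ j)).mono'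
    ((aw_cont h3 N).mul (c.qf_cont.pow j)).aestronglyMeasurable
    (Eventually.of_forall fun v => ?_)
  rw [Real.norm_eq_abs, abs_of_nonneg (mul_nonneg (aw_nonneg h3 N v)
    (pow_nonneg (qf_nonneg _ _ _ v) j))]
  exact mul_le_mul_of_nonneg_left (pow_le_pow_left₀ (qf_nonneg _ _ _ v) (hb v) j)
    (aw_nonneg h3 N v)

lemma mainR (c : Cx r K δ κ B T L t s) :
    ‖∫ v : ℝ, cexp (2 * (((1 / (δ * L) : ℝ) : ℂ) + v * I) ^ 2) *
        (QQ (fD δ) T (s + (((1 / (δ * L) : ℝ) : ℂ) + v * I)) *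
        PP r s (((1 / (δ * L) : ℝ) : ℂ) + v * I) *
        gi L κ K (((1 / (δ * L) : ℝ) : ℂ) + v * I)) * (((1 / (δ * L) : ℝ) : ℂ) + v * I)⁻¹‖ ≤
    (Real.exp 2 * Real.exp 2 * Real.exp (9 / 4) * 1 * EK K) *
      ∫ v, aw (δ * L) K v * qf δ T t v := by
  have h3 : Integrable fun v => aw (δ * L) K v * qf δ T t v := by simpa using c.int_qf 1 K
  rw [← integral_const_mul]
  refine norm_integral_le_of_norm_le (h3.const_mul _) (Eventually.of_forall fun v => ?_)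
  refine main2 c.hΛ rfl (qf_nonneg _ _ _ v) (EK_nonneg K) zero_le_one (c.PPn _) ?_
  have hg := (gi_line2 c.hδ c.hK c.L0 c.hκ v).1
  have hR : 0 ≤ ((1 + δ * L * |v|) ^ K)⁻¹ := by
    have h1 := c.hδ
    have h2 := c.L0
    positivity
  have hE := EK_nonneg K
  have hq := qf_nonneg δ T t v
  calc ‖QQ (fD δ) T (s + (((1 / (δ * L) : ℝ) : ℂ) + v * I))‖ *
        ‖gi L κ K (((1 / (δ * L) : ℝ) : ℂ) + v * I)‖
      ≤ ‖QQ (fD δ) T (s + (((1 / (δ * L) : ℝ) : ℂ) + v * I))‖ *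
        (Real.exp (1 / (2 * δ)) * (EK K * ((1 + δ * L * |v|) ^ K)⁻¹)) := by
        gcongr
        exact hg
    _ = 1 * qf δ T t v * (EK K * ((1 + δ * L * |v|) ^ K)⁻¹) := by
        rw [c.qf_eq]
        ring
    _ ≤ (1 * (1 + |v|)) * qf δ T t v * (EK K * ((1 + δ * L * |v|) ^ K)⁻¹) := by
        gcongr
        linarith [abs_nonneg v]

lemma mainL (c : Cx r K δ κ B T L t s) :
    ‖∫ v : ℝ, cexp (2 * (((1 / (δ * L) : ℝ) : ℂ) + v * I) ^ 2) *
        ((FF (1 - s + (((1 / (δ * L) : ℝ) : ℂ) + v * I)) *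
        QQ (fD δ) T (1 - s + (((1 / (δ * L) : ℝ) : ℂ) + v * I))) *
        PP r s (-(((1 / (δ * L) : ℝ) : ℂ) + v * I)) *
        gi L κ K (-(((1 / (δ * L) : ℝ) : ℂ) + v * I))) *
        (((1 / (δ * L) : ℝ) : ℂ) + v * I)⁻¹‖ ≤
    (Real.exp 2 * Real.exp 2 * Real.exp (9 / 4) *
      (2 * Real.exp (9 / 4) * Real.exp (1 / 4)) * EK K) *
      ∫ v, aw (δ * L) K v * qf δ T t v := by
  have hδ := c.hδ
  have hL := c.L0
  have h3 : Integrable fun v => aw (δ * L) K v * qf δ T t v := by simpa using c.int_qf 1 K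
  have hrefl : ∫ v, aw (δ * L) K v * qf δ T t (-v) = ∫ v, aw (δ * L) K v * qf δ T t v := by
    have h1 := integral_neg_eq_self (fun v : ℝ => aw (δ * L) K v * qf δ T t v) volume
    rw [← h1]
    refine integral_congr_ae (Eventually.of_forall fun v => ?_)
    simp only
    unfold aw
    rw [abs_neg, neg_sq]
  have h4 : Integrable fun v => aw (δ * L) K v * qf δ T t (-v) := by
    have h5 := h3.comp_neg
    refine h5.congr (Eventually.of_forall fun v => ?_)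
    simp only
    unfold aw
    rw [abs_neg, neg_sq]
  rw [← hrefl, ← integral_const_mul]
  refine norm_integral_le_of_norm_le (h4.const_mul _) (Eventually.of_forall fun v => ?_)
  refine main2 c.hΛ rfl (qf_nonneg _ _ _ (-v)) (EK_nonneg K) (by positivity) (c.PPn' _) ?_
  have hg := (gi_line2 c.hδ c.hK c.L0 c.hκ v).2
  have hR : 0 ≤ ((1 + δ * L * |v|) ^ K)⁻¹ := by positivity
  have hE := EK_nonneg K
  have hFl := FF_line2 (v := v) hδ c.hΛ (by linarith [c.t1] : 0 ≤ t) c.tT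
  rw [← c.hs] at hFl
  have hQ : ‖QQ (fD δ) T (1 - s + (((1 / (δ * L) : ℝ) : ℂ) + v * I))‖ =
      ‖QQ (fD δ) T (s + (((1 / (δ * L) : ℝ) : ℂ) + ((-v : ℝ) : ℂ) * I))‖ := by
    have e : (1 - s + (((1 / (δ * L) : ℝ) : ℂ) + v * I) : ℂ) =
        starRingEnd ℂ (s + (((1 / (δ * L) : ℝ) : ℂ) + ((-v : ℝ) : ℂ) * I)) := by
      rw [c.hs]
      simp only [map_add, map_mul, conj_ofReal, conj_I, map_div₀, map_one]
      have e2 : starRingEnd ℂ (2 : ℂ) = 2 := conj_ofNat 2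
      rw [e2]
      push_cast
      ring
    rw [e, QQ_conj, norm_conj]
  have hq := c.qf_eq (-v)
  have e5 : Real.exp (1 / δ) * Real.exp (-(1 / (2 * δ))) = Real.exp (1 / (2 * δ)) := by
    rw [← Real.exp_add]
    congr 1
    field_simp
    ring
  rw [norm_mul, hQ]
  calc ‖FF (1 - s + (((1 / (δ * L) : ℝ) : ℂ) + v * I))‖ *
        ‖QQ (fD δ) T (s + (((1 / (δ * L) : ℝ) : ℂ) + ((-v : ℝ) : ℂ) * I))‖ *
        ‖gi L κ K (-(((1 / (δ * L) : ℝ) : ℂ) + v * I))‖
      ≤ ((2 * Real.exp (9 / 4) * Real.exp (1 / 4)) * Real.exp (1 / δ) * (1 + |v|)) *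
        ‖QQ (fD δ) T (s + (((1 / (δ * L) : ℝ) : ℂ) + ((-v : ℝ) : ℂ) * I))‖ *
        (Real.exp (-(1 / (2 * δ))) * (EK K * ((1 + δ * L * |v|) ^ K)⁻¹)) := by
        gcongr
        exact hg
    _ = _ := by
        rw [hq, ← e5]
        ring

lemma core (c : Cx r K δ κ B T L t s) {CF : ℝ} (hCF : 0 < CF) (hFF : ∀ u : ℝ,
    ‖FF (1 / 2 + 2 * r + u * I)‖ ≤ CF * (1 + |u|) ^ (2 * r)) :
    ‖RR δ T t‖ ≤ (Real.exp 2 * Real.exp 2 * Real.exp (9 / 4) *
      (1 + 2 * Real.exp (9 / 4) * Real.exp (1 / 4)) * EK K) *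
      (∫ v, aw (δ * L) K v * qf δ T t v) +
      (2 * ((Real.exp (2 * B ^ 2) * Real.exp (2 * B) *
        Real.exp ((((0 : ℕ) : ℝ) + 2) ^ 2 / 4)) * (2 * 4 ^ K)) +
      2 * ((Real.exp (2 * B ^ 2) * Real.exp (2 * B) *
        Real.exp ((((0 : ℕ) : ℝ) + 2) ^ 2 / 4)) * 4 ^ K) +
      2 * ((Real.exp (2 * B ^ 2) * Real.exp (2 * B) *
        Real.exp ((((2 * r : ℕ) : ℝ) + 2) ^ 2 / 4)) * (CF * 2 ^ (2 * r) * 2 * 4 ^ K)) +
      2 * ((Real.exp (2 * B ^ 2) * Real.exp (2 * B) *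
        Real.exp ((((0 : ℕ) : ℝ) + 2) ^ 2 / 4)) * ((2 * Real.pi) ^ (2 * r) * 4 ^ K))) *
      Real.exp (-L) := by
  have hL0 := c.L0
  have hB1 := c.B1
  have hB0 : 0 < B := by linarith
  set inn : ℂ → ℂ := fun w => riemannZeta₁ (s + w) * (s - 1)⁻¹ * P2 r s w * gi L κ K w with hinn
  have hinnd : Differentiable ℂ inn := by
    have h1 : Differentiable ℂ fun w : ℂ => riemannZeta₁ (s + w) :=
      differentiable_riemannZeta₁.comp (by fun_prop)
    exact ((h1.mul_const _).mul (P2_diff r s)).mul (gi_diff L κ K)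
  have hinnE : Afe.EG (-B) B inn := by
    have h1 : Afe.EG (-B) B fun w : ℂ => riemannZeta₁ (s + w) := by
      apply Afe.EG.comp_add
      refine (zeta1_EG (B + 2)).mono ?_ ?_
      · rw [c.sre]; linarith
      · rw [c.sre]; linarith
    exact ((h1.mul (Afe.EG.const _ _ _)).mul (P2_EG r s _ _)).mul
      (gi_EG L κ K hL0.le c.κ0.le _ _)
  obtain ⟨hi1, hi2, he⟩ := residue2 hB0 (m := inn) hinnd.differentiableOn hinnE
  have hinn0 : inn 0 = riemannZeta s := by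
    have hsne : s ≠ 1 := sub_ne_zero.1 c.s1
    have := c.s1
    simp only [hinn]
    rw [add_zero, gi_zero, P2_zero, zeta1_eq hsne]
    field_simp
  rw [hinn0] at he
  have hR := c.right hinn hi1
  have hLf := c.left hCF hFF hinn hi2
  have hmR := c.mainR
  have hmL := c.mainL
  set J1 : ℂ := ∫ v : ℝ, cexp (2 * ((B : ℂ) + v * I) ^ 2) * inn (B + v * I) *
    ((B : ℂ) + v * I)⁻¹ with hJ1
  set J2 : ℂ := ∫ v : ℝ, cexp (2 * ((B : ℂ) + v * I) ^ 2) * inn (-((B : ℂ) + v * I)) *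
    ((B : ℂ) + v * I)⁻¹ with hJ2
  set M1 : ℂ := ∫ v : ℝ, cexp (2 * (((1 / (δ * L) : ℝ) : ℂ) + v * I) ^ 2) *
        (QQ (fD δ) T (s + (((1 / (δ * L) : ℝ) : ℂ) + v * I)) *
        PP r s (((1 / (δ * L) : ℝ) : ℂ) + v * I) *
        gi L κ K (((1 / (δ * L) : ℝ) : ℂ) + v * I)) * (((1 / (δ * L) : ℝ) : ℂ) + v * I)⁻¹
    with hM1
  set M2 : ℂ := ∫ v : ℝ, cexp (2 * (((1 / (δ * L) : ℝ) : ℂ) + v * I) ^ 2) *
        ((FF (1 - s + (((1 / (δ * L) : ℝ) : ℂ) + v * I)) *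
        QQ (fD δ) T (1 - s + (((1 / (δ * L) : ℝ) : ℂ) + v * I))) *
        PP r s (-(((1 / (δ * L) : ℝ) : ℂ) + v * I)) *
        gi L κ K (-(((1 / (δ * L) : ℝ) : ℂ) + v * I))) *
        (((1 / (δ * L) : ℝ) : ℂ) + v * I)⁻¹ with hM2
  have hDA : DA δ T t = QQ (Pb δ) T s + FF (1 - s) * QQ (Pb δ) T (1 - s) := by
    unfold DA
    have h1 : (1 - s : ℂ) = starRingEnd ℂ s := by
      rw [c.hs]
      simp only [map_add, map_mul, conj_ofReal, conj_I, map_div₀, map_one]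
      have e2 : starRingEnd ℂ (2 : ℂ) = 2 := conj_ofNat 2
      rw [e2]
      ring
    rw [h1, FF_conj, QQ_conj, QQ_SH, c.hs]
  have hRR : 2 * Real.pi * RR δ T t = (J1 - 2 * Real.pi * QQ (Pb δ) T s - M1) +
      (J2 - 2 * Real.pi * (FF (1 - s) * QQ (Pb δ) T (1 - s)) - M2) + (M1 + M2) := by
    unfold RR
    rw [hDA, ← c.hs]
    linear_combination -he
  set JJ := ∫ v, aw (δ * L) K v * qf δ T t v with hJJ
  have hn : ‖(2 * Real.pi * RR δ T t : ℂ)‖ = 2 * Real.pi * ‖RR δ T t‖ := by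
    rw [norm_mul, norm_mul, norm_real, Real.norm_eq_abs, abs_of_pos Real.pi_pos]
    simp
  have h2pi : 1 ≤ 2 * Real.pi := by linarith [Real.pi_gt_three]
  have hle : ‖RR δ T t‖ ≤ ‖(2 * Real.pi * RR δ T t : ℂ)‖ := by
    rw [hn]
    exact le_mul_of_one_le_left (norm_nonneg _) h2pi
  refine hle.trans ?_
  rw [hRR]
  refine (norm_add₃_le).trans ?_
  refine (add_le_add (add_le_add hR hLf) ((norm_add_le _ _).trans (add_le_add hmR hmL))).trans ?_
  apply le_of_eq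
  ring

end Cx

end AfeB

/-- (A2) the approximate functional equation with a bump as remainder -/
theorem stAfeB (h1 : F4.StFFr) : StAfeB := by
  intro A
  set K : ℕ := A + 2 with hK
  set C₂ : ℝ := Real.exp 2 * Real.exp 2 * Real.exp (9 / 4) *
      (1 + 2 * Real.exp (9 / 4) * Real.exp (1 / 4)) * AfeB.EK K with hC₂
  have hEK : 0 < AfeB.EK K := by
    unfold AfeB.EK
    have : (0 : ℝ) < K := by
      rw [hK]
      positivity
    positivity
  have hC₂0 : 0 < C₂ := by positivity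
  refine ⟨8 * C₂ ^ 2, by positivity, fun δ hδ hδ1 => ?_⟩
  obtain ⟨r, hr⟩ : ∃ r : ℕ, 2 / δ ≤ (r : ℝ) := exists_nat_ge _
  obtain ⟨CF, hCF, hFF⟩ := h1 r
  set B : ℝ := 2 * (r : ℝ) with hB
  have hBδ : 4 ≤ δ * B := by
    rw [div_le_iff₀ hδ] at hr
    rw [hB]
    linarith
  obtain ⟨C₁, hC₁⟩ : ∃ C₁ : ℝ, C₁ = 2 * ((Real.exp (2 * B ^ 2) * Real.exp (2 * B) *
        Real.exp ((((0 : ℕ) : ℝ) + 2) ^ 2 / 4)) * (2 * 4 ^ K)) +
      2 * ((Real.exp (2 * B ^ 2) * Real.exp (2 * B) *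
        Real.exp ((((0 : ℕ) : ℝ) + 2) ^ 2 / 4)) * 4 ^ K) +
      2 * ((Real.exp (2 * B ^ 2) * Real.exp (2 * B) *
        Real.exp ((((2 * r : ℕ) : ℝ) + 2) ^ 2 / 4)) * (CF * 2 ^ (2 * r) * 2 * 4 ^ K)) +
      2 * ((Real.exp (2 * B ^ 2) * Real.exp (2 * B) *
        Real.exp ((((0 : ℕ) : ℝ) + 2) ^ 2 / 4)) * ((2 * Real.pi) ^ (2 * r) * 4 ^ K)) := ⟨_, rfl⟩
  have hC₁0 : 0 < C₁ := by
    rw [hC₁]
    have := Real.pi_pos
    positivity
  refine ⟨2 * C₁ ^ 2, by positivity, max 3 (max (Real.exp (1 / δ)) (B ^ 2)), le_max_left _ _,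
    fun T hT t ht ht2 => ?_⟩
  have hT3 : 3 ≤ T := (le_max_left _ _).trans hT
  have hTe : Real.exp (1 / δ) ≤ T := ((le_max_left _ _).trans (le_max_right _ _)).trans hT
  have hTB : B ^ 2 ≤ T := ((le_max_right _ _).trans (le_max_right _ _)).trans hT
  have hT0 : 0 < T := by linarith
  have hT1 : 1 ≤ T := by linarith
  set L : ℝ := Real.log T with hL
  have hL1 : 1 / δ ≤ L := by
    rw [hL, Real.le_log_iff_exp_le hT0]
    exact hTe
  have hL0 : 0 < L := lt_of_lt_of_le (by positivity) hL1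
  have hΛ : 1 ≤ δ * L := by
    rw [div_le_iff₀ hδ] at hL1
    linarith
  have hB0 : 0 ≤ B := by rw [hB]; positivity
  have c : AfeB.Cx r K δ (δ / (4 * K)) B T L t (1 / 2 + t * I) := by
    refine ⟨hδ, hδ1, by omega, rfl, rfl, hBδ, hT3, rfl, hΛ, ?_, ?_, ?_, rfl⟩
    · refine le_trans ?_ ht
      calc B ≤ T ^ (1 / 2 : ℝ) := by
            rw [← Real.sqrt_eq_rpow]
            exact Real.le_sqrt_of_sq_le hTB
        _ ≤ T ^ (1 - δ / 4) := Real.rpow_le_rpow_of_exponent_le hT1 (by linarith)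
    · rw [Real.rpow_def_of_pos hT0, mul_comm] at ht
      exact ht
    · rw [Real.rpow_def_of_pos hT0, mul_comm] at ht2
      exact ht2
  have hz := c.core hCF hFF
  rw [← hC₁, ← hC₂] at hz
  have hcs := F4.Afe.cs (a := F4.Afe.aw (δ * L) K) (q := AfeB.qf δ T t)
    (fun v => F4.Afe.aw_nonneg (by linarith) K v) (F4.Afe.aw_int (by linarith) K)
    (by simpa using c.int_qf 1 K) (c.int_qf 2 K) (F4.Afe.aw_total (by linarith) (by omega))
  set J : ℝ := ∫ v : ℝ, F4.Afe.aw (δ * L) K v * AfeB.qf δ T t v with hJ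
  set J2 : ℝ := ∫ v : ℝ, F4.Afe.aw (δ * L) K v * AfeB.qf δ T t v ^ 2 with hJ2
  have hJ2le : J2 ≤ ∫ ν : ℝ, ‖∑ n ∈ Finset.Icc 1 ⌊T⌋₊, qg (fB δ) T ν n *
      fs (1 / 2 + t * I) n‖ ^ 2 * (δ * L * ((1 + δ * L * |ν|) ^ A)⁻¹ *
        Real.exp (-ν ^ 2)) := by
    have h2 : (fun ν : ℝ => ‖∑ n ∈ Finset.Icc 1 ⌊T⌋₊, qg (fB δ) T ν n *
      fs (1 / 2 + t * I) n‖ ^ 2 * (δ * L * ((1 + δ * L * |ν|) ^ A)⁻¹ *
        Real.exp (-ν ^ 2))) =
      fun v => F4.Afe.aw (δ * L) A v * AfeB.qf δ T t v ^ 2 := by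
      funext v
      unfold F4.Afe.aw AfeB.qf
      ring
    rw [h2]
    refine integral_mono (c.int_qf 2 K) (c.int_qf 2 A) fun v => ?_
    simp only
    unfold F4.Afe.aw
    have h3 : ((1 + δ * L * |v|) ^ K)⁻¹ ≤ ((1 + δ * L * |v|) ^ A)⁻¹ := by
      have h4 : 1 ≤ 1 + δ * L * |v| := by
        have : 0 ≤ δ * L * |v| := by positivity
        linarith
      have h5 : (1 + δ * L * |v|) ^ A ≤ (1 + δ * L * |v|) ^ K :=
        pow_le_pow_right₀ h4 (by omega)
      gcongr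
    have := AfeB.qf_nonneg δ T t v
    gcongr
  have hJn : 0 ≤ J := integral_nonneg fun v => mul_nonneg
    (F4.Afe.aw_nonneg (by linarith) _ v) (AfeB.qf_nonneg _ _ _ v)
  have hsq : ‖RR δ T t‖ ^ 2 ≤ 2 * (C₂ * J) ^ 2 + 2 * (C₁ * Real.exp (-L)) ^ 2 := by
    have h3 : ‖RR δ T t‖ ^ 2 ≤ (C₂ * J + C₁ * Real.exp (-L)) ^ 2 :=
      pow_le_pow_left₀ (norm_nonneg _) hz 2
    have h4 := sq_nonneg (C₂ * J - C₁ * Real.exp (-L))
    nlinarith
  have herr : (Real.exp (-L)) ^ 2 ≤ T ^ (-(δ / 8)) := by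
    rw [Real.rpow_def_of_pos hT0, ← Real.exp_nat_mul, ← hL]
    apply Real.exp_le_exp.2
    push_cast
    nlinarith
  calc ‖RR δ T t‖ ^ 2 ≤ 2 * (C₂ * J) ^ 2 + 2 * (C₁ * Real.exp (-L)) ^ 2 := hsq
    _ ≤ 8 * C₂ ^ 2 * J2 + 2 * C₁ ^ 2 * T ^ (-(δ / 8)) := by
        have h5 : 2 * (C₂ * J) ^ 2 ≤ 8 * C₂ ^ 2 * J2 := by
          rw [mul_pow]
          have := mul_le_mul_of_nonneg_left hcs (by positivity : 0 ≤ 2 * C₂ ^ 2)
          linarith
        have h6 : 2 * (C₁ * Real.exp (-L)) ^ 2 ≤ 2 * C₁ ^ 2 * T ^ (-(δ / 8)) := by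
          rw [mul_pow, ← mul_assoc]
          gcongr
        linarith
    _ ≤ _ := by
        gcongr

end K4
end Pool.Agent.Lib.MP_973905_nt
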