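import Pool.Agent.Lib.MP_973905_nt.K4.Stmts

set_option autoImplicit false

/-! (A4) majorants of Karamata type. -/

namespace Pool.Agent.Lib.MP_973905_nt
namespace K4

open MeasureTheory Filter Topology

namespace KarAux

/-- The trapezoid. -/
noncomputable def tz (a b d u : ℝ) : ℝ :=
  max 0 (min 1 (min ((u - (a - d)) / d) (((b + d) - u) / d)))

theorem tz_cont (a b d : ℝ) : Continuous (tz a b d) := by
  unfold tz
  fun_prop

theorem tz_nonneg (a b d u : ℝ) : 0 ≤ tz a b d u := le_max_left _ _

theorem tz_le_one (a b d u : ℝ) : tz a b d u ≤ 1 :=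
  max_le zero_le_one (min_le_left _ _)

theorem tz_left {a b d u : ℝ} (hd : 0 < d) (hu : u ≤ a - d) : tz a b d u = 0 := by
  unfold tz
  apply max_eq_left
  refine (min_le_right _ _).trans ((min_le_left _ _).trans ?_)
  exact div_nonpos_of_nonpos_of_nonneg (by linarith) hd.le

theorem tz_right {a b d u : ℝ} (hd : 0 < d) (hu : b + d ≤ u) : tz a b d u = 0 := by
  unfold tz
  apply max_eq_left
  refine (min_le_right _ _).trans ((min_le_right _ _).trans ?_)
  exact div_nonpos_of_nonpos_of_nonneg (by linarith) hd.le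

theorem tz_mid {a b d u : ℝ} (hd : 0 < d) (h1 : a ≤ u) (h2 : u ≤ b) : tz a b d u = 1 := by
  unfold tz
  have e1 : 1 ≤ (u - (a - d)) / d := by rw [le_div_iff₀ hd]; linarith
  have e2 : 1 ≤ ((b + d) - u) / d := by rw [le_div_iff₀ hd]; linarith
  rw [min_eq_left (le_min e1 e2), max_eq_right zero_le_one]

/-- The function to be approximated. -/
noncomputable def gx (a b d x : ℝ) : ℝ :=
  tz a b d (-Real.log x) / (max (-Real.log x) (a - d)) ^ 11 / max x (Real.exp (-(b + d)))

theorem tzlog_zero {a b d x : ℝ} (hd : 0 < d) (ha : 0 < a - d) (hab : a < b)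
    (hx : |x| < Real.exp (-(b + d))) : tz a b d (-Real.log x) = 0 := by
  by_cases h0 : x = 0
  · rw [h0, Real.log_zero, neg_zero]
    exact tz_left hd ha.le
  · apply tz_right hd
    rw [← Real.log_abs]
    have h1 : Real.log |x| < -(b + d) := by
      rw [Real.log_lt_iff_lt_exp (abs_pos.2 h0)]
      exact hx
    linarith

theorem gx_cont {a b d : ℝ} (hd : 0 < d) (ha : 0 < a - d) (hab : a < b) :
    Continuous (gx a b d) := by
  rw [continuous_iff_continuousAt]
  intro x
  by_cases hx : x = 0
  · subst hx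
    have : gx a b d =ᶠ[𝓝 0] fun _ => (0 : ℝ) := by
      have h1 : ∀ᶠ y : ℝ in 𝓝 0, |y| < Real.exp (-(b + d)) := by
        have h2 : Tendsto (fun y : ℝ => |y|) (𝓝 0) (𝓝 |0|) := continuous_abs.continuousAt
        rw [abs_zero] at h2
        exact h2.eventually (gt_mem_nhds (Real.exp_pos _))
      filter_upwards [h1] with y hy
      unfold gx
      rw [tzlog_zero hd ha hab hy]
      simp
    exact continuousAt_const.congr this.symm
  · have hl : ContinuousAt (fun y : ℝ => -Real.log y) x := (Real.continuousAt_log hx).neg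
    unfold gx
    refine ContinuousAt.div (ContinuousAt.div ?_ ?_ ?_) ?_ ?_
    · exact ContinuousAt.comp (g := tz a b d) (f := fun y : ℝ => -Real.log y)
        (tz_cont a b d).continuousAt hl
    · exact (hl.max continuousAt_const).pow 11
    · have : 0 < max (-Real.log x) (a - d) := lt_of_lt_of_le ha (le_max_right _ _)
      positivity
    · exact continuousAt_id.max continuousAt_const
    · have : 0 < max x (Real.exp (-(b + d))) :=
        lt_of_lt_of_le (Real.exp_pos _) (le_max_right _ _)
      positivity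

theorem gx_eq {a b d u : ℝ} (hd : 0 < d) (ha : 0 < a - d) :
    u ^ 11 * Real.exp (-u) * gx a b d (Real.exp (-u)) = tz a b d u := by
  unfold gx
  rw [Real.log_exp, neg_neg]
  by_cases h1 : u ≤ a - d
  · rw [tz_left hd h1]
    simp
  by_cases h2 : b + d ≤ u
  · rw [tz_right hd h2]
    simp
  · push_neg at h1 h2
    rw [max_eq_left h1.le, max_eq_left (Real.exp_le_exp.2 (by linarith))]
    have h3 : 0 < u := by linarith
    have h4 := Real.exp_pos (-u)
    field_simp

theorem poly_eq (q : Polynomial ℝ) (u : ℝ) :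
    ∑ j ∈ Finset.Icc 1 (q.natDegree + 1), q.coeff (j - 1) * (u ^ 11 * Real.exp (-(j * u))) =
      u ^ 11 * Real.exp (-u) * q.eval (Real.exp (-u)) := by
  rw [Polynomial.eval_eq_sum_range, Finset.mul_sum]
  refine Finset.sum_nbij' (fun j => j - 1) (fun i => i + 1) ?_ ?_ ?_ ?_ ?_
  · intro j hj
    rw [Finset.mem_Icc] at hj
    rw [Finset.mem_range]
    omega
  · intro i hi
    rw [Finset.mem_range] at hi
    rw [Finset.mem_Icc]
    omega
  · intro j hj
    rw [Finset.mem_Icc] at hj
    show j - 1 + 1 = j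
    omega
  · intro i _
    show i + 1 - 1 = i
    omega
  · intro j hj
    rw [Finset.mem_Icc] at hj
    have e : Real.exp (-(j * u)) = Real.exp (-u) * Real.exp (-u) ^ (j - 1) := by
      rw [← pow_succ', Nat.sub_add_cancel hj.1, ← Real.exp_nat_mul]
      congr 1
      ring
    rw [e]
    ring

theorem int_one {r : ℝ} (hr : 0 < r) :
    IntegrableOn (fun u : ℝ => u ^ 11 * Real.exp (-(r * u))) (Set.Ioi 0) ∧
    ∫ u in Set.Ioi (0 : ℝ), u ^ 11 * Real.exp (-(r * u)) = (Nat.factorial 11 : ℕ) / r ^ 12 := by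
  constructor
  · have h := integrableOn_rpow_mul_exp_neg_mul_rpow (p := 1) (s := 11) (b := r) (by norm_num)
      (by norm_num) hr
    refine h.congr_fun (fun x _ => ?_) measurableSet_Ioi
    show x ^ (11 : ℝ) * Real.exp (-r * x ^ (1 : ℝ)) = x ^ 11 * Real.exp (-(r * x))
    rw [Real.rpow_one, show (11 : ℝ) = ((11 : ℕ) : ℝ) by norm_num, Real.rpow_natCast]
    congr 2
    ring
  · have h := Real.integral_rpow_mul_exp_neg_mul_Ioi (a := 12) (r := r) (by norm_num) hr
    have e : ∫ u in Set.Ioi (0 : ℝ), u ^ 11 * Real.exp (-(r * u)) =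
        ∫ t in Set.Ioi (0 : ℝ), t ^ ((12 : ℝ) - 1) * Real.exp (-(r * t)) := by
      refine setIntegral_congr_fun measurableSet_Ioi fun x _ => ?_
      show x ^ 11 * Real.exp (-(r * x)) = x ^ ((12 : ℝ) - 1) * Real.exp (-(r * x))
      rw [show (12 : ℝ) - 1 = ((11 : ℕ) : ℝ) by norm_num, Real.rpow_natCast]
    rw [e, h, show (12 : ℝ) = ((11 : ℕ) : ℝ) + 1 by norm_num, Real.Gamma_nat_eq_factorial,
      show ((11 : ℕ) : ℝ) + 1 = ((12 : ℕ) : ℝ) by norm_num, Real.rpow_natCast]
    rw [one_div, inv_pow]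
    ring

end KarAux

open KarAux in
theorem stKar : StKar := by
  intro u₀ u₁ ε h0 h1 hε
  set d : ℝ := min (u₀ / 2) (ε / 4) with hd
  have hd0 : 0 < d := lt_min (by linarith) (by linarith)
  have hd1 : d ≤ u₀ / 2 := min_le_left _ _
  have hd2 : d ≤ ε / 4 := min_le_right _ _
  have ha : 0 < u₀ - d := by linarith
  set e : ℝ := ε / (4 * (Nat.factorial 11 : ℕ)) with he
  have hF : (0 : ℝ) < (Nat.factorial 11 : ℕ) := by exact_mod_cast Nat.factorial_pos 11
  have he0 : 0 < e := by positivity
  obtain ⟨q, hq⟩ := exists_polynomial_near_of_continuousOn 0 1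
    (fun x => gx u₀ u₁ d x + e) (((gx_cont hd0 ha h1).add continuous_const).continuousOn) e he0
  have hP : ∀ u : ℝ, 0 < u → tz u₀ u₁ d u ≤
      ∑ j ∈ Finset.Icc 1 (q.natDegree + 1), q.coeff (j - 1) * (u ^ 11 * Real.exp (-(j * u))) ∧
      ∑ j ∈ Finset.Icc 1 (q.natDegree + 1), q.coeff (j - 1) * (u ^ 11 * Real.exp (-(j * u))) ≤
      tz u₀ u₁ d u + 2 * e * (u ^ 11 * Real.exp (-(1 * u))) := by
    intro u hu
    rw [poly_eq]
    have hx : Real.exp (-u) ∈ Set.Icc (0 : ℝ) 1 :=
      ⟨(Real.exp_pos _).le, Real.exp_le_one_iff.2 (by linarith)⟩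
    have h2 := abs_lt.1 (hq _ hx)
    have h3 := gx_eq (a := u₀) (b := u₁) (d := d) (u := u) hd0 ha
    have h4 : 0 < u ^ 11 * Real.exp (-u) := by positivity
    rw [← h3, one_mul]
    constructor
    · exact mul_le_mul_of_nonneg_left (by linarith [h2.1]) h4.le
    · have h5 : q.eval (Real.exp (-u)) ≤ gx u₀ u₁ d (Real.exp (-u)) + 2 * e := by
        linarith [h2.2]
      have := mul_le_mul_of_nonneg_left h5 h4.le
      linarith
  refine ⟨q.natDegree + 1, fun j => q.coeff (j - 1), fun u hu => ?_, fun u hu1 hu2 => ?_, ?_⟩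
  · exact (tz_nonneg _ _ _ _).trans (hP u hu).1
  · have := (hP u (by linarith)).1
    rwa [tz_mid hd0 hu1 hu2] at this
  · have hint : ∀ j ∈ Finset.Icc 1 (q.natDegree + 1), IntegrableOn
        (fun u : ℝ => q.coeff (j - 1) * (u ^ 11 * Real.exp (-(j * u)))) (Set.Ioi 0) := by
      intro j hj
      have hj' : (0 : ℝ) < j := by
        have := (Finset.mem_Icc.1 hj).1
        exact_mod_cast (by omega : 0 < j)
      exact (int_one hj').1.const_mul _
    have e1 : ∑ j ∈ Finset.Icc 1 (q.natDegree + 1),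
        q.coeff (j - 1) * ((Nat.factorial 11 : ℕ) / (j : ℝ) ^ 12) =
        ∫ u in Set.Ioi (0 : ℝ), ∑ j ∈ Finset.Icc 1 (q.natDegree + 1),
          q.coeff (j - 1) * (u ^ 11 * Real.exp (-(j * u))) := by
      rw [integral_finset_sum _ hint]
      refine Finset.sum_congr rfl fun j hj => ?_
      have hj' : (0 : ℝ) < j := by
        have := (Finset.mem_Icc.1 hj).1
        exact_mod_cast (by omega : 0 < j)
      rw [integral_const_mul, (int_one hj').2]
    rw [e1]
    have i1 : IntegrableOn (fun u : ℝ => 2 * e * (u ^ 11 * Real.exp (-(1 * u)))) (Set.Ioi 0) :=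
      (int_one one_pos).1.const_mul _
    have i2 : IntegrableOn ((Set.Icc (u₀ - d) (u₁ + d)).indicator (fun _ : ℝ => (1 : ℝ)))
        (Set.Ioi 0) := by
      refine Integrable.integrableOn ?_
      rw [integrable_indicator_iff measurableSet_Icc]
      exact integrableOn_const (by simp) (by simp)
    calc ∫ u in Set.Ioi (0 : ℝ), ∑ j ∈ Finset.Icc 1 (q.natDegree + 1),
          q.coeff (j - 1) * (u ^ 11 * Real.exp (-(j * u)))
        ≤ ∫ u in Set.Ioi (0 : ℝ), ((Set.Icc (u₀ - d) (u₁ + d)).indicator (fun _ : ℝ => (1 : ℝ)) u +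
            2 * e * (u ^ 11 * Real.exp (-(1 * u)))) := by
          refine setIntegral_mono_on (integrable_finset_sum _ hint) (i2.add i1) measurableSet_Ioi
            fun u hu => ?_
          refine (hP u hu).2.trans ?_
          refine add_le_add ?_ le_rfl
          by_cases hm : u ∈ Set.Icc (u₀ - d) (u₁ + d)
          · rw [Set.indicator_of_mem hm]
            exact tz_le_one _ _ _ _
          · rw [Set.indicator_of_notMem hm]
            rw [Set.mem_Icc, not_and_or, not_le, not_le] at hm
            rcases hm with hm | hm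
            · rw [tz_left hd0 hm.le]
            · rw [tz_right hd0 hm.le]
      _ = (u₁ + d - (u₀ - d)) + 2 * e * ((Nat.factorial 11 : ℕ) / 1 ^ 12) := by
          rw [integral_add i2 i1, integral_const_mul, (int_one one_pos).2]
          congr 1
          have hsub : Set.Icc (u₀ - d) (u₁ + d) ⊆ Set.Ioi (0 : ℝ) :=
            fun x hx => lt_of_lt_of_le ha hx.1
          rw [setIntegral_indicator measurableSet_Icc, Set.inter_eq_right.2 hsub]
          simp only [integral_const, smul_eq_mul, mul_one, measureReal_restrict_apply_univ]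
          rw [Real.volume_real_Icc_of_le (by linarith)]
      _ ≤ u₁ - u₀ + ε := by
          have : e * (Nat.factorial 11 : ℕ) = ε / 4 := by
            rw [he]
            field_simp
          rw [one_pow, div_one, mul_assoc, this]
          linarith

end K4
end Pool.Agent.Lib.MP_973905_nt
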