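import Pool.Agent.Lib.MP_973905_nt.K4.GcdSum
import Pool.Agent.Lib.MP_973905_nt.K1.Cross

/-! Module (R5) of K4: the main term of the mean of `|ζ|² |A|²`. -/

namespace Pool.Agent.Lib.MP_973905_nt
namespace K4

open Finset Filter Topology GS
open K1 (Pb)

namespace S1m

/-- one term -/
noncomputable def Wt (l : ℝ) (z : ℝ) : ℝ := 2 * l * Hs z ^ 2 - 2 * Hs z * H1 z

/-- the inner sum -/
noncomputable def Wy (y : ℝ) : ℝ := ∑ g ∈ Ioc 0 ⌊y⌋₊, (g : ℝ)⁻¹ * Wt (Real.log y) (y / g)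

lemma Wy_zero (y : ℝ) (hy : y < 1) : Wy y = 0 := by
  unfold Wy
  rw [Nat.floor_eq_zero.2 hy]
  simp

lemma Wt_bd {l z : ℝ} (hz : 1 ≤ z) (hl : Real.log z ≤ l) :
    |Wt l z - (2 * l * (Real.log z) ^ 2 - (Real.log z) ^ 3)| ≤ 9 * (1 + l) ^ 2 := by
  have hu : 0 ≤ Real.log z := Real.log_nonneg hz
  have h1 := Hs_bd hz
  have h2 := H1_bd hz
  have hH := Hs_nonneg z
  unfold Wt
  set u := Real.log z
  set H := Hs z
  set K := H1 z
  rw [abs_le] at h1 h2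
  obtain ⟨a1, a2⟩ := h1
  obtain ⟨b1, b2⟩ := h2
  have hl0 : 0 ≤ l := by linarith
  have e1 : |H ^ 2 - u ^ 2| ≤ 2 * u + 1 := by
    have : H ^ 2 - u ^ 2 = (H - u) * (H + u) := by ring
    rw [this, abs_mul]
    calc |H - u| * |H + u| ≤ 1 * (2 * u + 1) := by
          gcongr
          · exact abs_le.2 ⟨a1, a2⟩
          · rw [abs_of_nonneg (by linarith)]
            linarith
      _ = 2 * u + 1 := one_mul _
  have e2 : |H * K - u * (u ^ 2 / 2)| ≤ (u ^ 2 / 2 + 2 * u) + u * (2 * u) := by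
    have : H * K - u * (u ^ 2 / 2) = (H - u) * K + u * (K - u ^ 2 / 2) := by ring
    rw [this]
    refine (abs_add_le _ _).trans ?_
    rw [abs_mul, abs_mul, abs_of_nonneg hu]
    have h3 : |K| ≤ u ^ 2 / 2 + 2 * u := by
      rw [abs_le]
      constructor
      · nlinarith [sq_nonneg u]
      · linarith
    have h4 : |K - u ^ 2 / 2| ≤ 2 * u := abs_le.2 ⟨b1, b2⟩
    have h5 : |H - u| ≤ 1 := abs_le.2 ⟨a1, a2⟩
    have h6 : |H - u| * |K| ≤ 1 * (u ^ 2 / 2 + 2 * u) := by gcongr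
    have h7 : u * |K - u ^ 2 / 2| ≤ u * (2 * u) := by gcongr
    linarith
  have e3 : 2 * l * H ^ 2 - 2 * H * K - (2 * l * u ^ 2 - u ^ 3) =
      2 * l * (H ^ 2 - u ^ 2) - 2 * (H * K - u * (u ^ 2 / 2)) := by ring
  rw [e3]
  refine (abs_sub _ _).trans ?_
  rw [abs_mul (2 * l), abs_mul 2 (H * K - u * (u ^ 2 / 2)),
    abs_of_nonneg (by linarith : 0 ≤ 2 * l), abs_of_pos (two_pos : (0 : ℝ) < 2)]
  have f1 : 2 * l * |H ^ 2 - u ^ 2| ≤ 2 * l * (2 * u + 1) := by gcongr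
  have f2 : 2 * l * (2 * u + 1) ≤ 2 * l * (2 * l + 1) := by gcongr
  have f3 : u ^ 2 ≤ l ^ 2 := by gcongr
  nlinarith

lemma Wy_bd (y : ℝ) (hy : 1 ≤ y) :
    |Wy y - 5 / 12 * (Real.log y) ^ 4| ≤ 12 * (1 + Real.log y) ^ 3 := by
  set l := Real.log y with hl
  have hl0 : 0 ≤ l := Real.log_nonneg hy
  have h1 : |Wy y - ∑ g ∈ Ioc 0 ⌊y⌋₊, (g : ℝ)⁻¹ *
      (2 * l * (l - Real.log g) ^ 2 - (l - Real.log g) ^ 3)| ≤ 9 * (1 + l) ^ 3 := by
    unfold Wy
    rw [← Finset.sum_sub_distrib]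
    refine (Finset.abs_sum_le_sum_abs _ _).trans ?_
    have h2 : ∀ g ∈ Ioc 0 ⌊y⌋₊, |(g : ℝ)⁻¹ * Wt l (y / g) - (g : ℝ)⁻¹ *
        (2 * l * (l - Real.log g) ^ 2 - (l - Real.log g) ^ 3)| ≤ (g : ℝ)⁻¹ * (9 * (1 + l) ^ 2) := by
      intro g hg
      obtain ⟨hg0, hgy⟩ := Finset.mem_Ioc.1 hg
      have hg1 : (1 : ℝ) ≤ g := by exact_mod_cast hg0
      have hgy' : (g : ℝ) ≤ y := (Nat.le_floor_iff (by linarith)).1 hgy
      have hz : 1 ≤ y / g := by
        rw [le_div_iff₀ (by linarith)]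
        linarith
      have hlz : Real.log (y / g) = l - Real.log g := by
        rw [Real.log_div (by linarith) (by linarith)]
      have h3 := Wt_bd (l := l) hz (by
        rw [hlz]
        have := Real.log_nonneg hg1
        linarith)
      rw [hlz] at h3
      rw [← mul_sub, abs_mul, abs_of_nonneg (by positivity : (0 : ℝ) ≤ (g : ℝ)⁻¹)]
      gcongr
    refine (Finset.sum_le_sum h2).trans ?_
    rw [← Finset.sum_mul]
    have h4 := K3.DivSum.sum_inv_le y hy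
    calc (∑ g ∈ Ioc 0 ⌊y⌋₊, (g : ℝ)⁻¹) * (9 * (1 + l) ^ 2) ≤ (1 + l) * (9 * (1 + l) ^ 2) := by
          gcongr
      _ = 9 * (1 + l) ^ 3 := by ring
  have h5 : ∑ g ∈ Ioc 0 ⌊y⌋₊, (g : ℝ)⁻¹ * (2 * l * (l - Real.log g) ^ 2 - (l - Real.log g) ^ 3) =
      2 * l * ∑ g ∈ Ioc 0 ⌊y⌋₊, (l - Real.log g) ^ 2 / g -
        ∑ g ∈ Ioc 0 ⌊y⌋₊, (l - Real.log g) ^ 3 / g := by
    rw [Finset.mul_sum, ← Finset.sum_sub_distrib]
    refine Finset.sum_congr rfl fun g _ => ?_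
    ring
  rw [h5] at h1
  have h6 := K3.DivSum.sum_log_pow y hy 2
  have h7 := K3.DivSum.sum_log_pow y hy 3
  rw [← hl] at h6 h7
  norm_num at h6 h7
  set A := ∑ g ∈ Ioc 0 ⌊y⌋₊, (l - Real.log g) ^ 2 / (g : ℝ)
  set B := ∑ g ∈ Ioc 0 ⌊y⌋₊, (l - Real.log g) ^ 3 / (g : ℝ)
  rw [abs_le] at h1 h6 h7 ⊢
  obtain ⟨p1, p2⟩ := h1
  obtain ⟨q1, q2⟩ := h6
  obtain ⟨r1, r2⟩ := h7
  have s1 := mul_le_mul_of_nonneg_left q1 (by linarith : 0 ≤ 2 * l)
  have s2 := mul_le_mul_of_nonneg_left q2 (by linarith : 0 ≤ 2 * l)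
  have hl3 : l ^ 3 ≤ (1 + l) ^ 3 := by
    gcongr
    linarith
  constructor <;> nlinarith

/-- the untruncated sum -/
noncomputable def Tot (x : ℝ) : ℝ := ∑ m ∈ Ioc 0 ⌊x⌋₊, ∑ n ∈ Ioc 0 ⌊x⌋₊,
  ((m.gcd n : ℝ) / (m * n)) *
    (2 * Real.log x - Real.log (m / m.gcd n : ℕ) - Real.log (n / m.gcd n : ℕ))

lemma inner_sum (l : ℝ) (z : ℝ) : ∑ m ∈ Ioc 0 ⌊z⌋₊, ∑ n ∈ Ioc 0 ⌊z⌋₊,
    ((m : ℝ)⁻¹ * (n : ℝ)⁻¹) * (2 * l - Real.log m - Real.log n) = Wt l z := by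
  have h : ∀ m ∈ Ioc 0 ⌊z⌋₊, ∑ n ∈ Ioc 0 ⌊z⌋₊,
      ((m : ℝ)⁻¹ * (n : ℝ)⁻¹) * (2 * l - Real.log m - Real.log n) =
      (m : ℝ)⁻¹ * (2 * l * Hs z) - (Real.log m * (m : ℝ)⁻¹) * Hs z - (m : ℝ)⁻¹ * H1 z := by
    intro m _
    unfold Hs H1
    rw [Finset.mul_sum, Finset.mul_sum, Finset.mul_sum, Finset.mul_sum, ← Finset.sum_sub_distrib,
      ← Finset.sum_sub_distrib]
    refine Finset.sum_congr rfl fun n _ => ?_
    ring
  rw [Finset.sum_congr rfl h, Finset.sum_sub_distrib, Finset.sum_sub_distrib, ← Finset.sum_mul,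
    ← Finset.sum_mul, ← Finset.sum_mul]
  have e1 : ∑ m ∈ Ioc 0 ⌊z⌋₊, (m : ℝ)⁻¹ = Hs z := rfl
  have e2 : ∑ m ∈ Ioc 0 ⌊z⌋₊, Real.log m * (m : ℝ)⁻¹ = H1 z := rfl
  rw [e1, e2]
  unfold Wt
  ring

/-- the term with the gcd replaced by `g` -/
noncomputable def Ph (x : ℝ) (m n g : ℕ) : ℝ :=
  ((g : ℝ) / (m * n)) * (2 * Real.log x - (Real.log m - Real.log g) - (Real.log n - Real.log g))

lemma Tot_eq (x : ℝ) (hx : 1 ≤ x) :
    Tot x = ∑' e : ℕ, mu e / (e : ℝ) ^ 2 * Wy (x / e) := by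
  rw [tsum_eq Wy Wy_zero hx]
  set N := ⌊x⌋₊ with hN
  have h1 : Tot x = ∑ m ∈ Ioc 0 N, ∑ n ∈ Ioc 0 N, ∑ g ∈ Ioc 0 N, ∑ e ∈ Ioc 0 N,
      mu e * (dvi (g * e) m * dvi (g * e) n) * Ph x m n g := by
    unfold Tot
    refine Finset.sum_congr rfl fun m hm => Finset.sum_congr rfl fun n hn => ?_
    rw [Finset.mem_Ioc] at hm hn
    rw [← gcd_expand hm.1 hm.2 (Ph x m n)]
    have hG0 : 0 < m.gcd n := Nat.gcd_pos_of_pos_left n hm.1
    have hGR : ((m.gcd n : ℕ) : ℝ) ≠ 0 := by exact_mod_cast hG0.ne'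
    unfold Ph
    have hm0 : (m : ℝ) ≠ 0 := by exact_mod_cast hm.1.ne'
    have hn0 : (n : ℝ) ≠ 0 := by exact_mod_cast hn.1.ne'
    rw [Nat.cast_div (Nat.gcd_dvd_left m n) hGR, Nat.cast_div (Nat.gcd_dvd_right m n) hGR,
      Real.log_div hm0 hGR, Real.log_div hn0 hGR]
  have h2 : ∑ m ∈ Ioc 0 N, ∑ n ∈ Ioc 0 N, ∑ g ∈ Ioc 0 N, ∑ e ∈ Ioc 0 N,
      mu e * (dvi (g * e) m * dvi (g * e) n) * Ph x m n g =
      ∑ g ∈ Ioc 0 N, ∑ e ∈ Ioc 0 N, mu e * ∑ m ∈ Ioc 0 N, dvi (g * e) m *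
        ∑ n ∈ Ioc 0 N, dvi (g * e) n * Ph x m n g := by
    calc _ = ∑ m ∈ Ioc 0 N, ∑ g ∈ Ioc 0 N, ∑ n ∈ Ioc 0 N, ∑ e ∈ Ioc 0 N,
          mu e * (dvi (g * e) m * dvi (g * e) n) * Ph x m n g :=
          Finset.sum_congr rfl fun m _ => Finset.sum_comm
      _ = ∑ g ∈ Ioc 0 N, ∑ m ∈ Ioc 0 N, ∑ n ∈ Ioc 0 N, ∑ e ∈ Ioc 0 N,
          mu e * (dvi (g * e) m * dvi (g * e) n) * Ph x m n g := Finset.sum_comm
      _ = ∑ g ∈ Ioc 0 N, ∑ m ∈ Ioc 0 N, ∑ e ∈ Ioc 0 N, ∑ n ∈ Ioc 0 N,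
          mu e * (dvi (g * e) m * dvi (g * e) n) * Ph x m n g :=
          Finset.sum_congr rfl fun g _ => Finset.sum_congr rfl fun m _ => Finset.sum_comm
      _ = ∑ g ∈ Ioc 0 N, ∑ e ∈ Ioc 0 N, ∑ m ∈ Ioc 0 N, ∑ n ∈ Ioc 0 N,
          mu e * (dvi (g * e) m * dvi (g * e) n) * Ph x m n g :=
          Finset.sum_congr rfl fun g _ => Finset.sum_comm
      _ = _ := by
          refine Finset.sum_congr rfl fun g _ => Finset.sum_congr rfl fun e _ => ?_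
          rw [Finset.mul_sum]
          refine Finset.sum_congr rfl fun m _ => ?_
          rw [Finset.mul_sum, Finset.mul_sum]
          refine Finset.sum_congr rfl fun n _ => ?_
          ring
  have h3 : ∀ g ∈ Ioc 0 N, ∀ e ∈ Ioc 0 N, mu e * ∑ m ∈ Ioc 0 N, dvi (g * e) m *
        ∑ n ∈ Ioc 0 N, dvi (g * e) n * Ph x m n g =
      mu e / (e : ℝ) ^ 2 * ((g : ℝ)⁻¹ * Wt (Real.log (x / e)) (x / e / g)) := by
    intro g hg e he
    rw [Finset.mem_Ioc] at hg he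
    have hge : 0 < g * e := Nat.mul_pos hg.1 he.1
    have hg0 : (g : ℝ) ≠ 0 := by exact_mod_cast hg.1.ne'
    have he0 : (e : ℝ) ≠ 0 := by exact_mod_cast he.1.ne'
    rw [sum_dvi N hge fun m => ∑ n ∈ Ioc 0 N, dvi (g * e) n * Ph x m n g]
    have h4 : ∀ m ∈ Ioc 0 (N / (g * e)), ∑ n ∈ Ioc 0 N, dvi (g * e) n * Ph x (g * e * m) n g =
        ∑ n ∈ Ioc 0 (N / (g * e)), Ph x (g * e * m) (g * e * n) g := fun m _ =>
      sum_dvi N hge fun n => Ph x (g * e * m) n g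
    rw [Finset.sum_congr rfl h4]
    have hfl : N / (g * e) = ⌊x / e / g⌋₊ := by
      rw [hN, Nat.floor_div_natCast, Nat.floor_div_natCast, Nat.div_div_eq_div_mul, mul_comm g e]
    rw [hfl, ← inner_sum (Real.log (x / e)) (x / e / g), Finset.mul_sum, Finset.mul_sum,
      Finset.mul_sum]
    refine Finset.sum_congr rfl fun m hm => ?_
    rw [Finset.mul_sum, Finset.mul_sum, Finset.mul_sum]
    refine Finset.sum_congr rfl fun n hn => ?_
    rw [Finset.mem_Ioc] at hm hn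
    have hm0 : (m : ℝ) ≠ 0 := by exact_mod_cast hm.1.ne'
    have hn0 : (n : ℝ) ≠ 0 := by exact_mod_cast hn.1.ne'
    unfold Ph
    rw [Nat.cast_mul (g * e) m, Nat.cast_mul (g * e) n, Nat.cast_mul g e,
      Real.log_mul (mul_ne_zero hg0 he0) hm0, Real.log_mul (mul_ne_zero hg0 he0) hn0,
      Real.log_mul hg0 he0, Real.log_div (by linarith) he0]
    field_simp
    ring
  rw [h1, h2, Finset.sum_congr rfl fun g hg => Finset.sum_congr rfl (h3 g hg), Finset.sum_comm]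
  refine Finset.sum_congr rfl fun e he => ?_
  rw [← Finset.mul_sum]
  congr 1
  unfold Wy
  rw [Finset.mem_Ioc] at he
  have hsub : Ioc 0 ⌊x / e⌋₊ ⊆ Ioc 0 N := by
    refine Finset.Ioc_subset_Ioc_right ?_
    rw [Nat.floor_div_natCast]
    exact Nat.div_le_self _ _
  symm
  refine Finset.sum_subset hsub fun g hg hg' => ?_
  rw [Finset.mem_Ioc] at hg
  have h5 : ⌊x / e⌋₊ < g := by
    by_contra hc
    exact hg' (Finset.mem_Ioc.2 ⟨hg.1, not_lt.1 hc⟩)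
  have h6 : ⌊x / e / g⌋₊ = 0 := by
    rw [Nat.floor_div_natCast]
    exact Nat.div_eq_of_lt h5
  unfold Wt Hs H1
  rw [h6]
  simp

lemma Pb_zero' {δ T : ℝ} (hδ : 0 < δ) (hT : 1 < T) {n : ℕ} (h : T ^ (1 / 2 : ℝ) < n) :
    Pb δ (Real.log n / Real.log T) = 0 := by
  have hT0 : 0 < T := by linarith
  apply K1.Cross.Pb_zero hδ
  rw [le_div_iff₀ (Real.log_pos hT)]
  have h1 : Real.log (T ^ (1 / 2 : ℝ)) ≤ Real.log n :=
    Real.log_le_log (Real.rpow_pos_of_pos hT0 _) h.le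
  rw [Real.log_rpow hT0] at h1
  have h2 := Real.log_pos hT
  nlinarith

/-- all terms are nonnegative -/
lemma term_nonneg {x : ℝ} (hx : 1 ≤ x) {m n : ℕ} (hm : 0 < m) (hn : 0 < n) (hmx : (m : ℝ) ≤ x)
    (hnx : (n : ℝ) ≤ x) :
    0 ≤ 2 * Real.log x - Real.log (m / m.gcd n : ℕ) - Real.log (n / m.gcd n : ℕ) := by
  have key : ∀ k d : ℕ, 0 < k → (k : ℝ) ≤ x → Real.log (k / d : ℕ) ≤ Real.log x := by
    intro k d hk hkx
    rcases Nat.eq_zero_or_pos (k / d) with h0 | h0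
    · rw [h0, Nat.cast_zero, Real.log_zero]
      exact Real.log_nonneg hx
    · refine Real.log_le_log (by exact_mod_cast h0) (le_trans ?_ hkx)
      exact_mod_cast Nat.div_le_self k d
  have h1 := key m (m.gcd n) hm hmx
  have h2 := key n (m.gcd n) hn hnx
  linarith

end S1m

open S1m in
/-- (R5) -/
theorem stS1 : StS1 := by
  intro δ η hδ _ hη
  have hlim := tannery Wy (5 / 12) 12 (by norm_num) (by norm_num) Wy_bd Wy_zero
  have h1 : (6 / Real.pi ^ 2 * (5 / 12) : ℝ) < 6 / Real.pi ^ 2 * (5 / 12) + 16 * η := by linarith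
  have h2 := hlim.eventually_lt_const h1
  have h3 : Tendsto (fun T : ℝ => T ^ (1 / 2 : ℝ)) atTop atTop := tendsto_rpow_atTop (by norm_num)
  obtain ⟨T₁, hT₁⟩ := eventually_atTop.1 (h3.eventually h2)
  refine ⟨max 3 T₁, le_max_left _ _, fun T hT => ?_⟩
  have hT3 : 3 ≤ T := (le_max_left _ _).trans hT
  have hT1 : 1 < T := by linarith
  have hT0 : 0 < T := by linarith
  have hlog : 0 < Real.log T := Real.log_pos hT1
  set x : ℝ := T ^ (1 / 2 : ℝ) with hx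
  have hx1 : 1 ≤ x := Real.one_le_rpow hT1.le (by norm_num)
  have hxT : x ≤ T := by
    calc x ≤ T ^ (1 : ℝ) := Real.rpow_le_rpow_of_exponent_le hT1.le (by norm_num)
      _ = T := Real.rpow_one T
  have hlx : 2 * Real.log x = Real.log T := by
    rw [hx, Real.log_rpow hT0]
    ring
  have hterm : ∀ m ∈ Finset.Icc 1 ⌊T⌋₊, ∀ n ∈ Finset.Icc 1 ⌊T⌋₊,
      0 ≤ Pb δ (Real.log m / Real.log T) * Pb δ (Real.log n / Real.log T) *
        ((m.gcd n : ℝ) / (m * n)) *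
        (Real.log T - Real.log (m / m.gcd n : ℕ) - Real.log (n / m.gcd n : ℕ)) := by
    intro m hm n hn
    rw [Finset.mem_Icc] at hm hn
    by_cases hmx : (m : ℝ) ≤ x
    · by_cases hnx : (n : ℝ) ≤ x
      · have := term_nonneg hx1 hm.1 hn.1 hmx hnx
        rw [hlx] at this
        have p1 := K1.Cross.Pb_nonneg δ (Real.log m / Real.log T)
        have p2 := K1.Cross.Pb_nonneg δ (Real.log n / Real.log T)
        positivity
      · rw [Pb_zero' hδ hT1 (not_le.1 hnx)]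
        simp
    · rw [Pb_zero' hδ hT1 (not_le.1 hmx)]
      simp
  constructor
  · unfold S1
    exact Finset.sum_nonneg fun m hm => Finset.sum_nonneg fun n hn => hterm m hm n hn
  · have hle : S1 δ T ≤ Tot x := by
      unfold S1 Tot
      have hsub : Ioc 0 ⌊x⌋₊ ⊆ Finset.Icc 1 ⌊T⌋₊ := by
        intro m hm
        rw [Finset.mem_Ioc] at hm
        exact Finset.mem_Icc.2 ⟨hm.1, hm.2.trans (Nat.floor_mono hxT)⟩
      have hout : ∀ m : ℕ, 0 < m → m ∉ Ioc 0 ⌊x⌋₊ → x < m := by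
        intro m hm hm'
        by_contra hc
        exact hm' (Finset.mem_Ioc.2 ⟨hm, Nat.le_floor (not_lt.1 hc)⟩)
      rw [← Finset.sum_subset hsub]
      · refine Finset.sum_le_sum fun m hm => ?_
        rw [← Finset.sum_subset hsub]
        · refine Finset.sum_le_sum fun n hn => ?_
          rw [Finset.mem_Ioc] at hm hn
          have hmx : (m : ℝ) ≤ x := (Nat.le_floor_iff (by linarith)).1 hm.2
          have hnx : (n : ℝ) ≤ x := (Nat.le_floor_iff (by linarith)).1 hn.2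
          have h5 := term_nonneg hx1 hm.1 hn.1 hmx hnx
          rw [hlx] at h5 ⊢
          have p1 := K1.Cross.Pb_nonneg δ (Real.log m / Real.log T)
          have p2 := K1.Cross.Pb_nonneg δ (Real.log n / Real.log T)
          have q1 := K1.Cross.Pb_le_one δ (Real.log m / Real.log T)
          have q2 := K1.Cross.Pb_le_one δ (Real.log n / Real.log T)
          have h6 : Pb δ (Real.log m / Real.log T) * Pb δ (Real.log n / Real.log T) ≤ 1 :=
            mul_le_one₀ q1 p2 q2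
          have h7 : 0 ≤ ((m.gcd n : ℝ) / (m * n)) *
              (Real.log T - Real.log (m / m.gcd n : ℕ) - Real.log (n / m.gcd n : ℕ)) := by
            positivity
          calc _ = (Pb δ (Real.log m / Real.log T) * Pb δ (Real.log n / Real.log T)) *
                (((m.gcd n : ℝ) / (m * n)) *
                (Real.log T - Real.log (m / m.gcd n : ℕ) - Real.log (n / m.gcd n : ℕ))) := by ring
            _ ≤ 1 * (((m.gcd n : ℝ) / (m * n)) *
                (Real.log T - Real.log (m / m.gcd n : ℕ) - Real.log (n / m.gcd n : ℕ))) := by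
                gcongr
            _ = _ := one_mul _
        · intro n hn hn'
          rw [Finset.mem_Icc] at hn
          rw [Pb_zero' hδ hT1 (hout n hn.1 hn')]
          simp
      · intro m hm hm'
        rw [Finset.mem_Icc] at hm
        refine Finset.sum_eq_zero fun n _ => ?_
        rw [Pb_zero' hδ hT1 (hout m hm.1 hm')]
        simp
    refine hle.trans ?_
    rw [Tot_eq x hx1]
    have h4 := hT₁ T ((le_max_right _ _).trans hT)
    rw [← hx] at h4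
    have hlx0 : 0 < Real.log x := by linarith
    rw [div_lt_iff₀ (by positivity)] at h4
    refine h4.le.trans (le_of_eq ?_)
    have e : Real.log T = 2 * Real.log x := hlx.symm
    rw [e]
    ring

end K4
end Pool.Agent.Lib.MP_973905_nt
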