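import Pool.Agent.Lib.MP_973905_nt.K4.GcdSum
import Pool.Agent.Lib.MP_973905_nt.K1.Cross

/-! Module (R6) of K4: the main term of the mean of `conj ζ² A²`. -/

namespace Pool.Agent.Lib.MP_973905_nt
namespace K4

open Finset Filter Topology GS
open K1 (Pb)

namespace S2m

/-- divisors of a product -/
lemma card_div_mul {m n : ℕ} (hm : 0 < m) (hn : 0 < n) :
    (m * n).divisors.card =
      ((m.divisors ×ˢ n.divisors).filter fun q => q.1.gcd q.2 = 1).card := by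
  symm
  refine Finset.card_nbij' (fun q => m / q.1 * q.2) (fun d => (m / d.gcd m, d / d.gcd m)) ?_ ?_ ?_ ?_
  · rintro ⟨u, b⟩ hq
    simp only [Finset.coe_filter, Finset.mem_product, Nat.mem_divisors, Set.mem_ofPred_eq] at hq
    obtain ⟨⟨⟨h1, _⟩, ⟨h2, _⟩⟩, _⟩ := hq
    simp only [Finset.mem_coe, Nat.mem_divisors]
    exact ⟨Nat.mul_dvd_mul (Nat.div_dvd_of_dvd h1) h2, (Nat.mul_pos hm hn).ne'⟩
  · intro d hd
    simp only [Finset.mem_coe, Nat.mem_divisors] at hd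
    obtain ⟨h1, _⟩ := hd
    have hd0 : 0 < d := Nat.pos_of_dvd_of_pos h1 (Nat.mul_pos hm hn)
    have hg0 : 0 < d.gcd m := Nat.gcd_pos_of_pos_left m hd0
    simp only [Finset.coe_filter, Finset.mem_product, Nat.mem_divisors, Set.mem_ofPred_eq]
    have hcop : (m / d.gcd m).gcd (d / d.gcd m) = 1 := by
      rw [Nat.gcd_comm]
      exact Nat.coprime_div_gcd_div_gcd hg0
    refine ⟨⟨⟨Nat.div_dvd_of_dvd (Nat.gcd_dvd_right d m), hm.ne'⟩, ?_, hn.ne'⟩, hcop⟩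
    have h2 : d / d.gcd m ∣ (m / d.gcd m) * n := by
      rw [Nat.div_mul_right_comm (Nat.gcd_dvd_right d m)]
      exact Nat.div_dvd_div (Nat.gcd_dvd_left d m) h1
    exact (Nat.Coprime.symm hcop).dvd_of_dvd_mul_left h2
  · rintro ⟨u, b⟩ hq
    simp only [Finset.coe_filter, Finset.mem_product, Nat.mem_divisors, Set.mem_ofPred_eq] at hq
    obtain ⟨⟨⟨h1, _⟩, ⟨h2, _⟩⟩, h3⟩ := hq
    obtain ⟨a, rfl⟩ := h1
    have hu : 0 < u := Nat.pos_of_ne_zero fun h => by simp [h] at hm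
    have ha : 0 < a := Nat.pos_of_ne_zero fun h => by simp [h] at hm
    have hb : 0 < b := Nat.pos_of_dvd_of_pos h2 hn
    have e1 : u * a / u = a := Nat.mul_div_cancel_left a hu
    have e2 : (a * b).gcd (u * a) = a := by
      rw [mul_comm u a, Nat.gcd_mul_left, Nat.gcd_comm, h3, mul_one]
    simp only [e1, e2, Prod.mk.injEq]
    exact ⟨Nat.mul_div_cancel u ha, Nat.mul_div_cancel_left b ha⟩
  · intro d hd
    simp only [Finset.mem_coe, Nat.mem_divisors] at hd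
    obtain ⟨h1, _⟩ := hd
    have hd0 : 0 < d := Nat.pos_of_dvd_of_pos h1 (Nat.mul_pos hm hn)
    have hg0 : 0 < d.gcd m := Nat.gcd_pos_of_pos_left m hd0
    simp only
    rw [Nat.div_div_self (Nat.gcd_dvd_right d m) hm.ne']
    exact Nat.mul_div_cancel' (Nat.gcd_dvd_left d m)

lemma dv_mul_eq {m n N : ℕ} (hm : 0 < m) (hn : 0 < n) (hmN : m ≤ N) (hnN : n ≤ N) :
    K3.dv (m * n) = ∑ u ∈ Ioc 0 N, ∑ b ∈ Ioc 0 N,
      (if u.gcd b = 1 then (1 : ℝ) else 0) * (dvi u m * dvi b n) := by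
  unfold K3.dv
  rw [card_div_mul hm hn, Finset.card_filter, Finset.sum_product]
  push_cast
  have h1 : ∀ k : ℕ, 0 < k → k ≤ N → ∀ F : ℕ → ℝ,
      ∑ u ∈ k.divisors, F u = ∑ u ∈ Ioc 0 N, dvi u k * F u := by
    intro k hk hkN F
    unfold dvi
    simp only [ite_mul, one_mul, zero_mul]
    rw [← Finset.sum_filter]
    refine Finset.sum_congr ?_ fun _ _ => rfl
    ext e
    simp only [Finset.mem_filter, Finset.mem_Ioc, Nat.mem_divisors]
    constructor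
    · rintro ⟨h, _⟩
      exact ⟨⟨Nat.pos_of_dvd_of_pos h hk, (Nat.le_of_dvd hk h).trans hkN⟩, h⟩
    · rintro ⟨_, h⟩
      exact ⟨h, hk.ne'⟩
  rw [h1 m hm hmN]
  refine Finset.sum_congr rfl fun u _ => ?_
  rw [h1 n hn hnN, Finset.mul_sum]
  refine Finset.sum_congr rfl fun b _ => ?_
  ring

/-- `∑_{n ≤ y} d(n)/n`, squared -/
noncomputable def Wz (y : ℝ) : ℝ := (K3.DivSum.AA 2 y) ^ 2

lemma Wz_zero (y : ℝ) (hy : y < 1) : Wz y = 0 := by
  unfold Wz K3.DivSum.AA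
  rw [Nat.floor_eq_zero.2 hy]
  simp

lemma Wz_bd : ∃ C : ℝ, 0 ≤ C ∧ ∀ y, 1 ≤ y →
    |Wz y - 1 / 4 * (Real.log y) ^ 4| ≤ C * (1 + Real.log y) ^ 3 := by
  obtain ⟨C, hC, h⟩ := K3.DivSum.AA_asymp 1
  refine ⟨C * (1 + C), by positivity, fun y hy => ?_⟩
  have h1 := h y hy
  have hl : 0 ≤ Real.log y := Real.log_nonneg hy
  have e : ((1 + 1).factorial : ℝ) = 2 := by norm_num [Nat.factorial]
  rw [e] at h1
  have e2 : K3.DivSum.AA (1 + 1) y = K3.DivSum.AA 2 y := rfl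
  rw [e2, pow_one] at h1
  have hA : 0 ≤ K3.DivSum.AA 2 y := K3.DivSum.AA_nonneg 2 y
  unfold Wz
  set A := K3.DivSum.AA 2 y
  set l := Real.log y
  have h2 : A ^ 2 - 1 / 4 * l ^ 4 = (A - l ^ (1 + 1) / 2) * (A + l ^ (1 + 1) / 2) := by ring
  have h3 : |A + l ^ (1 + 1) / 2| ≤ (1 + C) * (1 + l) ^ 2 := by
    rw [abs_of_nonneg (by positivity)]
    have h4 := (abs_le.1 h1).2
    nlinarith [mul_nonneg hC hl]
  rw [h2, abs_mul]
  calc |A - l ^ (1 + 1) / 2| * |A + l ^ (1 + 1) / 2| ≤ (C * (1 + l)) * ((1 + C) * (1 + l) ^ 2) := by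
        gcongr
    _ = C * (1 + C) * (1 + l) ^ 3 := by ring

/-- the untruncated sum -/
noncomputable def Tot (x : ℝ) : ℝ := ∑ m ∈ Ioc 0 ⌊x⌋₊, ∑ n ∈ Ioc 0 ⌊x⌋₊,
  K3.dv (m * n) / (m * n)

lemma AA_one (z : ℝ) : K3.DivSum.AA 1 z = Hs z := by
  unfold K3.DivSum.AA Hs
  refine Finset.sum_congr rfl fun m _ => ?_
  rw [pow_one, K3.DivSum.zi_apply]

lemma Tot_eq (x : ℝ) (hx : 1 ≤ x) :
    Tot x = ∑' e : ℕ, mu e / (e : ℝ) ^ 2 * Wz (x / e) := by
  rw [tsum_eq Wz Wz_zero hx]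
  set N := ⌊x⌋₊ with hN
  have h1 : Tot x = ∑ m ∈ Ioc 0 N, ∑ n ∈ Ioc 0 N, ∑ u ∈ Ioc 0 N, ∑ b ∈ Ioc 0 N, ∑ e ∈ Ioc 0 N,
      mu e * (dvi e u * (dvi u m * (m : ℝ)⁻¹)) * (dvi e b * (dvi b n * (n : ℝ)⁻¹)) := by
    unfold Tot
    refine Finset.sum_congr rfl fun m hm => Finset.sum_congr rfl fun n hn => ?_
    rw [Finset.mem_Ioc] at hm hn
    rw [dv_mul_eq hm.1 hn.1 hm.2 hn.2, Finset.sum_div]
    refine Finset.sum_congr rfl fun u hu => ?_
    rw [Finset.sum_div]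
    refine Finset.sum_congr rfl fun b hb => ?_
    rw [Finset.mem_Ioc] at hu hb
    rw [coprime_expand hu.1 hu.2, Finset.sum_mul, Finset.sum_div]
    refine Finset.sum_congr rfl fun e _ => ?_
    rw [div_eq_mul_inv, mul_inv]
    ring
  have h2 : Tot x = ∑ e ∈ Ioc 0 N, mu e *
      (∑ u ∈ Ioc 0 N, dvi e u * ∑ m ∈ Ioc 0 N, dvi u m * (m : ℝ)⁻¹) ^ 2 := by
    have h3 : ∀ e : ℕ, mu e *
        (∑ u ∈ Ioc 0 N, dvi e u * ∑ m ∈ Ioc 0 N, dvi u m * (m : ℝ)⁻¹) ^ 2 =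
        ∑ m ∈ Ioc 0 N, ∑ n ∈ Ioc 0 N, ∑ u ∈ Ioc 0 N, ∑ b ∈ Ioc 0 N,
          mu e * (dvi e u * (dvi u m * (m : ℝ)⁻¹)) * (dvi e b * (dvi b n * (n : ℝ)⁻¹)) := by
      intro e
      have h4 : ∑ u ∈ Ioc 0 N, dvi e u * ∑ m ∈ Ioc 0 N, dvi u m * (m : ℝ)⁻¹ =
          ∑ m ∈ Ioc 0 N, ∑ u ∈ Ioc 0 N, dvi e u * (dvi u m * (m : ℝ)⁻¹) := by
        rw [Finset.sum_comm]
        refine Finset.sum_congr rfl fun u _ => ?_
        rw [Finset.mul_sum]
      rw [h4, sq, Finset.sum_mul, Finset.mul_sum]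
      refine Finset.sum_congr rfl fun m _ => ?_
      rw [Finset.mul_sum, Finset.mul_sum]
      refine Finset.sum_congr rfl fun n _ => ?_
      rw [Finset.sum_mul_sum, Finset.mul_sum]
      refine Finset.sum_congr rfl fun u _ => ?_
      rw [Finset.mul_sum]
      refine Finset.sum_congr rfl fun b _ => ?_
      ring
    rw [h1, Finset.sum_congr rfl fun e _ => h3 e]
    calc _ = ∑ m ∈ Ioc 0 N, ∑ n ∈ Ioc 0 N, ∑ u ∈ Ioc 0 N, ∑ e ∈ Ioc 0 N, ∑ b ∈ Ioc 0 N,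
          mu e * (dvi e u * (dvi u m * (m : ℝ)⁻¹)) * (dvi e b * (dvi b n * (n : ℝ)⁻¹)) :=
          Finset.sum_congr rfl fun m _ => Finset.sum_congr rfl fun n _ =>
            Finset.sum_congr rfl fun u _ => Finset.sum_comm
      _ = ∑ m ∈ Ioc 0 N, ∑ n ∈ Ioc 0 N, ∑ e ∈ Ioc 0 N, ∑ u ∈ Ioc 0 N, ∑ b ∈ Ioc 0 N,
          mu e * (dvi e u * (dvi u m * (m : ℝ)⁻¹)) * (dvi e b * (dvi b n * (n : ℝ)⁻¹)) :=
          Finset.sum_congr rfl fun m _ => Finset.sum_congr rfl fun n _ => Finset.sum_comm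
      _ = ∑ m ∈ Ioc 0 N, ∑ e ∈ Ioc 0 N, ∑ n ∈ Ioc 0 N, ∑ u ∈ Ioc 0 N, ∑ b ∈ Ioc 0 N,
          mu e * (dvi e u * (dvi u m * (m : ℝ)⁻¹)) * (dvi e b * (dvi b n * (n : ℝ)⁻¹)) :=
          Finset.sum_congr rfl fun m _ => Finset.sum_comm
      _ = _ := Finset.sum_comm
  rw [h2]
  refine Finset.sum_congr rfl fun e he => ?_
  rw [Finset.mem_Ioc] at he
  have he0 : (e : ℝ) ≠ 0 := by exact_mod_cast he.1.ne'
  have h5 : ∀ u ∈ Ioc 0 N, dvi e u * ∑ m ∈ Ioc 0 N, dvi u m * (m : ℝ)⁻¹ =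
      dvi e u * ((u : ℝ)⁻¹ * Hs (x / u)) := by
    intro u hu
    rw [Finset.mem_Ioc] at hu
    rw [sum_dvi N hu.1 fun m => (m : ℝ)⁻¹]
    congr 1
    unfold Hs
    rw [Nat.floor_div_natCast, Finset.mul_sum]
    refine Finset.sum_congr rfl fun m _ => ?_
    rw [Nat.cast_mul, mul_inv]
  rw [Finset.sum_congr rfl h5, sum_dvi N he.1 fun u => (u : ℝ)⁻¹ * Hs (x / u)]
  have h6 : ∑ m ∈ Ioc 0 (N / e), (((e * m : ℕ) : ℝ)⁻¹ * Hs (x / ((e * m : ℕ) : ℝ))) =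
      (e : ℝ)⁻¹ * K3.DivSum.AA 2 (x / e) := by
    rw [show (2 : ℕ) = 1 + 1 from rfl, K3.DivSum.AA_succ, Finset.mul_sum, Nat.floor_div_natCast]
    refine Finset.sum_congr rfl fun m _ => ?_
    rw [AA_one, Nat.cast_mul, mul_inv, div_div]
    ring
  rw [h6]
  unfold Wz
  rw [mul_pow, inv_pow]
  ring

lemma Pb_zero' {δ T : ℝ} (hδ : 0 < δ) (hT : 1 < T) {n : ℕ} (h : T ^ (1 / 2 : ℝ) < n) :
    Pb δ (Real.log n / Real.log T) = 0 := by
  have hT0 : 0 < T := by linarith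
  apply K1.Cross.Pb_zero hδ
  rw [le_div_iff₀ (Real.log_pos hT)]
  have h1 : Real.log (T ^ (1 / 2 : ℝ)) ≤ Real.log n :=
    Real.log_le_log (Real.rpow_pos_of_pos hT0 _) h.le
  rw [Real.log_rpow hT0] at h1
  have h2 := Real.log_pos hT
  nlinarith

lemma dv_nonneg (n : ℕ) : 0 ≤ K3.dv n := Nat.cast_nonneg _

end S2m

open S2m in
/-- (R6) -/
theorem stS2 : StS2 := by
  intro δ η hδ _ hη
  obtain ⟨C, hC, hW⟩ := Wz_bd
  have hlim := tannery Wz (1 / 4) C (by norm_num) hC hW Wz_zero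
  have h1 : (6 / Real.pi ^ 2 * (1 / 4) : ℝ) < 6 / Real.pi ^ 2 * (1 / 4) + 16 * η := by linarith
  have h2 := hlim.eventually_lt_const h1
  have h3 : Tendsto (fun T : ℝ => T ^ (1 / 2 : ℝ)) atTop atTop := tendsto_rpow_atTop (by norm_num)
  obtain ⟨T₁, hT₁⟩ := eventually_atTop.1 (h3.eventually h2)
  refine ⟨max 3 T₁, le_max_left _ _, fun T hT => ?_⟩
  have hT3 : 3 ≤ T := (le_max_left _ _).trans hT
  have hT1 : 1 < T := by linarith
  have hT0 : 0 < T := by linarith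
  have hlog : 0 < Real.log T := Real.log_pos hT1
  set x : ℝ := T ^ (1 / 2 : ℝ) with hx
  have hx1 : 1 ≤ x := Real.one_le_rpow hT1.le (by norm_num)
  have hxT : x ≤ T := by
    calc x ≤ T ^ (1 : ℝ) := Real.rpow_le_rpow_of_exponent_le hT1.le (by norm_num)
      _ = T := Real.rpow_one T
  have hlx : 2 * Real.log x = Real.log T := by
    rw [hx, Real.log_rpow hT0]
    ring
  constructor
  · unfold S2
    refine Finset.sum_nonneg fun m _ => Finset.sum_nonneg fun n _ => ?_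
    have p1 := K1.Cross.Pb_nonneg δ (Real.log m / Real.log T)
    have p2 := K1.Cross.Pb_nonneg δ (Real.log n / Real.log T)
    have p3 := dv_nonneg (m * n)
    positivity
  · have hle : S2 δ T ≤ Tot x := by
      unfold S2 Tot
      have hsub : Ioc 0 ⌊x⌋₊ ⊆ Finset.Icc 1 ⌊T⌋₊ := by
        intro m hm
        rw [Finset.mem_Ioc] at hm
        exact Finset.mem_Icc.2 ⟨hm.1, hm.2.trans (Nat.floor_mono hxT)⟩
      have hout : ∀ m : ℕ, 0 < m → m ∉ Ioc 0 ⌊x⌋₊ → x < m := by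
        intro m hm hm'
        by_contra hc
        exact hm' (Finset.mem_Ioc.2 ⟨hm, Nat.le_floor (not_lt.1 hc)⟩)
      rw [← Finset.sum_subset hsub]
      · refine Finset.sum_le_sum fun m hm => ?_
        rw [← Finset.sum_subset hsub]
        · refine Finset.sum_le_sum fun n hn => ?_
          have p1 := K1.Cross.Pb_nonneg δ (Real.log m / Real.log T)
          have p2 := K1.Cross.Pb_nonneg δ (Real.log n / Real.log T)
          have q1 := K1.Cross.Pb_le_one δ (Real.log m / Real.log T)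
          have q2 := K1.Cross.Pb_le_one δ (Real.log n / Real.log T)
          have p3 := dv_nonneg (m * n)
          have h6 : Pb δ (Real.log m / Real.log T) * Pb δ (Real.log n / Real.log T) ≤ 1 :=
            mul_le_one₀ q1 p2 q2
          gcongr
          calc _ ≤ 1 * K3.dv (m * n) := by gcongr
            _ = _ := one_mul _
        · intro n hn hn'
          rw [Finset.mem_Icc] at hn
          rw [Pb_zero' hδ hT1 (hout n hn.1 hn')]
          simp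
      · intro m hm hm'
        rw [Finset.mem_Icc] at hm
        refine Finset.sum_eq_zero fun n _ => ?_
        rw [Pb_zero' hδ hT1 (hout m hm.1 hm')]
        simp
    refine hle.trans ?_
    rw [Tot_eq x hx1]
    have h4 := hT₁ T ((le_max_right _ _).trans hT)
    rw [← hx] at h4
    have hlx0 : 0 < Real.log x := by linarith
    rw [div_lt_iff₀ (by positivity)] at h4
    refine h4.le.trans (le_of_eq ?_)
    have e : Real.log T = 2 * Real.log x := hlx.symm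
    rw [e]
    ring

end K4
end Pool.Agent.Lib.MP_973905_nt
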