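import Pool.Agent.Lib.MP_973905_nt.K4.Stmts
import Pool.Agent.Lib.MP_973905_nt.F4.Cr4
import Pool.Agent.Lib.MP_973905_nt.F4.Dy
import Pool.Agent.Lib.MP_973905_nt.Len2

/-! (A3) the remainder in the approximate functional equation is small in the mean. -/

namespace Pool.Agent.Lib.MP_973905_nt
namespace K4

open MeasureTheory ProbabilityTheory Complex Filter Topology K1 F4

namespace BumpX

open Cr4 (zcont fs_le HP_le w w_cont w_nonneg w_le int_exp int_exp_val int_inv int_inv_val w_one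
  w_two wt_ge)

/-! ### The cutoff of the bump -/

lemma cutK_fB {δ : ℝ} (h0 : 0 < δ) (h1 : δ ≤ 1 / 2000) : CutK (fB δ) where
  cut :=
    { smooth := by
        have e1 : ContDiff ℝ ((⊤ : ℕ∞) : WithTop ℕ∞)
            (fun x : ℝ => (1 / 2 + 2 * δ - x) / δ) := by fun_prop
        have e2 : ContDiff ℝ ((⊤ : ℕ∞) : WithTop ℕ∞) (fun x : ℝ => x + 2) := by fun_prop
        have e3 : ContDiff ℝ ((⊤ : ℕ∞) : WithTop ℕ∞)
            (fun x : ℝ => x + (1 / 2 - x) / δ) := by fun_prop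
        have e4 : ContDiff ℝ ((⊤ : ℕ∞) : WithTop ℕ∞) (Pc δ) :=
          ((Real.smoothTransition.contDiff (n := ⊤)).comp e1).mul
            ((Real.smoothTransition.contDiff (n := ⊤)).comp e2)
        exact (Real.contDiff_exp.comp e3).mul (e4.sub (FourG.cut_Pb h0).smooth)
      zero := by
        intro x hx
        have e1 : Pc δ x = 0 := by
          rw [Pc, Real.smoothTransition.zero_of_nonpos, zero_mul]
          apply div_nonpos_of_nonpos_of_nonneg _ h0.le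
          linarith
        rw [fB, e1, (FourG.cut_Pb h0).zero x hx, sub_zero, mul_zero]
      zero' := by
        intro x hx
        have e1 : Pc δ x = 0 := by
          rw [Pc, Real.smoothTransition.zero_of_nonpos (x := x + 2) (by linarith), mul_zero]
        rw [fB, e1, (FourG.cut_Pb h0).zero' x hx, sub_zero, mul_zero] }
  zeroK := by
    intro x hx
    have e1 : Pc δ x = 0 := by
      rw [Pc, Real.smoothTransition.zero_of_nonpos, zero_mul]
      apply div_nonpos_of_nonpos_of_nonneg _ h0.le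
      linarith
    have e2 : Pb δ x = 0 := by
      rw [Pb, Real.smoothTransition.zero_of_nonpos, zero_mul]
      apply div_nonpos_of_nonpos_of_nonneg _ h0.le
      linarith
    rw [fB, e1, e2, sub_zero, mul_zero]

/-! ### The smooth polynomial -/

noncomputable def Qp (φ : ℝ → ℝ) (T ν t : ℝ) : ℂ :=
  ∑ n ∈ Finset.Icc 1 ⌊T⌋₊, qg φ T ν n * fs (1 / 2 + t * I) n

lemma Qp_le (φ : ℝ → ℝ) {T : ℝ} (hT : 1 < T) (ν t : ℝ) :
    ‖Qp φ T ν t‖ ≤ ∑ n ∈ Finset.Icc 1 ⌊T⌋₊, |φ (Real.log n / Real.log T)| := by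
  unfold Qp
  refine (norm_sum_le _ _).trans (Finset.sum_le_sum fun n hn => ?_)
  have hn := (Finset.mem_Icc.1 hn).1
  have hL : 0 < Real.log T := Real.log_pos hT
  have hn1 : (1 : ℝ) ≤ n := by exact_mod_cast hn
  rw [norm_mul, qg, norm_mul, norm_real, Real.norm_eq_abs, norm_natCast_cpow_of_pos (by omega)]
  have h1 : (n : ℝ) ^ (-(((1 / Real.log T : ℝ) : ℂ) + ν * I)).re ≤ 1 := by
    apply Real.rpow_le_one_of_one_le_of_nonpos hn1
    have : 0 < 1 / Real.log T := by positivity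
    simp only [neg_re, add_re, ofReal_re, mul_re, I_re, mul_zero, ofReal_im, I_im, mul_one,
      sub_self, add_zero]
    linarith
  have h2 := fs_le t hn
  calc |φ (Real.log n / Real.log T)| * (n : ℝ) ^ (-(((1 / Real.log T : ℝ) : ℂ) + ν * I)).re *
        ‖fs (1 / 2 + t * I) n‖ ≤ |φ (Real.log n / Real.log T)| * 1 * 1 := by gcongr
    _ = _ := by ring

lemma Qp_cont (φ : ℝ → ℝ) {T : ℝ} : Continuous fun p : ℝ × ℝ => Qp φ T p.2 p.1 := by
  unfold Qp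
  refine continuous_finsetSum _ fun n hn => ?_
  have hn0 : (n : ℂ) ≠ 0 := by
    have := (Finset.mem_Icc.1 hn).1
    exact_mod_cast (by omega : n ≠ 0)
  unfold fs qg
  refine (continuous_const.mul (Continuous.const_cpow ?_ (Or.inl hn0))).mul
    (Continuous.const_cpow ?_ (Or.inl hn0))
  · fun_prop
  · fun_prop

/-- The Tonelli step. -/
theorem tonelli {φ : ℝ → ℝ} {T X L' : ℝ} (hT : 3 ≤ T) (hL' : 1 ≤ L') (hX : 1 ≤ X) {b : ℕ → ℂ}
    (hprod : ∀ ν t : ℝ, HP (Nh T) (cg φ T ν b) t = Qp φ T ν t * HP (Na T) b t)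
    {m : ℕ} {D₁ D₂ : ℝ} (hD1 : 0 ≤ D₁) (hD2 : 0 ≤ D₂)
    (htw : ∀ ν : ℝ, IntegrableOn (fun t : ℝ => ‖riemannZeta (1 / 2 + t * I)‖ ^ 2 *
      ‖HP (Nh T) (cg φ T ν b) t‖ ^ 2 * Wr X t) (Set.Ioi 0) ∧
    ∫ t in Set.Ioi (0 : ℝ), ‖riemannZeta (1 / 2 + t * I)‖ ^ 2 *
      ‖HP (Nh T) (cg φ T ν b) t‖ ^ 2 * Wr X t ≤ D₁ * (1 + L' * |ν|) ^ m + D₂ * (1 + |ν|))
    {R : ℝ → ℝ} {Ca E : ℝ} (hCa : 0 ≤ Ca)
    (hR : ∀ t ∈ Set.Ioc X (2 * X), R t ≤ Ca * (∫ ν : ℝ, ‖Qp φ T ν t‖ ^ 2 *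
      (L' * ((1 + L' * |ν|) ^ (m + 2))⁻¹ * Real.exp (-ν ^ 2))) + E) (hR0 : ∀ t, 0 ≤ R t) :
    ∫ t in X..(2 * X), ‖riemannZeta (1 / 2 + t * I)‖ ^ 2 * R t * ‖HP (Na T) b t‖ ^ 2 ≤
      X * (Ca * Real.exp 2 * (4 * D₁ + 2 * L' * D₂)) +
      E * ∫ t in X..(2 * X), ‖riemannZeta (1 / 2 + t * I)‖ ^ 2 * ‖HP (Na T) b t‖ ^ 2 := by
  have hT1 : 1 < T := by linarith
  have hX0 : 0 < X := by linarith
  have hL0 : 0 < L' := by linarith
  set Z : ℝ → ℝ := fun t => ‖riemannZeta (1 / 2 + t * I)‖ with hZ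
  have hZc : Continuous Z := zcont.norm
  set P : ℝ → ℝ := fun t => ‖HP (Na T) b t‖ with hP
  have hPc : Continuous P := (Left4.hp_cont _ _).norm
  set G : ℝ → ℝ := fun t => Z t ^ 2 * P t ^ 2 with hG
  have hGc : Continuous G := (hZc.pow 2).mul (hPc.pow 2)
  have hG0 : ∀ t, 0 ≤ G t := fun t => by simp only [hG]; positivity
  obtain ⟨D, hD⟩ := isCompact_Icc.exists_bound_of_continuousOn (s := Set.Icc X (2 * X)) (f := G)
    hGc.continuousOn
  set KQ : ℝ := ∑ n ∈ Finset.Icc 1 ⌊T⌋₊, |φ (Real.log n / Real.log T)| with hKQ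
  have hQle : ∀ ν t, ‖Qp φ T ν t‖ ≤ KQ := Qp_le φ hT1
  have hKQ0 : 0 ≤ KQ := Finset.sum_nonneg fun n _ => abs_nonneg _
  set F : ℝ × ℝ → ℝ := fun p => G p.1 * ‖Qp φ T p.2 p.1‖ ^ 2 * w L' (m + 2) p.2 with hF
  have hFc : Continuous F :=
    ((hGc.comp continuous_fst).mul ((Qp_cont φ).norm.pow 2)).mul
      ((w_cont hL0 _).comp continuous_snd)
  have hF0 : ∀ p, 0 ≤ F p := fun p => by
    have h1 := w_nonneg hL0 (m + 2) p.2
    have h2 := hG0 p.1
    simp only [hF]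
    positivity
  have hFint : Integrable F ((volume.restrict (Set.Ioc X (2 * X))).prod volume) := by
    have h1 : Integrable (fun p : ℝ × ℝ => (D * KQ ^ 2) * Real.exp (-p.2 ^ 2))
        ((volume.restrict (Set.Ioc X (2 * X))).prod volume) := by
      have := (integrable_const (μ := volume.restrict (Set.Ioc X (2 * X)))
        (D * KQ ^ 2)).mul_prod int_exp
      exact this
    refine h1.mono' hFc.aestronglyMeasurable ?_
    have h2 : ∀ᵐ p ∂((volume.restrict (Set.Ioc X (2 * X))).prod (volume : Measure ℝ)),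
        p.1 ∈ Set.Ioc X (2 * X) := by
      have h3 : ∀ᵐ t ∂(volume.restrict (Set.Ioc X (2 * X))), t ∈ Set.Ioc X (2 * X) :=
        ae_restrict_mem measurableSet_Ioc
      exact Measure.quasiMeasurePreserving_fst.ae h3
    filter_upwards [h2] with p hp
    rw [Real.norm_eq_abs, abs_of_nonneg (hF0 p)]
    simp only [hF]
    have h3 := hD p.1 (Set.Ioc_subset_Icc_self hp)
    rw [Real.norm_eq_abs, abs_of_nonneg (hG0 p.1)] at h3
    have h4 := hQle p.2 p.1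
    have h6 := w_le hL0 (m + 2) p.2
    have h7 := w_nonneg hL0 (m + 2) p.2
    have h8 := hG0 p.1
    have h9 : 0 ≤ D := h8.trans h3
    gcongr
  -- the pointwise bound
  have hpt : ∀ t ∈ Set.Ioc X (2 * X), Z t ^ 2 * R t * P t ^ 2 ≤
      Ca * L' * (∫ ν, F (t, ν)) + E * G t := by
    intro t ht
    have h1 := hR t ht
    have h2 : ∫ ν, F (t, ν) = G t * ∫ ν : ℝ, ‖Qp φ T ν t‖ ^ 2 * w L' (m + 2) ν := by
      rw [← integral_const_mul]
      congr 1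
      funext ν
      simp only [hF]
      ring
    have h3 : ∫ ν : ℝ, ‖Qp φ T ν t‖ ^ 2 * (L' * ((1 + L' * |ν|) ^ (m + 2))⁻¹ *
        Real.exp (-ν ^ 2)) = L' * ∫ ν : ℝ, ‖Qp φ T ν t‖ ^ 2 * w L' (m + 2) ν := by
      rw [← integral_const_mul]
      congr 1
      funext ν
      simp only [w]
      ring
    rw [h3] at h1
    rw [h2]
    calc Z t ^ 2 * R t * P t ^ 2 = G t * R t := by simp only [hG]; ring
      _ ≤ G t * (Ca * (L' * ∫ ν : ℝ, ‖Qp φ T ν t‖ ^ 2 * w L' (m + 2) ν) + E) :=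
        mul_le_mul_of_nonneg_left h1 (hG0 t)
      _ = _ := by ring
  -- integrate
  have hswap : ∫ t in Set.Ioc X (2 * X), ∫ ν, F (t, ν) =
      ∫ ν, ∫ t in Set.Ioc X (2 * X), F (t, ν) :=
    integral_integral_swap hFint
  have hinner : ∀ ν, ∫ t in Set.Ioc X (2 * X), F (t, ν) ≤ Real.exp 2 * X *
      (D₁ * (1 + (L' * ν) ^ 2)⁻¹ + D₂ * Real.exp (-ν ^ 2)) := by
    intro ν
    obtain ⟨hi, hle⟩ := htw ν
    have hw0 := w_nonneg hL0 (m + 2) ν
    have h1 : ∫ t in Set.Ioc X (2 * X), F (t, ν) =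
        w L' (m + 2) ν * ∫ t in Set.Ioc X (2 * X), Z t ^ 2 * ‖HP (Nh T) (cg φ T ν b) t‖ ^ 2 := by
      rw [← integral_const_mul]
      congr 1
      funext t
      simp only [hF, hG, hprod, norm_mul, hP]
      ring
    set g : ℝ → ℝ := fun t => ‖riemannZeta (1 / 2 + t * I)‖ ^ 2 *
      ‖HP (Nh T) (cg φ T ν b) t‖ ^ 2 * Wr X t with hg
    have hsub : Set.Ioc X (2 * X) ⊆ Set.Ioi (0 : ℝ) := fun t ht => hX0.trans ht.1
    have h2 : ∫ t in Set.Ioc X (2 * X), Z t ^ 2 * ‖HP (Nh T) (cg φ T ν b) t‖ ^ 2 ≤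
        ∫ t in Set.Ioc X (2 * X), Real.exp 2 * X * g t := by
      refine setIntegral_mono_on ?_ ((hi.mono_set hsub).const_mul _) measurableSet_Ioc
        fun t ht => ?_
      · exact (((hZc.pow 2).mul
          ((Left4.hp_cont _ _).norm.pow 2)).continuousOn.integrableOn_Icc).mono_set
          Set.Ioc_subset_Icc_self
      · have h3 := wt_ge hX0 ht.1.le ht.2
        simp only [hg, Wr]
        have h4 : 0 ≤ Z t ^ 2 * ‖HP (Nh T) (cg φ T ν b) t‖ ^ 2 := by positivity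
        calc Z t ^ 2 * ‖HP (Nh T) (cg φ T ν b) t‖ ^ 2
            ≤ Z t ^ 2 * ‖HP (Nh T) (cg φ T ν b) t‖ ^ 2 *
              (Real.exp 2 * X * (X⁻¹ * (t / X) ^ 11 * Real.exp (-(t / X)))) :=
              le_mul_of_one_le_right h4 h3
          _ = _ := by ring
    have h3 : ∫ t in Set.Ioc X (2 * X), Real.exp 2 * X * g t ≤
        Real.exp 2 * X * ∫ t in Set.Ioi (0 : ℝ), g t := by
      rw [integral_const_mul]
      refine mul_le_mul_of_nonneg_left ?_ (by positivity)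
      refine setIntegral_mono_set hi ?_ (LE.le.eventuallyLE hsub)
      rw [EventuallyLE, ae_restrict_iff' measurableSet_Ioi]
      refine Filter.Eventually.of_forall fun t ht => ?_
      have ht0 : (0 : ℝ) < t := ht
      simp only [hg, Wr, Pi.zero_apply]
      positivity
    have h4 : ∫ t in Set.Ioc X (2 * X), Z t ^ 2 * ‖HP (Nh T) (cg φ T ν b) t‖ ^ 2 ≤
        Real.exp 2 * X * (D₁ * (1 + L' * |ν|) ^ m + D₂ * (1 + |ν|)) := by
      refine (h2.trans h3).trans ?_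
      gcongr
    rw [h1]
    have hw1 := w_one hL' m ν
    have hw2 := w_two hL' m ν
    calc w L' (m + 2) ν * ∫ t in Set.Ioc X (2 * X), Z t ^ 2 * ‖HP (Nh T) (cg φ T ν b) t‖ ^ 2
        ≤ w L' (m + 2) ν *
          (Real.exp 2 * X * (D₁ * (1 + L' * |ν|) ^ m + D₂ * (1 + |ν|))) := by gcongr
      _ = Real.exp 2 * X * (D₁ * ((1 + L' * |ν|) ^ m * w L' (m + 2) ν) +
          D₂ * ((1 + |ν|) * w L' (m + 2) ν)) := by ring
      _ ≤ _ := by gcongr
  have hXX : X ≤ 2 * X := by linarith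
  rw [intervalIntegral.integral_of_le hXX, intervalIntegral.integral_of_le hXX]
  have hI2 : IntegrableOn (fun t => ∫ ν, F (t, ν)) (Set.Ioc X (2 * X)) := hFint.integral_prod_left
  have hI3 : Integrable (fun ν => ∫ t in Set.Ioc X (2 * X), F (t, ν)) := hFint.integral_prod_right
  have hI1 : IntegrableOn G (Set.Ioc X (2 * X)) :=
    (hGc.continuousOn.integrableOn_Icc).mono_set Set.Ioc_subset_Icc_self
  have s1 : ∫ t in Set.Ioc X (2 * X), Z t ^ 2 * R t * P t ^ 2 ≤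
      Ca * L' * (∫ t in Set.Ioc X (2 * X), ∫ ν, F (t, ν)) +
        E * ∫ t in Set.Ioc X (2 * X), G t := by
    have h1 : ∫ t in Set.Ioc X (2 * X), Z t ^ 2 * R t * P t ^ 2 ≤
        ∫ t in Set.Ioc X (2 * X), (Ca * L' * (∫ ν, F (t, ν)) + E * G t) := by
      refine integral_mono_of_nonneg (Filter.Eventually.of_forall fun t => ?_)
        ((hI2.const_mul _).add (hI1.const_mul _)) ?_
      · have := hR0 t
        simp only [Pi.zero_apply]
        positivity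
      · rw [EventuallyLE, ae_restrict_iff' measurableSet_Ioc]
        exact Filter.Eventually.of_forall hpt
    rw [integral_add (hI2.const_mul _) (hI1.const_mul _), integral_const_mul,
      integral_const_mul] at h1
    exact h1
  have hI4 : Integrable (fun ν : ℝ => Real.exp 2 * X *
      (D₁ * (1 + (L' * ν) ^ 2)⁻¹ + D₂ * Real.exp (-ν ^ 2))) :=
    (((int_inv hL0).const_mul _).add (int_exp.const_mul _)).const_mul _
  have s2 : ∫ ν, ∫ t in Set.Ioc X (2 * X), F (t, ν) ≤ Real.exp 2 * X *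
      (D₁ * (∫ ν : ℝ, (1 + (L' * ν) ^ 2)⁻¹) + D₂ * ∫ ν : ℝ, Real.exp (-ν ^ 2)) := by
    refine (integral_mono hI3 hI4 hinner).trans (le_of_eq ?_)
    rw [integral_const_mul, integral_add ((int_inv hL0).const_mul _) (int_exp.const_mul _),
      integral_const_mul, integral_const_mul]
  rw [hswap] at s1
  have v1 := int_inv_val hL0
  have v2 := int_exp_val
  have s3 : Ca * L' * (∫ ν, ∫ t in Set.Ioc X (2 * X), F (t, ν)) ≤
      X * (Ca * Real.exp 2 * (4 * D₁ + 2 * L' * D₂)) := by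
    calc Ca * L' * (∫ ν, ∫ t in Set.Ioc X (2 * X), F (t, ν))
        ≤ Ca * L' * (Real.exp 2 * X *
          (D₁ * (∫ ν : ℝ, (1 + (L' * ν) ^ 2)⁻¹) + D₂ * ∫ ν : ℝ, Real.exp (-ν ^ 2))) := by gcongr
      _ = Ca * Real.exp 2 * X * (D₁ * (L' * ∫ ν : ℝ, (1 + (L' * ν) ^ 2)⁻¹) +
            L' * D₂ * ∫ ν : ℝ, Real.exp (-ν ^ 2)) := by ring
      _ ≤ Ca * Real.exp 2 * X * (D₁ * 4 + L' * D₂ * 2) := by gcongr
      _ = _ := by ring
  exact s1.trans (by gcongr)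

lemma log_small (n : ℕ) {s : ℝ} (hs : 0 < s) :
    Tendsto (fun T : ℝ => Real.log T ^ n * T ^ (-s)) atTop (𝓝 0) := by
  have h := (isLittleO_log_rpow_rpow_atTop (n : ℝ) hs).tendsto_div_nhds_zero
  refine h.congr' ?_
  filter_upwards [eventually_gt_atTop 0] with T hT
  rw [Real.rpow_natCast, Real.rpow_neg hT.le, div_eq_mul_inv]

/-- the lower order terms -/
lemma large {δ ε a c e : ℝ} (hδ : 0 < δ) (hε : 0 < ε) :
    ∀ᶠ T : ℝ in atTop, 1 ≤ δ * Real.log T ∧ 2 ≤ T ^ (δ / 4) ∧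
      a * (Real.log T * T ^ (-(1 / 200) : ℝ)) +
        c * (T ^ (-(δ / 8)) * (e * Real.log T ^ 4 + 1 + T ^ (δ / 50))) ≤ ε / 4 := by
  have h1 : Tendsto (fun T : ℝ => δ * Real.log T) atTop atTop :=
    Real.tendsto_log_atTop.const_mul_atTop hδ
  have h2 : Tendsto (fun T : ℝ => T ^ (δ / 4)) atTop atTop := tendsto_rpow_atTop (by positivity)
  have t1 : Tendsto (fun T : ℝ => Real.log T ^ 1 * T ^ (-(1 / 200) : ℝ)) atTop (𝓝 0) :=
    log_small 1 (by norm_num)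
  have t2 : Tendsto (fun T : ℝ => Real.log T ^ 4 * T ^ (-(δ / 8))) atTop (𝓝 0) :=
    log_small 4 (by positivity)
  have t3 : Tendsto (fun T : ℝ => Real.log T ^ 0 * T ^ (-(δ / 8))) atTop (𝓝 0) :=
    log_small 0 (by positivity)
  have t4 : Tendsto (fun T : ℝ => Real.log T ^ 0 * T ^ (-(δ / 8 - δ / 50))) atTop (𝓝 0) :=
    log_small 0 (by linarith)
  have t5 := ((t1.const_mul a).add ((((t2.const_mul e).add t3).add t4).const_mul c))
  simp only [mul_zero, add_zero] at t5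
  filter_upwards [h1.eventually_ge_atTop 1, h2.eventually_ge_atTop 2,
    t5.eventually (gt_mem_nhds (by positivity : (0 : ℝ) < ε / 4)), eventually_gt_atTop 0]
    with T g1 g2 g3 g4
  refine ⟨g1, g2, le_trans (le_of_eq ?_) g3.le⟩
  have e1 : T ^ (-(δ / 8 - δ / 50)) = T ^ (-(δ / 8)) * T ^ (δ / 50) := by
    rw [← Real.rpow_add g4]
    congr 1
    ring
  rw [e1]
  ring

/-- the mean of the square of the zeta function, crudely -/
lemma second {T X : ℝ} {b : ℕ → ℂ} (hX : 0 < X) {D V : ℝ}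
    (h4 : ∫ t in X..(2 * X), ‖riemannZeta (1 / 2 + t * I)‖ ^ 4 * ‖HP (Na T) b t‖ ^ 2 ≤ X * D)
    (hV : ∀ t, ‖HP (Na T) b t‖ ^ 2 ≤ V) :
    ∫ t in X..(2 * X), ‖riemannZeta (1 / 2 + t * I)‖ ^ 2 * ‖HP (Na T) b t‖ ^ 2 ≤
      X * (D + V) := by
  have hZc : Continuous fun t : ℝ => ‖riemannZeta (1 / 2 + t * I)‖ := zcont.norm
  have hPc : Continuous fun t : ℝ => ‖HP (Na T) b t‖ := (Left4.hp_cont _ _).norm
  have i1 : Continuous fun t : ℝ => ‖riemannZeta (1 / 2 + t * I)‖ ^ 2 * ‖HP (Na T) b t‖ ^ 2 :=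
    (hZc.pow 2).mul (hPc.pow 2)
  have i2 : Continuous fun t : ℝ => ‖riemannZeta (1 / 2 + t * I)‖ ^ 4 * ‖HP (Na T) b t‖ ^ 2 :=
    (hZc.pow 4).mul (hPc.pow 2)
  have h1 : ∫ t in X..(2 * X), ‖riemannZeta (1 / 2 + t * I)‖ ^ 2 * ‖HP (Na T) b t‖ ^ 2 ≤
      ∫ t in X..(2 * X), (‖riemannZeta (1 / 2 + t * I)‖ ^ 4 * ‖HP (Na T) b t‖ ^ 2 + V) := by
    refine intervalIntegral.integral_mono_on (by linarith) (i1.intervalIntegrable _ _)
      ((i2.add continuous_const).intervalIntegrable _ _) fun t _ => ?_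
    have g1 := hV t
    have g2 := sq_nonneg ‖HP (Na T) b t‖
    have g3 : ‖riemannZeta (1 / 2 + t * I)‖ ^ 2 ≤ ‖riemannZeta (1 / 2 + t * I)‖ ^ 4 + 1 := by
      nlinarith [sq_nonneg (‖riemannZeta (1 / 2 + t * I)‖ ^ 2 - 1),
        sq_nonneg (‖riemannZeta (1 / 2 + t * I)‖ ^ 2)]
    calc ‖riemannZeta (1 / 2 + t * I)‖ ^ 2 * ‖HP (Na T) b t‖ ^ 2
        ≤ (‖riemannZeta (1 / 2 + t * I)‖ ^ 4 + 1) * ‖HP (Na T) b t‖ ^ 2 := by gcongr
      _ = ‖riemannZeta (1 / 2 + t * I)‖ ^ 4 * ‖HP (Na T) b t‖ ^ 2 + ‖HP (Na T) b t‖ ^ 2 := by ring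
      _ ≤ _ := by gcongr
  refine h1.trans ?_
  rw [intervalIntegral.integral_add (i2.intervalIntegrable _ _)
    (continuous_const.intervalIntegrable _ _), intervalIntegral.integral_const, smul_eq_mul]
  have : (2 * X - X) * V = X * V := by ring
  rw [this, mul_add]
  gcongr

lemma dp_norm {N B : ℝ} {G : (ℕ → ℂ) → ℂ} (h : DP N B G) (t : ℝ) :
    ‖G (fs (1 / 2 + t * I))‖ ≤ B := by
  obtain ⟨k, c, n, h1, h2, h3⟩ := h
  rw [h3 _ (cmul_fs _)]
  refine (norm_sum_le _ _).trans (le_trans (Finset.sum_le_sum fun i _ => ?_) h2)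
  rw [norm_mul]
  exact mul_le_of_le_one_right (norm_nonneg _) (fs_le t (h1 i).1)

lemma region {δ L ν : ℝ} {M Cm : ℕ} (hδ0 : 0 < δ) (hδ1 : δ ≤ 1) (hL0 : 0 < L)
    (hν : Real.exp (M / 3) / L < |ν|) :
    Real.exp (Cm * M) * (1 + L * |ν|) ^ Cm ≤
      (δ ^ (4 * Cm + 3))⁻¹ * Real.exp (-(M : ℝ)) * (1 + δ * L * |ν|) ^ (4 * Cm + 3) := by
  have hν0 := abs_nonneg ν
  set y : ℝ := 1 + δ * L * |ν| with hy
  have hy0 : 0 < y := by positivity
  have e1 : 1 + L * |ν| ≤ y / δ := by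
    rw [le_div_iff₀ hδ0, hy]
    have q1 : (1 + L * |ν|) * δ = δ + δ * L * |ν| := by ring
    linarith only [q1, hδ1]
  have e2 : δ * Real.exp (M / 3) ≤ y := by
    rw [div_lt_iff₀ hL0] at hν
    have q1 : δ * Real.exp (M / 3) ≤ δ * (|ν| * L) := by gcongr
    have q2 : δ * (|ν| * L) = δ * L * |ν| := by ring
    rw [hy]
    linarith only [q1, q2]
  have e3 : 1 ≤ (y / (δ * Real.exp (M / 3))) ^ (3 * Cm + 3) := by
    apply one_le_pow₀
    rw [one_le_div (by positivity)]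
    exact e2
  have e4 : Real.exp (M / 3) ^ (3 * Cm + 3) = Real.exp ((Cm + 1) * M) := by
    rw [← Real.exp_nat_mul]
    congr 1
    push_cast
    ring
  calc Real.exp (Cm * M) * (1 + L * |ν|) ^ Cm
      ≤ Real.exp (Cm * M) * (y / δ) ^ Cm *
        (y / (δ * Real.exp (M / 3))) ^ (3 * Cm + 3) := by
        have : Real.exp (Cm * M) * (1 + L * |ν|) ^ Cm ≤
          Real.exp (Cm * M) * (y / δ) ^ Cm := by gcongr
        exact this.trans (le_mul_of_one_le_right (by positivity) e3)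
    _ = (Real.exp (Cm * M) * (Real.exp (M / 3) ^ (3 * Cm + 3))⁻¹) *
        ((δ ^ Cm * δ ^ (3 * Cm + 3))⁻¹ * (y ^ Cm * y ^ (3 * Cm + 3))) := by
        rw [div_pow, div_pow, mul_pow]
        field_simp
    _ = _ := by
        rw [e4, ← Real.exp_neg, ← Real.exp_add, ← pow_add, ← pow_add]
        have e6 : (Cm : ℝ) * M + -((Cm + 1) * M) = -(M : ℝ) := by ring
        have e7 : Cm + (3 * Cm + 3) = 4 * Cm + 3 := by ring
        rw [e6, e7]
        ring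

end BumpX

open BumpX in
theorem stBumpMom (hc : StCoG) (ht : StTwistG) (hm : StMainC) (hr : StRed) (hb : StBumpRF)
    (ha : StAfeB) (hd : F4.StDy) : StBumpMom := by
  intro ε hε
  obtain ⟨Ct, hCt, htw⟩ := ht
  obtain ⟨Cm, hmain⟩ := hm
  obtain ⟨Cr, hCr, hbump⟩ := hb
  set m : ℕ := 4 * Cm + 3 with hmdef
  obtain ⟨Ca, hCa, hafe⟩ := ha (m + 2)
  obtain ⟨Cd, κd, hCd, hκd, Md, hdy⟩ := hd
  set K : ℝ := 4 * Ca * Real.exp 2 * Ct with hK
  have hK0 : 0 < K := by positivity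
  obtain ⟨δ, hδ0, hδ1, hδ2⟩ : ∃ δ : ℝ, 0 < δ ∧ δ ≤ 1 / 2000 ∧ K * (Cr * δ ^ 2) ≤ ε / 4 := by
    refine ⟨min (1 / 2000) (ε / (4 * K * Cr)), lt_min (by norm_num) (by positivity),
      min_le_left _ _, ?_⟩
    have h0 : 0 < min (1 / 2000) (ε / (4 * K * Cr)) := lt_min (by norm_num) (by positivity)
    have h1 : min (1 / 2000) (ε / (4 * K * Cr)) ≤ 1 / 2000 := min_le_left _ _
    have h2 : min (1 / 2000) (ε / (4 * K * Cr)) ≤ ε / (4 * K * Cr) := min_le_right _ _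
    set δ := min (1 / 2000) (ε / (4 * K * Cr)) with hδ
    have h3 : δ ^ 2 ≤ ε / (4 * K * Cr) := by nlinarith
    calc K * (Cr * δ ^ 2) ≤ K * (Cr * (ε / (4 * K * Cr))) := by gcongr
      _ = ε / 4 := by field_simp
  have hφ := cutK_fB hδ0 hδ1
  obtain ⟨Ct', hCt', T₁, hT₁, htw⟩ := htw (fB δ) hφ
  obtain ⟨M₁, hmain⟩ := hmain (fB δ) hφ
  set η : ℝ := ε / (4 * K) with hη
  have hη0 : 0 < η := by positivity
  have hKη : K * η = ε / 4 := by rw [hη]; field_simp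
  obtain ⟨M₂, hred⟩ := hr (fB δ) hφ η hη0
  obtain ⟨T₂, hT₂, hbump⟩ := hbump δ hδ0 hδ1
  obtain ⟨Ca', hCa', T₃, hT₃, hafe⟩ := hafe δ hδ0 hδ1
  obtain ⟨T₄, hT₄, hco⟩ := hc (fB δ) hφ
  obtain ⟨M₃, hdp⟩ := dp_AA2 (ε := 1 / 1000) (by norm_num)
  obtain ⟨M₄, hdp'⟩ := dp_AA2 (ε := δ / 100) (by positivity)
  obtain ⟨M₅, hM₅⟩ : ∃ M₅ : ℕ, ∀ M : ℕ, M₅ ≤ M → (δ ^ m)⁻¹ * Real.exp (-(M : ℝ)) ≤ η := by
    have h1 : Tendsto (fun M : ℕ => (δ ^ m)⁻¹ * Real.exp (-(M : ℝ))) atTop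
        (𝓝 ((δ ^ m)⁻¹ * 0)) :=
      (Real.tendsto_exp_neg_atTop_nhds_zero.comp tendsto_natCast_atTop_atTop).const_mul _
    rw [mul_zero] at h1
    obtain ⟨M₅, h2⟩ := eventually_atTop.1 (h1.eventually (gt_mem_nhds hη0))
    exact ⟨M₅, fun M hM => (h2 M hM).le⟩
  refine ⟨δ, hδ0, hδ1, max (max (max Md M₁) (max M₂ M₃)) (max M₄ M₅), fun M hM => ?_⟩
  simp only [max_le_iff] at hM
  obtain ⟨⟨⟨hMd, hM1⟩, hM2, hM3⟩, hM4, hM5⟩ := hM
  obtain ⟨κ₁, hκ0, hκ1, T₅, hT₅, hred⟩ := hred M hM2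
  obtain ⟨T₆, hT₆, hmain⟩ := hmain M hM1
  obtain ⟨T₇, hT₇, hdy⟩ := hdy M hMd
  obtain ⟨T₈, hdp⟩ := hdp M hM3
  obtain ⟨T₉, hdp'⟩ := hdp' M hM4
  have hθη := hM₅ M hM5
  set θ : ℝ := (δ ^ m)⁻¹ * Real.exp (-(M : ℝ)) with hθ
  have hθ0 : 0 < θ := by positivity
  obtain ⟨T₀, hT₀⟩ := eventually_atTop.1 (((((eventually_ge_atTop T₁).and
    (eventually_ge_atTop T₂)).and ((eventually_ge_atTop T₃).and (eventually_ge_atTop T₄))).and
    (((eventually_ge_atTop T₅).and (eventually_ge_atTop T₆)).and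
    ((eventually_ge_atTop T₇).and ((eventually_ge_atTop T₈).and
    (eventually_ge_atTop T₉))))).and (large (a := 2 * Ca * Real.exp 2 * δ * Ct') (c := Ca')
      (e := Real.exp (Cd * M)) hδ0 hε))
  refine ⟨κ₁, hκ0, hκ1, max 3 T₀, le_max_left _ _, fun T hT k hk1 hk2 X hX1 hX2 => ?_⟩
  have hT3 : 3 ≤ T := (le_max_left _ _).trans hT
  obtain ⟨⟨⟨⟨g1, g2⟩, g3, g4⟩, ⟨g5, g6⟩, g7, g8, g9⟩, hl1, hl2, hl3⟩ :=
    hT₀ T ((le_max_right _ _).trans hT)
  have hT1 : 1 < T := by linarith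
  have hT0 : 0 < T := by linarith
  have hL1 : 1 ≤ Real.log T := by
    rw [Real.le_log_iff_exp_le hT0]
    have := Real.exp_one_lt_d9
    linarith
  set L := Real.log T with hL
  have hL0 : 0 < L := by linarith
  have hk : 1 ≤ k := by linarith
  have hX999 : T ^ (999 / 1000 : ℝ) ≤ X :=
    (Real.rpow_le_rpow_of_exponent_le hT1.le (by linarith)).trans hX1
  have hXT : X ≤ T ^ (1 + 1 / 10000 : ℝ) := by
    refine hX2.trans ?_
    conv_lhs => rw [← Real.rpow_one T]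
    exact Real.rpow_le_rpow_of_exponent_le hT1.le (by norm_num)
  have hX1' : 1 ≤ X := (Real.one_le_rpow hT1.le (by norm_num)).trans hX999
  have hX0 : 0 < X := by linarith
  have hkk : |k - 2| ≤ 2 := by rw [abs_le]; constructor <;> linarith
  obtain ⟨b, hbS, hbA⟩ := Dy.exists_b hT0.le
    (hdp T g8 (k - 2) hkk (Finset.range (JJ T + 1)) ∅)
  have hbN : ∀ f : ℕ → ℂ, CMul f → NN T M (k - 2) f =
      ∑ n ∈ Finset.Icc 1 (Na T), b n * f n := hbA
  have hN : ∀ t : ℝ, HP (Na T) b t = NN T M (k - 2) (fs (1 / 2 + t * I)) := fun t => by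
    rw [HP, ← hbN _ (cmul_fs _)]
  set Λ : ℝ := L ^ (k ^ 2 - 1) with hΛ
  have hΛ0 : 0 < Λ := Real.rpow_pos_of_pos hL0 _
  have hLΛ : L * Λ = L ^ (k ^ 2) := by
    rw [hΛ, Real.rpow_sub_one hL0.ne']; field_simp
  have hLk1 : 1 ≤ L ^ (k ^ 2) := Real.one_le_rpow hL1 (sq_nonneg k)
  have hLk4 : L ^ (k ^ 2) ≤ L ^ 4 := by
    rw [← Real.rpow_natCast L 4]
    refine Real.rpow_le_rpow_of_exponent_le hL1 ?_
    push_cast
    nlinarith
  have hL' : L ^ (k ^ 2 - 4) * L ^ 3 = Λ := by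
    rw [hΛ, ← Real.rpow_natCast L 3, ← Real.rpow_add hL0]
    congr 1
    push_cast
    ring
  -- the arithmetic factor
  have hRF : ∀ (ν : ℝ) (a : ℂ), ‖a‖ = 1 / L → ‖ThreeLines.RF (Nh T) (cg (fB δ) T ν b) a‖ ≤
      (Cr * δ ^ 2 + η + θ) * Λ * (1 + δ * L * |ν|) ^ m := by
    intro ν a hna
    have hν0 := abs_nonneg ν
    have hy1 : 1 ≤ 1 + δ * L * |ν| := by
      have : 0 ≤ δ * L * |ν| := by positivity
      linarith
    have hym : 1 ≤ (1 + δ * L * |ν|) ^ m := one_le_pow₀ hy1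
    rcases le_or_gt |ν| (Real.exp (M / 3) / L) with hν | hν
    · have h1 := hred T g5 k hk1 hk2 b hbS hbN ν a hν hna
      have h2 := hbump T g2 ν a hna
      have h3 : ‖(((L ^ (k ^ 2 - 4) : ℝ) : ℂ)) * ThreeLines.RF (Nh T) (cg (fB δ) T ν b1) a‖ ≤
          Cr * δ ^ 2 * Λ := by
        rw [norm_mul, norm_real, Real.norm_eq_abs, abs_of_pos (Real.rpow_pos_of_pos hL0 _)]
        have h4 := (Real.rpow_pos_of_pos hL0 (k ^ 2 - 4)).le
        calc L ^ (k ^ 2 - 4) * ‖ThreeLines.RF (Nh T) (cg (fB δ) T ν b1) a‖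
            ≤ L ^ (k ^ 2 - 4) * (Cr * δ ^ 2 * L ^ 3) := by gcongr
          _ = Cr * δ ^ 2 * (L ^ (k ^ 2 - 4) * L ^ 3) := by ring
          _ = _ := by rw [hL']
      have h4 : ‖ThreeLines.RF (Nh T) (cg (fB δ) T ν b) a‖ ≤ η * Λ + Cr * δ ^ 2 * Λ := by
        have h5 := norm_add_le (ThreeLines.RF (Nh T) (cg (fB δ) T ν b) a -
          (((L ^ (k ^ 2 - 4) : ℝ) : ℂ)) * ThreeLines.RF (Nh T) (cg (fB δ) T ν b1) a)
          ((((L ^ (k ^ 2 - 4) : ℝ) : ℂ)) * ThreeLines.RF (Nh T) (cg (fB δ) T ν b1) a)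
        rw [sub_add_cancel] at h5
        exact h5.trans (add_le_add h1 h3)
      calc ‖ThreeLines.RF (Nh T) (cg (fB δ) T ν b) a‖ ≤ η * Λ + Cr * δ ^ 2 * Λ := h4
        _ ≤ η * Λ + Cr * δ ^ 2 * Λ + θ * Λ := by
            have : 0 ≤ θ * Λ := by positivity
            linarith
        _ = (Cr * δ ^ 2 + η + θ) * Λ * 1 := by ring
        _ ≤ _ := by gcongr
    · have h1 := hmain T g6 k hk hk2 (Finset.range (JJ T + 1)) ∅ (by simp) b hbS hbA ν a hna
      rw [Finset.prod_empty, mul_one] at h1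
      refine h1.trans ?_
      set y : ℝ := 1 + δ * L * |ν| with hy
      have hy0 : 0 < y := by linarith
      have e5 : Real.exp (Cm * M) * (1 + L * |ν|) ^ Cm ≤ θ * y ^ m :=
        region hδ0 (by linarith) hL0 hν
      calc Real.exp (Cm * M) * (1 + L * |ν|) ^ Cm * L ^ (k ^ 2 - 1)
          ≤ θ * y ^ m * Λ := by gcongr
        _ ≤ (Cr * δ ^ 2 + η + θ) * y ^ m * Λ := by
            have : θ ≤ Cr * δ ^ 2 + η + θ := by
              have : 0 ≤ Cr * δ ^ 2 := by positivity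
              linarith
            gcongr
        _ = _ := by ring
  -- the polynomials
  have hprod : ∀ ν t : ℝ, HP (Nh T) (cg (fB δ) T ν b) t = Qp (fB δ) T ν t * HP (Na T) b t := by
    intro ν t
    have h := (hco T g4 ν b hbS).2.2.2.2.2 (fs (1 / 2 + t * I)) (cmul_fs _)
    rw [HP, HP, Qp]
    exact h
  set ρ : ℝ := Cr * δ ^ 2 + η + θ with hρ
  have hρ0 : 0 < ρ := by positivity
  have hTT : 0 < T ^ (-(1 / 200) : ℝ) := Real.rpow_pos_of_pos hT0 _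
  have hmainT := tonelli (φ := fB δ) (T := T) (X := X) (L' := δ * L) (m := m)
    (D₁ := Ct * L * (ρ * Λ)) (D₂ := Ct' * T ^ (-(1 / 200) : ℝ))
    (R := fun t => ‖RR δ T t‖ ^ 2) (Ca := Ca) (E := Ca' * T ^ (-(δ / 8)))
    hT3 hl1 hX1' hprod (by positivity) (by positivity)
    (by
      intro ν
      obtain ⟨q1, q2⟩ := htw T g1 X hX999 hXT ν b hbS (ρ * Λ * (1 + δ * L * |ν|) ^ m) (hRF ν)
      refine ⟨q1, q2.trans (le_of_eq ?_)⟩
      ring)
    hCa.le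
    (by
      intro t ht
      have q1 : T ^ (1 - δ / 4) ≤ t := by
        refine le_trans ?_ (hX1.trans ht.1.le)
        exact Real.rpow_le_rpow_of_exponent_le hT1.le (by linarith)
      have q2 : t ≤ T ^ (1 + δ / 4) := by
        rw [Real.rpow_add hT0, Real.rpow_one]
        have := ht.2
        nlinarith
      exact hafe T g3 t q1 q2)
    (fun t => by positivity)
  -- the crude second moment
  have hQ4 := hdy T g7 X hX999 hXT k hk hk2 (Finset.range (JJ T + 1)) ∅ (by simp)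
  rw [Finset.prod_empty, mul_one] at hQ4
  have hV : ∀ t, ‖HP (Na T) b t‖ ^ 2 ≤ T ^ (δ / 50) := by
    intro t
    have q1 := dp_norm (hdp' T g9 (k - 2) hkk (Finset.range (JJ T + 1)) ∅) t
    rw [hN]
    calc ‖NN T M (k - 2) (fs (1 / 2 + t * I))‖ ^ 2 ≤ (T ^ (δ / 100)) ^ 2 :=
          pow_le_pow_left₀ (norm_nonneg _) q1 2
      _ = T ^ (δ / 50) := by
          rw [← Real.rpow_natCast, ← Real.rpow_mul hT0.le]
          congr 1
          push_cast
          ring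
  have hsec := second (T := T) (X := X) (b := b) hX0
    (D := Real.exp (Cd * M) * L ^ 4 + 1) (V := T ^ (δ / 50)) (by
      simp only [hN]
      refine hQ4.trans ?_
      have q1 : T ^ (-κd) ≤ 1 := Real.rpow_le_one_of_one_le_of_nonpos hT1.le (by linarith)
      gcongr) hV
  simp only [hN] at hmainT hsec
  refine hmainT.trans ?_
  have hE0 : 0 < Ca' * T ^ (-(δ / 8)) := by
    have := Real.rpow_pos_of_pos hT0 (-(δ / 8))
    positivity
  have hKρ : K * ρ ≤ 3 / 4 * ε := by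
    have q1 : K * θ ≤ K * η := by gcongr
    rw [hρ]
    have : K * (Cr * δ ^ 2 + η + θ) = K * (Cr * δ ^ 2) + K * η + K * θ := by ring
    rw [this]
    linarith
  calc X * (Ca * Real.exp 2 * (4 * (Ct * L * (ρ * Λ)) +
        2 * (δ * L) * (Ct' * T ^ (-(1 / 200) : ℝ)))) +
        Ca' * T ^ (-(δ / 8)) * ∫ t in X..(2 * X), ‖riemannZeta (1 / 2 + t * I)‖ ^ 2 *
          ‖NN T M (k - 2) (fs (1 / 2 + t * I))‖ ^ 2
      ≤ X * (Ca * Real.exp 2 * (4 * (Ct * L * (ρ * Λ)) +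
        2 * (δ * L) * (Ct' * T ^ (-(1 / 200) : ℝ)))) +
        Ca' * T ^ (-(δ / 8)) * (X * (Real.exp (Cd * M) * L ^ 4 + 1 + T ^ (δ / 50))) := by gcongr
    _ = X * (K * ρ * (L * Λ) + (2 * Ca * Real.exp 2 * δ * Ct' * (L * T ^ (-(1 / 200) : ℝ)) +
        Ca' * (T ^ (-(δ / 8)) * (Real.exp (Cd * M) * L ^ 4 + 1 + T ^ (δ / 50))))) := by
        rw [hK]; ring
    _ ≤ X * (3 / 4 * ε * (L * Λ) + ε / 4) := by
        have : 0 < L * Λ := by positivity
        gcongr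
    _ ≤ X * (3 / 4 * ε * L ^ (k ^ 2) + ε / 4 * L ^ (k ^ 2)) := by
        rw [hLΛ]
        gcongr
        nlinarith
    _ = ε * X * L ^ (k ^ 2) := by ring

end K4
end Pool.Agent.Lib.MP_973905_nt
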