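import Pool.Agent.Lib.MP_973905_nt.K4.Stmts
import Pool.Agent.Lib.MP_973905_nt.F4.Three
import Pool.Agent.Lib.MP_973905_nt.F4.Twist

/-! (G5), (G6): asymptotic formula and upper bound for the twisted second moment, general cutoff. -/

namespace Pool.Agent.Lib.MP_973905_nt
namespace K4

open MeasureTheory ProbabilityTheory Complex Filter Topology K1 F4

namespace JG

open F4.Three F4.Twist ThreeLines

lemma mt_cont {X : ℝ} (hX : 0 < X) {c : ℂ} (hc : 10 ≤ c.re) (N : ℕ) (b : ℕ → ℂ) {r : ℝ}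
    (hr0 : 0 < r) (hr1 : r ≤ 1 / 2) : ContinuousOn (Mt X c N b) (Metric.sphere (0 : ℂ) |r|) := by
  have hpi := Real.pi_pos
  have hsub : Metric.closedBall (0 : ℂ) r ⊆ {a : ℂ | |a.re| < 5 / 8} := by
    intro z hz
    rw [mem_closedBall_zero_iff] at hz
    show |z.re| < 5 / 8
    have := Complex.abs_re_le_norm z
    linarith
  have hsph : ∀ z : ℂ, z ∈ Metric.sphere (0 : ℂ) |r| → z ≠ 0 := by
    intro z hz h0
    rw [h0, abs_of_pos hr0] at hz
    simp at hz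
    linarith
  have h1 := HM4_diff (Y := X / (2 * Real.pi)) (by positivity) (RF_diff N b) hc
  have h2 : ContinuousOn (fun a => HM4 (X / (2 * Real.pi)) (RF N b) c a / a)
      (Metric.sphere (0 : ℂ) |r|) := by
    refine ContinuousOn.div ?_ continuousOn_id fun z hz => hsph z hz
    rw [abs_of_pos hr0]
    exact (h1.mono (Metric.sphere_subset_closedBall.trans hsub)).continuousOn
  refine h2.congr fun z hz => ?_
  have hz0 := hsph z hz
  simp only
  rw [F4.Three.Mt_eq X c N b hz0]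
  field_simp

/-- bounds on the small circle -/
lemma circle_bd : ∃ V T₁ : ℝ, 0 < V ∧ ∀ T, T₁ ≤ T → 34 ≤ Real.log T ∧ ∀ X : ℝ,
    T ^ (999 / 1000 : ℝ) ≤ X → X ≤ T ^ (1 + 1 / 10000 : ℝ) → ∀ (N : ℕ) (c : ℕ → ℂ) (B : ℝ),
    0 ≤ B → (∀ a : ℂ, ‖a‖ = 1 / Real.log T → ‖RF N c a‖ ≤ B) → ∀ a : ℂ, ‖a‖ = 1 / Real.log T →
    ‖Mt X 12 N c a‖ ≤ V * Real.log T * B ∧ ‖Mt X 10 N c a‖ ≤ V * Real.log T * B := by
  obtain ⟨Cz, L₀, hCz, hL₀, hz⟩ := zeta_circle
  obtain ⟨G₁, hG₁, hG1⟩ := F4.Twist.Gamma_bdd (c := 12) (by norm_num)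
  obtain ⟨G₂, hG₂, hG2⟩ := F4.Twist.Gamma_bdd (c := 10) (by norm_num)
  set G : ℝ := G₁ + G₂ with hG
  set E : ℝ := Real.exp 3 with hE
  have hE0 : 0 < E := Real.exp_pos _
  obtain ⟨T₁, hT₁⟩ := eventually_atTop.mp
    ((ev_log (2 * Real.pi) (e := 1 / 2) (by norm_num)).and
    (Real.tendsto_log_atTop.eventually_ge_atTop (max L₀ 34)))
  refine ⟨G * Cz + E * (G * Cz), max T₁ 3, by positivity, fun T hT => ?_⟩
  have hTT1 : T₁ ≤ T := (le_max_left _ _).trans hT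
  have hT3 : 3 ≤ T := (le_max_right _ _).trans hT
  obtain ⟨e3, e4⟩ := hT₁ T hTT1
  have hLL0 : L₀ ≤ Real.log T := (le_max_left _ _).trans e4
  have hL34 : 34 ≤ Real.log T := (le_max_right _ _).trans e4
  refine ⟨hL34, fun X hX1 hX2 N c B hBnn hB a ha => ?_⟩
  have hT0 : 0 < T := by linarith
  have hT1 : 1 ≤ T := by linarith
  have hL0 : 0 < Real.log T := by linarith
  have hpi := Real.pi_pos
  have hXone : 1 ≤ X := (Real.one_le_rpow hT1 (by norm_num)).trans hX1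
  have hX0 : 0 < X := by linarith
  set Y : ℝ := X / (2 * Real.pi) with hY
  have hY1 : 1 ≤ Y := by
    rw [hY, le_div_iff₀ (by positivity), one_mul]
    refine le_trans ?_ hX1
    calc 2 * Real.pi ≤ 2 * Real.pi * Real.log T := by nlinarith
      _ ≤ T ^ (1 / 2 : ℝ) := e3
      _ ≤ _ := Real.rpow_le_rpow_of_exponent_le hT1 (by norm_num)
  have hYX : Y ≤ T ^ (1 + 1 / 10000 : ℝ) := by
    refine le_trans ?_ hX2
    rw [hY]
    apply div_le_self hX0.le
    have := Real.pi_gt_three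
    linarith
  have hY0 : 0 < Y := by linarith
  obtain ⟨z1, z2⟩ := hz (Real.log T) hLL0 a ha
  have hr : ‖a‖ ≤ 1 / 34 := by
    rw [ha]; exact one_div_le_one_div_of_le (by norm_num) hL34
  have hre : |a.re| ≤ 1 / Real.log T := ha ▸ Complex.abs_re_le_norm a
  have hre9 : |a.re| ≤ 9 / 16 := (Complex.abs_re_le_norm a).trans (by linarith)
  have hb1 := hB a ha
  have hb2 := hB (-a) (by simpa using ha)
  have hYp : ‖(Y : ℂ) ^ (-(2 * a))‖ ≤ E := by
    rw [ThreeLines.norm_X_cpow hY0]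
    calc Y ^ (-(2 * a.re)) ≤ Y ^ (2 * (1 / Real.log T)) := by
          apply Real.rpow_le_rpow_of_exponent_le hY1
          have := (abs_le.mp hre).1
          linarith
      _ ≤ (T ^ (1 + 1 / 10000 : ℝ)) ^ (2 * (1 / Real.log T)) := by
          apply Real.rpow_le_rpow hY0.le hYX
          positivity
      _ = Real.exp (2 + 2 / 10000) := by
          rw [← Real.rpow_mul hT0.le, Real.rpow_def_of_pos hT0]
          congr 1
          field_simp
      _ ≤ E := by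
          rw [hE]
          apply Real.exp_le_exp.mpr
          norm_num
  have hMt : ∀ s : ℂ, ‖Gamma s‖ ≤ G → ‖Gamma (s - 2 * a)‖ ≤ G →
      ‖Mt X s N c a‖ ≤ (G * Cz + E * (G * Cz)) * Real.log T * B := by
    intro s g1 g2
    rw [Mt]
    calc _ ≤ G * (Cz * Real.log T * B) + E * (G * (Cz * Real.log T * B)) := by
          refine (norm_add_le _ _).trans (add_le_add ?_ ?_)
          · rw [norm_mul, norm_mul]
            gcongr
          · rw [norm_mul, norm_mul, norm_mul]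
            gcongr
      _ = _ := by ring
  have g12 : ∀ a : ℂ, |a.re| ≤ 9 / 16 → ‖Gamma (12 - 2 * a)‖ ≤ G := fun a ha =>
    (hG1 a ha).trans (by rw [hG]; linarith)
  have g10 : ∀ a : ℂ, |a.re| ≤ 9 / 16 → ‖Gamma (10 - 2 * a)‖ ≤ G := fun a ha =>
    (hG2 a ha).trans (by rw [hG]; linarith)
  exact ⟨hMt 12 (by simpa using g12 0 (by norm_num)) (g12 a hre9),
    hMt 10 (by simpa using g10 0 (by norm_num)) (g10 a hre9)⟩

lemma norm_fac {a : ℂ} {X : ℝ} (hX : 1 ≤ X) (ha : ‖a‖ ≤ 1 / 34) :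
    ‖(1 / 2 - a) ^ 2 * ((X : ℂ) ^ 2)⁻¹‖ ≤ (X ^ 2)⁻¹ := by
  have h4 : ‖(1 / 2 - a : ℂ)‖ ≤ 1 := by
    calc ‖(1 / 2 - a : ℂ)‖ ≤ ‖(1 / 2 : ℂ)‖ + ‖a‖ := norm_sub_le _ _
      _ ≤ 1 := by
          have : ‖(1 / 2 : ℂ)‖ = 1 / 2 := by norm_num
          rw [this]; linarith
  rw [norm_mul, norm_pow, norm_inv, norm_pow, Complex.norm_real, Real.norm_eq_abs,
    abs_of_pos (by linarith)]
  calc ‖(1 / 2 - a : ℂ)‖ ^ 2 * (X ^ 2)⁻¹ ≤ 1 * (X ^ 2)⁻¹ := by
        gcongr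
        exact pow_le_one₀ (norm_nonneg _) h4
    _ = _ := one_mul _

lemma norm_RF_le {N : ℕ} {c : ℕ → ℂ} {a : ℂ} (ha : ‖a‖ ≤ 1 / 34) :
    ‖RF N c a‖ ≤ (∑ n ∈ Finset.Icc 1 N, ‖c n‖ * (n : ℝ) ^ (-(1 / 2) : ℝ)) ^ 2 := by
  have hre := Complex.abs_re_le_norm a
  have hab := abs_le.mp (hre.trans ha)
  have key : ∀ q : ℕ, 1 ≤ q → ‖((q : ℕ) : ℂ) ^ (-(1 / 2 + a))‖ ≤ 1 := by
    intro q hq
    have hq0 : (0 : ℝ) < q := by exact_mod_cast hq
    rw [show ((q : ℕ) : ℂ) = ((q : ℝ) : ℂ) by simp, norm_cpow_eq_rpow_re_of_pos hq0]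
    apply Real.rpow_le_one_of_one_le_of_nonpos (by exact_mod_cast hq)
    simp
    linarith
  have hn : ∀ q : ℕ, 1 ≤ q → ‖((q : ℕ) : ℂ) ^ (-(1 / 2 : ℂ))‖ = (q : ℝ) ^ (-(1 / 2) : ℝ) := by
    intro q hq
    have hq0 : (0 : ℝ) < q := by exact_mod_cast hq
    rw [show ((q : ℕ) : ℂ) = ((q : ℝ) : ℂ) by simp, norm_cpow_eq_rpow_re_of_pos hq0]
    simp
  rw [pow_two, Finset.sum_mul_sum]
  unfold RF
  refine (norm_sum_le _ _).trans (Finset.sum_le_sum fun m hm => ?_)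
  refine (norm_sum_le _ _).trans (Finset.sum_le_sum fun n hn' => ?_)
  rw [Finset.mem_Icc] at hm hn'
  have h1 : 1 ≤ n / m.gcd n :=
    Nat.div_pos (Nat.gcd_le_right m (by omega : 0 < n)) (Nat.gcd_pos_of_pos_left n (by omega : 0 < m))
  have h2 : 1 ≤ m / m.gcd n :=
    Nat.div_pos (Nat.gcd_le_left n (by omega : 0 < m)) (Nat.gcd_pos_of_pos_left n (by omega : 0 < m))
  rw [norm_mul, norm_mul, norm_mul, norm_mul, norm_mul, RCLike.norm_conj, hn m hm.1, hn n hn'.1]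
  calc ‖c m‖ * ‖c n‖ * (m : ℝ) ^ (-(1 / 2) : ℝ) * (n : ℝ) ^ (-(1 / 2) : ℝ) *
        ‖((n / m.gcd n : ℕ) : ℂ) ^ (-(1 / 2 + a))‖ * ‖((m / m.gcd n : ℕ) : ℂ) ^ (-(1 / 2 + a))‖
      ≤ ‖c m‖ * ‖c n‖ * (m : ℝ) ^ (-(1 / 2) : ℝ) * (n : ℝ) ^ (-(1 / 2) : ℝ) * 1 * 1 := by
        gcongr
        · exact key _ h1
        · exact key _ h2
    _ = _ := by ring

/-- the value at zero -/
lemma value (h6 : StStrip4) {X : ℝ} (hX : 1 ≤ X) (N : ℕ) (c : ℕ → ℂ) :
    Js X 12 N c 0 = (((∫ t in Set.Ioi (0 : ℝ), gi X 11 N c t) +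
      1 / 4 * (X ^ 2)⁻¹ * (∫ t in Set.Ioi (0 : ℝ), gi X 9 N c t) : ℝ) : ℂ) := by
  obtain ⟨-, -, h6c⟩ := h6
  have j12 := Jt_zero X 11 N c
  have j10 := Jt_zero X 9 N c
  have e12 : (((11 + 1 : ℕ) : ℕ) : ℂ) = 12 := by norm_num
  have e10 : (((9 + 1 : ℕ) : ℕ) : ℂ) = 12 - 2 := by norm_num
  rw [e12] at j12
  rw [e10] at j10
  have hJs := h6c X hX 12 (by norm_num) N c 0 (by norm_num) (by norm_num) (by norm_num)
  rw [hJs, j12, j10]
  push_cast
  ring

lemma gi_nonneg (X : ℝ) (hX : 0 < X) (m N : ℕ) (c : ℕ → ℂ) (t : ℝ) (ht : t ∈ Set.Ioi (0 : ℝ)) :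
    0 ≤ gi X m N c t := by
  have ht0 : 0 < t := ht
  unfold gi
  positivity

end JG

open JG F4.Three F4.Twist ThreeLines in
theorem stTwistG (h7 : StThreeG) (h6 : F4.StStrip4) : StTwistG := by
  obtain ⟨V, T₁, hV, hcb⟩ := circle_bd
  refine ⟨2 * V, by positivity, fun φ hφ => ?_⟩
  obtain ⟨C₇, hC₇, T₇, hT₇, h7⟩ := h7 φ hφ
  refine ⟨C₇, hC₇, max (max T₇ T₁) 3, le_max_right _ _, fun T hT X hX1 hX2 ν b hb B hB => ?_⟩
  have hTT7 : T₇ ≤ T := (le_max_left _ _).trans ((le_max_left _ _).trans hT)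
  have hTT1 : T₁ ≤ T := (le_max_right _ _).trans ((le_max_left _ _).trans hT)
  have hT3 : 3 ≤ T := (le_max_right _ _).trans hT
  obtain ⟨hL34, hcirc⟩ := hcb T hTT1
  have hT1 : 1 ≤ T := by linarith
  have hT0 : 0 < T := by linarith
  have hL0 : 0 < Real.log T := by linarith
  have hXone : 1 ≤ X := (Real.one_le_rpow hT1 (by norm_num)).trans hX1
  have hX0 : 0 < X := by linarith
  set N : ℕ := Nh T with hN
  set c : ℕ → ℂ := cg φ T ν b with hc
  have i12 := gi_int hXone 11 N c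
  refine ⟨i12, ?_⟩
  have hBnn : 0 ≤ B := by
    have := hB ((1 / Real.log T : ℝ) : ℂ) (by
      rw [Complex.norm_real, Real.norm_of_nonneg (by positivity)])
    exact (norm_nonneg _).trans this
  have hval := value h6 hXone N c
  set P : ℝ := ∫ t in Set.Ioi (0 : ℝ), gi X 11 N c t with hP
  set Q : ℝ := ∫ t in Set.Ioi (0 : ℝ), gi X 9 N c t with hQ
  have hP0 : 0 ≤ P := setIntegral_nonneg measurableSet_Ioi (gi_nonneg X hX0 11 N c)
  have hQ0 : 0 ≤ Q := setIntegral_nonneg measurableSet_Ioi (gi_nonneg X hX0 9 N c)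
  have hPle : P ≤ ‖Js X 12 N c 0‖ := by
    rw [hval, Complex.norm_real, Real.norm_of_nonneg (by positivity)]
    have : 0 ≤ 1 / 4 * (X ^ 2)⁻¹ * Q := by positivity
    linarith
  have hthree := h7 T hTT7 X hX1 hX2 ν b hb
  have hMs : ∀ a : ℂ, ‖a‖ = 1 / Real.log T → ‖Ms X 12 N c a‖ ≤ 2 * V * Real.log T * B := by
    intro a ha
    obtain ⟨m12, m10⟩ := hcirc X hX1 hX2 N c B hBnn hB a ha
    have hr : ‖a‖ ≤ 1 / 34 := by
      rw [ha]; exact one_div_le_one_div_of_le (by norm_num) hL34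
    have e10' : (12 : ℂ) - 2 = 10 := by norm_num
    have hfac := norm_fac hXone hr
    have hX2' : (X ^ 2)⁻¹ ≤ 1 := inv_le_one_of_one_le₀ (one_le_pow₀ hXone)
    rw [Ms, e10']
    calc _ ≤ V * Real.log T * B + 1 * (V * Real.log T * B) := by
          refine (norm_add_le _ _).trans (add_le_add m12 ?_)
          rw [norm_mul]
          have := hfac.trans hX2'
          gcongr
      _ = _ := by ring
  have havg := norm_circleAverage_le (f := Ms X 12 N c) (r := 1 / Real.log T)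
    (by positivity) hMs
  have hν : 0 ≤ |ν| := abs_nonneg _
  have hTe : T ^ (-(1 / 100) : ℝ) ≤ T ^ (-(1 / 200) : ℝ) :=
    Real.rpow_le_rpow_of_exponent_le hT1 (by norm_num)
  have hfin : P ≤ 2 * V * Real.log T * B + C₇ * (1 + |ν|) * T ^ (-(1 / 200) : ℝ) := by
    calc P ≤ ‖Js X 12 N c 0‖ := hPle
      _ = ‖(Js X 12 N c 0 - Real.circleAverage (Ms X 12 N c) 0 (1 / Real.log T)) +
            Real.circleAverage (Ms X 12 N c) 0 (1 / Real.log T)‖ := by ring_nf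
      _ ≤ C₇ * (1 + |ν|) * T ^ (-(1 / 100) : ℝ) + 2 * V * Real.log T * B :=
          (norm_add_le _ _).trans (add_le_add hthree havg)
      _ ≤ C₇ * (1 + |ν|) * T ^ (-(1 / 200) : ℝ) + 2 * V * Real.log T * B := by
          gcongr
      _ = _ := by ring
  exact hfin

open JG F4.Three F4.Twist ThreeLines in
theorem stJG (h7 : StThreeG) (h6 : F4.StStrip4) (hc : StCoG) : StJG := by
  intro φ hφ
  obtain ⟨V, T₁, hV, hcb⟩ := circle_bd
  obtain ⟨C₇, hC₇, T₇, hT₇, h7⟩ := h7 φ hφ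
  obtain ⟨T₂, hT₂, hco⟩ := hc φ hφ
  obtain ⟨Cz, hCz, hzb⟩ := F4.Twist.zeta_bd
  -- powers of `T` against logarithms and constants
  obtain ⟨T₃, hT₃⟩ := eventually_atTop.mp
    (((ev_log (2 * V + C₇) (e := 9 / 100) (by norm_num)).and
    (ev_log (16 * Cz ^ 2 + 1) (e := 1 / 100) (by norm_num))))
  refine ⟨C₇ + 3, by positivity, max (max T₇ T₁) (max (max T₂ T₃) 3),
    (le_max_right _ _).trans (le_max_right _ _), fun T hT X hX1 hX2 ν b hb => ?_⟩
  have hTT7 : T₇ ≤ T := (le_max_left _ _).trans ((le_max_left _ _).trans hT)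
  have hTT1 : T₁ ≤ T := (le_max_right _ _).trans ((le_max_left _ _).trans hT)
  have hTT2 : T₂ ≤ T :=
    (le_max_left _ _).trans ((le_max_left _ _).trans ((le_max_right _ _).trans hT))
  have hTT3 : T₃ ≤ T :=
    (le_max_right _ _).trans ((le_max_left _ _).trans ((le_max_right _ _).trans hT))
  have hT3 : 3 ≤ T := (le_max_right _ _).trans ((le_max_right _ _).trans hT)
  obtain ⟨hL34, hcirc⟩ := hcb T hTT1
  obtain ⟨f1, f2⟩ := hT₃ T hTT3
  obtain ⟨-, -, hs1, -, -, -⟩ := hco T hTT2 ν b hb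
  have hT1 : 1 ≤ T := by linarith
  have hT0 : 0 < T := by linarith
  have hL0 : 0 < Real.log T := by linarith
  have hL1 : 1 ≤ Real.log T := by linarith
  have hXone : 1 ≤ X := (Real.one_le_rpow hT1 (by norm_num)).trans hX1
  have hX0 : 0 < X := by linarith
  have hν : 0 ≤ |ν| := abs_nonneg _
  set N : ℕ := Nh T with hN
  set c : ℕ → ℂ := cg φ T ν b with hc
  have i11 := gi_int hXone 11 N c
  have i9 := gi_int hXone 9 N c
  refine ⟨i11, ?_⟩
  -- the arithmetic factor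
  set B : ℝ := T ^ (504 / 1000 : ℝ) with hBd
  have hB0 : 0 < B := by positivity
  have hBsq : (T ^ (252 / 1000 : ℝ)) ^ 2 = B := by
    rw [hBd, ← Real.rpow_natCast, ← Real.rpow_mul hT0.le]; norm_num
  have hRF : ∀ a : ℂ, ‖a‖ = 1 / Real.log T → ‖RF N c a‖ ≤ B := by
    intro a ha
    have hr : ‖a‖ ≤ 1 / 34 := by
      rw [ha]; exact one_div_le_one_div_of_le (by norm_num) hL34
    refine (norm_RF_le hr).trans ?_
    rw [← hBsq]
    gcongr
  have hval := value h6 hXone N c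
  set P : ℝ := ∫ t in Set.Ioi (0 : ℝ), gi X 11 N c t with hP
  set Q : ℝ := ∫ t in Set.Ioi (0 : ℝ), gi X 9 N c t with hQ
  have hP0 : 0 ≤ P := setIntegral_nonneg measurableSet_Ioi (gi_nonneg X hX0 11 N c)
  have hQ0 : 0 ≤ Q := setIntegral_nonneg measurableSet_Ioi (gi_nonneg X hX0 9 N c)
  have hPle : P ≤ ‖Js X 12 N c 0‖ := by
    rw [hval, Complex.norm_real, Real.norm_of_nonneg (by positivity)]
    have : 0 ≤ 1 / 4 * (X ^ 2)⁻¹ * Q := by positivity
    linarith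
  have hthree := h7 T hTT7 X hX1 hX2 ν b hb
  have e10' : (12 : ℂ) - 2 = 10 := by norm_num
  have hXinv : (X ^ 2)⁻¹ ≤ T ^ (-(1998 / 1000) : ℝ) := by
    have e1 : T ^ (1998 / 1000 : ℝ) = (T ^ (999 / 1000 : ℝ)) ^ 2 := by
      rw [← Real.rpow_natCast, ← Real.rpow_mul hT0.le]; norm_num
    rw [Real.rpow_neg hT0.le, e1]
    gcongr
  have hX2' : (X ^ 2)⁻¹ ≤ 1 := inv_le_one_of_one_le₀ (one_le_pow₀ hXone)
  have hg10 : ∀ a : ℂ, ‖a‖ = 1 / Real.log T →
      ‖(1 / 2 - a) ^ 2 * ((X : ℂ) ^ 2)⁻¹ * Mt X 10 N c a‖ ≤ (X ^ 2)⁻¹ * (V * Real.log T * B) := by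
    intro a ha
    obtain ⟨m12, m10⟩ := hcirc X hX1 hX2 N c B hB0.le hRF a ha
    have hr : ‖a‖ ≤ 1 / 34 := by
      rw [ha]; exact one_div_le_one_div_of_le (by norm_num) hL34
    rw [norm_mul]
    exact mul_le_mul (norm_fac hXone hr) m10 (norm_nonneg _) (by positivity)
  have hMs : ∀ a : ℂ, ‖a‖ = 1 / Real.log T → ‖Ms X 12 N c a‖ ≤ 2 * V * Real.log T * B := by
    intro a ha
    obtain ⟨m12, m10⟩ := hcirc X hX1 hX2 N c B hB0.le hRF a ha
    rw [Ms, e10']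
    calc _ ≤ V * Real.log T * B + 1 * (V * Real.log T * B) := by
          refine (norm_add_le _ _).trans (add_le_add m12 ?_)
          refine (hg10 a ha).trans ?_
          gcongr
      _ = _ := by ring
  have havg := norm_circleAverage_le (f := Ms X 12 N c) (r := 1 / Real.log T)
    (by positivity) hMs
  -- a crude bound for `P`
  have hPc : P ≤ (1 + |ν|) * T ^ (6 / 10 : ℝ) := by
    have h1 : P ≤ C₇ * (1 + |ν|) * T ^ (-(1 / 100) : ℝ) + 2 * V * Real.log T * B := by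
      calc P ≤ ‖Js X 12 N c 0‖ := hPle
        _ = ‖(Js X 12 N c 0 - Real.circleAverage (Ms X 12 N c) 0 (1 / Real.log T)) +
              Real.circleAverage (Ms X 12 N c) 0 (1 / Real.log T)‖ := by ring_nf
        _ ≤ C₇ * (1 + |ν|) * T ^ (-(1 / 100) : ℝ) + 2 * V * Real.log T * B :=
            (norm_add_le _ _).trans (add_le_add hthree havg)
    have h2 : T ^ (-(1 / 100) : ℝ) ≤ B := by
      rw [hBd]; exact Real.rpow_le_rpow_of_exponent_le hT1 (by norm_num)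
    calc P ≤ C₇ * (1 + |ν|) * T ^ (-(1 / 100) : ℝ) + 2 * V * Real.log T * B := h1
      _ ≤ C₇ * (1 + |ν|) * (Real.log T * B) + 2 * V * (1 + |ν|) * (Real.log T * B) := by
          have h3 : B ≤ Real.log T * B := le_mul_of_one_le_left hB0.le hL1
          have h4 : 2 * V * Real.log T * B ≤ 2 * V * (1 + |ν|) * (Real.log T * B) := by
            have : 1 * (2 * V * (Real.log T * B)) ≤ (1 + |ν|) * (2 * V * (Real.log T * B)) := by
              gcongr
              linarith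
            linarith
          have h5 := h2.trans h3
          have h6 : C₇ * (1 + |ν|) * T ^ (-(1 / 100) : ℝ) ≤ C₇ * (1 + |ν|) * (Real.log T * B) := by
            gcongr
          linarith
      _ = (1 + |ν|) * (((2 * V + C₇) * Real.log T) * B) := by ring
      _ ≤ (1 + |ν|) * (T ^ (9 / 100 : ℝ) * B) := by gcongr
      _ = (1 + |ν|) * T ^ (9 / 100 + 504 / 1000 : ℝ) := by rw [hBd, ← Real.rpow_add hT0]
      _ ≤ (1 + |ν|) * T ^ (6 / 10 : ℝ) := by
          refine mul_le_mul_of_nonneg_left ?_ (by linarith)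
          exact Real.rpow_le_rpow_of_exponent_le hT1 (by norm_num)
  -- a bound for `Q`
  set t₀ : ℝ := T ^ (4 / 5 : ℝ) with ht₀
  have ht0 : 0 < t₀ := by positivity
  have ht1 : 1 ≤ t₀ := Real.one_le_rpow hT1 (by norm_num)
  set K : ℝ := Cz ^ 2 * (1 + t₀) ^ 4 * B * (X⁻¹ * (t₀ / X) ^ 9) with hK
  have hK0 : 0 ≤ K := by positivity
  have hHP : ∀ t : ℝ, ‖HP N c t‖ ^ 2 ≤ B := by
    intro t
    rw [← hBsq]
    have := (F4.Three.norm_HP_le N c t).trans hs1
    gcongr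
  have hQle : Q ≤ (X / t₀) ^ 2 * P + K * t₀ := by
    have hfin : IntegrableOn (fun t : ℝ => (Set.Ioc 0 t₀).indicator (fun _ => K) t) (Set.Ioi 0) := by
      refine (IntegrableOn.integrable_indicator ?_ measurableSet_Ioc).integrableOn
      exact integrableOn_const (by simp) (by simp)
    have hle : ∀ t ∈ Set.Ioi (0 : ℝ), gi X 9 N c t ≤
        (X / t₀) ^ 2 * gi X 11 N c t + (Set.Ioc 0 t₀).indicator (fun _ => K) t := by
      intro t ht
      have htp : 0 < t := ht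
      by_cases h : t ≤ t₀
      · rw [Set.indicator_of_mem (show t ∈ Set.Ioc 0 t₀ from ⟨htp, h⟩)]
        have h1 : gi X 9 N c t ≤ K := by
          unfold gi
          have z1 : ‖riemannZeta (1 / 2 + t * I)‖ ^ 2 ≤ Cz ^ 2 * (1 + t₀) ^ 4 := by
            have := hzb t
            rw [abs_of_pos htp] at this
            calc ‖riemannZeta (1 / 2 + t * I)‖ ^ 2 ≤ (Cz * (1 + t) ^ 2) ^ 2 := by gcongr
              _ ≤ (Cz * (1 + t₀) ^ 2) ^ 2 := by gcongr
              _ = _ := by ring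
          have z2 : X⁻¹ * (t / X) ^ 9 * Real.exp (-(t / X)) ≤ X⁻¹ * (t₀ / X) ^ 9 := by
            have e1 : Real.exp (-(t / X)) ≤ 1 := by
              apply Real.exp_le_one_iff.mpr
              have : 0 ≤ t / X := by positivity
              linarith
            calc X⁻¹ * (t / X) ^ 9 * Real.exp (-(t / X)) ≤ X⁻¹ * (t₀ / X) ^ 9 * 1 := by gcongr
              _ = _ := mul_one _
          have := hHP t
          rw [hK]
          gcongr
        have h2 : 0 ≤ (X / t₀) ^ 2 * gi X 11 N c t :=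
          mul_nonneg (by positivity) (gi_nonneg X hX0 11 N c t ht)
        linarith
      · rw [not_le] at h
        rw [Set.indicator_of_notMem (by
          rw [Set.mem_Ioc, not_and_or]
          exact Or.inr (not_le.mpr h)), add_zero]
        unfold gi
        have e1 : (t / X) ^ 9 ≤ (X / t₀) ^ 2 * (t / X) ^ 11 := by
          have e2 : (X / t₀) ^ 2 * (t / X) ^ 11 = (t / t₀) ^ 2 * (t / X) ^ 9 := by
            field_simp
          rw [e2]
          refine le_mul_of_one_le_left (by positivity) (one_le_pow₀ ?_)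
          rw [le_div_iff₀ ht0]
          linarith
        calc ‖riemannZeta (1 / 2 + t * I)‖ ^ 2 * ‖HP N c t‖ ^ 2 *
              (X⁻¹ * (t / X) ^ 9 * Real.exp (-(t / X))) ≤
            ‖riemannZeta (1 / 2 + t * I)‖ ^ 2 * ‖HP N c t‖ ^ 2 *
              (X⁻¹ * ((X / t₀) ^ 2 * (t / X) ^ 11) * Real.exp (-(t / X))) := by gcongr
          _ = _ := by ring
    have h3 : Q ≤ ∫ t in Set.Ioi (0 : ℝ), ((X / t₀) ^ 2 * gi X 11 N c t +
        (Set.Ioc 0 t₀).indicator (fun _ => K) t) :=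
      setIntegral_mono_on i9 ((i11.const_mul _).add hfin) measurableSet_Ioi hle
    refine h3.trans (le_of_eq ?_)
    rw [integral_add (i11.const_mul _) hfin, integral_const_mul]
    congr 1
    rw [setIntegral_indicator measurableSet_Ioc]
    have : Set.Ioi (0 : ℝ) ∩ Set.Ioc 0 t₀ = Set.Ioc 0 t₀ := by
      ext x
      simp only [Set.mem_inter_iff, Set.mem_Ioi, Set.mem_Ioc]
      tauto
    rw [this, setIntegral_const]
    simp [Real.volume_real_Ioc, ht0.le, mul_comm]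
  -- the three errors
  have hE1 : (X ^ 2)⁻¹ * ((X / t₀) ^ 2 * P) ≤ (1 + |ν|) * T ^ (-(1 / 200) : ℝ) := by
    have e1 : (X ^ 2)⁻¹ * ((X / t₀) ^ 2 * P) = T ^ (-(8 / 5) : ℝ) * P := by
      have : T ^ (-(8 / 5) : ℝ) = (t₀ ^ 2)⁻¹ := by
        rw [ht₀, ← Real.rpow_natCast, ← Real.rpow_mul hT0.le, ← Real.rpow_neg hT0.le]
        norm_num
      rw [this]
      field_simp
    rw [e1]
    calc T ^ (-(8 / 5) : ℝ) * P ≤ T ^ (-(8 / 5) : ℝ) * ((1 + |ν|) * T ^ (6 / 10 : ℝ)) := by gcongr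
      _ = (1 + |ν|) * (T ^ (-(8 / 5) : ℝ) * T ^ (6 / 10 : ℝ)) := by ring
      _ = (1 + |ν|) * T ^ (-(8 / 5) + 6 / 10 : ℝ) := by rw [Real.rpow_add hT0]
      _ ≤ _ := by
          refine mul_le_mul_of_nonneg_left ?_ (by linarith)
          exact Real.rpow_le_rpow_of_exponent_le hT1 (by norm_num)
  have hE2 : (X ^ 2)⁻¹ * (K * t₀) ≤ (1 + |ν|) * T ^ (-(1 / 200) : ℝ) := by
    have c1 : 16 * Cz ^ 2 ≤ T ^ (1 / 100 : ℝ) := by
      refine le_trans ?_ f2
      have : 0 ≤ 16 * Cz ^ 2 := by positivity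
      nlinarith
    have c2 : (1 + t₀) ^ 4 ≤ 16 * t₀ ^ 4 := by
      calc (1 + t₀) ^ 4 ≤ (2 * t₀) ^ 4 := by
            gcongr
            linarith
        _ = _ := by ring
    have c3 : X⁻¹ ≤ T ^ (-(999 / 1000) : ℝ) := by
      rw [Real.rpow_neg hT0.le]
      gcongr
    have c4 : (T ^ (-(999 / 1000) : ℝ)) ^ 12 = T ^ (-(11988 / 1000) : ℝ) := by
      rw [← Real.rpow_natCast, ← Real.rpow_mul hT0.le]; norm_num
    have c5 : t₀ ^ 14 = T ^ (112 / 10 : ℝ) := by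
      rw [ht₀, ← Real.rpow_natCast, ← Real.rpow_mul hT0.le]; norm_num
    calc (X ^ 2)⁻¹ * (K * t₀) = Cz ^ 2 * (1 + t₀) ^ 4 * B * (t₀ ^ 10 * X⁻¹ ^ 12) := by
          rw [hK]
          field_simp
      _ ≤ Cz ^ 2 * (16 * t₀ ^ 4) * B * (t₀ ^ 10 * (T ^ (-(999 / 1000) : ℝ)) ^ 12) := by gcongr
      _ = (16 * Cz ^ 2) * (t₀ ^ 14 * B * T ^ (-(11988 / 1000) : ℝ)) := by
          rw [c4]; ring
      _ ≤ T ^ (1 / 100 : ℝ) * (t₀ ^ 14 * B * T ^ (-(11988 / 1000) : ℝ)) := by gcongr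
      _ = T ^ (1 / 100 + (112 / 10 + 504 / 1000 + -(11988 / 1000)) : ℝ) := by
          rw [c5, hBd, Real.rpow_add hT0, Real.rpow_add hT0, Real.rpow_add hT0]
      _ ≤ T ^ (-(1 / 200) : ℝ) := Real.rpow_le_rpow_of_exponent_le hT1 (by norm_num)
      _ ≤ (1 + |ν|) * T ^ (-(1 / 200) : ℝ) := by
          refine le_mul_of_one_le_left (by positivity) (by linarith)
  have hE3 : (X ^ 2)⁻¹ * (V * Real.log T * B) ≤ (1 + |ν|) * T ^ (-(1 / 200) : ℝ) := by
    have c1 : V * Real.log T ≤ T ^ (9 / 100 : ℝ) := by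
      refine le_trans ?_ f1
      gcongr
      linarith
    calc (X ^ 2)⁻¹ * (V * Real.log T * B) ≤ T ^ (-(1998 / 1000) : ℝ) * (T ^ (9 / 100 : ℝ) * B) := by
          gcongr
      _ = T ^ (-(1998 / 1000) + (9 / 100 + 504 / 1000) : ℝ) := by
          rw [hBd, Real.rpow_add hT0, Real.rpow_add hT0]
      _ ≤ T ^ (-(1 / 200) : ℝ) := Real.rpow_le_rpow_of_exponent_le hT1 (by norm_num)
      _ ≤ (1 + |ν|) * T ^ (-(1 / 200) : ℝ) := by
          refine le_mul_of_one_le_left (by positivity) (by linarith)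
  -- the circle averages
  have hr0 : 0 < 1 / Real.log T := by positivity
  have hr1 : 1 / Real.log T ≤ 1 / 2 := one_div_le_one_div_of_le (by norm_num) (by linarith)
  have j12 : CircleIntegrable (Mt X 12 N c) 0 (1 / Real.log T) :=
    (mt_cont hX0 (c := 12) (by norm_num) N c hr0 hr1).circleIntegrable'
  have j10 : CircleIntegrable (fun a => (1 / 2 - a) ^ 2 * ((X : ℂ) ^ 2)⁻¹ * Mt X 10 N c a) 0
      (1 / Real.log T) := by
    apply ContinuousOn.circleIntegrable'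
    refine ContinuousOn.mul ?_ (mt_cont hX0 (c := 10) (by norm_num) N c hr0 hr1)
    exact Continuous.continuousOn (by fun_prop)
  have hsplit : Real.circleAverage (Ms X 12 N c) 0 (1 / Real.log T) =
      Real.circleAverage (Mt X 12 N c) 0 (1 / Real.log T) +
      Real.circleAverage (fun a => (1 / 2 - a) ^ 2 * ((X : ℂ) ^ 2)⁻¹ * Mt X 10 N c a) 0
        (1 / Real.log T) := by
    rw [← Real.circleAverage_fun_add j12 j10]
    congr 1
    funext a
    rw [Ms, e10']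
  have havg10 := norm_circleAverage_le (r := 1 / Real.log T) hr0 hg10
  have hfin : ‖(P : ℂ) - Real.circleAverage (Mt X 12 N c) 0 (1 / Real.log T)‖ ≤
      (C₇ + 3) * (1 + |ν|) * T ^ (-(1 / 200) : ℝ) := by
    have e1 : (P : ℂ) - Real.circleAverage (Mt X 12 N c) 0 (1 / Real.log T) =
        (Js X 12 N c 0 - Real.circleAverage (Ms X 12 N c) 0 (1 / Real.log T)) -
        ((1 / 4 * (X ^ 2)⁻¹ * Q : ℝ) : ℂ) +
        Real.circleAverage (fun a => (1 / 2 - a) ^ 2 * ((X : ℂ) ^ 2)⁻¹ * Mt X 10 N c a) 0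
          (1 / Real.log T) := by
      rw [hval, hsplit]
      push_cast
      ring
    have hTe : T ^ (-(1 / 100) : ℝ) ≤ T ^ (-(1 / 200) : ℝ) :=
      Real.rpow_le_rpow_of_exponent_le hT1 (by norm_num)
    have hq : ‖((1 / 4 * (X ^ 2)⁻¹ * Q : ℝ) : ℂ)‖ ≤ 2 * ((1 + |ν|) * T ^ (-(1 / 200) : ℝ)) := by
      rw [Complex.norm_real, Real.norm_of_nonneg (by positivity)]
      have h1 : (X ^ 2)⁻¹ * Q ≤ (X ^ 2)⁻¹ * ((X / t₀) ^ 2 * P + K * t₀) := by gcongr
      have h2 : 0 ≤ (X ^ 2)⁻¹ * Q := by positivity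
      nlinarith
    rw [e1]
    refine (norm_add_le _ _).trans ((add_le_add ((norm_sub_le _ _).trans
      (add_le_add hthree hq)) (havg10.trans hE3)).trans ?_)
    have h3 : C₇ * (1 + |ν|) * T ^ (-(1 / 100) : ℝ) ≤ C₇ * (1 + |ν|) * T ^ (-(1 / 200) : ℝ) := by
      gcongr
    linarith
  exact hfin

end K4
end Pool.Agent.Lib.MP_973905_nt
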