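import Pool.Agent.Lib.MP_973905_nt.K4.Stmts
import Pool.Agent.Lib.MP_973905_nt.F4.FB4
import Pool.Agent.Lib.MP_973905_nt.F4.Main4
import Pool.Agent.Lib.MP_973905_nt.K1.SHFourier
import Pool.Agent.Lib.MP_973905_nt.K1.Fin

/-! Module R2 of the folder K4: sharp comparison of the twisted and the untwisted factor. -/

namespace Pool.Agent.Lib.MP_973905_nt
namespace K4

open MeasureTheory ProbabilityTheory Complex Filter Topology K1 F4

namespace Red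

open FourG (Cut gh gh_int SG)

variable {φ : ℝ → ℝ}

/-- The shift, without the factor `1 / log T`. -/
noncomputable def zn (x ξ : ℝ) : ℂ := 2 + ((x - 2 * Real.pi * ξ : ℝ) : ℂ) * I

lemma zn_re (x ξ : ℝ) : (zn x ξ).re = 2 := by
  rw [zn, add_re, re_ofReal_mul, I_re]; norm_num

lemma norm_zn_le (x ξ : ℝ) : ‖zn x ξ‖ ≤ 2 + |x| + 7 * |ξ| := by
  have h1 : ‖zn x ξ‖ ≤ 2 + |x - 2 * Real.pi * ξ| := by
    rw [zn]
    refine (norm_add_le _ _).trans ?_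
    rw [norm_mul, norm_I, mul_one, norm_real, Real.norm_eq_abs, Complex.norm_ofNat]
  have h2 : |x - 2 * Real.pi * ξ| ≤ |x| + 7 * |ξ| := by
    refine (abs_sub _ _).trans ?_
    rw [abs_mul, abs_mul, abs_of_pos Real.pi_pos, abs_of_pos (by norm_num : (0:ℝ) < 2)]
    have := Real.pi_lt_d2
    have h3 : 2 * Real.pi * |ξ| ≤ 7 * |ξ| := by
      gcongr
      linarith
    linarith
  linarith

lemma wx_eq {T : ℝ} (hL : 0 < Real.log T) (ν ξ : ℝ) :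
    FB4.wx T (1 / 2 + ((1 / Real.log T : ℝ) : ℂ) + ν * I) ξ =
      1 / 2 + zn (Real.log T * ν) ξ / Real.log T := by
  have h : (Real.log T : ℂ) ≠ 0 := by exact_mod_cast hL.ne'
  rw [FB4.wx, zn]
  push_cast
  field_simp
  ring

/-- The representation under the expectation. -/
lemma ER_SG (h : Cut φ) {m : ℕ} {Sb : Fin m → Finset ℕ} (hB : Blk Sb) {T : ℝ} (hT : 1 < T)
    (hU : ∀ n : ℕ, 1 ≤ n → (n : ℝ) ≤ T → n ∈ Nat.factoredNumbers (UU Sb)) {w : ℂ} (hw : 0 < w.re)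
    {B : (ℕ → ℂ) → ℂ} (hBC : BC Sb B) :
    Integrable (fun ξ : ℝ => gh h ξ *
      ER Sb (fun f => ZZ (UU Sb) (tw (FB4.wx T w ξ) f) * B f)) ∧
    ER Sb (fun f => SG φ T (tw w f) * B f) = ∫ ξ : ℝ, gh h ξ *
      ER Sb (fun f => ZZ (UU Sb) (tw (FB4.wx T w ξ) f) * B f) := by
  have hL : 0 < Real.log T := Real.log_pos hT
  have hσ : 0 < w.re + 1 / Real.log T := by positivity
  obtain ⟨hBc, CB, hCB⟩ := hBC
  set Cz : ℝ := ∏ p ∈ UU Sb, (1 - (p : ℝ) ^ (-(w.re + 1 / Real.log T)))⁻¹ with hCz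
  have hZ := fun ξ ω => FB4.norm_ZZ_le (m := m) (Sb := Sb) hB (T := T) (w := w) hσ ξ ω
  have hZc := FB4.continuous_ZZ (m := m) (Sb := Sb) hB (T := T) (w := w) hσ
  have hgi : Integrable fun ξ : ℝ => ‖gh h ξ‖ := ((gh h).integrable (μ := volume)).norm
  have hH : Integrable (fun x : ℝ × ((j : Fin m) → Sb j → ℝ) => gh h x.1 *
      (ZZ (UU Sb) (tw (FB4.wx T w x.1) (XX Sb x.2)) * B (XX Sb x.2)))
      (volume.prod (PP0 Sb)) := by
    have h1 : Integrable (fun x : ℝ × ((j : Fin m) → Sb j → ℝ) => ‖gh h x.1‖ * (Cz * CB))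
        (volume.prod (PP0 Sb)) :=
      (hgi.mul_const _).comp_fst (PP0 Sb)
    refine h1.mono' ?_ ?_
    · refine Continuous.aestronglyMeasurable ?_
      exact ((gh h).continuous.comp continuous_fst).mul (hZc.mul (hBc.comp continuous_snd))
    · refine Filter.Eventually.of_forall fun x => ?_
      rw [norm_mul, norm_mul]
      have h2 := hZ x.1 x.2
      have h3 := hCB x.2
      have h4 : 0 ≤ Cz := (norm_nonneg _).trans h2
      gcongr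
  refine ⟨?_, ?_⟩
  · refine hH.integral_prod_left.congr (Filter.Eventually.of_forall fun ξ => ?_)
    simp only
    rw [ER_eq, ← integral_const_mul]
  · have e1 : ∫ ξ : ℝ, gh h ξ * ER Sb (fun f => ZZ (UU Sb) (tw (FB4.wx T w ξ) f) * B f) =
        ∫ ω, ∫ ξ : ℝ, gh h ξ * (ZZ (UU Sb) (tw (FB4.wx T w ξ) (XX Sb ω)) *
          B (XX Sb ω)) ∂volume ∂(PP0 Sb) := by
      rw [← integral_integral_swap hH]
      congr 1
      funext ξ
      rw [ER_eq, ← integral_const_mul]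
    rw [e1, ER_eq]
    congr 1
    funext ω
    rw [FB4.SG_eq h hB hT hU hw ω, ← integral_mul_const]
    congr 1
    funext ξ
    ring

lemma qg_sum (φ : ℝ → ℝ) (T ν : ℝ) (f : ℕ → ℂ) :
    ∑ n ∈ Finset.Icc 1 ⌊T⌋₊, qg φ T ν n * tw (1 / 2) f n =
      SG φ T (tw (1 / 2 + ((1 / Real.log T : ℝ) : ℂ) + ν * I) f) := by
  rw [FourG.SG]
  refine Finset.sum_congr rfl fun n hn => ?_
  rw [Finset.mem_Icc] at hn
  have h0 : (n : ℂ) ≠ 0 := by
    have : n ≠ 0 := by omega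
    exact_mod_cast this
  simp only [qg, tw]
  rw [show -(1 / 2 + ((1 / Real.log T : ℝ) : ℂ) + ν * I) =
    -(((1 / Real.log T : ℝ) : ℂ) + ν * I) + -(1 / 2 : ℂ) by ring, cpow_add _ _ h0]
  ring

/-- The shifted fourth moment with our shifts. -/
noncomputable def R4 (T : ℝ) (M : ℕ) (N : (ℕ → ℂ) → ℂ) (a : ℂ) (x ξ₂ ξ : ℝ) : ℂ :=
  K3.RZ4 T M N ((starRingEnd ℂ) a) (zn x ξ₂ / Real.log T) ((starRingEnd ℂ) a)
    ((starRingEnd ℂ) (zn x ξ) / Real.log T)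

/-- The double integral. -/
lemma dbl (h : Cut φ) {T : ℝ} (hT : 1 < T) (M : ℕ) (ν : ℝ) {a : ℂ} (ha : -(1 / 2) < a.re)
    (N : (ℕ → ℂ) → ℂ) (bN : BC (SB T M (JJ T)) (fun f => N (tw (1 / 2) f))) :
    (∀ ξ : ℝ, Integrable (fun ξ₂ : ℝ => gh h ξ₂ * R4 T M N a (Real.log T * ν) ξ₂ ξ)) ∧
    Integrable (fun ξ : ℝ => gh h ξ * (starRingEnd ℂ) (∫ ξ₂ : ℝ, gh h ξ₂ *
      R4 T M N a (Real.log T * ν) ξ₂ ξ)) ∧
    RZ T M (fun f => (∑ n ∈ Finset.Icc 1 ⌊T⌋₊, qg φ T ν n * f n) * N f) a a =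
      ∫ ξ : ℝ, gh h ξ * (starRingEnd ℂ) (∫ ξ₂ : ℝ, gh h ξ₂ *
        R4 T M N a (Real.log T * ν) ξ₂ ξ) := by
  have hL : 0 < Real.log T := Real.log_pos hT
  set w : ℂ := 1 / 2 + ((1 / Real.log T : ℝ) : ℂ) + ν * I with hw
  have hwre : 0 < w.re := by
    have : w.re = 1 / 2 + 1 / Real.log T := by
      rw [hw]; simp
    rw [this]; positivity
  have hwx : ∀ ξ, FB4.wx T w ξ = 1 / 2 + zn (Real.log T * ν) ξ / Real.log T := fun ξ =>
    wx_eq hL ν ξ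
  have hprime : ∀ p ∈ PS 0 T, p.Prime := fun p hp => XB.prime_PS hp
  have hwa : 0 < (1 / 2 + a : ℂ).re := by rw [add_re]; norm_num; linarith
  have hwb : 0 < (1 / 2 + (starRingEnd ℂ) a : ℂ).re := by rw [add_re, conj_re]; norm_num; linarith
  set S : (ℕ → ℂ) → ℂ := fun f => SG φ T (tw w f) with hS
  have bS : BC (SB T M (JJ T)) S := Main4.bc_lin _ _ _
  set N' : (ℕ → ℂ) → ℂ := fun f => N (tw (1 / 2) f) with hN'
  set Z : (ℕ → ℂ) → ℂ := fun f => ZZ (PS 0 T) (tw (1 / 2 + a) f) with hZ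
  set Z' : (ℕ → ℂ) → ℂ := fun f => ZZ (PS 0 T) (tw (1 / 2 + (starRingEnd ℂ) a) f) with hZ'
  have bZ : BC (SB T M (JJ T)) Z := bc_ZZ hprime hwa
  have bZ' : BC (SB T M (JJ T)) Z' := bc_ZZ hprime hwb
  set B : (ℕ → ℂ) → ℂ := fun f => (starRingEnd ℂ) (S f) * ((Z f * (starRingEnd ℂ) (Z' f)) *
    (N' f * (starRingEnd ℂ) (N' f))) with hBdef
  have bB : BC (SB T M (JJ T)) B := bS.conj.mul ((bZ.mul bZ'.conj).mul (bN.mul bN.conj))
  obtain ⟨i1, r1⟩ := ER_SG h (blk_SB hT M (JJ T)) hT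
    (fun n h1 h2 => mem_factored hT M (JJ T) h1 h2) hwre bB
  have inner : ∀ ξ : ℝ, Integrable (fun ξ₂ : ℝ => gh h ξ₂ * R4 T M N a (Real.log T * ν) ξ₂ ξ) ∧
      ER (SB T M (JJ T)) (fun f => ZZ (UU (SB T M (JJ T))) (tw (FB4.wx T w ξ) f) * B f) =
        (starRingEnd ℂ) (∫ ξ₂ : ℝ, gh h ξ₂ * R4 T M N a (Real.log T * ν) ξ₂ ξ) := by
    intro ξ
    set Y : (ℕ → ℂ) → ℂ := fun f => ZZ (PS 0 T) (tw (1 / 2 + zn (Real.log T * ν) ξ / Real.log T) f)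
      with hY
    have bY : BC (SB T M (JJ T)) Y := bc_ZZ hprime (by
      rw [add_re, div_ofReal_re, zn_re]
      have : 0 < 2 / Real.log T := by positivity
      norm_num
      linarith)
    set B' : (ℕ → ℂ) → ℂ := fun f => (starRingEnd ℂ) (Y f) * (((starRingEnd ℂ) (Z f) * Z' f) *
      (N' f * (starRingEnd ℂ) (N' f))) with hB'
    have bB' : BC (SB T M (JJ T)) B' := bY.conj.mul ((bZ.conj.mul bZ').mul (bN.mul bN.conj))
    obtain ⟨i3, r3⟩ := ER_SG h (blk_SB hT M (JJ T)) hT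
      (fun n h1 h2 => mem_factored hT M (JJ T) h1 h2) hwre bB'
    have e3 : ∀ ξ₂ : ℝ, ER (SB T M (JJ T)) (fun f => ZZ (UU (SB T M (JJ T)))
        (tw (FB4.wx T w ξ₂) f) * B' f) = R4 T M N a (Real.log T * ν) ξ₂ ξ := by
      intro ξ₂
      rw [R4, K3.RZ4, UU_SB hT, hwx]
      congr 1
      funext f
      simp only [hB', hY, hZ, hZ', hN', map_div₀, map_mul, conj_conj, conj_ofReal]
      ring
    simp only [e3] at i3 r3
    refine ⟨i3, ?_⟩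
    rw [← r3, ← SHF.ER_conj, UU_SB hT, hwx]
    congr 1
    funext f
    simp only [hBdef, hB', hS, map_mul, conj_conj, hY]
    ring
  have e1 := fun ξ => (inner ξ).2
  simp only [e1] at i1 r1
  refine ⟨fun ξ => (inner ξ).1, i1, ?_⟩
  rw [← r1, RZ]
  congr 1
  funext f
  simp only [qg_sum, hBdef, hS, hZ, hZ', hN', map_mul]
  ring

lemma amgm4 (x y z w : ℝ) : x * y * (z * w) ≤ 1 / 4 * (x ^ 4 + y ^ 4 + z ^ 4 + w ^ 4) := by
  have h1 := sq_nonneg (x * y - z * w)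
  have h2 := sq_nonneg (x ^ 2 - y ^ 2)
  have h3 := sq_nonneg (z ^ 2 - w ^ 2)
  nlinarith

lemma int4 {Ω : Type*} [MeasurableSpace Ω] {μ : Measure Ω} {F₁ F₂ F₃ F₄ : Ω → ℝ}
    (h₁ : Integrable F₁ μ) (h₂ : Integrable F₂ μ) (h₃ : Integrable F₃ μ) (h₄ : Integrable F₄ μ) :
    Integrable (fun ω => 1 / 4 * (F₁ ω + F₂ ω + F₃ ω + F₄ ω)) μ ∧
    1 / 4 * (∫ ω, F₁ ω ∂μ + ∫ ω, F₂ ω ∂μ + ∫ ω, F₃ ω ∂μ + ∫ ω, F₄ ω ∂μ) =
      ∫ ω, 1 / 4 * (F₁ ω + F₂ ω + F₃ ω + F₄ ω) ∂μ := by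
  have j12 : Integrable (fun ω => F₁ ω + F₂ ω) μ := h₁.add h₂
  have j123 : Integrable (fun ω => F₁ ω + F₂ ω + F₃ ω) μ := j12.add h₃
  have j : Integrable (fun ω => F₁ ω + F₂ ω + F₃ ω + F₄ ω) μ := j123.add h₄
  refine ⟨j.const_mul _, ?_⟩
  rw [integral_const_mul, integral_add j123 h₄, integral_add j12 h₃, integral_add h₁ h₂]

/-- Hoelder for the shifted fourth moment. -/
lemma rz4_le {T : ℝ} (M : ℕ) {N : (ℕ → ℂ) → ℂ}
    (bN : BC (SB T M (JJ T)) (fun f => N (tw (1 / 2) f))) {a₁ a₂ b₁ b₂ : ℂ}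
    (h₁ : -(1 / 2) < a₁.re) (h₂ : -(1 / 2) < a₂.re) (h₃ : -(1 / 2) < b₁.re)
    (h₄ : -(1 / 2) < b₂.re) :
    ‖K3.RZ4 T M N a₁ a₂ b₁ b₂‖ ≤
      1 / 4 * (ER (SB T M (JJ T)) (fun f => ‖ZZ (PS 0 T) (tw (1 / 2 + a₁) f)‖ ^ 4 *
          ‖N (tw (1 / 2) f)‖ ^ 2) +
        ER (SB T M (JJ T)) (fun f => ‖ZZ (PS 0 T) (tw (1 / 2 + a₂) f)‖ ^ 4 *
          ‖N (tw (1 / 2) f)‖ ^ 2) +
        ER (SB T M (JJ T)) (fun f => ‖ZZ (PS 0 T) (tw (1 / 2 + (starRingEnd ℂ) b₁) f)‖ ^ 4 *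
          ‖N (tw (1 / 2) f)‖ ^ 2) +
        ER (SB T M (JJ T)) (fun f => ‖ZZ (PS 0 T) (tw (1 / 2 + (starRingEnd ℂ) b₂) f)‖ ^ 4 *
          ‖N (tw (1 / 2) f)‖ ^ 2)) := by
  have hprime : ∀ p ∈ PS 0 T, p.Prime := fun p hp => XB.prime_PS hp
  have hb : ∀ w : ℂ, -(1 / 2) < w.re →
      BC (SB T M (JJ T)) (fun f => ZZ (PS 0 T) (tw (1 / 2 + w) f)) := fun w hw =>
    bc_ZZ hprime (by rw [add_re]; norm_num; linarith)
  have i1 := Main4.int_pow4 (hb a₁ h₁) bN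
  have i2 := Main4.int_pow4 (hb a₂ h₂) bN
  have i3 := Main4.int_pow4 (hb ((starRingEnd ℂ) b₁) (by rwa [conj_re])) bN
  have i4 := Main4.int_pow4 (hb ((starRingEnd ℂ) b₂) (by rwa [conj_re])) bN
  rw [K3.RZ4]
  simp only [ER_eq]
  rw [(int4 i1 i2 i3 i4).2]
  refine (norm_integral_le_integral_norm _).trans ?_
  refine integral_mono_of_nonneg (Filter.Eventually.of_forall fun ω => norm_nonneg _)
    (int4 i1 i2 i3 i4).1 (Filter.Eventually.of_forall fun ω => ?_)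
  simp only [norm_mul, RCLike.norm_conj]
  have h := amgm4 ‖ZZ (PS 0 T) (tw (1 / 2 + a₁) (XX (SB T M (JJ T)) ω))‖
    ‖ZZ (PS 0 T) (tw (1 / 2 + a₂) (XX (SB T M (JJ T)) ω))‖
    ‖ZZ (PS 0 T) (tw (1 / 2 + (starRingEnd ℂ) b₁) (XX (SB T M (JJ T)) ω))‖
    ‖ZZ (PS 0 T) (tw (1 / 2 + (starRingEnd ℂ) b₂) (XX (SB T M (JJ T)) ω))‖
  have h' := mul_le_mul_of_nonneg_right h (sq_nonneg ‖N (tw (1 / 2) (XX (SB T M (JJ T)) ω))‖)
  refine le_trans (le_of_eq ?_) (h'.trans (le_of_eq ?_))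
  · ring
  · ring

lemma NN_zero (T : ℝ) (M : ℕ) (f : ℕ → ℂ) : NN T M 0 f = 1 := by
  rw [NN, AA]
  refine Finset.prod_eq_one fun j hj => ?_
  have h : ∀ (l : ℕ) (z : ℂ), Ntr l 0 z = 1 := by
    intro l z
    rw [Ntr, Finset.sum_range_succ']
    simp
  simp [Fc, h]

/-- Crude bound for the shifted fourth moment. -/
lemma crudeR {T : ℝ} (hL : 2 < Real.log T) (M : ℕ) {N : (ℕ → ℂ) → ℂ}
    (bN : BC (SB T M (JJ T)) (fun f => N (tw (1 / 2) f))) {C : ℕ} {K : ℝ} (hK : 0 ≤ K)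
    (hR : ∀ z : ℂ, -1 ≤ z.re → ER (SB T M (JJ T)) (fun f =>
      ‖ZZ (PS 0 T) (tw ((1 / 2 : ℂ) + z / Real.log T) f)‖ ^ 4 * ‖N (tw (1 / 2) f)‖ ^ 2) ≤
        (1 + ‖z‖) ^ C * K) {a : ℂ} (ha : ‖a‖ = 1 / Real.log T) (x ξ₂ ξ : ℝ) :
    ‖R4 T M N a x ξ₂ ξ‖ ≤ K * ((1 + ‖zn x ξ₂‖) * (1 + ‖zn x ξ‖)) ^ C := by
  have hL0 : 0 < Real.log T := by linarith
  have hLC : (Real.log T : ℂ) ≠ 0 := by exact_mod_cast hL0.ne'
  have hare : |a.re| ≤ 1 / Real.log T := by rw [← ha]; exact abs_re_le_norm a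
  have h1L : 1 / Real.log T < 1 / 2 := one_div_lt_one_div_of_lt (by norm_num) hL
  have hare1 := (abs_le.mp hare).1
  have hare' : -(1 / 2) < a.re := by linarith
  have hzr : ∀ η : ℝ, -(1 / 2) < (zn x η / (Real.log T : ℂ)).re := by
    intro η
    rw [div_ofReal_re, zn_re]
    have : 0 < 2 / Real.log T := by positivity
    linarith
  have hzr' : ∀ η : ℝ, -(1 / 2) < ((starRingEnd ℂ) (zn x η) / (Real.log T : ℂ)).re := by
    intro η
    rw [div_ofReal_re, conj_re, zn_re]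
    have : 0 < 2 / Real.log T := by positivity
    linarith
  have h := rz4_le M bN (a₁ := (starRingEnd ℂ) a) (a₂ := zn x ξ₂ / Real.log T)
    (b₁ := (starRingEnd ℂ) a) (b₂ := (starRingEnd ℂ) (zn x ξ) / Real.log T)
    (by rwa [conj_re]) (hzr ξ₂) (by rwa [conj_re]) (hzr' ξ)
  have hab : ∀ c : ℂ, ‖c‖ = 1 / Real.log T → -(1 / Real.log T) ≤ c.re →
      ER (SB T M (JJ T)) (fun f => ‖ZZ (PS 0 T) (tw (1 / 2 + c) f)‖ ^ 4 *
      ‖N (tw (1 / 2) f)‖ ^ 2) ≤ 2 ^ C * K := by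
    intro c hc hcr
    have := hR (c * Real.log T) (by
      rw [re_mul_ofReal]
      have h' : -(1 / Real.log T) * Real.log T = -1 := by field_simp
      nlinarith)
    rw [mul_div_assoc, div_self hLC, mul_one, norm_mul, hc, norm_real, Real.norm_eq_abs,
      abs_of_pos hL0, one_div_mul_cancel hL0.ne'] at this
    refine this.trans (le_of_eq ?_)
    norm_num
  have h1 := hab ((starRingEnd ℂ) a) (by rw [RCLike.norm_conj, ha]) (by rw [conj_re]; linarith)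
  have h3 := hab ((starRingEnd ℂ) ((starRingEnd ℂ) a)) (by
    rw [RCLike.norm_conj, RCLike.norm_conj, ha]) (by rw [conj_re, conj_re]; linarith)
  have h2 := hR (zn x ξ₂) (by rw [zn_re]; norm_num)
  have h4 := hR (zn x ξ) (by rw [zn_re]; norm_num)
  have e4 : (starRingEnd ℂ) ((starRingEnd ℂ) (zn x ξ) / (Real.log T : ℂ)) =
      zn x ξ / Real.log T := by
    rw [map_div₀, conj_conj, conj_ofReal]
  rw [e4] at h
  have g2 : ∀ η : ℝ, 2 ≤ 1 + ‖zn x η‖ := by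
    intro η
    have := abs_re_le_norm (zn x η)
    rw [zn_re, abs_of_pos (by norm_num)] at this
    linarith
  have g3 : ∀ η : ℝ, (2 : ℝ) ^ C ≤ (1 + ‖zn x η‖) ^ C := fun η =>
    pow_le_pow_left₀ (by norm_num) (g2 η) C
  have g4 : ∀ η : ℝ, (1 : ℝ) ≤ (1 + ‖zn x η‖) ^ C := fun η =>
    one_le_pow₀ (by linarith [g2 η])
  set P₂ : ℝ := (1 + ‖zn x ξ₂‖) ^ C with hP₂
  set P : ℝ := (1 + ‖zn x ξ‖) ^ C with hP
  have k2 := g3 ξ₂
  have k4 := g4 ξ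
  have k5 := g4 ξ₂
  rw [mul_pow, ← hP₂, ← hP]
  rw [← hP₂] at k2 k5
  rw [← hP] at k4
  have m1 : (2 : ℝ) ^ C * K ≤ K * (P₂ * P) := by
    calc (2 : ℝ) ^ C * K ≤ P₂ * K := by gcongr
      _ = K * (P₂ * 1) := by ring
      _ ≤ K * (P₂ * P) := by gcongr
  have m2 : P₂ * K ≤ K * (P₂ * P) := by
    calc P₂ * K = K * (P₂ * 1) := by ring
      _ ≤ K * (P₂ * P) := by gcongr
  have m4 : P * K ≤ K * (P₂ * P) := by
    calc P * K = K * (1 * P) := by ring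
      _ ≤ K * (P₂ * P) := by gcongr
  refine h.trans ?_
  have n1 := h1.trans m1
  have n2 := h2.trans m2
  have n3 := h3.trans m1
  have n4 := h4.trans m4
  linarith

lemma EP_le : ∃ C : ℝ, 0 < C ∧ ∀ T : ℝ, 3 ≤ T → ∀ a : ℂ, 0 ≤ a.re →
    ‖K3.EP T a‖ ≤ C * Real.log T := SHF.EE_le

lemma EP_cancel (T : ℝ) (a : ℂ) :
    ‖K3.EP T ((starRingEnd ℂ) a + (starRingEnd ℂ) a)‖ *
      ‖∏ p ∈ PS 0 T, (1 - (p : ℂ) ^ (-(1 + a + a)))‖ ≤ 1 := by
  rw [K3.EP, norm_prod, norm_prod, ← Finset.prod_mul_distrib]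
  refine Finset.prod_le_one (fun p _ => by positivity) fun p hp => ?_
  have h : (p : ℂ).arg ≠ Real.pi := by
    rw [natCast_arg]
    exact Real.pi_pos.ne
  have h2 := cpow_conj (p : ℂ) (-(1 + a + a)) h
  rw [map_natCast] at h2
  have h3 : ‖1 - (p : ℂ) ^ (-(1 + ((starRingEnd ℂ) a + (starRingEnd ℂ) a)))‖ =
      ‖1 - (p : ℂ) ^ (-(1 + a + a))‖ := by
    rw [show -(1 + ((starRingEnd ℂ) a + (starRingEnd ℂ) a)) = (starRingEnd ℂ) (-(1 + a + a)) by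
      simp only [map_neg, map_add, map_one]; ring]
    rw [h2, ← RCLike.norm_conj (1 - (p : ℂ) ^ (-(1 + a + a))), map_sub, map_one]
  rw [norm_inv, h3]
  exact inv_mul_le_one

lemma size_le {M x ξ : ℝ} (hx : |x| ≤ Real.exp (M / 3)) (hM : 0 ≤ M) :
    1 + ‖zn x ξ‖ ≤ 14 * Real.exp (M / 3) * (1 + |ξ|) := by
  have h1 := norm_zn_le x ξ
  have h2 : 1 ≤ Real.exp (M / 3) := Real.one_le_exp (by positivity)
  have h3 := abs_nonneg ξ
  nlinarith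

lemma size_small {M x ξ : ℝ} (hx : |x| ≤ Real.exp (M / 3)) (hM : 6 ≤ M)
    (hξ : 7 * (1 + |ξ|) ≤ Real.exp (M / 3)) : ‖zn x ξ‖ ≤ Real.exp (M / 2) := by
  have h1 := norm_zn_le x ξ
  have h2 : Real.exp (M / 2) = Real.exp (M / 3) * Real.exp (M / 6) := by
    rw [← Real.exp_add]; congr 1; ring
  have h3 : 2 ≤ Real.exp (M / 6) := by
    have := Real.add_one_le_exp (M / 6)
    linarith
  have h4 := Real.exp_pos (M / 3)
  rw [h2]
  nlinarith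

/-- The arithmetic of the far case. -/
lemma far_arith {C : ℕ} {E Q D₀ η Λ X : ℝ} (hE : 1 ≤ E) (hQ : 1 ≤ Q) (hD₀ : 0 ≤ D₀) (hΛ : 0 ≤ Λ)
    (hEQ : E ≤ 7 * Q) (hη : D₀ * 7 ^ (5 * C + 3) ≤ η * E ^ 3)
    (hX : X ≤ D₀ * (E ^ (5 * C) * Q ^ C) * Λ) : X ≤ η * Λ * Q ^ (6 * C + 3) := by
  refine hX.trans ?_
  have hE3 : 0 < E ^ 3 := by positivity
  have hQ0 : 0 ≤ Q := by linarith
  refine le_of_mul_le_mul_right ?_ hE3
  calc D₀ * (E ^ (5 * C) * Q ^ C) * Λ * E ^ 3 = D₀ * (E ^ (5 * C + 3) * Q ^ C) * Λ := by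
        rw [pow_add]; ring
    _ ≤ D₀ * ((7 * Q) ^ (5 * C + 3) * Q ^ C) * Λ := by gcongr
    _ = (D₀ * 7 ^ (5 * C + 3)) * (Q ^ (6 * C + 3) * Λ) := by
        rw [mul_pow, show 6 * C + 3 = (5 * C + 3) + C by ring, pow_add Q (5 * C + 3) C]; ring
    _ ≤ (η * E ^ 3) * (Q ^ (6 * C + 3) * Λ) := by gcongr
    _ = _ := by ring

/-- Comparison of the shifted fourth moments, all shifts. -/
lemma keyR (h7 : K3.StRA4) (hr : F4.StRand4) : ∃ A : ℕ, ∀ η : ℝ, 0 < η → ∃ M₀ : ℕ, 1 ≤ M₀ ∧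
    ∀ M : ℕ, M₀ ≤ M → ∃ κ₁ : ℝ, 0 < κ₁ ∧ κ₁ ≤ 1 / 10 ∧ ∃ T₀ : ℝ, 10 ≤ T₀ ∧ ∀ T, T₀ ≤ T →
    ∀ k : ℝ, 2 - κ₁ ≤ k → k ≤ 2 → ∀ (ν : ℝ) (a : ℂ), |ν| ≤ Real.exp (M / 3) / Real.log T →
    ‖a‖ = 1 / Real.log T → ∀ ξ₂ ξ : ℝ,
    ‖R4 T M (NN T M (k - 2)) a (Real.log T * ν) ξ₂ ξ - (((Real.log T) ^ (k ^ 2 - 4) : ℝ) : ℂ) *
      R4 T M (fun _ => 1) a (Real.log T * ν) ξ₂ ξ‖ *
      ‖∏ p ∈ PS 0 T, (1 - (p : ℂ) ^ (-(1 + a + a)))‖ ≤
      η * (Real.log T) ^ (k ^ 2 - 1) * ((1 + |ξ₂|) ^ A * (1 + |ξ|) ^ A) := by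
  obtain ⟨C, Mc, hR⟩ := hr
  obtain ⟨C₀, hC₀, hEP⟩ := EP_le
  obtain ⟨Cp, hCp, hprod⟩ := Main4.prod_bound
  refine ⟨6 * C + 3, fun η hη => ?_⟩
  obtain ⟨Mr, ra⟩ := h7 (η / C₀ ^ 3) (by positivity)
  set D₀ : ℝ := 2 * Cp * 14 ^ (2 * C) with hD₀
  have hD₀p : 0 < D₀ := by positivity
  obtain ⟨Me, hMe⟩ := exists_nat_ge (Real.log (D₀ * 7 ^ (5 * C + 3) / η))
  refine ⟨max (max Mc Mr) (max Me 6), by
    have := le_max_right Me 6
    have := le_max_right (max Mc Mr) (max Me 6)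
    omega, fun M hM => ?_⟩
  have hM1 : Mc ≤ M := ((le_max_left _ _).trans (le_max_left _ _)).trans hM
  have hM2 : Mr ≤ M := ((le_max_right _ _).trans (le_max_left _ _)).trans hM
  have hM3 : Me ≤ M := ((le_max_left _ _).trans (le_max_right _ _)).trans hM
  have hM4 : 6 ≤ M := ((le_max_right _ _).trans (le_max_right _ _)).trans hM
  obtain ⟨κ₁, hκ, hκ', Tr, hTr, ra⟩ := ra M hM2
  obtain ⟨Tc, hTc, hR⟩ := hR M hM1
  refine ⟨κ₁, hκ, hκ', max (max Tr Tc) 10, le_max_right _ _,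
    fun T hT k hk hk2 ν a hν ha ξ₂ ξ => ?_⟩
  have hTTr : Tr ≤ T := ((le_max_left _ _).trans (le_max_left _ _)).trans hT
  have hTTc : Tc ≤ T := ((le_max_right _ _).trans (le_max_left _ _)).trans hT
  have hT10 : 10 ≤ T := (le_max_right _ _).trans hT
  have hT1 : 1 < T := by linarith
  have hT0 : 0 < T := by linarith
  have hL2 : 2 < Real.log T := by
    rw [Real.lt_log_iff_exp_lt hT0]
    have h := Real.exp_one_lt_d9
    have : Real.exp 2 = Real.exp 1 * Real.exp 1 := by rw [← Real.exp_add]; norm_num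
    rw [this]
    have h' := Real.exp_pos 1
    nlinarith
  have hL0 : 0 < Real.log T := by linarith
  have hUU := UU_SB hT1 M (JJ T)
  have hM6 : (6 : ℝ) ≤ M := by exact_mod_cast hM4
  have hx : |Real.log T * ν| ≤ Real.exp (M / 3) := by
    rw [abs_mul, abs_of_pos hL0]
    rw [le_div_iff₀ hL0] at hν
    linarith
  have hP := hprod T (by linarith) a ha
  set P : ℝ := ‖∏ p ∈ PS 0 T, (1 - (p : ℂ) ^ (-(1 + a + a)))‖ with hPdef
  have hP0 : 0 ≤ P := norm_nonneg _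
  set L := Real.log T with hL
  set x := L * ν with hxdef
  set E := Real.exp ((M : ℝ) / 3) with hE
  have hE1 : 1 ≤ E := Real.one_le_exp (by positivity)
  set Q := (1 + |ξ₂|) * (1 + |ξ|) with hQ
  have hu2 : 1 ≤ 1 + |ξ₂| := by linarith [abs_nonneg ξ₂]
  have hu : 1 ≤ 1 + |ξ| := by linarith [abs_nonneg ξ]
  have hQ1 : 1 ≤ Q := one_le_mul_of_one_le_of_one_le hu2 hu
  have hQA : (1 + |ξ₂|) ^ (6 * C + 3) * (1 + |ξ|) ^ (6 * C + 3) = Q ^ (6 * C + 3) := by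
    rw [hQ, mul_pow]
  rw [hQA]
  have hLk0 : 0 < L ^ (k ^ 2 - 4) := Real.rpow_pos_of_pos hL0 _
  have hLk1 : 0 < L ^ (k ^ 2 - 1) := Real.rpow_pos_of_pos hL0 _
  by_cases hcase : 7 * (1 + |ξ₂|) ≤ E ∧ 7 * (1 + |ξ|) ≤ E
  · -- near case
    have n1 := size_small hx hM6 hcase.1
    have n2 := size_small hx hM6 hcase.2
    have hdiv : ∀ z : ℂ, ‖z‖ ≤ Real.exp ((M : ℝ) / 2) → ‖z / (L : ℂ)‖ ≤ Real.exp (M / 2) / L := by
      intro z hz
      rw [norm_div, norm_real, Real.norm_eq_abs, abs_of_pos hL0]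
      gcongr
    have ha2 : ‖(starRingEnd ℂ) a‖ ≤ Real.exp (M / 2) / L := by
      rw [RCLike.norm_conj, ha]
      have : 1 ≤ Real.exp ((M : ℝ) / 2) := Real.one_le_exp (by positivity)
      gcongr
    have hk' : |k - 2| ≤ κ₁ := by
      rw [abs_le]; constructor <;> linarith
    have hra := ra T hTTr k hk' ((starRingEnd ℂ) a) (zn x ξ₂ / L) ((starRingEnd ℂ) a)
      ((starRingEnd ℂ) (zn x ξ) / L) ha2 (hdiv _ n1) ha2 (hdiv _ (by rwa [RCLike.norm_conj]))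
    have hare : |a.re| ≤ 1 / L := by rw [← ha]; exact abs_re_le_norm a
    have hare1 := (abs_le.mp hare).1
    have e2L : (2 : ℝ) / L = 1 / L + 1 / L := by ring
    have h1L : 0 < 1 / L := by positivity
    have p1 := hEP T (by linarith) ((starRingEnd ℂ) a + (starRingEnd ℂ) (zn x ξ) / L) (by
      rw [add_re, conj_re, div_ofReal_re, conj_re, zn_re]; linarith)
    have p2 := hEP T (by linarith) (zn x ξ₂ / L + (starRingEnd ℂ) a) (by
      rw [add_re, conj_re, div_ofReal_re, zn_re]; linarith)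
    have p3 := hEP T (by linarith) (zn x ξ₂ / L + (starRingEnd ℂ) (zn x ξ) / L) (by
      rw [add_re, div_ofReal_re, div_ofReal_re, conj_re, zn_re, zn_re]; linarith)
    have p0 := EP_cancel T a
    rw [← hPdef] at p0
    set X1 := ‖K3.EP T ((starRingEnd ℂ) a + (starRingEnd ℂ) a)‖ with hX1
    set X2 := ‖K3.EP T ((starRingEnd ℂ) a + (starRingEnd ℂ) (zn x ξ) / L)‖ with hX2
    set X3 := ‖K3.EP T (zn x ξ₂ / L + (starRingEnd ℂ) a)‖ with hX3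
    set X4 := ‖K3.EP T (zn x ξ₂ / L + (starRingEnd ℂ) (zn x ξ) / L)‖ with hX4
    have hX10 : 0 ≤ X1 := norm_nonneg _
    have hX20 : 0 ≤ X2 := norm_nonneg _
    have hX30 : 0 ≤ X3 := norm_nonneg _
    have hX40 : 0 ≤ X4 := norm_nonneg _
    have hL3 : L ^ (k ^ 2 - 4) * L ^ 3 = L ^ (k ^ 2 - 1) := by
      rw [← Real.rpow_natCast L 3, ← Real.rpow_add hL0]
      congr 1
      push_cast
      ring
    have hXX : X2 * X3 * X4 ≤ (C₀ * L) ^ 3 := by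
      calc X2 * X3 * X4 ≤ (C₀ * L) * (C₀ * L) * (C₀ * L) := by gcongr
        _ = _ := by ring
    calc ‖R4 T M (NN T M (k - 2)) a x ξ₂ ξ - ((L ^ (k ^ 2 - 4) : ℝ) : ℂ) *
          R4 T M (fun _ => 1) a x ξ₂ ξ‖ * P
        ≤ (η / C₀ ^ 3 * L ^ (k ^ 2 - 4) * (X1 * X2 * X3 * X4)) * P :=
          mul_le_mul_of_nonneg_right hra hP0
      _ = (η / C₀ ^ 3 * L ^ (k ^ 2 - 4)) * ((X2 * X3 * X4) * (X1 * P)) := by ring
      _ ≤ (η / C₀ ^ 3 * L ^ (k ^ 2 - 4)) * ((C₀ * L) ^ 3 * 1) := by gcongr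
      _ = η * (L ^ (k ^ 2 - 4) * L ^ 3) := by field_simp
      _ = η * L ^ (k ^ 2 - 1) := by rw [hL3]
      _ ≤ _ := le_mul_of_one_le_right (by positivity) (one_le_pow₀ hQ1)
  · -- far case
    have hbig : E ≤ 7 * Q := by
      rw [not_and_or, not_le, not_le] at hcase
      rcases hcase with h | h
      · calc E ≤ 7 * ((1 + |ξ₂|) * 1) := by rw [mul_one]; exact h.le
          _ ≤ 7 * Q := by rw [hQ]; gcongr
      · calc E ≤ 7 * (1 * (1 + |ξ|)) := by rw [one_mul]; exact h.le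
          _ ≤ 7 * Q := by rw [hQ]; gcongr
    have hk1 : 1 ≤ k := by linarith
    have hα : |k - 2| ≤ 1 := by rw [abs_le]; constructor <;> linarith
    have bN := SHF.bc_NN hT1 (show 1 ≤ M by omega) hα (w := 1 / 2) (by norm_num)
    have b1' := SHF.bc_NN hT1 (show 1 ≤ M by omega) (α := 0) (by norm_num) (w := 1 / 2)
      (by norm_num)
    have b1 : BC (SB T M (JJ T)) (fun f => (fun _ : ℕ → ℂ => (1 : ℂ)) (tw (1 / 2) f)) := by
      simp only [NN_zero] at b1'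
      exact b1'
    set EC := Real.exp ((C : ℝ) * M) with hEC
    have hEC0 : 0 < EC := Real.exp_pos _
    have hLk2 : 0 < L ^ (k ^ 2) := Real.rpow_pos_of_pos hL0 _
    have c1 := crudeR (C := C) (K := EC * L ^ (k ^ 2)) hL2 M bN (by positivity) (fun z hz => by
      have := hR T hTTc k hk1 hk2 (Finset.range (JJ T + 1)) ∅ (by simp) z hz
      rw [hUU, Finset.prod_empty, mul_one] at this
      refine this.trans (le_of_eq ?_)
      ring) ha x ξ₂ ξ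
    have c2 := crudeR (N := fun _ => 1) (C := C) (K := EC * L ^ ((2 : ℝ) ^ 2)) hL2 M b1 (by positivity)
      (fun z hz => by
      have := hR T hTTc 2 (by norm_num) le_rfl (Finset.range (JJ T + 1)) ∅ (by simp) z hz
      rw [hUU, Finset.prod_empty, mul_one] at this
      have e : ∀ f : ℕ → ℂ, AA T M (JJ T) (2 - 2) (Finset.range (JJ T + 1)) ∅ f = 1 := by
        intro f
        rw [sub_self]
        exact NN_zero T M f
      simp only [e] at this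
      refine this.trans (le_of_eq ?_)
      ring) ha x ξ₂ ξ
    have s1 := size_le (ξ := ξ₂) hx (show (0 : ℝ) ≤ M by positivity)
    have s2 := size_le (ξ := ξ) hx (show (0 : ℝ) ≤ M by positivity)
    rw [← hE] at s1 s2
    set R := ((1 + ‖zn x ξ₂‖) * (1 + ‖zn x ξ‖)) ^ C with hRdef
    have hRle : R ≤ 14 ^ (2 * C) * (E ^ (2 * C) * Q ^ C) := by
      calc R ≤ ((14 * E * (1 + |ξ₂|)) * (14 * E * (1 + |ξ|))) ^ C := by
            rw [hRdef]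
            gcongr
        _ = 14 ^ (2 * C) * (E ^ (2 * C) * Q ^ C) := by
            rw [show (14 * E * (1 + |ξ₂|)) * (14 * E * (1 + |ξ|)) = (14 ^ 2 * E ^ 2) * Q by
              rw [hQ]; ring, mul_pow, mul_pow, ← pow_mul, ← pow_mul]
            ring
    have hR0 : 0 ≤ R := by positivity
    have hECE : EC = E ^ (3 * C) := by
      rw [hEC, hE, ← Real.exp_nat_mul]
      congr 1
      push_cast
      ring
    have hLL : L ^ (k ^ 2 - 4) * L ^ ((2 : ℝ) ^ 2) = L ^ (k ^ 2) := by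
      rw [← Real.rpow_add hL0]
      congr 1
      norm_num
    have hLLL : L ^ (k ^ 2) / L = L ^ (k ^ 2 - 1) := by
      rw [Real.rpow_sub hL0, Real.rpow_one]
    have hD : ‖R4 T M (NN T M (k - 2)) a x ξ₂ ξ - ((L ^ (k ^ 2 - 4) : ℝ) : ℂ) *
          R4 T M (fun _ => 1) a x ξ₂ ξ‖ ≤ 2 * (EC * L ^ (k ^ 2)) * R := by
      refine (norm_sub_le _ _).trans ?_
      rw [norm_mul, norm_real, Real.norm_eq_abs, abs_of_pos hLk0]
      have h5 : L ^ (k ^ 2 - 4) * ‖R4 T M (fun _ => 1) a x ξ₂ ξ‖ ≤ EC * L ^ (k ^ 2) * R := by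
        calc L ^ (k ^ 2 - 4) * ‖R4 T M (fun _ => 1) a x ξ₂ ξ‖ ≤
            L ^ (k ^ 2 - 4) * (EC * L ^ ((2 : ℝ) ^ 2) * R) := by gcongr
          _ = EC * (L ^ (k ^ 2 - 4) * L ^ ((2 : ℝ) ^ 2)) * R := by ring
          _ = _ := by rw [hLL]
      linarith
    have hηE : D₀ * 7 ^ (5 * C + 3) ≤ η * E ^ 3 := by
      have h3 : Real.log (D₀ * 7 ^ (5 * C + 3) / η) ≤ M := hMe.trans (by exact_mod_cast hM3)
      have h4 : D₀ * 7 ^ (5 * C + 3) / η ≤ Real.exp M := by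
        rw [← Real.exp_log (show 0 < D₀ * 7 ^ (5 * C + 3) / η by positivity)]
        exact Real.exp_le_exp.2 h3
      rw [div_le_iff₀ hη] at h4
      have h5 : E ^ 3 = Real.exp M := by
        rw [hE, ← Real.exp_nat_mul]
        congr 1
        push_cast
        ring
      rw [h5]
      linarith
    refine far_arith hE1 hQ1 hD₀p.le hLk1.le hbig hηE ?_
    calc ‖R4 T M (NN T M (k - 2)) a x ξ₂ ξ - ((L ^ (k ^ 2 - 4) : ℝ) : ℂ) *
          R4 T M (fun _ => 1) a x ξ₂ ξ‖ * P ≤ (2 * (EC * L ^ (k ^ 2)) * R) * (Cp / L) := by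
          gcongr
      _ = 2 * Cp * (EC * R) * (L ^ (k ^ 2) / L) := by ring
      _ ≤ 2 * Cp * (EC * (14 ^ (2 * C) * (E ^ (2 * C) * Q ^ C))) * (L ^ (k ^ 2) / L) := by
          gcongr
      _ = D₀ * (E ^ (5 * C) * Q ^ C) * L ^ (k ^ 2 - 1) := by
          rw [hLLL, hECE, hD₀, show 5 * C = 3 * C + 2 * C by ring, pow_add E (3 * C)]
          ring

/-- The formula for the arithmetic factor. -/
lemma RF_eq {T : ℝ} (hT : 10 ≤ T) (M : ℕ) {c : ℕ → ℂ} {φ : ℝ → ℝ} {ν : ℝ} {b : ℕ → ℂ}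
    (N : (ℕ → ℂ) → ℂ)
    (hN : ∀ f : ℕ → ℂ, CMul f → N f = ∑ n ∈ Finset.Icc 1 (Na T), b n * f n)
    (hc : ∀ f : ℕ → ℂ, CMul f → ∑ n ∈ Finset.Icc 1 (Nh T), c n * f n =
      (∑ n ∈ Finset.Icc 1 ⌊T⌋₊, qg φ T ν n * f n) * ∑ d ∈ Finset.Icc 1 (Na T), b d * f d)
    {a : ℂ} (ha : ‖a‖ = 1 / Real.log T) :
    ThreeLines.RF (Nh T) c a =
      RZ T M (fun f => (∑ n ∈ Finset.Icc 1 ⌊T⌋₊, qg φ T ν n * f n) * N f) a a *
        ∏ p ∈ PS 0 T, (1 - (p : ℂ) ^ (-(1 + a + a))) := by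
  have hT1 : 1 < T := by linarith
  have hT0 : 0 < T := by linarith
  have hL2 : 2 < Real.log T := by
    rw [Real.lt_log_iff_exp_lt hT0]
    have h := Real.exp_one_lt_d9
    have : Real.exp 2 = Real.exp 1 * Real.exp 1 := by rw [← Real.exp_add]; norm_num
    rw [this]
    have h' := Real.exp_pos 1
    nlinarith
  have hN' : T ^ (51 / 100 : ℝ) ≤ T := by
    calc T ^ (51 / 100 : ℝ) ≤ T ^ (1 : ℝ) := Real.rpow_le_rpow_of_exponent_le hT1.le (by norm_num)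
      _ = T := Real.rpow_one T
  have hare : |a.re| ≤ 1 / Real.log T := by rw [← ha]; exact abs_re_le_norm a
  have h1L : 1 / Real.log T < 1 / 2 := one_div_lt_one_div_of_lt (by norm_num) hL2
  have hare' : -(1 / 2) < a.re := by
    have := (abs_le.mp hare).1
    linarith
  have h := FinM.formula hT1 hN' c
    (fun f => (∑ n ∈ Finset.Icc 1 ⌊T⌋₊, qg φ T ν n * f n) * N f) (fun f hf => by
      show (∑ n ∈ Finset.Icc 1 ⌊T⌋₊, qg φ T ν n * f n) * N f = _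
      rw [hN f hf]
      exact (hc f hf).symm) M a a hare' hare'
  rw [RA] at h
  rw [h]
  rfl

lemma sh_b1 {T : ℝ} (hT : 1 ≤ T) : Sh T b1 ∧ ∀ f : ℕ → ℂ, CMul f →
    (1 : ℂ) = ∑ n ∈ Finset.Icc 1 (Na T), b1 n * f n := by
  have h1 : 1 ≤ Na T := by
    rw [Na]
    apply Nat.le_floor
    rw [Nat.cast_one]
    exact Real.one_le_rpow hT (by norm_num)
  have hmem : 1 ∈ Finset.Icc 1 (Na T) := by
    rw [Finset.mem_Icc]; exact ⟨le_rfl, h1⟩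
  refine ⟨⟨fun n hn => ?_, ?_⟩, fun f hf => ?_⟩
  · rw [b1, if_neg (by omega)]
  · rw [Finset.sum_eq_single_of_mem 1 hmem]
    · simp only [b1, if_true, norm_one]
      exact Real.one_le_rpow hT (by norm_num)
    · intro n _ hn
      rw [b1, if_neg hn, norm_zero]
  · rw [Finset.sum_eq_single_of_mem 1 hmem]
    · simp [b1, hf.1]
    · intro n _ hn
      rw [b1, if_neg hn, zero_mul]

end Red

open Red in
/-- (R2) sharp comparison of the twisted and the untwisted arithmetic factor -/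
theorem stRed (h7 : K3.StRA4) (hr : F4.StRand4) (hc : StCoG) : StRed := by
  intro φ hφ η hη
  have h := hφ.cut
  obtain ⟨A, key⟩ := keyR h7 hr
  set K : ℝ := ∫ ξ : ℝ, ‖FourG.gh h ξ‖ * (1 + |ξ|) ^ A with hK
  have hK0 : 0 ≤ K := integral_nonneg fun ξ => by positivity
  obtain ⟨M₀, hM₀, key⟩ := key (η / (K + 1) ^ 2) (by positivity)
  obtain ⟨T₂, hT₂, hCo⟩ := hc φ hφ
  refine ⟨M₀, fun M hM => ?_⟩
  obtain ⟨κ₁, hκ, hκ', T₁, hT₁, key⟩ := key M hM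
  refine ⟨κ₁, hκ, hκ', max T₁ T₂, hT₂.trans (le_max_right _ _),
    fun T hT k hk hk2 b hb hNN ν a hν ha => ?_⟩
  have hTT₁ : T₁ ≤ T := (le_max_left _ _).trans hT
  have hTT₂ : T₂ ≤ T := (le_max_right _ _).trans hT
  have hT10 : 10 ≤ T := hT₁.trans hTT₁
  have hT1 : 1 < T := by linarith
  have hT0 : 0 < T := by linarith
  have hL2 : 2 < Real.log T := by
    rw [Real.lt_log_iff_exp_lt hT0]
    have h := Real.exp_one_lt_d9
    have : Real.exp 2 = Real.exp 1 * Real.exp 1 := by rw [← Real.exp_add]; norm_num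
    rw [this]
    have h' := Real.exp_pos 1
    nlinarith
  have hL0 : 0 < Real.log T := by linarith
  have hare : |a.re| ≤ 1 / Real.log T := by rw [← ha]; exact abs_re_le_norm a
  have h1L : 1 / Real.log T < 1 / 2 := one_div_lt_one_div_of_lt (by norm_num) hL2
  have hare' : -(1 / 2) < a.re := by
    have := (abs_le.mp hare).1
    linarith
  have key := key T hTT₁ k hk hk2 ν a hν ha
  have hα : |k - 2| ≤ 1 := by rw [abs_le]; constructor <;> linarith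
  have hM1 : 1 ≤ M := hM₀.trans hM
  have bN := SHF.bc_NN hT1 hM1 hα (w := 1 / 2) (by norm_num)
  have b1' := SHF.bc_NN hT1 hM1 (α := 0) (by norm_num) (w := 1 / 2) (by norm_num)
  have bO : BC (SB T M (JJ T)) (fun f => (fun _ : ℕ → ℂ => (1 : ℂ)) (tw (1 / 2) f)) := by
    simp only [NN_zero] at b1'
    exact b1'
  obtain ⟨hb1, hf1⟩ := sh_b1 hT1.le
  have r1 := RF_eq hT10 M (NN T M (k - 2)) hNN (hCo T hTT₂ ν b hb).2.2.2.2.2 ha
  have r2 := RF_eq hT10 M (fun _ => 1) hf1 (hCo T hTT₂ ν b1 hb1).2.2.2.2.2 ha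
  obtain ⟨i1, i1', d1⟩ := dbl h hT1 M ν hare' (NN T M (k - 2)) bN
  obtain ⟨i2, i2', d2⟩ := dbl h hT1 M ν hare' (fun _ => 1) bO
  rw [r1, r2, d1, d2]
  set L := Real.log T with hL
  set x := L * ν with hx
  set c : ℝ := L ^ (k ^ 2 - 4) with hcdef
  set P : ℂ := ∏ p ∈ PS 0 T, (1 - (p : ℂ) ^ (-(1 + a + a))) with hP
  have hd : (∫ ξ : ℝ, FourG.gh h ξ * (starRingEnd ℂ) (∫ ξ₂ : ℝ, FourG.gh h ξ₂ *
        R4 T M (NN T M (k - 2)) a x ξ₂ ξ)) * P - (c : ℂ) *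
      ((∫ ξ : ℝ, FourG.gh h ξ * (starRingEnd ℂ) (∫ ξ₂ : ℝ, FourG.gh h ξ₂ *
        R4 T M (fun _ => 1) a x ξ₂ ξ)) * P) =
      ∫ ξ : ℝ, FourG.gh h ξ * (starRingEnd ℂ) (∫ ξ₂ : ℝ, FourG.gh h ξ₂ *
        ((R4 T M (NN T M (k - 2)) a x ξ₂ ξ - (c : ℂ) * R4 T M (fun _ => 1) a x ξ₂ ξ) *
          (starRingEnd ℂ) P)) := by
    rw [mul_comm _ P, mul_comm _ P, ← mul_assoc, ← integral_const_mul, ← integral_const_mul,
      ← integral_sub (i1'.const_mul _) (i2'.const_mul _)]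
    congr 1
    funext ξ
    have h1 : ∫ ξ₂ : ℝ, FourG.gh h ξ₂ *
        ((R4 T M (NN T M (k - 2)) a x ξ₂ ξ - (c : ℂ) * R4 T M (fun _ => 1) a x ξ₂ ξ) *
          (starRingEnd ℂ) P) =
        (starRingEnd ℂ) P * (∫ ξ₂ : ℝ, FourG.gh h ξ₂ * R4 T M (NN T M (k - 2)) a x ξ₂ ξ) -
        ((starRingEnd ℂ) P * (c : ℂ)) *
          ∫ ξ₂ : ℝ, FourG.gh h ξ₂ * R4 T M (fun _ => 1) a x ξ₂ ξ := by
      rw [← integral_const_mul, ← integral_const_mul,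
        ← integral_sub ((i1 ξ).const_mul _) ((i2 ξ).const_mul _)]
      congr 1
      funext ξ₂
      ring
    rw [h1]
    simp only [map_sub, map_mul, conj_ofReal, conj_conj]
    ring
  rw [hd]
  have hb2 : ∀ ξ : ℝ, ‖∫ ξ₂ : ℝ, FourG.gh h ξ₂ *
        ((R4 T M (NN T M (k - 2)) a x ξ₂ ξ - (c : ℂ) * R4 T M (fun _ => 1) a x ξ₂ ξ) *
          (starRingEnd ℂ) P)‖ ≤
      K * ((1 + |ξ|) ^ A * (η / (K + 1) ^ 2 * L ^ (k ^ 2 - 1))) := by
    intro ξ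
    have hb : ∀ ξ₂ : ℝ, ‖FourG.gh h ξ₂ *
        ((R4 T M (NN T M (k - 2)) a x ξ₂ ξ - (c : ℂ) * R4 T M (fun _ => 1) a x ξ₂ ξ) *
          (starRingEnd ℂ) P)‖ ≤ ‖FourG.gh h ξ₂‖ * (1 + |ξ₂|) ^ A *
            ((1 + |ξ|) ^ A * (η / (K + 1) ^ 2 * L ^ (k ^ 2 - 1))) := by
      intro ξ₂
      have h1 := key ξ₂ ξ
      rw [norm_mul, norm_mul, RCLike.norm_conj]
      calc ‖FourG.gh h ξ₂‖ * (‖R4 T M (NN T M (k - 2)) a x ξ₂ ξ -
            (c : ℂ) * R4 T M (fun _ => 1) a x ξ₂ ξ‖ * ‖P‖) ≤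
            ‖FourG.gh h ξ₂‖ * (η / (K + 1) ^ 2 * L ^ (k ^ 2 - 1) *
              ((1 + |ξ₂|) ^ A * (1 + |ξ|) ^ A)) := mul_le_mul_of_nonneg_left h1 (norm_nonneg _)
        _ = _ := by ring
    refine (norm_integral_le_of_norm_le ((FourG.gh_int h A).mul_const _)
      (Filter.Eventually.of_forall hb)).trans ?_
    rw [integral_mul_const, ← hK]
  have hb3 : ∀ ξ : ℝ, ‖FourG.gh h ξ * (starRingEnd ℂ) (∫ ξ₂ : ℝ, FourG.gh h ξ₂ *
        ((R4 T M (NN T M (k - 2)) a x ξ₂ ξ - (c : ℂ) * R4 T M (fun _ => 1) a x ξ₂ ξ) *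
          (starRingEnd ℂ) P))‖ ≤
      ‖FourG.gh h ξ‖ * (1 + |ξ|) ^ A * (K * (η / (K + 1) ^ 2 * L ^ (k ^ 2 - 1))) := by
    intro ξ
    rw [norm_mul, RCLike.norm_conj]
    refine (mul_le_mul_of_nonneg_left (hb2 ξ) (norm_nonneg _)).trans (le_of_eq ?_)
    ring
  refine (norm_integral_le_of_norm_le ((FourG.gh_int h A).mul_const _)
    (Filter.Eventually.of_forall hb3)).trans ?_
  rw [integral_mul_const, ← hK]
  have hKK : K * K ≤ (K + 1) ^ 2 := by nlinarith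
  have hLk1 : 0 < L ^ (k ^ 2 - 1) := Real.rpow_pos_of_pos hL0 _
  calc K * (K * (η / (K + 1) ^ 2 * L ^ (k ^ 2 - 1))) =
        (K * K) * (η / (K + 1) ^ 2 * L ^ (k ^ 2 - 1)) := by ring
    _ ≤ (K + 1) ^ 2 * (η / (K + 1) ^ 2 * L ^ (k ^ 2 - 1)) := by gcongr
    _ = _ := by field_simp

end K4
end Pool.Agent.Lib.MP_973905_nt
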