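import Pool.Agent.Lib.MP_973905_nt.K4.Stmts
import Pool.Agent.Lib.MP_973905_nt.F4.Cr4

/-! Module (R4) of K4: the main term for `N = 1`. -/

namespace Pool.Agent.Lib.MP_973905_nt
namespace K4

open MeasureTheory Complex Filter Topology K1

namespace Circ

lemma Pb_nonneg (δ x : ℝ) : 0 ≤ Pb δ x :=
  mul_nonneg (Real.smoothTransition.nonneg _) (Real.smoothTransition.nonneg _)

lemma Pb_le_one (δ x : ℝ) : Pb δ x ≤ 1 :=
  mul_le_one₀ (Real.smoothTransition.le_one _) (Real.smoothTransition.nonneg _)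
    (Real.smoothTransition.le_one _)

lemma Pb_zero {δ x : ℝ} (hδ : 0 < δ) (h : 1 / 2 - δ ≤ x) : Pb δ x = 0 := by
  rw [Pb, Real.smoothTransition.zero_of_nonpos, zero_mul]
  apply div_nonpos_of_nonpos_of_nonneg _ hδ.le
  linarith

/-- One term of the main term. -/
noncomputable def EE (u v : ℝ) (a : ℂ) : ℂ :=
  Gamma 12 * riemannZeta (1 + 2 * a) * cexp (-(u * a)) +
    Gamma (12 - 2 * a) * riemannZeta (1 - 2 * a) * cexp (-(v * a))

lemma zeta_near : ∃ C ρ : ℝ, 0 < C ∧ 0 < ρ ∧ ∀ s : ℂ, s ≠ 0 → ‖s‖ < ρ →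
    ‖riemannZeta (1 + s) - 1 / s‖ ≤ C := by
  have h := tendsto_riemannZeta_sub_one_div.norm.eventually_le_const
    (lt_add_one ‖((Real.eulerMascheroniConstant : ℝ) : ℂ)‖)
  rw [eventually_nhdsWithin_iff, Metric.eventually_nhds_iff] at h
  obtain ⟨ρ, hρ, h⟩ := h
  refine ⟨‖((Real.eulerMascheroniConstant : ℝ) : ℂ)‖ + 1, ρ, by positivity, hρ, fun s hs hsρ => ?_⟩
  have := h (y := 1 + s) (by rw [dist_eq_norm]; simpa using hsρ) (by simpa using hs)
  simpa using this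

lemma gamma_near : ∃ C ρ : ℝ, 0 < C ∧ 0 < ρ ∧ ∀ s : ℂ, ‖s‖ < ρ →
    ‖Gamma (12 - s) - Gamma 12‖ ≤ C * ‖s‖ := by
  have hd : DifferentiableAt ℂ (fun s : ℂ => Gamma (12 - s)) 0 := by
    have h1 : DifferentiableAt ℂ Gamma (12 - 0) := by
      apply differentiableAt_Gamma
      intro m h
      have := congrArg Complex.re h
      simp at this
      have h2 : (0 : ℝ) ≤ m := by positivity
      linarith
    exact DifferentiableAt.comp (0 : ℂ) h1 (by fun_prop)
  have h := hd.isBigO_sub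
  obtain ⟨C, hC, h⟩ := h.exists_pos
  rw [Asymptotics.isBigOWith_iff, Metric.eventually_nhds_iff] at h
  obtain ⟨ρ, hρ, h⟩ := h
  refine ⟨C, ρ, hC, hρ, fun s hs => ?_⟩
  have := h (y := s) (by simpa using hs)
  simpa using this

/-- the entire function `(e^{-ua} - e^{-va}) / a` -/
noncomputable def hh (u v : ℝ) : ℂ → ℂ :=
  dslope (fun a : ℂ => cexp (-(u * a)) - cexp (-(v * a))) 0

lemma hh_diff (u v : ℝ) : Differentiable ℂ (hh u v) := by
  have h : DifferentiableOn ℂ (hh u v) Set.univ := by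
    unfold hh
    rw [Complex.differentiableOn_dslope Filter.univ_mem]
    fun_prop
  exact differentiableOn_univ.1 h

lemma hh_zero (u v : ℝ) : hh u v 0 = v - u := by
  unfold hh
  rw [dslope_same]
  have h1 : ∀ u : ℝ, HasDerivAt (fun a : ℂ => cexp (-(u * a))) (-(u : ℂ)) 0 := by
    intro u
    have h2 : HasDerivAt (fun a : ℂ => -((u : ℂ) * a)) (-((u : ℂ) * 1)) 0 :=
      ((hasDerivAt_id (0 : ℂ)).const_mul (u : ℂ)).neg
    have h3 := h2.cexp
    simpa using h3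
  have h2 : HasDerivAt (fun a : ℂ => cexp (-(u * a)) - cexp (-(v * a))) (-(u : ℂ) - -(v : ℂ)) 0 :=
    (h1 u).sub (h1 v)
  rw [h2.deriv]
  ring

lemma hh_ne {u v : ℝ} {a : ℂ} (ha : a ≠ 0) :
    hh u v a = (cexp (-(u * a)) - cexp (-(v * a))) / a := by
  unfold hh
  rw [dslope_of_ne _ ha, slope_def_field]
  simp

lemma hh_avg (u v r : ℝ) : Real.circleAverage (hh u v) 0 r = v - u := by
  rw [(hh_diff u v).diffContOnCl.circleAverage, hh_zero]

/-- one term -/
lemma term : ∃ C r₀ : ℝ, 0 < C ∧ 0 < r₀ ∧ ∀ r : ℝ, 0 < r → r ≤ r₀ → ∀ u v : ℝ, |u| * r ≤ 2 →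
    |v| * r ≤ 4 → CircleIntegrable (EE u v) 0 r ∧
    ‖Real.circleAverage (EE u v) 0 r - Gamma 12 * ((v - u) / 2)‖ ≤ C := by
  obtain ⟨C₀, ρ₀, hC₀, hρ₀, hz⟩ := zeta_near
  obtain ⟨C₁, ρ₁, hC₁, hρ₁, hg⟩ := gamma_near
  set r₀ : ℝ := min (min (ρ₀ / 4) (ρ₁ / 4)) (1 / 4) with hr₀
  refine ⟨‖Gamma (12 : ℂ)‖ * Real.exp 2 * C₀ + Real.exp 4 * ((‖Gamma (12 : ℂ)‖ + C₁) * C₀ + C₁), r₀,
    by positivity, by positivity, fun r hr hrr u v hu hv => ?_⟩
  have h1 : r ≤ ρ₀ / 4 := hrr.trans ((min_le_left _ _).trans (min_le_left _ _))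
  have h2 : r ≤ ρ₁ / 4 := hrr.trans ((min_le_left _ _).trans (min_le_right _ _))
  have h3 : r ≤ 1 / 4 := hrr.trans (min_le_right _ _)
  have hne : ∀ a ∈ Metric.sphere (0 : ℂ) r, a ≠ 0 := by
    intro a ha h
    rw [mem_sphere_zero_iff_norm] at ha
    rw [h, norm_zero] at ha
    linarith
  have hint : CircleIntegrable (EE u v) 0 r := by
    apply ContinuousOn.circleIntegrable hr.le
    intro a ha
    have ha0 := hne a ha
    rw [mem_sphere_zero_iff_norm] at ha
    apply ContinuousAt.continuousWithinAt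
    unfold EE
    have c1 : ContinuousAt (fun a : ℂ => riemannZeta (1 + 2 * a)) a := by
      have : DifferentiableAt ℂ riemannZeta (1 + 2 * a) := by
        apply differentiableAt_riemannZeta
        simpa using ha0
      exact ContinuousAt.comp (f := fun a : ℂ => 1 + 2 * a) this.continuousAt (by fun_prop)
    have c2 : ContinuousAt (fun a : ℂ => riemannZeta (1 - 2 * a)) a := by
      have : DifferentiableAt ℂ riemannZeta (1 - 2 * a) := by
        apply differentiableAt_riemannZeta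
        simpa using ha0
      exact ContinuousAt.comp (f := fun a : ℂ => 1 - 2 * a) this.continuousAt (by fun_prop)
    have c3 : ContinuousAt (fun a : ℂ => Gamma (12 - 2 * a)) a := by
      have : DifferentiableAt ℂ Gamma (12 - 2 * a) := by
        apply differentiableAt_Gamma
        intro m h
        have := congrArg Complex.re h
        simp at this
        have h5 : (0 : ℝ) ≤ m := by positivity
        have h6 := (le_abs_self _).trans (abs_re_le_norm a)
        linarith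
      exact ContinuousAt.comp (f := fun a : ℂ => 12 - 2 * a) this.continuousAt (by fun_prop)
    have c4 : ContinuousAt (fun a : ℂ => cexp (-(u * a))) a := by fun_prop
    have c5 : ContinuousAt (fun a : ℂ => cexp (-(v * a))) a := by fun_prop
    exact ((continuousAt_const.mul c1).mul c4).add ((c3.mul c2).mul c5)
  refine ⟨hint, ?_⟩
  have hint2 : CircleIntegrable (fun a => (Gamma 12 / 2) • hh u v a) 0 r :=
    ((hh_diff u v).continuous.const_smul (Gamma (12 : ℂ) / 2)).continuousOn.circleIntegrable hr.le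
  have e1 : Gamma 12 * (((v : ℂ) - u) / 2) =
      Real.circleAverage (fun a => (Gamma 12 / 2) • hh u v a) 0 r := by
    rw [Real.circleAverage_fun_smul, hh_avg, smul_eq_mul]
    ring
  rw [e1, ← Real.circleAverage_fun_sub hint hint2]
  apply ThreeLines.norm_circleAverage_le hr
  intro a ha
  have ha0 : a ≠ 0 := by
    intro h
    rw [h, norm_zero] at ha
    linarith
  have h2a : ‖2 * a‖ = 2 * r := by rw [norm_mul, ha]; norm_num
  have h2a' : (2 : ℂ) * a ≠ 0 := by simpa using ha0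
  have z1 := hz (2 * a) h2a' (by rw [h2a]; linarith)
  have z2 := hz (-(2 * a)) (neg_ne_zero.2 h2a') (by rw [norm_neg, h2a]; linarith)
  have g1 := hg (2 * a) (by rw [h2a]; linarith)
  have x1 : ‖cexp (-(u * a))‖ ≤ Real.exp 2 := by
    refine (norm_exp_le_exp_norm _).trans (Real.exp_le_exp.2 ?_)
    rw [norm_neg, norm_mul, ha, norm_real, Real.norm_eq_abs]
    exact hu
  have x2 : ‖cexp (-(v * a))‖ ≤ Real.exp 4 := by
    refine (norm_exp_le_exp_norm _).trans (Real.exp_le_exp.2 ?_)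
    rw [norm_neg, norm_mul, ha, norm_real, Real.norm_eq_abs]
    exact hv
  have g2 : ‖Gamma (12 - 2 * a)‖ ≤ ‖Gamma (12 : ℂ)‖ + C₁ := by
    have := norm_add_le (Gamma (12 - 2 * a) - Gamma 12) (Gamma 12)
    rw [sub_add_cancel] at this
    rw [h2a] at g1
    nlinarith
  have g3 : ‖(Gamma (12 - 2 * a) - Gamma 12) / (2 * a)‖ ≤ C₁ := by
    rw [norm_div, div_le_iff₀ (by rw [h2a]; linarith)]
    exact g1
  have e2 : EE u v a - (Gamma 12 / 2) • hh u v a =
      Gamma 12 * cexp (-(u * a)) * (riemannZeta (1 + 2 * a) - 1 / (2 * a)) +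
      cexp (-(v * a)) * (Gamma (12 - 2 * a) * (riemannZeta (1 + -(2 * a)) - 1 / -(2 * a)) -
        (Gamma (12 - 2 * a) - Gamma 12) / (2 * a)) := by
    rw [hh_ne ha0, EE, ← sub_eq_add_neg, smul_eq_mul]
    field_simp
    ring
  rw [e2]
  refine (norm_add_le _ _).trans (add_le_add ?_ ?_)
  · rw [norm_mul, norm_mul]
    gcongr
  · rw [norm_mul]
    have : ‖Gamma (12 - 2 * a) * (riemannZeta (1 + -(2 * a)) - 1 / -(2 * a)) -
        (Gamma (12 - 2 * a) - Gamma 12) / (2 * a)‖ ≤ (‖Gamma (12 : ℂ)‖ + C₁) * C₀ + C₁ := by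
      refine (norm_sub_le _ _).trans (add_le_add ?_ g3)
      rw [norm_mul]
      gcongr
    gcongr

lemma cg_b1 (φ : ℝ → ℝ) (T ν : ℝ) {n : ℕ} (hn : n ≠ 0) : cg φ T ν b1 n = qg φ T ν n := by
  rw [cg, Finset.sum_eq_single (n, 1)]
  · simp [b1]
  · rintro ⟨x, y⟩ hx hxy
    rw [Nat.mem_divisorsAntidiagonal] at hx
    have : y ≠ 1 := by
      rintro rfl
      apply hxy
      simp only [mul_one] at hx
      rw [hx.1]
    simp [b1, this]
  · intro h
    exfalso
    apply h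
    rw [Nat.mem_divisorsAntidiagonal]
    exact ⟨mul_one _, hn⟩

lemma qg_fA {δ T : ℝ} {n : ℕ} (hn : n ≠ 0) :
    qg (fA δ) T 0 n = ((Pb δ (Real.log n / Real.log T) : ℝ) : ℂ) := by
  have hn0 : (0 : ℝ) < n := by positivity
  rw [qg, fA]
  have e : (n : ℂ) ^ (-(((1 / Real.log T : ℝ) : ℂ) + ((0 : ℝ) : ℂ) * I)) =
      ((Real.exp (-(Real.log n / Real.log T)) : ℝ) : ℂ) := by
    rw [ofReal_zero, zero_mul, add_zero, ← ofReal_neg]
    have : ((n : ℕ) : ℂ) = (((n : ℝ)) : ℂ) := by push_cast; rfl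
    rw [this, ← ofReal_cpow hn0.le, Real.rpow_def_of_pos hn0]
    congr 2
    ring
  rw [e, ← ofReal_mul]
  congr 1
  rw [mul_right_comm, ← Real.exp_add]
  simp

/-- the weight of a pair -/
noncomputable def Wt (δ T : ℝ) (m n : ℕ) : ℝ :=
  Pb δ (Real.log m / Real.log T) * Pb δ (Real.log n / Real.log T) *
    ((1 : ℝ) / ((m.gcd n : ℕ) * ((m / m.gcd n : ℕ) * (n / m.gcd n : ℕ))))

noncomputable def Ut (m n : ℕ) : ℝ := Real.log (m / m.gcd n : ℕ) + Real.log (n / m.gcd n : ℕ)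

lemma gcd_facts {m n : ℕ} (hm : 1 ≤ m) (hn : 1 ≤ n) : 1 ≤ m.gcd n ∧ 1 ≤ m / m.gcd n ∧
    1 ≤ n / m.gcd n ∧ m = m.gcd n * (m / m.gcd n) ∧ n = m.gcd n * (n / m.gcd n) := by
  have hg : 0 < m.gcd n := Nat.gcd_pos_of_pos_left n hm
  exact ⟨hg, Nat.div_pos (Nat.gcd_le_left n hm) hg, Nat.div_pos (Nat.gcd_le_right m hn) hg,
    (Nat.mul_div_cancel' (Nat.gcd_dvd_left m n)).symm,
    (Nat.mul_div_cancel' (Nat.gcd_dvd_right m n)).symm⟩

/-- the term of `RF` -/
lemma RF_term {δ T : ℝ} {m n : ℕ} (hm : 1 ≤ m) (hn : 1 ≤ n) (a : ℂ) :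
    cg (fA δ) T 0 b1 m * (starRingEnd ℂ) (cg (fA δ) T 0 b1 n) * (m : ℂ) ^ (-(1 / 2 : ℂ)) *
      (n : ℂ) ^ (-(1 / 2 : ℂ)) * ((n / m.gcd n : ℕ) : ℂ) ^ (-(1 / 2 + a)) *
      ((m / m.gcd n : ℕ) : ℂ) ^ (-(1 / 2 + a)) =
    (Wt δ T m n : ℂ) * cexp (-(Ut m n * a)) := by
  obtain ⟨hg, hm', hn', em, en⟩ := gcd_facts hm hn
  rw [cg_b1 _ _ _ (by omega), cg_b1 _ _ _ (by omega), qg_fA (by omega), qg_fA (by omega),
    conj_ofReal]
  unfold Wt Ut
  set g := m.gcd n with hgd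
  set m' := m / g with hm'd
  set n' := n / g with hn'd
  have hG : (0 : ℝ) < g := by exact_mod_cast hg
  have hM : (0 : ℝ) < m' := by exact_mod_cast hm'
  have hN : (0 : ℝ) < n' := by exact_mod_cast hn'
  have hhalf : ∀ x : ℕ, (x : ℂ) ^ (-(1 / 2 : ℂ)) = (((x : ℝ) ^ (-(1 / 2) : ℝ) : ℝ) : ℂ) := by
    intro x
    rw [ofReal_cpow (by positivity)]
    push_cast
    rfl
  have hsplit : ∀ x : ℕ, 1 ≤ x → (x : ℂ) ^ (-(1 / 2 + a)) =
      (((x : ℝ) ^ (-(1 / 2) : ℝ) : ℝ) : ℂ) * cexp (-(Real.log x * a)) := by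
    intro x hx
    have hx0 : (x : ℂ) ≠ 0 := by
      have : x ≠ 0 := by omega
      exact_mod_cast this
    rw [show (-(1 / 2 + a) : ℂ) = -(1 / 2) + -a by ring, cpow_add _ _ hx0, hhalf,
      cpow_def_of_ne_zero hx0 (-a), natCast_log]
    congr 2
    ring
  rw [hsplit n' hn', hsplit m' hm', hhalf, hhalf]
  have ρmul : ∀ x y : ℝ, 0 ≤ x → 0 ≤ y → (x * y) ^ (-(1 / 2) : ℝ) =
      x ^ (-(1 / 2) : ℝ) * y ^ (-(1 / 2) : ℝ) := fun x y hx hy => Real.mul_rpow hx hy
  have ρsq : ∀ x : ℝ, 0 < x → x ^ (-(1 / 2) : ℝ) * x ^ (-(1 / 2) : ℝ) = 1 / x := by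
    intro x hx
    rw [← Real.rpow_add hx, show (-(1 / 2) + -(1 / 2) : ℝ) = -1 by norm_num, Real.rpow_neg_one,
      one_div]
  have em' : (m : ℝ) = g * m' := by exact_mod_cast em
  have en' : (n : ℝ) = g * n' := by exact_mod_cast en
  have e1 : (m : ℝ) ^ (-(1 / 2) : ℝ) * (n : ℝ) ^ (-(1 / 2) : ℝ) *
      ((n' : ℝ) ^ (-(1 / 2) : ℝ) * (m' : ℝ) ^ (-(1 / 2) : ℝ)) = 1 / (g * (m' * n')) := by
    rw [em', en', ρmul _ _ hG.le hM.le, ρmul _ _ hG.le hN.le]
    calc _ = ((g : ℝ) ^ (-(1 / 2) : ℝ) * (g : ℝ) ^ (-(1 / 2) : ℝ)) *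
          ((m' : ℝ) ^ (-(1 / 2) : ℝ) * (m' : ℝ) ^ (-(1 / 2) : ℝ)) *
          ((n' : ℝ) ^ (-(1 / 2) : ℝ) * (n' : ℝ) ^ (-(1 / 2) : ℝ)) := by ring
      _ = _ := by
        rw [ρsq _ hG, ρsq _ hM, ρsq _ hN]
        field_simp
  have e2 : cexp (-(((Real.log m' + Real.log n' : ℝ) : ℂ) * a)) =
      cexp (-(Real.log m' * a)) * cexp (-(Real.log n' * a)) := by
    rw [← Complex.exp_add]
    congr 1
    push_cast
    ring
  rw [e2, ← e1]
  push_cast
  ring

lemma RF_eq (δ T : ℝ) (N : ℕ) (a : ℂ) : ThreeLines.RF N (cg (fA δ) T 0 b1) a =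
    ∑ m ∈ Finset.Icc 1 N, ∑ n ∈ Finset.Icc 1 N, (Wt δ T m n : ℂ) * cexp (-(Ut m n * a)) := by
  unfold ThreeLines.RF
  refine Finset.sum_congr rfl fun m hm => Finset.sum_congr rfl fun n hn => ?_
  rw [Finset.mem_Icc] at hm hn
  exact RF_term hm.1 hn.1 a

lemma Mt_eq {δ T : ℝ} (hT : 0 < T) (N : ℕ) (a : ℂ) : F4.Mt T 12 N (cg (fA δ) T 0 b1) a =
    ∑ m ∈ Finset.Icc 1 N, ∑ n ∈ Finset.Icc 1 N,
      (Wt δ T m n : ℂ) • EE (Ut m n) (2 * Real.log (T / (2 * Real.pi)) - Ut m n) a := by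
  have hX : 0 < T / (2 * Real.pi) := by positivity
  have e : ((T / (2 * Real.pi) : ℝ) : ℂ) ^ (-(2 * a)) =
      cexp (-((2 * Real.log (T / (2 * Real.pi)) : ℝ) * a)) := by
    rw [cpow_def_of_ne_zero (by exact_mod_cast hX.ne'), ← ofReal_log hX.le]
    congr 1
    push_cast
    ring
  rw [F4.Mt, RF_eq, RF_eq, e]
  simp only [Finset.mul_sum]
  rw [← Finset.sum_add_distrib]
  refine Finset.sum_congr rfl fun m _ => ?_
  rw [← Finset.sum_add_distrib]
  refine Finset.sum_congr rfl fun n _ => ?_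
  have e2 : cexp (-(((2 * Real.log (T / (2 * Real.pi)) - Ut m n : ℝ) : ℂ) * a)) =
      cexp (-((2 * Real.log (T / (2 * Real.pi)) : ℝ) * a)) * cexp (-(Ut m n * -a)) := by
    rw [← Complex.exp_add]
    congr 1
    push_cast
    ring
  rw [EE, e2, smul_eq_mul]
  ring

lemma S1_eq {δ T : ℝ} (hδ : 0 < δ) (hT : 1 < T) {N : ℕ} (hN : N ≤ ⌊T⌋₊)
    (hN2 : T ^ (1 / 2 : ℝ) < N + 1) : S1 δ T =
    ∑ m ∈ Finset.Icc 1 N, ∑ n ∈ Finset.Icc 1 N, Wt δ T m n * (Real.log T - Ut m n) := by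
  have hT0 : 0 < T := by linarith
  have hz : ∀ x : ℕ, x ∉ Finset.Icc 1 N → 1 ≤ x → Pb δ (Real.log x / Real.log T) = 0 := by
    intro x hx hx1
    rw [Finset.mem_Icc] at hx
    have h1 : N + 1 ≤ x := by omega
    have h2 : (N : ℝ) + 1 ≤ x := by exact_mod_cast h1
    apply Pb_zero hδ
    have h3 : T ^ (1 / 2 : ℝ) ≤ x := by linarith
    rw [le_div_iff₀ (Real.log_pos hT)]
    have h4 := Real.log_le_log (Real.rpow_pos_of_pos hT0 _) h3
    rw [Real.log_rpow hT0] at h4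
    have h5 := Real.log_pos hT
    nlinarith
  have hsub : Finset.Icc 1 N ⊆ Finset.Icc 1 ⌊T⌋₊ := Finset.Icc_subset_Icc le_rfl hN
  unfold S1
  rw [← Finset.sum_subset hsub]
  · refine Finset.sum_congr rfl fun m hm => ?_
    rw [← Finset.sum_subset hsub]
    · refine Finset.sum_congr rfl fun n hn => ?_
      rw [Finset.mem_Icc] at hm hn
      obtain ⟨hg, hm', hn', em, en⟩ := gcd_facts hm.1 hn.1
      unfold Wt Ut
      set g := m.gcd n with hgd
      set m' := m / g with hm'd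
      set n' := n / g with hn'd
      have em' : (m : ℝ) = g * m' := by exact_mod_cast em
      have en' : (n : ℝ) = g * n' := by exact_mod_cast en
      have hG : (0 : ℝ) < g := by exact_mod_cast hg
      have hM : (0 : ℝ) < m' := by exact_mod_cast hm'
      have hN : (0 : ℝ) < n' := by exact_mod_cast hn'
      have e1 : (g : ℝ) / (m * n) = 1 / (g * (m' * n')) := by
        rw [em', en']
        field_simp
      rw [e1]
      ring
    · intro n hn hn'
      rw [Finset.mem_Icc] at hn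
      rw [hz n hn' hn.1]
      ring
  · intro m hm hm'
    rw [Finset.mem_Icc] at hm
    apply Finset.sum_eq_zero
    intro n _
    rw [hz m hm' hm.1]
    ring

end Circ

open Circ in
/-- (R4) the main term for `N = 1` -/
theorem stCirc : StCirc := by
  obtain ⟨C, r₀, hC, hr₀, hterm⟩ := term
  set K : ℝ := C + ‖Gamma (12 : ℂ)‖ * Real.log (2 * Real.pi) with hK
  have hpi := Real.pi_gt_three
  have hlog2pi : 0 ≤ Real.log (2 * Real.pi) := Real.log_nonneg (by linarith)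
  have hK0 : 0 < K := by positivity
  refine ⟨K * 8, by positivity, fun δ hδ hδ8 => ?_⟩
  have ev1 : ∀ᶠ T : ℝ in atTop, max (1 / r₀) 1 ≤ Real.log T :=
    Real.tendsto_log_atTop.eventually_ge_atTop _
  obtain ⟨T₀, hT₀⟩ := eventually_atTop.mp (ev1.and (eventually_ge_atTop (2 * Real.pi)))
  refine ⟨max 3 T₀, le_max_left _ _, fun T hT => ?_⟩
  obtain ⟨h1, h2⟩ := hT₀ T ((le_max_right _ _).trans hT)
  have hT3 : 3 ≤ T := (le_max_left _ _).trans hT
  have hT0 : 0 < T := by linarith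
  have hT1 : 1 < T := by linarith
  have hL1 : 1 ≤ Real.log T := (le_max_right _ _).trans h1
  have hL : 0 < Real.log T := by linarith
  set r : ℝ := 1 / Real.log T with hr
  have hr0 : 0 < r := by positivity
  have hrr : r ≤ r₀ := by
    rw [hr, div_le_iff₀ hL]
    have := (le_max_left _ _).trans h1
    rw [div_le_iff₀ hr₀] at this
    linarith
  set N := F4.Nh T with hN
  have hNT : (N : ℝ) ≤ T := by
    have h3 : (N : ℝ) ≤ T ^ (51 / 100 : ℝ) := Nat.floor_le (Real.rpow_nonneg hT0.le _)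
    refine h3.trans ?_
    calc T ^ (51 / 100 : ℝ) ≤ T ^ (1 : ℝ) :=
          Real.rpow_le_rpow_of_exponent_le hT1.le (by norm_num)
      _ = T := Real.rpow_one T
  have hNT' : N ≤ ⌊T⌋₊ := Nat.le_floor hNT
  have hN2 : T ^ (1 / 2 : ℝ) < N + 1 := by
    have h3 : T ^ (51 / 100 : ℝ) < N + 1 := Nat.lt_floor_add_one _
    refine lt_of_le_of_lt ?_ h3
    exact Real.rpow_le_rpow_of_exponent_le hT1.le (by norm_num)
  set w : ℝ := 2 * Real.log (T / (2 * Real.pi)) with hw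
  have hlogX : Real.log (T / (2 * Real.pi)) = Real.log T - Real.log (2 * Real.pi) :=
    Real.log_div hT0.ne' (by positivity)
  have hw0 : 0 ≤ w := by
    rw [hw]
    apply mul_nonneg (by norm_num)
    apply Real.log_nonneg
    rw [le_div_iff₀ (by positivity)]
    linarith
  have hw1 : w ≤ 2 * Real.log T := by rw [hw, hlogX]; linarith
  have hU : ∀ m ∈ Finset.Icc 1 N, ∀ n ∈ Finset.Icc 1 N, 0 ≤ Ut m n ∧ Ut m n ≤ 2 * Real.log T := by
    intro m hm n hn
    rw [Finset.mem_Icc] at hm hn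
    obtain ⟨hg, hm', hn', em, en⟩ := gcd_facts hm.1 hn.1
    unfold Ut
    have a1 : 0 ≤ Real.log (m / m.gcd n : ℕ) := Real.log_nonneg (by exact_mod_cast hm')
    have a2 : 0 ≤ Real.log (n / m.gcd n : ℕ) := Real.log_nonneg (by exact_mod_cast hn')
    have b1 : ((m / m.gcd n : ℕ) : ℝ) ≤ T := by
      have : m / m.gcd n ≤ N := (Nat.div_le_self _ _).trans hm.2
      exact le_trans (by exact_mod_cast this) hNT
    have b2 : ((n / m.gcd n : ℕ) : ℝ) ≤ T := by
      have : n / m.gcd n ≤ N := (Nat.div_le_self _ _).trans hn.2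
      exact le_trans (by exact_mod_cast this) hNT
    have c1 : Real.log (m / m.gcd n : ℕ) ≤ Real.log T :=
      Real.log_le_log (by exact_mod_cast hm') b1
    have c2 : Real.log (n / m.gcd n : ℕ) ≤ Real.log T :=
      Real.log_le_log (by exact_mod_cast hn') b2
    constructor <;> linarith
  have hpair : ∀ m ∈ Finset.Icc 1 N, ∀ n ∈ Finset.Icc 1 N,
      CircleIntegrable (EE (Ut m n) (w - Ut m n)) 0 r ∧
      ‖Real.circleAverage (EE (Ut m n) (w - Ut m n)) 0 r -
        Gamma 12 * ((Real.log T - Ut m n : ℝ) : ℂ)‖ ≤ K := by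
    intro m hm n hn
    obtain ⟨u0, u1⟩ := hU m hm n hn
    obtain ⟨t1, t2⟩ := hterm r hr0 hrr (Ut m n) (w - Ut m n)
      (by
        rw [abs_of_nonneg u0, hr, mul_one_div, div_le_iff₀ hL]
        linarith)
      (by
        have : |w - Ut m n| ≤ 4 * Real.log T := by
          rw [abs_le]; constructor <;> linarith
        rw [hr, mul_one_div, div_le_iff₀ hL]
        exact this)
    refine ⟨t1, ?_⟩
    have e : Real.circleAverage (EE (Ut m n) (w - Ut m n)) 0 r -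
        Gamma 12 * ((Real.log T - Ut m n : ℝ) : ℂ) =
        (Real.circleAverage (EE (Ut m n) (w - Ut m n)) 0 r -
          Gamma 12 * ((((w - Ut m n : ℝ) : ℂ) - Ut m n) / 2)) -
        Gamma 12 * ((Real.log (2 * Real.pi) : ℝ) : ℂ) := by
      rw [hw, hlogX]
      push_cast
      ring
    rw [e]
    refine (norm_sub_le _ _).trans (add_le_add t2 ?_)
    rw [norm_mul, norm_real, Real.norm_eq_abs, abs_of_nonneg hlog2pi]
  have hG12 : Gamma (12 : ℂ) = (((Nat.factorial 11 : ℕ) : ℝ) : ℂ) := by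
    have := Complex.Gamma_nat_eq_factorial 11
    push_cast at this ⊢
    rw [← this]
    norm_num
  have e1 : Real.circleAverage (F4.Mt T 12 N (cg (fA δ) T 0 b1)) 0 r =
      ∑ m ∈ Finset.Icc 1 N, ∑ n ∈ Finset.Icc 1 N,
        (Wt δ T m n : ℂ) * Real.circleAverage (EE (Ut m n) (w - Ut m n)) 0 r := by
    have : F4.Mt T 12 N (cg (fA δ) T 0 b1) = fun a => ∑ m ∈ Finset.Icc 1 N, ∑ n ∈ Finset.Icc 1 N,
        (Wt δ T m n : ℂ) • EE (Ut m n) (w - Ut m n) a := by
      funext a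
      exact Mt_eq hT0 N a
    rw [this, Real.circleAverage_fun_sum]
    · refine Finset.sum_congr rfl fun m hm => ?_
      rw [Real.circleAverage_fun_sum]
      · refine Finset.sum_congr rfl fun n hn => ?_
        rw [Real.circleAverage_fun_smul, smul_eq_mul]
      · intro n hn
        exact (hpair m hm n hn).1.const_fun_smul
    · intro m hm
      apply CircleIntegrable.fun_sum
      intro n hn
      exact (hpair m hm n hn).1.const_fun_smul
  rw [e1, S1_eq hδ hT1 hNT' hN2]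
  have e2 : ∑ m ∈ Finset.Icc 1 N, ∑ n ∈ Finset.Icc 1 N,
        (Wt δ T m n : ℂ) * Real.circleAverage (EE (Ut m n) (w - Ut m n)) 0 r -
      (((Nat.factorial 11 : ℕ) * ∑ m ∈ Finset.Icc 1 N, ∑ n ∈ Finset.Icc 1 N,
        Wt δ T m n * (Real.log T - Ut m n) : ℝ) : ℂ) =
      ∑ m ∈ Finset.Icc 1 N, ∑ n ∈ Finset.Icc 1 N, (Wt δ T m n : ℂ) *
        (Real.circleAverage (EE (Ut m n) (w - Ut m n)) 0 r -
        Gamma 12 * ((Real.log T - Ut m n : ℝ) : ℂ)) := by
    rw [hG12]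
    push_cast
    rw [Finset.mul_sum, ← Finset.sum_sub_distrib]
    refine Finset.sum_congr rfl fun m _ => ?_
    rw [Finset.mul_sum, ← Finset.sum_sub_distrib]
    refine Finset.sum_congr rfl fun n _ => ?_
    ring
  rw [e2]
  have hWt : ∀ m n : ℕ, ‖(Wt δ T m n : ℂ)‖ ≤
      (1 : ℝ) / ((m.gcd n : ℕ) * ((m / m.gcd n : ℕ) * (n / m.gcd n : ℕ))) := by
    intro m n
    unfold Wt
    have p1 := Pb_nonneg δ (Real.log m / Real.log T)
    have p2 := Pb_nonneg δ (Real.log n / Real.log T)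
    have q1 := Pb_le_one δ (Real.log m / Real.log T)
    have q2 := Pb_le_one δ (Real.log n / Real.log T)
    rw [norm_real, Real.norm_eq_abs, abs_of_nonneg (by positivity)]
    exact mul_le_of_le_one_left (by positivity) (mul_le_one₀ q1 p2 q2)
  calc ‖∑ m ∈ Finset.Icc 1 N, ∑ n ∈ Finset.Icc 1 N, (Wt δ T m n : ℂ) *
        (Real.circleAverage (EE (Ut m n) (w - Ut m n)) 0 r -
        Gamma 12 * ((Real.log T - Ut m n : ℝ) : ℂ))‖
      ≤ ∑ m ∈ Finset.Icc 1 N, ∑ n ∈ Finset.Icc 1 N,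
        (1 : ℝ) / ((m.gcd n : ℕ) * ((m / m.gcd n : ℕ) * (n / m.gcd n : ℕ))) * K := by
        refine (norm_sum_le _ _).trans (Finset.sum_le_sum fun m hm => ?_)
        refine (norm_sum_le _ _).trans (Finset.sum_le_sum fun n hn => ?_)
        rw [norm_mul]
        exact mul_le_mul (hWt m n) (hpair m hm n hn).2 (norm_nonneg _) (by positivity)
    _ = K * ∑ m ∈ Finset.Icc 1 N, ∑ n ∈ Finset.Icc 1 N,
        (1 : ℝ) / ((m.gcd n : ℕ) * ((m / m.gcd n : ℕ) * (n / m.gcd n : ℕ))) := by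
        rw [Finset.mul_sum]
        refine Finset.sum_congr rfl fun m _ => ?_
        rw [Finset.mul_sum]
        refine Finset.sum_congr rfl fun n _ => ?_
        ring
    _ ≤ K * (1 + Real.log N) ^ 3 := by
        gcongr
        exact F4.Cr4.gcd_sum N
    _ ≤ K * (2 * Real.log T) ^ 3 := by
        have h3 : Real.log N ≤ Real.log T := by
          rcases Nat.eq_zero_or_pos N with h | h
          · rw [h]; simp; exact hL.le
          · exact Real.log_le_log (by exact_mod_cast h) hNT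
        have h4 : 0 ≤ 1 + Real.log N := by
          rcases Nat.eq_zero_or_pos N with h | h
          · rw [h]; simp
          · have : 0 ≤ Real.log N := Real.log_nonneg (by exact_mod_cast h)
            linarith
        gcongr
        linarith
    _ = K * 8 * Real.log T ^ 3 := by ring

end K4
end Pool.Agent.Lib.MP_973905_nt
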