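import Pool.Agent.Lib.MP_973905_nt.K4.Stmts
import Pool.Agent.Lib.MP_973905_nt.F4.Co

/-! (G1) coefficients of the product polynomial, general cutoff. -/

namespace Pool.Agent.Lib.MP_973905_nt
namespace K4

open MeasureTheory ProbabilityTheory Complex Filter Topology K1 F4

namespace CoG

open F4.Co (pairs sum_pow)

/-- A cutoff is bounded. -/
theorem bdd {φ : ℝ → ℝ} (h : CutK φ) : ∃ K : ℝ, 1 ≤ K ∧ ∀ x, |φ x| ≤ K := by
  have hs : HasCompactSupport φ := by
    refine HasCompactSupport.of_support_subset_isCompact (isCompact_Icc (a := -2) (b := 1)) ?_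
    intro x hx
    by_contra hc
    rw [Set.mem_Icc, not_and_or, not_le, not_le] at hc
    rcases hc with hc | hc
    · exact hx (h.cut.zero' x hc.le)
    · exact hx (h.cut.zero x hc.le)
  obtain ⟨K, hK⟩ := h.cut.smooth.continuous.bounded_above_of_compact_support hs
  exact ⟨max K 1, le_max_right _ _, fun x => (hK x).trans (le_max_left _ _)⟩

/-- The derivative of a cutoff is bounded. -/
theorem bdd_deriv {φ : ℝ → ℝ} (h : CutK φ) : ∃ K : ℝ, 0 < K ∧ ∀ x, |deriv φ x| ≤ K := by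
  have hs : HasCompactSupport φ := by
    refine HasCompactSupport.of_support_subset_isCompact (isCompact_Icc (a := -2) (b := 1)) ?_
    intro x hx
    by_contra hc
    rw [Set.mem_Icc, not_and_or, not_le, not_le] at hc
    rcases hc with hc | hc
    · exact hx (h.cut.zero' x hc.le)
    · exact hx (h.cut.zero x hc.le)
  have hc : Continuous (deriv φ) := h.cut.smooth.continuous_deriv (by norm_cast)
  obtain ⟨K, hK⟩ := hc.bounded_above_of_compact_support hs.deriv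
  exact ⟨max K 1, by positivity, fun x => (hK x).trans (le_max_left _ _)⟩

variable {φ : ℝ → ℝ}

theorem qc_norm {K : ℝ} (hK1 : 1 ≤ K) (hK : ∀ x, |φ x| ≤ K) (T ν : ℝ) (hT : 3 ≤ T) (n : ℕ)
    (hn : 1 ≤ n) : ‖qg φ T ν n‖ ≤ K := by
  unfold qg
  have hn' : (0 : ℝ) < n := by exact_mod_cast hn
  rw [norm_mul]
  have e : ((n : ℕ) : ℂ) = ((n : ℝ) : ℂ) := by push_cast; rfl
  rw [e, norm_cpow_eq_rpow_re_of_pos hn', norm_real, Real.norm_eq_abs]
  have hL : 0 < Real.log T := Real.log_pos (by linarith)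
  have hre : (-(((1 / Real.log T : ℝ) : ℂ) + ν * I)).re = -(1 / Real.log T) := by
    simp
  rw [hre]
  have h1 : (n : ℝ) ^ (-(1 / Real.log T)) ≤ 1 := by
    apply Real.rpow_le_one_of_one_le_of_nonpos
    · exact_mod_cast hn
    · have : 0 < 1 / Real.log T := by positivity
      linarith
  calc |φ (Real.log n / Real.log T)| * (n : ℝ) ^ (-(1 / Real.log T)) ≤ K * 1 :=
        mul_le_mul (hK _) h1 (by positivity) (by linarith)
    _ = K := mul_one K

theorem qc_zero (hφ : CutK φ) (T ν : ℝ) (hT : 3 ≤ T) (n : ℕ) (hn : ⌊T ^ (501 / 1000 : ℝ)⌋₊ < n) :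
    qg φ T ν n = 0 := by
  have hL : 0 < Real.log T := Real.log_pos (by linarith)
  have h1 : T ^ (501 / 1000 : ℝ) < n := (Nat.floor_lt (by positivity)).1 hn
  have h2 : 501 / 1000 ≤ Real.log n / Real.log T := by
    rw [le_div_iff₀ hL]
    have := Real.log_le_log (by positivity) h1.le
    rwa [Real.log_rpow (by linarith)] at this
  unfold qg
  rw [hφ.zeroK _ h2]
  simp

theorem two_mul_rpow' (K T a b : ℝ) (hK : 1 ≤ K) (hT : (2 * K) ^ (2000 : ℕ) ≤ T)
    (h : a + 1 / 2000 ≤ b) : 2 * K * T ^ a ≤ T ^ b := by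
  have h2 : (1 : ℝ) ≤ T := le_trans (one_le_pow₀ (by linarith)) hT
  have h0 : 0 < T := lt_of_lt_of_le one_pos h2
  have h1 : 2 * K ≤ T ^ (1 / 2000 : ℝ) := by
    have := Real.rpow_le_rpow (by positivity) hT (by norm_num : (0 : ℝ) ≤ 1 / 2000)
    refine le_trans (le_of_eq ?_) this
    rw [← Real.rpow_natCast, ← Real.rpow_mul (by linarith)]
    norm_num
  calc 2 * K * T ^ a ≤ T ^ (1 / 2000 : ℝ) * T ^ a := by
        apply mul_le_mul_of_nonneg_right h1 (by positivity)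
    _ = T ^ (1 / 2000 + a) := by rw [Real.rpow_add h0]
    _ ≤ T ^ b := Real.rpow_le_rpow_of_exponent_le h2 (by linarith)

theorem norm_sum (hφ : CutK φ) {K : ℝ} (hK1 : 1 ≤ K) (hK : ∀ x, |φ x| ≤ K) (T ν : ℝ) (b : ℕ → ℂ)
    (hT : 3 ≤ T) (hb : Sh T b)
    (hN : ⌊T ^ (501 / 1000 : ℝ)⌋₊ * Na T ≤ Nh T) (α : ℝ) (h0 : 0 ≤ α) :
    ∑ n ∈ Finset.Icc 1 (Nh T), ‖cg φ T ν b n‖ * (n : ℝ) ^ (-α) ≤
      K * (T ^ (1 / 1000 : ℝ) * ∑ n ∈ Finset.Icc 1 ⌊T ^ (501 / 1000 : ℝ)⌋₊, (n : ℝ) ^ (-α)) := by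
  set Y := ⌊T ^ (501 / 1000 : ℝ)⌋₊ with hY
  have key := pairs (Nh T) Y (Na T) Y
    (fun x => ‖qg φ T ν x.1‖ * ‖b x.2‖ * ((x.1 * x.2 : ℕ) : ℝ) ^ (-α)) le_rfl hN
    (by
      intro x hx
      rw [qc_zero hφ T ν hT _ hx, norm_zero, zero_mul, zero_mul])
    (by
      intro x hx
      rw [hb.1 _ hx, norm_zero, mul_zero, zero_mul])
  calc ∑ n ∈ Finset.Icc 1 (Nh T), ‖cg φ T ν b n‖ * (n : ℝ) ^ (-α)
      ≤ ∑ n ∈ Finset.Icc 1 (Nh T), ∑ x ∈ n.divisorsAntidiagonal,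
          ‖qg φ T ν x.1‖ * ‖b x.2‖ * ((x.1 * x.2 : ℕ) : ℝ) ^ (-α) := by
        apply Finset.sum_le_sum
        intro n _
        have e : ∀ x ∈ n.divisorsAntidiagonal,
            ‖qg φ T ν x.1‖ * ‖b x.2‖ * ((x.1 * x.2 : ℕ) : ℝ) ^ (-α) =
              ‖qg φ T ν x.1 * b x.2‖ * (n : ℝ) ^ (-α) := by
          intro x hx
          rw [Nat.mem_divisorsAntidiagonal] at hx
          rw [hx.1, norm_mul]
        rw [Finset.sum_congr rfl e, ← Finset.sum_mul]
        apply mul_le_mul_of_nonneg_right _ (by positivity)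
        exact norm_sum_le _ _
    _ = ∑ d ∈ Finset.Icc 1 (Na T), ∑ n ∈ Finset.Icc 1 Y,
          ‖qg φ T ν n‖ * ‖b d‖ * ((n * d : ℕ) : ℝ) ^ (-α) := key
    _ ≤ K * ∑ d ∈ Finset.Icc 1 (Na T), ∑ n ∈ Finset.Icc 1 Y, ‖b d‖ * (n : ℝ) ^ (-α) := by
        rw [Finset.mul_sum]
        apply Finset.sum_le_sum
        intro d hd
        rw [Finset.mul_sum]
        apply Finset.sum_le_sum
        intro n hn
        rw [Finset.mem_Icc] at hd hn
        have q1 := qc_norm hK1 hK T ν hT n hn.1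
        have q2 : ((n * d : ℕ) : ℝ) ^ (-α) ≤ (n : ℝ) ^ (-α) := by
          apply Real.rpow_le_rpow_of_nonpos
          · exact_mod_cast hn.1
          · have : n * 1 ≤ n * d := Nat.mul_le_mul_left n hd.1
            rw [mul_one] at this
            exact_mod_cast this
          · linarith
        calc ‖qg φ T ν n‖ * ‖b d‖ * ((n * d : ℕ) : ℝ) ^ (-α)
            ≤ K * ‖b d‖ * (n : ℝ) ^ (-α) := by
              apply mul_le_mul _ q2 (by positivity) (by positivity)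
              exact mul_le_mul_of_nonneg_right q1 (norm_nonneg _)
          _ = K * (‖b d‖ * (n : ℝ) ^ (-α)) := by ring
    _ = K * ((∑ d ∈ Finset.Icc 1 (Na T), ‖b d‖) * ∑ n ∈ Finset.Icc 1 Y, (n : ℝ) ^ (-α)) := by
        rw [Finset.sum_mul_sum]
    _ ≤ K * (T ^ (1 / 1000 : ℝ) * ∑ n ∈ Finset.Icc 1 Y, (n : ℝ) ^ (-α)) := by
        apply mul_le_mul_of_nonneg_left _ (by linarith)
        apply mul_le_mul_of_nonneg_right hb.2
        exact Finset.sum_nonneg fun n _ => by positivity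

end CoG

open CoG F4.Co in
theorem stCoG : StCoG := by
  intro φ hφ
  obtain ⟨K, hK1, hK⟩ := bdd hφ
  have h3 : (3 : ℝ) ≤ (2 * K) ^ (2000 : ℕ) := by
    calc (3 : ℝ) ≤ 2 ^ 2 := by norm_num
      _ ≤ 2 ^ 2000 := pow_le_pow_right₀ (by norm_num) (by norm_num)
      _ ≤ (2 * K) ^ 2000 := pow_le_pow_left₀ (by norm_num) (by linarith) _
  refine ⟨(2 * K) ^ (2000 : ℕ), h3, ?_⟩
  intro T hT ν b hb
  have hT3 : 3 ≤ T := h3.trans hT
  have hT1 : 1 ≤ T := le_trans (by norm_num) hT3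
  have hT0 : 0 < T := lt_of_lt_of_le one_pos hT1
  set Y := ⌊T ^ (501 / 1000 : ℝ)⌋₊ with hY
  have hYr : (Y : ℝ) ≤ T ^ (501 / 1000 : ℝ) := Nat.floor_le (by positivity)
  have hDr : ((Na T : ℕ) : ℝ) ≤ T ^ (1 / 1000 : ℝ) := Nat.floor_le (by positivity)
  have hYT : Y ≤ ⌊T⌋₊ := by
    apply Nat.floor_le_floor
    calc T ^ (501 / 1000 : ℝ) ≤ T ^ (1 : ℝ) :=
          Real.rpow_le_rpow_of_exponent_le hT1 (by norm_num)
      _ = T := Real.rpow_one T
  have hprod : T ^ (501 / 1000 : ℝ) * T ^ (1 / 1000 : ℝ) = T ^ (502 / 1000 : ℝ) := by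
    rw [← Real.rpow_add hT0]
    norm_num
  have hN : Y * Na T ≤ Nh T := by
    apply Nat.le_floor
    push_cast
    calc (Y : ℝ) * (Na T : ℝ) ≤ T ^ (501 / 1000 : ℝ) * T ^ (1 / 1000 : ℝ) :=
          mul_le_mul hYr hDr (by positivity) (by positivity)
      _ = T ^ (502 / 1000 : ℝ) := hprod
      _ ≤ T ^ (51 / 100 : ℝ) := Real.rpow_le_rpow_of_exponent_le hT1 (by norm_num)
  have hΦ : ∀ Φ : ℕ → ℂ, ∑ n ∈ Finset.Icc 1 (Nh T), cg φ T ν b n * Φ n =
      ∑ d ∈ Finset.Icc 1 (Na T), ∑ n ∈ Finset.Icc 1 ⌊T⌋₊, b d * (qg φ T ν n * Φ (n * d)) := by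
    intro Φ
    have key := pairs (Nh T) ⌊T⌋₊ (Na T) Y
      (fun x => b x.2 * (qg φ T ν x.1 * Φ (x.1 * x.2))) hYT hN
      (by
        intro x hx
        rw [qc_zero hφ T ν hT3 _ hx, zero_mul, mul_zero])
      (by
        intro x hx
        rw [hb.1 _ hx, zero_mul])
    rw [← key]
    apply Finset.sum_congr rfl
    intro n _
    unfold cg
    rw [Finset.sum_mul]
    apply Finset.sum_congr rfl
    intro x hx
    rw [Nat.mem_divisorsAntidiagonal] at hx
    rw [hx.1]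
    ring
  refine ⟨?_, ?_, ?_, ?_, hΦ, ?_⟩
  · intro n hn
    unfold cg
    apply Finset.sum_eq_zero
    intro x hx
    rw [Nat.mem_divisorsAntidiagonal] at hx
    by_cases h1 : Y < x.1
    · rw [qc_zero hφ T ν hT3 _ h1, zero_mul]
    · by_cases h2 : Na T < x.2
      · rw [hb.1 _ h2, mul_zero]
      · exfalso
        have h3 : (n : ℝ) ≤ T ^ (502 / 1000 : ℝ) := by
          rw [← hx.1, ← hprod]
          push_cast
          apply mul_le_mul _ _ (by positivity) (by positivity)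
          · refine le_trans ?_ hYr
            exact_mod_cast not_lt.1 h1
          · refine le_trans ?_ hDr
            exact_mod_cast not_lt.1 h2
        linarith
  · have h := norm_sum hφ hK1 hK T ν b hT3 hb hN 0 le_rfl
    simp only [neg_zero, Real.rpow_zero, mul_one, Finset.sum_const, Nat.card_Icc,
      Nat.add_sub_cancel, nsmul_eq_mul] at h
    refine le_trans h ?_
    calc K * (T ^ (1 / 1000 : ℝ) * Y) ≤ K * (T ^ (1 / 1000 : ℝ) * T ^ (501 / 1000 : ℝ)) := by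
          gcongr
      _ = K * T ^ (502 / 1000 : ℝ) := by rw [mul_comm (T ^ (1 / 1000 : ℝ)), hprod]
      _ ≤ 2 * K * T ^ (502 / 1000 : ℝ) := by
          have : 0 ≤ K * T ^ (502 / 1000 : ℝ) := by positivity
          linarith
      _ ≤ T ^ (503 / 1000 : ℝ) := two_mul_rpow' K T _ _ hK1 hT (by norm_num)
  · have h := norm_sum hφ hK1 hK T ν b hT3 hb hN (1 / 2) (by norm_num)
    refine le_trans h ?_
    have h2 := sum_pow (1 / 2) (by norm_num) le_rfl Y
    have h3 : (Y : ℝ) ^ (1 - 1 / 2 : ℝ) ≤ T ^ (501 / 2000 : ℝ) := by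
      calc (Y : ℝ) ^ (1 - 1 / 2 : ℝ) ≤ (T ^ (501 / 1000 : ℝ)) ^ (1 - 1 / 2 : ℝ) :=
            Real.rpow_le_rpow (by positivity) hYr (by norm_num)
        _ = T ^ (501 / 2000 : ℝ) := by
            rw [← Real.rpow_mul hT0.le]
            norm_num
    calc K * (T ^ (1 / 1000 : ℝ) * ∑ n ∈ Finset.Icc 1 Y, (n : ℝ) ^ (-(1 / 2) : ℝ))
        ≤ K * (T ^ (1 / 1000 : ℝ) * (2 * T ^ (501 / 2000 : ℝ))) := by
          apply mul_le_mul_of_nonneg_left _ (by linarith)
          apply mul_le_mul_of_nonneg_left _ (by positivity)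
          linarith
      _ = 2 * K * T ^ (1 / 1000 + 501 / 2000 : ℝ) := by
          rw [Real.rpow_add hT0]
          ring
      _ ≤ T ^ (252 / 1000 : ℝ) := two_mul_rpow' K T _ _ hK1 hT (by norm_num)
  · have h := norm_sum hφ hK1 hK T ν b hT3 hb hN (7 / 16) (by norm_num)
    refine le_trans h ?_
    have h2 := sum_pow (7 / 16) (by norm_num) (by norm_num) Y
    have h3 : (Y : ℝ) ^ (1 - 7 / 16 : ℝ) ≤ T ^ (501 / 1000 * (9 / 16) : ℝ) := by
      calc (Y : ℝ) ^ (1 - 7 / 16 : ℝ) ≤ (T ^ (501 / 1000 : ℝ)) ^ (1 - 7 / 16 : ℝ) :=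
            Real.rpow_le_rpow (by positivity) hYr (by norm_num)
        _ = T ^ (501 / 1000 * (9 / 16) : ℝ) := by
            rw [← Real.rpow_mul hT0.le]
            norm_num
    calc K * (T ^ (1 / 1000 : ℝ) * ∑ n ∈ Finset.Icc 1 Y, (n : ℝ) ^ (-(7 / 16) : ℝ))
        ≤ K * (T ^ (1 / 1000 : ℝ) * (2 * T ^ (501 / 1000 * (9 / 16) : ℝ))) := by
          apply mul_le_mul_of_nonneg_left _ (by linarith)
          apply mul_le_mul_of_nonneg_left _ (by positivity)
          linarith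
      _ = 2 * K * T ^ (1 / 1000 + 501 / 1000 * (9 / 16) : ℝ) := by
          rw [Real.rpow_add hT0]
          ring
      _ ≤ T ^ (284 / 1000 : ℝ) := two_mul_rpow' K T _ _ hK1 hT (by norm_num)
  · intro f hf
    rw [hΦ f, Finset.sum_comm, Finset.sum_mul_sum]
    apply Finset.sum_congr rfl
    intro n hn
    apply Finset.sum_congr rfl
    intro d hd
    rw [Finset.mem_Icc] at hn hd
    rw [hf.2 n d (by omega) (by omega)]
    ring

end K4
end Pool.Agent.Lib.MP_973905_nt
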