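import Pool.Agent.Lib.MP_973905_nt.K4.Stmts
import Pool.Agent.Lib.MP_973905_nt.K3.DivSum

/-! Common lemmas for modules (R5), (R6) of K4: gcd sums. -/

namespace Pool.Agent.Lib.MP_973905_nt
namespace K4

open Finset Filter Topology

namespace GS

/-- the Moebius function, real valued -/
noncomputable def mu (n : ℕ) : ℝ := ((ArithmeticFunction.moebius n : ℤ) : ℝ)

/-- indicator of divisibility -/
def dvi (e m : ℕ) : ℝ := if e ∣ m then 1 else 0

/-- Sums over multiples. -/
lemma sum_dvi (N : ℕ) {e : ℕ} (he : 0 < e) (h : ℕ → ℝ) :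
    ∑ m ∈ Ioc 0 N, dvi e m * h m = ∑ m ∈ Ioc 0 (N / e), h (e * m) := by
  unfold dvi
  simp only [ite_mul, one_mul, zero_mul]
  rw [← Finset.sum_filter]
  refine Finset.sum_nbij' (fun m => m / e) (fun m => e * m) ?_ ?_ ?_ ?_ ?_
  · intro m hm
    simp only [Finset.mem_filter, Finset.mem_Ioc] at hm ⊢
    obtain ⟨⟨h1, h2⟩, h3⟩ := hm
    exact ⟨Nat.div_pos (Nat.le_of_dvd h1 h3) he, Nat.div_le_div_right h2⟩
  · intro m hm
    simp only [Finset.mem_filter, Finset.mem_Ioc] at hm ⊢
    obtain ⟨h1, h2⟩ := hm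
    refine ⟨⟨by positivity, ?_⟩, dvd_mul_right _ _⟩
    rw [Nat.le_div_iff_mul_le he] at h2
    linarith [mul_comm e m]
  · intro m hm
    simp only [Finset.mem_filter] at hm
    exact Nat.mul_div_cancel' hm.2
  · intro m _
    exact Nat.mul_div_cancel_left m he
  · intro m hm
    simp only [Finset.mem_filter] at hm
    rw [Nat.mul_div_cancel' hm.2]

lemma sum_mu {k : ℕ} (hk : 0 < k) {N : ℕ} (hkN : k ≤ N) :
    ∑ e ∈ Ioc 0 N, mu e * dvi e k = if k = 1 then 1 else 0 := by
  have h1 : ∑ e ∈ Ioc 0 N, mu e * dvi e k = ∑ e ∈ k.divisors, mu e := by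
    unfold dvi
    simp only [mul_ite, mul_one, mul_zero]
    rw [← Finset.sum_filter]
    refine Finset.sum_congr ?_ fun _ _ => rfl
    ext e
    simp only [Finset.mem_filter, Finset.mem_Ioc, Nat.mem_divisors]
    constructor
    · rintro ⟨_, h⟩
      exact ⟨h, hk.ne'⟩
    · rintro ⟨h, _⟩
      exact ⟨⟨Nat.pos_of_dvd_of_pos h hk, (Nat.le_of_dvd hk h).trans hkN⟩, h⟩
  rw [h1]
  have h2 : (∑ e ∈ k.divisors, ArithmeticFunction.moebius e : ℤ) = if k = 1 then 1 else 0 := by
    rw [← ArithmeticFunction.coe_mul_zeta_apply, ArithmeticFunction.moebius_mul_coe_zeta,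
      ArithmeticFunction.one_apply]
  have h3 : (∑ e ∈ k.divisors, mu e : ℝ) =
      ((∑ e ∈ k.divisors, ArithmeticFunction.moebius e : ℤ) : ℝ) := by
    push_cast
    rfl
  rw [h3, h2]
  split_ifs <;> simp

lemma dvi_mul (e m n : ℕ) : dvi e m * dvi e n = dvi e (m.gcd n) := by
  unfold dvi
  by_cases h1 : e ∣ m
  · by_cases h2 : e ∣ n
    · rw [if_pos h1, if_pos h2, if_pos (Nat.dvd_gcd h1 h2), one_mul]
    · rw [if_pos h1, if_neg h2, if_neg fun h => h2 (h.trans (Nat.gcd_dvd_right m n)), mul_zero]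
  · rw [if_neg h1, zero_mul, if_neg fun h => h1 (h.trans (Nat.gcd_dvd_left m n))]

/-- Expansion of a function of the gcd. -/
lemma gcd_expand {m n N : ℕ} (hm : 0 < m) (hmN : m ≤ N) (Φ : ℕ → ℝ) :
    Φ (m.gcd n) = ∑ g ∈ Ioc 0 N, ∑ e ∈ Ioc 0 N, mu e * (dvi (g * e) m * dvi (g * e) n) * Φ g := by
  set G := m.gcd n with hG
  have hG0 : 0 < G := Nat.gcd_pos_of_pos_left n hm
  have hGN : G ≤ N := (Nat.le_of_dvd hm (Nat.gcd_dvd_left m n)).trans hmN
  have h1 : ∀ g ∈ Ioc 0 N, ∑ e ∈ Ioc 0 N, mu e * (dvi (g * e) m * dvi (g * e) n) * Φ g =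
      if g = G then Φ g else 0 := by
    intro g hg
    rw [Finset.mem_Ioc] at hg
    rw [← Finset.sum_mul]
    by_cases hgG : g ∣ G
    · have h2 : ∀ e, dvi (g * e) m * dvi (g * e) n = dvi e (G / g) := by
        intro e
        rw [dvi_mul, ← hG]
        unfold dvi
        refine if_congr ?_ rfl rfl
        exact (Nat.dvd_div_iff_mul_dvd hgG).symm
      simp only [h2]
      rw [sum_mu (Nat.div_pos (Nat.le_of_dvd hG0 hgG) hg.1) ((Nat.div_le_self _ _).trans hGN)]
      have h3 : G / g = 1 ↔ g = G := by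
        constructor
        · intro h
          have := Nat.div_mul_cancel hgG
          rw [h, one_mul] at this
          exact this
        · rintro rfl
          exact Nat.div_self hg.1
      by_cases h4 : g = G
      · rw [if_pos (h3.2 h4), if_pos h4, one_mul]
      · rw [if_neg fun h => h4 (h3.1 h), if_neg h4, zero_mul]
    · have h2 : ∀ e, dvi (g * e) m * dvi (g * e) n = 0 := by
        intro e
        rw [dvi_mul, ← hG]
        unfold dvi
        rw [if_neg fun h => hgG ((dvd_mul_right g e).trans h)]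
      simp only [h2, mul_zero, Finset.sum_const_zero, zero_mul]
      rw [if_neg]
      rintro rfl
      exact hgG dvd_rfl
  rw [Finset.sum_congr rfl h1, Finset.sum_ite_eq' (Ioc 0 N) G fun g => Φ g,
    if_pos (Finset.mem_Ioc.2 ⟨hG0, hGN⟩)]

/-- Indicator of coprimality. -/
lemma coprime_expand {u b N : ℕ} (hu : 0 < u) (huN : u ≤ N) :
    (if u.gcd b = 1 then (1 : ℝ) else 0) = ∑ e ∈ Ioc 0 N, mu e * (dvi e u * dvi e b) := by
  simp only [dvi_mul]
  rw [sum_mu (Nat.gcd_pos_of_pos_left b hu) ((Nat.le_of_dvd hu (Nat.gcd_dvd_left u b)).trans huN)]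

/-- The tail of the Moebius series, dominated convergence. -/
lemma tannery (W : ℝ → ℝ) (c C : ℝ) (hc : 0 ≤ c) (hC : 0 ≤ C)
    (h : ∀ y, 1 ≤ y → |W y - c * (Real.log y) ^ 4| ≤ C * (1 + Real.log y) ^ 3)
    (h0 : ∀ y, y < 1 → W y = 0) :
    Tendsto (fun x : ℝ => (∑' e : ℕ, mu e / (e : ℝ) ^ 2 * W (x / e)) / (Real.log x) ^ 4) atTop
      (𝓝 (6 / Real.pi ^ 2 * c)) := by
  have hpt : ∀ d : ℝ, 1 ≤ d → Tendsto (fun x : ℝ => W (x / d) / (Real.log x) ^ 4) atTop (𝓝 c) := by
    intro d hd
    have hd0 : 0 < d := by linarith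
    have hld : 0 ≤ Real.log d := Real.log_nonneg hd
    have hq : Tendsto (fun x : ℝ => (Real.log x - Real.log d) / Real.log x) atTop (𝓝 1) := by
      have h1 : Tendsto (fun x : ℝ => 1 - Real.log d * (Real.log x)⁻¹) atTop
          (𝓝 (1 - Real.log d * 0)) :=
        (tendsto_const_nhds).sub ((tendsto_inv_atTop_zero.comp Real.tendsto_log_atTop).const_mul _)
      rw [mul_zero, sub_zero] at h1
      refine h1.congr' ?_
      filter_upwards [eventually_gt_atTop 1] with x hx
      have hx0 : Real.log x ≠ 0 := (Real.log_pos hx).ne'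
      field_simp
    have hr : Tendsto (fun x : ℝ => C * (1 + Real.log x) ^ 3 / (Real.log x) ^ 4) atTop (𝓝 0) := by
      have h1 : Tendsto (fun x : ℝ => C * (((Real.log x)⁻¹ + 1) ^ 3 * (Real.log x)⁻¹)) atTop
          (𝓝 (C * ((0 + 1) ^ 3 * 0))) := by
        have h2 : Tendsto (fun x : ℝ => (Real.log x)⁻¹) atTop (𝓝 0) :=
          tendsto_inv_atTop_zero.comp Real.tendsto_log_atTop
        exact (((h2.add_const 1).pow 3).mul h2).const_mul _
      rw [mul_zero, mul_zero] at h1
      refine h1.congr' ?_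
      filter_upwards [eventually_gt_atTop 1] with x hx
      have hx0 : Real.log x ≠ 0 := (Real.log_pos hx).ne'
      field_simp
    have hmain : Tendsto (fun x : ℝ => c * ((Real.log x - Real.log d) / Real.log x) ^ 4) atTop
        (𝓝 (c * 1 ^ 4)) := (hq.pow 4).const_mul c
    rw [one_pow, mul_one] at hmain
    have hdiff : Tendsto (fun x : ℝ => W (x / d) / (Real.log x) ^ 4 -
        c * ((Real.log x - Real.log d) / Real.log x) ^ 4) atTop (𝓝 0) := by
      refine squeeze_zero_norm' ?_ hr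
      filter_upwards [eventually_ge_atTop d, eventually_gt_atTop 1] with x hx hx1
      have hx0 : 0 < Real.log x := Real.log_pos hx1
      have hxc : 1 ≤ x / d := by
        rw [le_div_iff₀ hd0]
        linarith
      have h1 := h (x / d) hxc
      rw [Real.log_div (by linarith) hd0.ne'] at h1
      have h3 : W (x / d) / (Real.log x) ^ 4 -
          c * ((Real.log x - Real.log d) / Real.log x) ^ 4 =
          (W (x / d) - c * (Real.log x - Real.log d) ^ 4) / (Real.log x) ^ 4 := by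
        rw [div_pow]
        ring
      rw [h3, norm_div, Real.norm_eq_abs, Real.norm_of_nonneg (by positivity)]
      refine div_le_div_of_nonneg_right (h1.trans ?_) (by positivity)
      have h4 : 0 ≤ Real.log x - Real.log d := sub_nonneg.2 (Real.log_le_log hd0 hx)
      gcongr
      linarith
    have := hdiff.add hmain
    rw [zero_add] at this
    refine this.congr fun x => ?_
    ring
  have hbd : ∀ x : ℝ, Real.exp 1 ≤ x → ∀ d : ℝ, 1 ≤ d →
      |W (x / d) / (Real.log x) ^ 4| ≤ c + 8 * C := by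
    intro x hx d hd
    have hd0 : 0 < d := by linarith
    have hx1 : 1 ≤ x := le_trans (by
      have := Real.add_one_le_exp (1 : ℝ)
      linarith) hx
    have hL : 1 ≤ Real.log x := by
      rw [← Real.log_exp 1]
      exact Real.log_le_log (Real.exp_pos 1) hx
    rcases lt_or_ge (x / d) 1 with hlt | hge
    · rw [h0 _ hlt, zero_div, abs_zero]
      positivity
    · have h1 := h (x / d) hge
      have hl1 : 0 ≤ Real.log (x / d) := Real.log_nonneg hge
      have hl2 : Real.log (x / d) ≤ Real.log x := by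
        rw [Real.log_div (by linarith) hd0.ne']
        have := Real.log_nonneg hd
        linarith
      rw [abs_div, abs_of_pos (by positivity : (0 : ℝ) < (Real.log x) ^ 4),
        div_le_iff₀ (by positivity)]
      have h2 : |W (x / d)| ≤ c * (Real.log (x / d)) ^ 4 + C * (1 + Real.log (x / d)) ^ 3 := by
        have h5 : |W (x / d)| ≤ |W (x / d) - c * (Real.log (x / d)) ^ 4| +
            |c * (Real.log (x / d)) ^ 4| := by
          have := abs_add_le (W (x / d) - c * (Real.log (x / d)) ^ 4) (c * (Real.log (x / d)) ^ 4)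
          rwa [sub_add_cancel] at this
        rw [abs_of_nonneg (by positivity : (0 : ℝ) ≤ c * (Real.log (x / d)) ^ 4)] at h5
        linarith
      have h3 : c * (Real.log (x / d)) ^ 4 ≤ c * (Real.log x) ^ 4 := by gcongr
      have h4 : (1 + Real.log (x / d)) ^ 3 ≤ 8 * (Real.log x) ^ 4 := by
        calc (1 + Real.log (x / d)) ^ 3 ≤ (2 * Real.log x) ^ 3 := by
              gcongr
              linarith
          _ = 8 * (Real.log x) ^ 3 := by ring
          _ ≤ 8 * (Real.log x) ^ 4 :=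
              mul_le_mul_of_nonneg_left (pow_le_pow_right₀ hL (by norm_num)) (by norm_num)
      have h5 := mul_le_mul_of_nonneg_left h4 hC
      linarith
  have hlim : Tendsto (fun x : ℝ => ∑' e : ℕ, mu e / (e : ℝ) ^ 2 *
      (W (x / e) / (Real.log x) ^ 4)) atTop (𝓝 (∑' e : ℕ, mu e / (e : ℝ) ^ 2 * c)) := by
    refine tendsto_tsum_of_dominated_convergence
      (bound := fun e : ℕ => 1 / (e : ℝ) ^ 2 * (c + 8 * C)) ?_ ?_ ?_
    · exact (Real.summable_one_div_nat_pow.2 (by norm_num)).mul_right _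
    · intro e
      rcases Nat.eq_zero_or_pos e with rfl | he
      · simp
      · exact (hpt e (by exact_mod_cast he)).const_mul _
    · filter_upwards [eventually_ge_atTop (Real.exp 1)] with x hx e
      rcases Nat.eq_zero_or_pos e with rfl | he
      · simp
      · rw [norm_mul]
        refine mul_le_mul ?_ (hbd x hx e (by exact_mod_cast he)) (norm_nonneg _) (by positivity)
        rw [norm_div, Real.norm_of_nonneg (by positivity : (0 : ℝ) ≤ (e : ℝ) ^ 2)]
        refine div_le_div_of_nonneg_right ?_ (by positivity)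
        rw [Real.norm_eq_abs]
        unfold mu
        exact_mod_cast ArithmeticFunction.abs_moebius_le_one
  have hmu : ∑' e : ℕ, mu e / (e : ℝ) ^ 2 = 6 / Real.pi ^ 2 := K3.DivSum.sum_moebius
  rw [tsum_mul_right, hmu] at hlim
  refine hlim.congr fun x => ?_
  rw [← tsum_div_const]
  refine tsum_congr fun b => ?_
  ring

/-- finite form of the series -/
lemma tsum_eq (W : ℝ → ℝ) (h0 : ∀ y, y < 1 → W y = 0) {x : ℝ} (hx : 1 ≤ x) :
    ∑' e : ℕ, mu e / (e : ℝ) ^ 2 * W (x / e) =
      ∑ e ∈ Ioc 0 ⌊x⌋₊, mu e / (e : ℝ) ^ 2 * W (x / e) := by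
  rw [tsum_eq_sum]
  intro e he
  rcases Nat.eq_zero_or_pos e with rfl | he0
  · simp
  · have h1 : ⌊x⌋₊ < e := by
      by_contra hc
      exact he (Finset.mem_Ioc.2 ⟨he0, not_lt.1 hc⟩)
    have h2 : x < e := (Nat.floor_lt (by linarith)).1 h1
    rw [h0, mul_zero]
    rw [div_lt_one (by exact_mod_cast he0)]
    exact h2

/-- the harmonic sum -/
noncomputable def Hs (z : ℝ) : ℝ := ∑ m ∈ Ioc 0 ⌊z⌋₊, (m : ℝ)⁻¹

/-- the sum of `log m / m` -/
noncomputable def H1 (z : ℝ) : ℝ := ∑ m ∈ Ioc 0 ⌊z⌋₊, Real.log m * (m : ℝ)⁻¹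

lemma Hs_nonneg (z : ℝ) : 0 ≤ Hs z := Finset.sum_nonneg fun m _ => by positivity

lemma Hs_bd {z : ℝ} (hz : 1 ≤ z) : |Hs z - Real.log z| ≤ 1 := by
  have h := K3.DivSum.sum_log_pow z hz 0
  simp only [pow_zero, zero_add, pow_one, Nat.cast_zero, div_one, one_div] at h
  exact h

lemma H1_bd {z : ℝ} (hz : 1 ≤ z) : |H1 z - (Real.log z) ^ 2 / 2| ≤ 2 * Real.log z := by
  have h := K3.DivSum.sum_log_pow z hz 1
  have hl : 0 ≤ Real.log z := Real.log_nonneg hz
  have e : ∑ m ∈ Ioc 0 ⌊z⌋₊, (Real.log z - Real.log m) ^ 1 / (m : ℝ) =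
      Real.log z * Hs z - H1 z := by
    unfold Hs H1
    rw [Finset.mul_sum, ← Finset.sum_sub_distrib]
    refine Finset.sum_congr rfl fun m _ => ?_
    rw [pow_one]
    ring
  rw [e] at h
  have h2 := Hs_bd hz
  rw [abs_le] at h h2 ⊢
  norm_num at h
  obtain ⟨a1, a2⟩ := h
  obtain ⟨b1, b2⟩ := h2
  have c1 := mul_le_mul_of_nonneg_left b1 hl
  have c2 := mul_le_mul_of_nonneg_left b2 hl
  constructor <;> nlinarith

end GS

end K4
end Pool.Agent.Lib.MP_973905_nt
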