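import Pool.Agent.Lib.MP_973905_nt.K4.Stmts
import Pool.Agent.Lib.MP_973905_nt.F4.F4
import Pool.Agent.Lib.MP_973905_nt.K3.AvgLow

/-! (A6) sharp upper bound for the mollified fourth moment. -/

namespace Pool.Agent.Lib.MP_973905_nt
namespace K4

open MeasureTheory ProbabilityTheory Complex Filter Topology K1 F4

namespace Sh4

lemma ev_exp {δ : ℝ} (hδ : 0 < δ) : ∀ᶠ T : ℝ in atTop,
    (256 * (64 * 1440 * Real.exp 3)) * T ^ 19 ≤ Real.exp (T ^ (δ / 16 : ℝ)) :=
  K3.AL.ev_exp hδ _ (by positivity)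

/-- the tail -/
lemma tail {δ : ℝ} (hδ : 0 < δ) (hδ8 : δ ≤ 1 / 8) : ∀ᶠ T : ℝ in atTop,
    256 * (T ^ 7 * (1 + T) ^ 6) *
      ∫ x, Set.indicator {x : ℝ | T / Real.log T < |x|} (fun x => (1 + |x|) ^ 6) x
        ∂(gaussianReal 0 (VV (K3.Td δ T))) ≤ 1 := by
  have ev1 : ∀ᶠ T : ℝ in atTop, Real.log T ≤ T ^ (δ / 16 : ℝ) := by
    have h := (isLittleO_log_rpow_atTop (r := δ / 16) (by positivity)).def (c := 1) one_pos
    filter_upwards [h, eventually_ge_atTop 1] with T hT hT1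
    rw [one_mul, Real.norm_eq_abs, Real.norm_eq_abs, abs_of_nonneg (Real.log_nonneg hT1),
      abs_of_nonneg (by positivity)] at hT
    exact hT
  have ev3 : ∀ᶠ T : ℝ in atTop, 4 ≤ Real.log T := Real.tendsto_log_atTop.eventually_ge_atTop 4
  filter_upwards [ev1, ev_exp hδ, ev3, eventually_ge_atTop 3] with T h1 h2 h3 hT3
  have hT0 : 0 < T := by linarith
  have hL : 0 < Real.log T := by linarith
  set a : ℝ := T / Real.log T with ha
  have ha0 : 0 < a := by positivity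
  set γ := gaussianReal 0 (VV (K3.Td δ T)) with hγ
  set y : ℝ := T ^ (δ / 16 : ℝ) with hy
  have hy1 : 1 ≤ y := Real.one_le_rpow (by linarith) (by positivity)
  have hy0 : 0 < y := by linarith
  have hyT : y ^ 2 ≤ T := by
    rw [hy, ← Real.rpow_natCast, ← Real.rpow_mul hT0.le]
    calc T ^ (δ / 16 * ((2 : ℕ) : ℝ)) ≤ T ^ (1 : ℝ) := by
          apply Real.rpow_le_rpow_of_exponent_le (by linarith)
          push_cast
          linarith
      _ = T := Real.rpow_one T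
  have hV : ((VV (K3.Td δ T) : NNReal) : ℝ) = T ^ 2 / y ^ 8 := by
    rw [K3.VV_Td hT0, eq_div_iff (by positivity), hy, ← Real.rpow_natCast, ← Real.rpow_natCast,
      ← Real.rpow_mul hT0.le, ← Real.rpow_add hT0]
    congr 1
    push_cast
    ring
  set q : ℝ := ∫ x, Set.indicator {x : ℝ | a < |x|} (fun x => (1 + |x|) ^ 6) x ∂γ with hq
  have hl : 0 < y ^ 2 / T := by positivity
  have h4 : q ≤ 1440 * ((y ^ 2 / T)⁻¹) ^ 6 * Real.exp (y ^ 2 / T - y ^ 2 / T * a +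
      2 * ((VV (K3.Td δ T) : NNReal) : ℝ) * (y ^ 2 / T) ^ 2) := K3.AL.tail6 hl
  have h5 : ((y ^ 2 / T)⁻¹) ^ 6 ≤ T ^ 6 := by
    have : (y ^ 2 / T)⁻¹ ≤ T := by
      rw [inv_div]
      exact div_le_self hT0.le (one_le_pow₀ hy1)
    gcongr
  have h6 : y ^ 2 / T ≤ 1 := by rw [div_le_one hT0]; exact hyT
  have h7 : y ≤ y ^ 2 / T * a := by
    rw [ha, div_mul_div_comm, le_div_iff₀ (by positivity)]
    calc y * (T * Real.log T) = y * Real.log T * T := by ring
      _ ≤ y * y * T := by gcongr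
      _ = y ^ 2 * T := by ring
  have h8 : 2 * ((VV (K3.Td δ T) : NNReal) : ℝ) * (y ^ 2 / T) ^ 2 ≤ 2 := by
    rw [hV]
    have : 2 * (T ^ 2 / y ^ 8) * (y ^ 2 / T) ^ 2 = 2 * (1 / y ^ 4) := by
      field_simp
    rw [this]
    have : 1 / y ^ 4 ≤ 1 := by
      rw [div_le_one (by positivity)]; exact one_le_pow₀ hy1
    linarith
  have h9 : q ≤ 1440 * T ^ 6 * (Real.exp 3 * Real.exp (-y)) := by
    refine h4.trans ?_
    rw [← Real.exp_add]
    exact mul_le_mul (by gcongr) (Real.exp_le_exp.2 (by linarith)) (Real.exp_pos _).le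
      (by positivity)
  have h10 : (1 + T) ^ 6 ≤ 64 * T ^ 6 := by
    calc (1 + T) ^ 6 ≤ (2 * T) ^ 6 := by gcongr; linarith
      _ = _ := by ring
  have hq0 : 0 ≤ q := integral_nonneg fun x => Set.indicator_nonneg (fun t _ => by positivity) x
  calc 256 * (T ^ 7 * (1 + T) ^ 6) * q ≤ 256 * (T ^ 7 * (64 * T ^ 6)) *
        (1440 * T ^ 6 * (Real.exp 3 * Real.exp (-y))) := by
        gcongr
    _ = (256 * (64 * 1440 * Real.exp 3) * T ^ 19) * Real.exp (-y) := by ring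
    _ ≤ Real.exp y * Real.exp (-y) := by gcongr
    _ = 1 := by rw [← Real.exp_add]; simp

/-- comparison of averages of Gaussian means with integrals -/
lemma avg {δ : ℝ} (hδ : 0 < δ) (hδ8 : δ ≤ 1 / 8) : ∀ᶠ T : ℝ in atTop,
    ∀ F : ℝ → ℝ, Continuous F → (∀ t, 0 ≤ F t) → (∀ t, F t ≤ T ^ 6 * (1 + |t|) ^ 6) →
    ∀ a b : ℝ, 0 ≤ a → a ≤ b → b ≤ 2 * T →
    IntervalIntegrable (fun τ => EG (K3.Td δ T) τ F) volume a b ∧
    ∫ τ in a..b, EG (K3.Td δ T) τ F ≤
      (∫ t in (a - T / Real.log T)..(b + T / Real.log T), F t) + 1 ∧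
    (a + T / Real.log T ≤ b - T / Real.log T →
      (1 - 1 / T) * ∫ t in (a + T / Real.log T)..(b - T / Real.log T), F t ≤
        ∫ τ in a..b, EG (K3.Td δ T) τ F) := by
  filter_upwards [tail hδ hδ8, eventually_ge_atTop 3] with T htail hT3 F hF hF0 hFb a b ha hab hb
  have hT0 : 0 < T := by linarith
  have hL : 0 < Real.log T := Real.log_pos (by linarith)
  set s : ℝ := T / Real.log T with hs
  have hs0 : 0 < s := by positivity
  set γ := gaussianReal 0 (VV (K3.Td δ T)) with hγ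
  set q : ℝ := ∫ x, Set.indicator {x : ℝ | s < |x|} (fun x => (1 + |x|) ^ 6) x ∂γ with hq
  have hq0 : 0 ≤ q := integral_nonneg fun x => Set.indicator_nonneg (fun t _ => by positivity) x
  have hqi : Integrable (Set.indicator {x : ℝ | s < |x|} (fun x => (1 + |x|) ^ 6)) γ :=
    (integrable_one_add_abs_pow 0 _ 6).indicator
      (measurableSet_lt measurable_const measurable_id.abs)
  have hFa : ∀ t, |F t| ≤ T ^ 6 * (1 + |t|) ^ 6 := fun t => by
    rw [abs_of_nonneg (hF0 t)]; exact hFb t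
  obtain ⟨e1, j1, j2⟩ := K3.AL.average6 (K3.Td δ T) hF hFa hab
  have hFi : ∀ u v : ℝ, IntervalIntegrable F volume u v := fun u v => hF.intervalIntegrable u v
  refine ⟨j2, ?_, fun hab2 => ?_⟩
  · set A : ℝ := ∫ t in (a - s)..(b + s), F t with hA
    have hA0 : 0 ≤ A := intervalIntegral.integral_nonneg (by linarith) fun t _ => hF0 t
    have s2 : ∀ x : ℝ, (∫ t in (x + a)..(x + b), F t) ≤
        A + 256 * (T ^ 7 * (1 + T) ^ 6) *
          Set.indicator {x : ℝ | s < |x|} (fun x => (1 + |x|) ^ 6) x := by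
      intro x
      by_cases hx : s < |x|
      · rw [Set.indicator_of_mem (show x ∈ {x : ℝ | s < |x|} from hx) _]
        have h8 := intervalIntegral.norm_integral_le_of_norm_le_const (a := x + a)
          (b := x + b) (f := F) (C := T ^ 6 * ((2 * (1 + T)) * (1 + |x|)) ^ 6) (fun t ht => by
            rw [Set.uIoc_of_le (by linarith)] at ht
            rw [Real.norm_eq_abs]
            refine (hFa t).trans ?_
            have h10 : |t| ≤ |x| + 2 * T := by
              rw [abs_le]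
              constructor
              · linarith [ht.1, neg_abs_le x]
              · linarith [ht.2, le_abs_self x]
            have h11 : 1 + |t| ≤ (2 * (1 + T)) * (1 + |x|) := by
              nlinarith [mul_nonneg hT0.le (abs_nonneg x), abs_nonneg x]
            gcongr)
        rw [abs_of_nonneg (by linarith : 0 ≤ x + b - (x + a))] at h8
        have h9 : T ^ 6 * ((2 * (1 + T)) * (1 + |x|)) ^ 6 * (x + b - (x + a)) ≤
            T ^ 6 * ((2 * (1 + T)) * (1 + |x|)) ^ 6 * (2 * T) := by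
          gcongr
          linarith
        have h12 : 0 ≤ T ^ 7 * (1 + T) ^ 6 * (1 + |x|) ^ 6 := by positivity
        calc (∫ t in (x + a)..(x + b), F t)
            ≤ T ^ 6 * ((2 * (1 + T)) * (1 + |x|)) ^ 6 * (2 * T) :=
              (le_abs_self _).trans (h8.trans h9)
          _ = 128 * (T ^ 7 * (1 + T) ^ 6 * (1 + |x|) ^ 6) := by ring
          _ ≤ A + 256 * (T ^ 7 * (1 + T) ^ 6 * (1 + |x|) ^ 6) := by linarith
          _ = _ := by ring
      · rw [Set.indicator_of_notMem (show x ∉ {x : ℝ | s < |x|} from hx) _, mul_zero, add_zero]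
        push Not at hx
        have h9 := abs_le.mp hx
        exact intervalIntegral.integral_mono_interval (by linarith) (by linarith) (by linarith)
          (Filter.Eventually.of_forall fun t => hF0 t) (hFi _ _)
    rw [e1]
    calc ∫ x, (∫ t in (x + a)..(x + b), F t) ∂γ
        ≤ ∫ x, (A + 256 * (T ^ 7 * (1 + T) ^ 6) *
          Set.indicator {x : ℝ | s < |x|} (fun x => (1 + |x|) ^ 6) x) ∂γ :=
          integral_mono j1 ((integrable_const _).add (hqi.const_mul _)) s2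
      _ = A + 256 * (T ^ 7 * (1 + T) ^ 6) * q := by
          rw [integral_add (integrable_const _) (hqi.const_mul _), integral_const_mul]
          simp only [integral_const, probReal_univ, smul_eq_mul, one_mul]
          rfl
      _ ≤ A + 1 := by linarith
  · set A : ℝ := ∫ t in (a + s)..(b - s), F t with hA
    have hA0 : 0 ≤ A := intervalIntegral.integral_nonneg hab2 fun t _ => hF0 t
    have s2 : ∀ x : ℝ, A - A * Set.indicator {x : ℝ | s < |x|} (fun x => (1 + |x|) ^ 6) x ≤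
        (∫ t in (x + a)..(x + b), F t) := by
      intro x
      by_cases hx : s < |x|
      · rw [Set.indicator_of_mem (show x ∈ {x : ℝ | s < |x|} from hx) _]
        have h8 : 0 ≤ ∫ t in (x + a)..(x + b), F t :=
          intervalIntegral.integral_nonneg (by linarith) fun t _ => hF0 t
        have h9 : 1 ≤ (1 + |x|) ^ 6 := one_le_pow₀ (by linarith [abs_nonneg x])
        nlinarith
      · rw [Set.indicator_of_notMem (show x ∉ {x : ℝ | s < |x|} from hx) _, mul_zero, sub_zero]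
        push Not at hx
        have h9 := abs_le.mp hx
        exact intervalIntegral.integral_mono_interval (by linarith) (by linarith) (by linarith)
          (Filter.Eventually.of_forall fun t => hF0 t) (hFi _ _)
    have hq1 : q ≤ 1 / T := by
      rw [le_div_iff₀ hT0]
      have h3 : T ≤ 256 * (T ^ 7 * (1 + T) ^ 6) := by
        have h4 : (1 : ℝ) ≤ (1 + T) ^ 6 := one_le_pow₀ (by linarith)
        have h5 : T ≤ T ^ 7 := le_self_pow₀ (by linarith) (by norm_num)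
        nlinarith [mul_le_mul h5 h4 (by norm_num) (by positivity)]
      calc q * T ≤ q * (256 * (T ^ 7 * (1 + T) ^ 6)) := by gcongr
        _ = 256 * (T ^ 7 * (1 + T) ^ 6) * q := by ring
        _ ≤ 1 := htail
    rw [e1]
    calc (1 - 1 / T) * A ≤ (1 - q) * A := by gcongr
      _ = ∫ x, (A - A * Set.indicator {x : ℝ | s < |x|} (fun x => (1 + |x|) ^ 6) x) ∂γ := by
          rw [integral_sub (integrable_const _) (hqi.const_mul _), integral_const_mul]
          simp only [integral_const, probReal_univ, smul_eq_mul, one_mul]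
          rw [← hq]
          ring
      _ ≤ _ := integral_mono ((integrable_const _).sub (hqi.const_mul _)) j1 s2

/-- dyadic intervals down to `Z / 2 ^ n` -/
lemma dyad {F : ℝ → ℝ} (hF : Continuous F) {Y B T : ℝ} (hB : 0 ≤ B) (hY : 0 < Y)
    (h : ∀ X : ℝ, Y ≤ X → X ≤ T → ∫ t in X..(2 * X), F t ≤ X * B) (n : ℕ) :
    ∀ Z : ℝ, Z ≤ 2 * T → Y ≤ Z / 2 ^ n → ∫ t in (Z / 2 ^ n)..Z, F t ≤ Z * B := by
  have hi : ∀ a b : ℝ, IntervalIntegrable F volume a b := fun a b => hF.intervalIntegrable a b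
  induction n with
  | zero =>
    intro Z _ hZ
    rw [pow_zero, div_one] at hZ ⊢
    rw [intervalIntegral.integral_same]
    have : 0 < Z := by linarith
    positivity
  | succ n ih =>
    intro Z hZ1 hZ2
    have e : Z / 2 ^ (n + 1) = (Z / 2) / 2 ^ n := by rw [pow_succ]; field_simp
    rw [e] at hZ2 ⊢
    have hZ0 : 0 < Z / 2 := by
      have h1 : 0 < Z / 2 / 2 ^ n := by linarith
      have h2 : (0 : ℝ) < 2 ^ n := by positivity
      exact (div_pos_iff_of_pos_right h2).mp h1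
    have h1 := ih (Z / 2) (by linarith) hZ2
    have h3 : Y ≤ Z / 2 := hZ2.trans (div_le_self hZ0.le (one_le_pow₀ (by norm_num)))
    have h2 := h (Z / 2) h3 (by linarith)
    rw [show 2 * (Z / 2) = Z by ring] at h2
    rw [← intervalIntegral.integral_add_adjacent_intervals (hi _ (Z / 2)) (hi (Z / 2) Z)]
    linarith

/-! ### pointwise -/

lemma ptid (δ T t : ℝ) (N : ℂ) :
    ‖riemannZeta (1 / 2 + t * I)‖ ^ 2 * ‖DA δ T t‖ ^ 2 * ‖N‖ ^ 2 =
      2 * (‖riemannZeta (1 / 2 + t * I)‖ ^ 2 * ‖SH δ T (fs (1 / 2 + t * I))‖ ^ 2 * ‖N‖ ^ 2) +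
      2 * (riemannZeta (1 / 2 + t * I) ^ 2 * (starRingEnd ℂ) (SH δ T (fs (1 / 2 + t * I)) ^ 2) *
        ((‖N‖ ^ 2 : ℝ) : ℂ)).re := by
  have h1 := Lower.conj_zeta_half t
  have h2 := Lower.FF_half' t
  unfold DA
  set z := riemannZeta (1 / 2 + t * I) with hz
  set F := FF (1 / 2 + t * I) with hF
  set A := SH δ T (fs (1 / 2 + t * I)) with hA
  have h3 : z = (starRingEnd ℂ) F * (starRingEnd ℂ) z := by
    have := congrArg (starRingEnd ℂ) h1
    rwa [starRingEnd_self_apply, map_mul] at this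
  have h4 : F * (starRingEnd ℂ) F = 1 := by
    rw [Complex.mul_conj', h2]; norm_num
  apply Complex.ofReal_injective
  push_cast
  rw [Complex.re_eq_add_conj, ← Complex.mul_conj' z, ← Complex.mul_conj' A,
    ← Complex.mul_conj' (A + _), ← Complex.mul_conj' N]
  simp only [map_add, map_mul, map_pow, starRingEnd_self_apply]
  have e1 : z * (starRingEnd ℂ) z * (F * A ^ 2) = (starRingEnd ℂ) z ^ 2 * A ^ 2 := by
    calc z * (starRingEnd ℂ) z * (F * A ^ 2) = (starRingEnd ℂ) z * (F * z) * A ^ 2 := by ring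
      _ = _ := by rw [← h1]; ring
  have e2 : z * (starRingEnd ℂ) z * ((starRingEnd ℂ) F * (starRingEnd ℂ) A ^ 2) =
      z ^ 2 * (starRingEnd ℂ) A ^ 2 := by
    calc z * (starRingEnd ℂ) z * ((starRingEnd ℂ) F * (starRingEnd ℂ) A ^ 2) =
          z * ((starRingEnd ℂ) F * (starRingEnd ℂ) z) * (starRingEnd ℂ) A ^ 2 := by ring
      _ = _ := by rw [← h3]; ring
  calc z * (starRingEnd ℂ) z * ((A + (starRingEnd ℂ) F * (starRingEnd ℂ) A) *
        ((starRingEnd ℂ) A + F * A)) * (N * (starRingEnd ℂ) N)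
      = (z * (starRingEnd ℂ) z * (A * (starRingEnd ℂ) A) * (1 + F * (starRingEnd ℂ) F) +
          (z * (starRingEnd ℂ) z * (F * A ^ 2) +
          z * (starRingEnd ℂ) z * ((starRingEnd ℂ) F * (starRingEnd ℂ) A ^ 2))) *
          (N * (starRingEnd ℂ) N) := by ring
    _ = _ := by rw [e1, e2, h4]; ring

lemma DA_cont {δ T : ℝ} (hδ : 0 < δ) (hT : 1 < T) : Continuous (DA δ T) := by
  have h1 := (Lower.dp_half (Lower.dp_SH hδ hT)).1
  unfold DA
  exact h1.add ((continuous_conj.comp Lower.continuous_FF_half).mul (continuous_conj.comp h1))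

lemma DA_le {δ T : ℝ} (hδ : 0 < δ) (hT : 1 < T) (t : ℝ) : ‖DA δ T t‖ ≤ 2 * T := by
  have h1 := (Lower.dp_half (Lower.dp_SH hδ hT)).2 t
  unfold DA
  refine (norm_add_le _ _).trans ?_
  rw [norm_mul, norm_conj, norm_conj, Lower.FF_half', one_mul]
  linarith

lemma RR_cont {δ T : ℝ} (hδ : 0 < δ) (hT : 1 < T) : Continuous (RR δ T) := by
  unfold RR
  exact Lower.continuous_zeta_half.sub (DA_cont hδ hT)

lemma split {e : ℝ} (he : 0 < e) (δ T t : ℝ) (N : ℂ) :
    ‖riemannZeta (1 / 2 + t * I)‖ ^ 4 * ‖N‖ ^ 2 ≤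
      (1 + e) * (‖riemannZeta (1 / 2 + t * I)‖ ^ 2 * ‖DA δ T t‖ ^ 2 * ‖N‖ ^ 2) +
      (1 + 1 / e) * (‖riemannZeta (1 / 2 + t * I)‖ ^ 2 * ‖RR δ T t‖ ^ 2 * ‖N‖ ^ 2) := by
  have h1 : ‖riemannZeta (1 / 2 + t * I)‖ ≤ ‖DA δ T t‖ + ‖RR δ T t‖ := by
    calc ‖riemannZeta (1 / 2 + t * I)‖ = ‖DA δ T t + RR δ T t‖ := by
          unfold RR; congr 1; ring
      _ ≤ _ := norm_add_le _ _
  set z := ‖riemannZeta (1 / 2 + t * I)‖ with hz
  set d := ‖DA δ T t‖ with hd
  set r := ‖RR δ T t‖ with hr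
  have hz0 : 0 ≤ z := norm_nonneg _
  have hd0 : 0 ≤ d := norm_nonneg _
  have hr0 : 0 ≤ r := norm_nonneg _
  have h2 : z ^ 2 ≤ (1 + e) * d ^ 2 + (1 + 1 / e) * r ^ 2 := by
    have h3 : z ^ 2 ≤ (d + r) ^ 2 := by gcongr
    have h4 : 0 ≤ (e * d - r) ^ 2 / e := by positivity
    have h5 : (e * d - r) ^ 2 / e = e * d ^ 2 - 2 * (d * r) + 1 / e * r ^ 2 := by
      field_simp
      ring
    nlinarith
  calc z ^ 4 * ‖N‖ ^ 2 = (z ^ 2 * ‖N‖ ^ 2) * z ^ 2 := by ring
    _ ≤ (z ^ 2 * ‖N‖ ^ 2) * ((1 + e) * d ^ 2 + (1 + 1 / e) * r ^ 2) := by gcongr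
    _ = _ := by ring

lemma arith1 {e g c K : ℝ} (he0 : 0 < e) (he1 : e ≤ 1 / 100) (hc0 : 0 < c) (hc1 : c ≤ 1 / 18)
    (hg0 : 0 ≤ g) (hK : 1 ≤ K) (hg1 : (1 - e) * g ≤ (c + 9 * e) * K) :
    (1 + e) * g ≤ (c + 10 * e) * K := by
  have h5 : g ≤ (1 + 2 * e) * ((1 - e) * g) := by
    have h1 : 0 ≤ g * (e * (1 - 2 * e)) :=
      mul_nonneg hg0 (mul_nonneg he0.le (by linarith))
    nlinarith
  have h6 : (1 + e) * g ≤ (1 + e) * ((1 + 2 * e) * ((c + 9 * e) * K)) := by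
    gcongr
    exact h5.trans (by gcongr)
  refine h6.trans ?_
  have h7 : (1 + e) * ((1 + 2 * e) * (c + 9 * e)) ≤ c + 10 * e := by
    have h8 : (1 + e) * (1 + 2 * e) ≤ 1 + 4 * e := by nlinarith
    have h9 : e * c ≤ e * (1 / 18) := by gcongr
    have h10 : e * e ≤ e * (1 / 100) := by gcongr
    calc (1 + e) * ((1 + 2 * e) * (c + 9 * e)) = ((1 + e) * (1 + 2 * e)) * (c + 9 * e) := by ring
      _ ≤ (1 + 4 * e) * (c + 9 * e) := by gcongr
      _ = c + 9 * e + 4 * (e * c) + 36 * (e * e) := by ring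
      _ ≤ c + 10 * e := by linarith
  calc (1 + e) * ((1 + 2 * e) * ((c + 9 * e) * K)) =
        ((1 + e) * ((1 + 2 * e) * (c + 9 * e))) * K := by ring
    _ ≤ _ := by gcongr

lemma arith2 {x J J0 JG JR e K c : ℝ} (hx : 0 ≤ x)
    (hs : J ≤ J0 + ((1 + e) * JG + (1 + 1 / e) * JR)) (p1 : x * J0 ≤ 2 * e * K)
    (p2 : (1 + e) * (x * JG) ≤ (c + 10 * e) * K) (p3 : (1 + 1 / e) * (x * JR) ≤ e * K) :
    x * J ≤ (c + 13 * e) * K := by
  calc x * J ≤ x * (J0 + ((1 + e) * JG + (1 + 1 / e) * JR)) := by gcongr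
    _ = x * J0 + (1 + e) * (x * JG) + (1 + 1 / e) * (x * JR) := by ring
    _ ≤ 2 * e * K + (c + 10 * e) * K + e * K := by gcongr
    _ = _ := by ring

end Sh4

open Sh4 in
theorem stSharp4 (hb : StBumpMom) (hs : StSharpA) (hp : StPairT) (h1 : StS1) (h2 : StS2)
    (hd : F4.StDy) (hcr : F4.StCr4) : StSharp4 := by
  intro η hη
  set e : ℝ := min η 1 / 100 with he
  have hη2 : 0 < min η 1 := lt_min hη one_pos
  have he0 : 0 < e := by positivity
  have he1 : e ≤ 1 / 100 := by have := min_le_right η 1; rw [he]; linarith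
  have heη : 100 * e ≤ η := by have := min_le_left η 1; rw [he]; linarith
  obtain ⟨δ, hδ0, hδ1, Mb, hMb⟩ := hb (e ^ 2 / 2) (by positivity)
  have hδ8 : δ ≤ 1 / 8 := by linarith
  obtain ⟨Ms, hMs⟩ := hs δ e hδ0 hδ1 he0
  obtain ⟨Mp, hMp⟩ := hp δ e hδ0 hδ8 he0
  obtain ⟨T₁, -, hS1⟩ := h1 δ e hδ0 hδ8 he0
  obtain ⟨T₂, -, hS2⟩ := h2 δ e hδ0 hδ8 he0
  obtain ⟨C, κ, hC, hκ, Mc, hMc⟩ := Sum4.core hd hcr
  obtain ⟨Cz, hCz, hz⟩ := Lower.zeta_poly_half
  refine ⟨max (max Mb Ms) (max Mp Mc), fun M hM => ?_⟩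
  obtain ⟨κb, hκb0, hκb1, Tb, -, hTb⟩ :=
    hMb M (((le_max_left _ _).trans (le_max_left _ _)).trans hM)
  obtain ⟨κs, hκs0, hκs1, hs'⟩ := hMs M (((le_max_right _ _).trans (le_max_left _ _)).trans hM)
  obtain ⟨κp, hκp0, hκp1, Tp, -, hTp⟩ :=
    hMp M (((le_max_left _ _).trans (le_max_right _ _)).trans hM)
  obtain ⟨Tc, hTc3, hTc⟩ := hMc M (((le_max_right _ _).trans (le_max_right _ _)).trans hM)
  set ρ : ℝ := e / (2 * (Real.exp (C * M) + 1)) with hρ
  have hex : 0 < Real.exp (C * M) := Real.exp_pos _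
  have hρ0 : 0 < ρ := by positivity
  have hρe : 2 * ρ * (Real.exp (C * M) + 1) = e := by rw [hρ]; field_simp
  have hρ1 : ρ ≤ 1 / 4 := by
    have h3 : ρ * 1 ≤ ρ * (Real.exp (C * M) + 1) := by gcongr; linarith
    linarith
  obtain ⟨Ts, -, hTs⟩ := hs' ρ (1 + ρ) hρ0 (by linarith) (by linarith)
  obtain ⟨n, hn⟩ := exists_pow_lt_of_lt_one (show 0 < 2 * ρ by positivity)
    (show (1 / 2 : ℝ) < 1 by norm_num)
  have ev1 : ∀ᶠ T : ℝ in atTop, 1 / Real.log T ≤ ρ / 2 := Lower.ev_div_log 1 (ρ / 2) (by positivity)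
  have ev2 : ∀ᶠ T : ℝ in atTop, 4 * Cz ^ 2 * T ^ 5 ≤ T ^ 6 := by
    filter_upwards [eventually_ge_atTop (4 * Cz ^ 2), eventually_ge_atTop 0] with T hT hT0
    calc 4 * Cz ^ 2 * T ^ 5 ≤ T * T ^ 5 := by gcongr
      _ = T ^ 6 := by ring
  have ev3 : ∀ᶠ T : ℝ in atTop, T ^ (-(1 / 2000) : ℝ) ≤ e :=
    (tendsto_rpow_neg_atTop (show (0 : ℝ) < 1 / 2000 by norm_num)).eventually_le_const he0
  have ev4 : ∀ᶠ T : ℝ in atTop, (2 : ℝ) ^ n ≤ T ^ (δ / 8) :=
    (tendsto_rpow_atTop (by positivity)).eventually_ge_atTop _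
  have ev5 := avg hδ0 hδ8
  obtain ⟨T₃, hT₃⟩ := eventually_atTop.mp
    ((ev1.and (ev2.and ev3)).and ((ev4.and ev5).and (eventually_ge_atTop (2 / e))))
  refine ⟨min κb (min κs κp), lt_min hκb0 (lt_min hκs0 hκp0), (min_le_left _ _).trans hκb1,
    max (max (max T₁ T₂) (max Tb Tp)) (max (max Tc Ts) T₃),
    hTc3.trans (((le_max_left _ _).trans (le_max_left _ _)).trans (le_max_right _ _)),
    fun T hT k hk1 hk2 => ?_⟩
  obtain ⟨⟨⟨hTa1, hTa2⟩, hTab, hTap⟩, ⟨hTac, hTas⟩, hTa3⟩ :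
      (((T₁ ≤ T ∧ T₂ ≤ T) ∧ (Tb ≤ T ∧ Tp ≤ T)) ∧ ((Tc ≤ T ∧ Ts ≤ T) ∧ T₃ ≤ T)) := by
    simpa only [max_le_iff] using hT
  obtain ⟨⟨e1, e2, e3⟩, ⟨e4, e5⟩, e6⟩ := hT₃ T hTa3
  have hT3 : 3 ≤ T := hTc3.trans hTac
  have hT0 : 0 < T := by linarith
  have hT1 : 1 < T := by linarith
  have hkb : 2 - κb ≤ k := by have := min_le_left κb (min κs κp); linarith
  have hks : 2 - κs ≤ k := by
    have := (min_le_right κb (min κs κp)).trans (min_le_left κs κp); linarith
  have hkp : |k - 2| ≤ κp := by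
    have := (min_le_right κb (min κs κp)).trans (min_le_right κs κp)
    rw [abs_le]; constructor <;> linarith
  have hk19 : 19 / 10 ≤ k := by linarith
  set L : ℝ := Real.log T with hL
  have hL0 : 0 < L := Real.log_pos hT1
  set K : ℝ := L ^ (k ^ 2) with hK
  have hK1 : 1 ≤ K := Lower.one_le_LL hT3
  set K4 : ℝ := L ^ (k ^ 2 - 4) with hK4
  have hK40 : 0 < K4 := Real.rpow_pos_of_pos hL0 _
  have hKK : K4 * L ^ 4 = K := by
    rw [hK4, hK, ← Real.rpow_natCast L 4, ← Real.rpow_add hL0]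
    congr 1
    push_cast
    ring
  -- the polynomial
  obtain ⟨hA, hcore⟩ := hTc T hTac k (by linarith) hk2 (Finset.range (JJ T + 1)) ∅
    (by simp)
  have hAN : AA T M (JJ T) (k - 2) (Finset.range (JJ T + 1)) ∅ = NN T M (k - 2) := rfl
  rw [hAN] at hA
  obtain ⟨hNc, hNb⟩ := Lower.dp_half hA
  obtain ⟨hSc, hSb⟩ := Lower.dp_half (Lower.dp_SH hδ0 hT1)
  have hzc := Lower.continuous_zeta_half
  have hNb' : ∀ t : ℝ, ‖NN T M (k - 2) (fs (1 / 2 + t * I))‖ ^ 2 ≤ T := by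
    intro t
    have h3 := hNb t
    have h7 : (T ^ (1 / 20000 : ℝ)) ^ 2 = T ^ (1 / 10000 : ℝ) := by
      rw [← Real.rpow_natCast, ← Real.rpow_mul hT0.le]; norm_num
    calc _ ≤ (T ^ (1 / 20000 : ℝ)) ^ 2 := by gcongr
      _ = T ^ (1 / 10000 : ℝ) := h7
      _ ≤ T ^ (1 : ℝ) := Real.rpow_le_rpow_of_exponent_le hT1.le (by norm_num)
      _ = T := Real.rpow_one T
  set Fz : ℝ → ℝ := fun t => ‖riemannZeta (1 / 2 + t * I)‖ ^ 4 *
    ‖NN T M (k - 2) (fs (1 / 2 + t * I))‖ ^ 2 with hFz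
  set G : ℝ → ℝ := fun t => ‖riemannZeta (1 / 2 + t * I)‖ ^ 2 * ‖DA δ T t‖ ^ 2 *
    ‖NN T M (k - 2) (fs (1 / 2 + t * I))‖ ^ 2 with hG
  set fa : ℝ → ℝ := fun t => ‖riemannZeta (1 / 2 + t * I)‖ ^ 2 *
    ‖SH δ T (fs (1 / 2 + t * I))‖ ^ 2 * ‖NN T M (k - 2) (fs (1 / 2 + t * I))‖ ^ 2 with hfa
  set R : ℝ → ℝ := fun t => ‖riemannZeta (1 / 2 + t * I)‖ ^ 2 * ‖RR δ T t‖ ^ 2 *
    ‖NN T M (k - 2) (fs (1 / 2 + t * I))‖ ^ 2 with hR
  set P : ℝ → ℂ := fun t => riemannZeta (1 / 2 + t * I) ^ 2 *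
    (starRingEnd ℂ) (SH δ T (fs (1 / 2 + t * I)) ^ 2) *
    ((‖NN T M (k - 2) (fs (1 / 2 + t * I))‖ ^ 2 : ℝ) : ℂ) with hP
  have cF : Continuous Fz := (hzc.norm.pow 4).mul (hNc.norm.pow 2)
  have cG : Continuous G := ((hzc.norm.pow 2).mul ((DA_cont hδ0 hT1).norm.pow 2)).mul
    (hNc.norm.pow 2)
  have cfa : Continuous fa := ((hzc.norm.pow 2).mul (hSc.norm.pow 2)).mul (hNc.norm.pow 2)
  have cR : Continuous R := ((hzc.norm.pow 2).mul ((RR_cont hδ0 hT1).norm.pow 2)).mul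
    (hNc.norm.pow 2)
  have cP : Continuous P := ((hzc.pow 2).mul (continuous_conj.comp (hSc.pow 2))).mul
    (continuous_ofReal.comp (hNc.norm.pow 2))
  have hG0 : ∀ t, 0 ≤ G t := fun t => by simp only [hG]; positivity
  have hfa0 : ∀ t, 0 ≤ fa t := fun t => by simp only [hfa]; positivity
  have hR0 : ∀ t, 0 ≤ R t := fun t => by simp only [hR]; positivity
  have hpoly : ∀ t x : ℝ, 0 ≤ x → x ≤ 2 * T →
      ‖riemannZeta (1 / 2 + t * I)‖ ^ 2 * x ^ 2 * ‖NN T M (k - 2) (fs (1 / 2 + t * I))‖ ^ 2 ≤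
        T ^ 6 * (1 + |t|) ^ 6 := by
    intro t x hx0 hx
    have h3 := hz t
    have h4 := hNb' t
    have h5 : (1 + |t|) ^ 4 ≤ (1 + |t|) ^ 6 :=
      pow_le_pow_right₀ (by linarith [abs_nonneg t]) (by norm_num)
    have h6 : T ^ 3 ≤ T ^ 5 := pow_le_pow_right₀ hT1.le (by norm_num)
    calc _ ≤ (Cz * (1 + |t|) ^ 2) ^ 2 * (2 * T) ^ 2 * T := by gcongr
      _ = 4 * Cz ^ 2 * T ^ 3 * (1 + |t|) ^ 4 := by ring
      _ ≤ 4 * Cz ^ 2 * T ^ 5 * (1 + |t|) ^ 6 := by gcongr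
      _ ≤ T ^ 6 * (1 + |t|) ^ 6 := by gcongr
  have hGb : ∀ t, G t ≤ T ^ 6 * (1 + |t|) ^ 6 := fun t =>
    hpoly t _ (norm_nonneg _) (DA_le hδ0 hT1 t)
  have hfab : ∀ t, fa t ≤ T ^ 6 * (1 + |t|) ^ 6 := fun t =>
    hpoly t _ (norm_nonneg _) (by have := hSb t; linarith)
  have hPb : ∀ t, ‖P t‖ = fa t := by
    intro t
    simp only [hP, hfa]
    rw [norm_mul, norm_mul, norm_pow, norm_conj, norm_pow, norm_real, Real.norm_eq_abs,
      abs_of_nonneg (sq_nonneg _)]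
  have hGP : ∀ t, G t = 2 * fa t + 2 * (P t).re := fun t => ptid δ T t _
  have hiF : ∀ u v : ℝ, IntervalIntegrable Fz volume u v := fun u v => cF.intervalIntegrable u v
  have hiG : ∀ u v : ℝ, IntervalIntegrable G volume u v := fun u v => cG.intervalIntegrable u v
  have hiR : ∀ u v : ℝ, IntervalIntegrable R volume u v := fun u v => cR.intervalIntegrable u v
  have hifa : ∀ u v : ℝ, IntervalIntegrable fa volume u v := fun u v =>
    cfa.intervalIntegrable u v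
  -- Gaussian means
  have hEG : ∀ τ : ℝ, EG (K3.Td δ T) τ G =
      2 * EG (K3.Td δ T) τ fa + 2 * (EG (K3.Td δ T) τ P).re := by
    intro τ
    have i1 : Integrable fa (gaussianReal τ (VV (K3.Td δ T))) :=
      integrable_of_poly τ _ cfa.aestronglyMeasurable (C := T ^ 6) (m := 6) fun t => by
        rw [Real.norm_eq_abs, abs_of_nonneg (hfa0 t)]; exact hfab t
    have i2 : Integrable P (gaussianReal τ (VV (K3.Td δ T))) :=
      integrable_of_poly τ _ cP.aestronglyMeasurable (C := T ^ 6) (m := 6) fun t => by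
        rw [hPb]; exact hfab t
    have i3 : Integrable (fun t => (P t).re) (gaussianReal τ (VV (K3.Td δ T))) := i2.re
    have e0 : G = fun t => 2 * fa t + 2 * (P t).re := funext hGP
    have e7 : ∫ t, (P t).re ∂(gaussianReal τ (VV (K3.Td δ T))) =
        (∫ t, P t ∂(gaussianReal τ (VV (K3.Td δ T)))).re := reCLM.integral_comp_comm i2
    rw [EG, EG, EG, ← e7, e0, integral_add (i1.const_mul 2) (i3.const_mul 2),
      integral_const_mul, integral_const_mul]
  obtain ⟨hS10, hS11⟩ := hS1 T hTa1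
  obtain ⟨hS20, hS21⟩ := hS2 T hTa2
  set s : ℝ := T / L with hs_def
  have hs0 : 0 < s := by positivity
  have hsρ : 2 * s ≤ ρ * T := by
    have h3 : T * (1 / L) ≤ T * (ρ / 2) := mul_le_mul_of_nonneg_left e1 hT0.le
    rw [hs_def, div_eq_mul_one_div]
    linarith
  set a : ℝ := 2 * ρ * T - s with ha
  set b : ℝ := T + s with hb'
  have hρT : 0 < ρ * T := by positivity
  have hρT4 : ρ * T ≤ T / 4 := by
    have := mul_le_mul_of_nonneg_right hρ1 hT0.le
    linarith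
  have ha0 : 0 ≤ a := by rw [ha]; linarith
  have hab : a ≤ b := by rw [ha, hb']; linarith
  have hb2 : b ≤ 2 * T := by rw [hb']; linarith
  obtain ⟨jG, -, kG⟩ := e5 G cG hG0 hGb a b ha0 hab hb2
  obtain ⟨jf, kf, -⟩ := e5 fa cfa hfa0 hfab a b ha0 hab hb2
  have ea : a + s = 2 * ρ * T := by rw [ha]; ring
  have eb : b - s = T := by rw [hb']; ring
  rw [ea, eb] at kG
  have kG' := kG (by linarith)
  -- the diagonal part
  have kfa : ∫ τ in a..b, EG (K3.Td δ T) τ fa ≤ T * (K4 * S1 δ T + e * K) + 1 := by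
    have h5 : ∫ t in (a - s)..(b + s), fa t ≤ ∫ t in (ρ * T)..((1 + ρ) * T), fa t := by
      refine intervalIntegral.integral_mono_interval ?_ ?_ ?_
        (Filter.Eventually.of_forall fun t => hfa0 t) (hifa _ _)
      · rw [ha]; linarith
      · rw [ha, hb']; linarith
      · rw [hb']; linarith
    have h6 := hTs T hTas k hks hk2
    rw [show 1 + ρ - ρ = 1 by ring, one_mul] at h6
    linarith
  -- the cross part
  have kP : ∀ τ ∈ Set.Icc a b, (EG (K3.Td δ T) τ P).re ≤ K4 * S2 δ T + e * K := by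
    intro τ hτ
    have hτ0 : 0 ≤ τ := ha0.trans hτ.1
    have h5 := hTp T hTap k hkp τ (by rw [abs_of_nonneg hτ0]; rw [ha] at hτ; linarith [hτ.1])
      (by rw [abs_of_nonneg hτ0]; rw [hb'] at hτ; linarith [hτ.2])
    have h6 := (abs_re_le_norm _).trans h5
    rw [sub_re, ofReal_re] at h6
    have h7 := (abs_le.mp h6).2
    linarith
  have hcross : ∫ τ in a..b, EG (K3.Td δ T) τ G ≤
      2 * (T * (K4 * S1 δ T + e * K) + 1) + 2 * T * (K4 * S2 δ T + e * K) := by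
    have h5 : ∫ τ in a..b, EG (K3.Td δ T) τ G ≤
        ∫ τ in a..b, (2 * EG (K3.Td δ T) τ fa + 2 * (K4 * S2 δ T + e * K)) := by
      refine intervalIntegral.integral_mono_on hab jG ((jf.const_mul 2).add (by simp))
        fun τ hτ => ?_
      rw [hEG τ]
      have := kP τ hτ
      linarith
    rw [intervalIntegral.integral_add (jf.const_mul 2) (by simp),
      intervalIntegral.integral_const_mul, intervalIntegral.integral_const, smul_eq_mul] at h5
    have h6 : 0 ≤ 2 * (K4 * S2 δ T + e * K) := by positivity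
    have h7 : b - a ≤ T := by rw [ha, hb']; linarith
    have h8 := mul_le_mul_of_nonneg_right h7 h6
    linarith
  -- the mean of G
  set c : ℝ := 1 / (2 * Real.pi ^ 2) with hc
  have hpi : 0 < Real.pi := Real.pi_pos
  have hc1 : c ≤ 1 / 18 := by
    have := Real.pi_gt_three
    rw [hc]
    apply one_div_le_one_div_of_le (by norm_num)
    have h3 : (3 : ℝ) ^ 2 ≤ Real.pi ^ 2 := by gcongr
    linarith
  have hc0 : 0 < c := by positivity
  have hSS : 2 * (K4 * S1 δ T) + 2 * (K4 * S2 δ T) ≤ (c + 4 * e) * K := by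
    have h5 : K4 * S1 δ T ≤ K4 * ((6 / Real.pi ^ 2 * (5 / 192) + e) * L ^ 4) := by gcongr
    have h6 : K4 * S2 δ T ≤ K4 * ((6 / Real.pi ^ 2 * (1 / 64) + e) * L ^ 4) := by gcongr
    have h7 : 2 * (K4 * ((6 / Real.pi ^ 2 * (5 / 192) + e) * L ^ 4)) +
        2 * (K4 * ((6 / Real.pi ^ 2 * (1 / 64) + e) * L ^ 4)) = (c + 4 * e) * (K4 * L ^ 4) := by
      rw [hc]
      field_simp
      ring
    rw [hKK] at h7
    linarith
  set g : ℝ := T⁻¹ * ∫ t in (2 * ρ * T)..T, G t with hg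
  have hg0 : 0 ≤ g := mul_nonneg (by positivity)
    (intervalIntegral.integral_nonneg (by linarith) fun t _ => hG0 t)
  have hTe : 2 / T ≤ e := by
    rw [div_le_iff₀ hT0]
    rw [div_le_iff₀ he0] at e6
    linarith
  have hg1 : (1 - e) * g ≤ (c + 9 * e) * K := by
    have h5 : (1 - 1 / T) * g ≤ (c + 8 * e) * K + 2 / T := by
      have h6 : (1 - 1 / T) * g = T⁻¹ * ((1 - 1 / T) * ∫ t in (2 * ρ * T)..T, G t) := by
        rw [hg]; ring
      rw [h6]
      refine (mul_le_mul_of_nonneg_left (kG'.trans hcross) (inv_nonneg.mpr hT0.le)).trans ?_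
      calc T⁻¹ * (2 * (T * (K4 * S1 δ T + e * K) + 1) + 2 * T * (K4 * S2 δ T + e * K))
        _ = (2 * (K4 * S1 δ T) + 2 * (K4 * S2 δ T)) + 4 * e * K + 2 / T := by
            field_simp
            ring
        _ ≤ (c + 4 * e) * K + 4 * e * K + 2 / T := by gcongr
        _ = _ := by ring
    have h6 : (1 - e) * g ≤ (1 - 1 / T) * g := by
      have h7 : 1 / T ≤ 2 / T := by gcongr; norm_num
      exact mul_le_mul_of_nonneg_right (by linarith) hg0
    have h8 : e * 1 ≤ e * K := mul_le_mul_of_nonneg_left hK1 he0.le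
    linarith
  have hg2 : (1 + e) * g ≤ (c + 10 * e) * K :=
    arith1 he0 he1 hc0 hc1 hg0 hK1 hg1
  -- the remainder
  have hRm : ∫ t in (2 * ρ * T)..T, R t ≤ T * (e ^ 2 / 2 * K) := by
    have hY : 0 < T ^ (1 - δ / 8) := Real.rpow_pos_of_pos hT0 _
    have h5 : ∀ X : ℝ, T ^ (1 - δ / 8) ≤ X → X ≤ T →
        ∫ t in X..(2 * X), R t ≤ X * (e ^ 2 / 2 * K) := by
      intro X hX1 hX2
      have := hTb T hTab k hkb hk2 X hX1 hX2
      calc ∫ t in X..(2 * X), R t ≤ e ^ 2 / 2 * X * K := this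
        _ = _ := by ring
    have h2n : (0 : ℝ) < 2 ^ n := by positivity
    have h6 := dyad cR (B := e ^ 2 / 2 * K) (by positivity) hY h5 n T (by linarith) (by
      rw [le_div_iff₀ h2n]
      calc T ^ (1 - δ / 8) * 2 ^ n ≤ T ^ (1 - δ / 8) * T ^ (δ / 8) := by gcongr
        _ = T := by rw [← Real.rpow_add hT0]; simp)
    have h7 : T / 2 ^ n ≤ 2 * ρ * T := by
      rw [div_le_iff₀ h2n]
      have h8 : (1 / 2 : ℝ) ^ n * 2 ^ n = 1 := by rw [← mul_pow]; norm_num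
      have h9 : (1 / 2 : ℝ) ^ n * 2 ^ n ≤ 2 * ρ * 2 ^ n := by gcongr
      rw [h8] at h9
      have h10 := mul_le_mul_of_nonneg_right h9 hT0.le
      linarith
    have h8 : ∫ t in (2 * ρ * T)..T, R t ≤ ∫ t in (T / 2 ^ n)..T, R t :=
      intervalIntegral.integral_mono_interval h7 (by linarith) le_rfl
        (Filter.Eventually.of_forall fun t => hR0 t) (hiR _ _)
    exact h8.trans h6
  -- the beginning
  have hB : ∫ t in (0 : ℝ)..(2 * ρ * T), Fz t ≤
      2 * ρ * T * (Real.exp (C * M) * K + T ^ (-κ)) + T ^ (1 - 1 / 2000 : ℝ) := by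
    have h5 := hcore (2 * ρ * T) (by positivity) (by
      have h6 : T ^ (1 : ℝ) ≤ T ^ (1 + 1 / 10000 : ℝ) :=
        Real.rpow_le_rpow_of_exponent_le hT1.le (by norm_num)
      rw [Real.rpow_one] at h6
      linarith)
    rw [Finset.prod_empty, mul_one] at h5
    exact h5
  have hsum : ∫ t in (0 : ℝ)..T, Fz t ≤ (∫ t in (0 : ℝ)..(2 * ρ * T), Fz t) +
      ((1 + e) * (∫ t in (2 * ρ * T)..T, G t) + (1 + 1 / e) * ∫ t in (2 * ρ * T)..T, R t) := by
    rw [← intervalIntegral.integral_add_adjacent_intervals (hiF 0 (2 * ρ * T))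
      (hiF (2 * ρ * T) T)]
    have h5 : ∫ t in (2 * ρ * T)..T, Fz t ≤
        ∫ t in (2 * ρ * T)..T, ((1 + e) * G t + (1 + 1 / e) * R t) :=
      intervalIntegral.integral_mono_on (by linarith) (hiF _ _)
        (((hiG _ _).const_mul _).add ((hiR _ _).const_mul _)) fun t _ => split he0 δ T t _
    rw [intervalIntegral.integral_add ((hiG _ _).const_mul _) ((hiR _ _).const_mul _),
      intervalIntegral.integral_const_mul, intervalIntegral.integral_const_mul] at h5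
    linarith
  have hTinv : T⁻¹ * T ^ (1 - 1 / 2000 : ℝ) = T ^ (-(1 / 2000) : ℝ) := by
    rw [← Real.rpow_neg_one, ← Real.rpow_add hT0]; norm_num
  have hTκ : T ^ (-κ) ≤ 1 := Real.rpow_le_one_of_one_le_of_nonpos hT1.le (by linarith)
  have p1 : T⁻¹ * ∫ t in (0 : ℝ)..(2 * ρ * T), Fz t ≤ 2 * e * K := by
    refine (mul_le_mul_of_nonneg_left hB (inv_nonneg.mpr hT0.le)).trans ?_
    calc T⁻¹ * (2 * ρ * T * (Real.exp (C * M) * K + T ^ (-κ)) + T ^ (1 - 1 / 2000 : ℝ))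
      _ = 2 * ρ * (Real.exp (C * M) * K + T ^ (-κ)) + T⁻¹ * T ^ (1 - 1 / 2000 : ℝ) := by
          field_simp
      _ ≤ 2 * ρ * (Real.exp (C * M) * K + 1 * K) + e * K := by
          rw [hTinv]
          have h5 : T ^ (-κ) ≤ 1 * K := by linarith
          have h7 : e * 1 ≤ e * K := mul_le_mul_of_nonneg_left hK1 he0.le
          have h6 : T ^ (-(1 / 2000) : ℝ) ≤ e * K := by linarith
          gcongr
      _ = (2 * ρ * (Real.exp (C * M) + 1)) * K + e * K := by ring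
      _ = 2 * e * K := by rw [hρe]; ring
  have p3 : (1 + 1 / e) * (T⁻¹ * ∫ t in (2 * ρ * T)..T, R t) ≤ e * K := by
    have h5 := mul_le_mul_of_nonneg_left (mul_le_mul_of_nonneg_left hRm (inv_nonneg.mpr hT0.le))
      (show 0 ≤ 1 + 1 / e by positivity)
    refine h5.trans ?_
    calc (1 + 1 / e) * (T⁻¹ * (T * (e ^ 2 / 2 * K)))
      _ = (e + 1) * e / 2 * K := by field_simp
      _ ≤ e * K := by
          have h6 : e * e ≤ e * 1 := mul_le_mul_of_nonneg_left (by linarith) he0.le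
          exact mul_le_mul_of_nonneg_right (by linarith) (by linarith)
  have hfin : T⁻¹ * ∫ t in (0 : ℝ)..T, Fz t ≤ (c + 13 * e) * K :=
    arith2 (inv_nonneg.mpr hT0.le) hsum p1 hg2 p3
  refine hfin.trans (mul_le_mul_of_nonneg_right (by linarith) (by linarith))

end K4
end Pool.Agent.Lib.MP_973905_nt
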