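import Pool.Agent.Lib.MP_973905_nt.K4.Stmts
import Pool.Agent.Lib.MP_973905_nt.F4.Three
import Pool.Agent.Lib.MP_973905_nt.F4.Twist
import Pool.Agent.Lib.MP_973905_nt.F4.Dy

/-! Sharp upper bound for the mean of `|ζ|² |A|² |N|²` by a Karamata argument. -/

namespace Pool.Agent.Lib.MP_973905_nt
namespace K4

open MeasureTheory ProbabilityTheory Complex Filter Topology K1 F4

namespace SharpA

open ThreeLines

lemma Pb_zero {δ x : ℝ} (h0 : 0 < δ) (hx : 1 / 2 - δ ≤ x) : Pb δ x = 0 := by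
  unfold Pb
  rw [Real.smoothTransition.zero_of_nonpos, zero_mul]
  apply div_nonpos_of_nonpos_of_nonneg _ h0.le
  linarith

lemma Pb_nonneg (δ x : ℝ) : 0 ≤ Pb δ x :=
  mul_nonneg (Real.smoothTransition.nonneg _) (Real.smoothTransition.nonneg _)

lemma cutK_fA {δ : ℝ} (h0 : 0 < δ) : CutK (fA δ) := by
  have hP : ∀ x, 1 / 2 ≤ x → fA δ x = 0 := fun x hx => by
    unfold fA
    rw [Pb_zero h0 (by linarith), mul_zero]
  refine ⟨⟨?_, fun x hx => hP x (by linarith), fun x hx => ?_⟩, fun x hx => hP x (by linarith)⟩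
  · unfold fA Pb
    refine Real.contDiff_exp.mul (ContDiff.mul ?_ ?_)
    · exact Real.smoothTransition.contDiff.comp ((contDiff_const.sub contDiff_id).div_const _)
    · exact Real.smoothTransition.contDiff.comp (contDiff_id.add contDiff_const)
  · unfold fA Pb
    rw [Real.smoothTransition.zero_of_nonpos (x := x + 2) (by linarith), mul_zero, mul_zero]

lemma qg_fA {δ T : ℝ} (hT : 1 < T) {n : ℕ} (hn : 1 ≤ n) :
    qg (fA δ) T 0 n = (Pb δ (Real.log n / Real.log T) : ℂ) := by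
  have hL : 0 < Real.log T := Real.log_pos hT
  have hn0 : (0 : ℝ) < n := by exact_mod_cast hn
  unfold qg fA
  have e1 : (-(((1 / Real.log T : ℝ) : ℂ) + ((0 : ℝ) : ℂ) * I)) = ((-(1 / Real.log T) : ℝ) : ℂ) := by
    push_cast; ring
  rw [e1]
  have e2 : ((n : ℂ) ^ ((-(1 / Real.log T) : ℝ) : ℂ)) =
      ((Real.exp (-(Real.log n / Real.log T)) : ℝ) : ℂ) := by
    have e3 : (n : ℂ) = ((n : ℝ) : ℂ) := by norm_cast
    rw [e3, ← ofReal_cpow hn0.le, Real.rpow_def_of_pos hn0]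
    congr 2
    ring
  rw [e2, ← ofReal_mul]
  congr 1
  rw [mul_comm (Real.exp _) (Pb _ _), mul_assoc, ← Real.exp_add]
  simp

lemma SH_eq {δ T : ℝ} (hT : 1 < T) (f : ℕ → ℂ) :
    ∑ n ∈ Finset.Icc 1 ⌊T⌋₊, qg (fA δ) T 0 n * f n = SH δ T f := by
  unfold SH
  refine Finset.sum_congr rfl fun n hn => ?_
  rw [qg_fA hT (Finset.mem_Icc.mp hn).1]

/-- the main term `S1` is nonnegative -/
lemma S1_nonneg {δ T : ℝ} (hδ : 0 < δ) (hT : 1 < T) : 0 ≤ S1 δ T := by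
  have hL : 0 < Real.log T := Real.log_pos hT
  refine Finset.sum_nonneg fun m hm => Finset.sum_nonneg fun n hn => ?_
  have hm1 := (Finset.mem_Icc.mp hm).1
  have hn1 := (Finset.mem_Icc.mp hn).1
  by_cases h1 : 1 / 2 - δ ≤ Real.log m / Real.log T
  · rw [Pb_zero hδ h1]; simp
  by_cases h2 : 1 / 2 - δ ≤ Real.log n / Real.log T
  · rw [Pb_zero hδ h2]; simp
  push Not at h1 h2
  rw [div_lt_iff₀ hL] at h1 h2
  have hlog : ∀ a b : ℕ, 1 ≤ a → 1 ≤ b → Real.log (a / a.gcd b : ℕ) ≤ Real.log a := by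
    intro a b ha hb
    have hg : 0 < a.gcd b := Nat.gcd_pos_of_pos_left _ ha
    have h3 : 1 ≤ a / a.gcd b := by
      rw [Nat.one_le_div_iff hg]
      exact Nat.le_of_dvd ha (Nat.gcd_dvd_left _ _)
    apply Real.log_le_log
    · exact_mod_cast h3
    · exact_mod_cast Nat.div_le_self _ _
  have h4 := hlog m n hm1 hn1
  have h5 := hlog n m hn1 hm1
  rw [Nat.gcd_comm n m] at h5
  have h6 : 0 ≤ Real.log T - Real.log (m / m.gcd n : ℕ) - Real.log (n / m.gcd n : ℕ) := by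
    nlinarith
  have := Pb_nonneg δ (Real.log m / Real.log T)
  have := Pb_nonneg δ (Real.log n / Real.log T)
  positivity

lemma Mt_circ {X : ℝ} (hX : 0 < X) (N : ℕ) (b : ℕ → ℂ) {r : ℝ} (hr0 : 0 < r) (hr1 : r < 5 / 8) :
    CircleIntegrable (Mt X 12 N b) 0 r := by
  have hpi := Real.pi_pos
  have hH := Three.HM4_diff (Y := X / (2 * Real.pi)) (by positivity) (RF_diff N b)
    (c := 12) (by norm_num)
  have hsub : Metric.sphere (0 : ℂ) |r| ⊆ {a : ℂ | |a.re| < 5 / 8} := by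
    intro z hz
    rw [mem_sphere_zero_iff_norm, abs_of_pos hr0] at hz
    show |z.re| < 5 / 8
    have := Complex.abs_re_le_norm z
    linarith
  have hsph : ∀ z : ℂ, z ∈ Metric.sphere (0 : ℂ) |r| → z ≠ 0 := by
    intro z hz h0
    rw [h0, abs_of_pos hr0] at hz
    simp at hz
    linarith
  apply ContinuousOn.circleIntegrable'
  have h1 : ContinuousOn (fun a => Three.HM4 (X / (2 * Real.pi)) (RF N b) 12 a / a)
      (Metric.sphere (0 : ℂ) |r|) :=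
    ContinuousOn.div (hH.mono hsub).continuousOn continuousOn_id fun z hz => hsph z hz
  refine h1.congr fun z hz => ?_
  have hz0 := hsph z hz
  simp only
  rw [Three.Mt_eq _ _ _ _ hz0]
  field_simp

/-- the integral of the majorant is nonnegative -/
lemma kar_nonneg {n : ℕ} {α : ℕ → ℝ}
    (h : ∀ u : ℝ, 0 < u → 0 ≤ ∑ j ∈ Finset.Icc 1 n, α j * (u ^ 11 * Real.exp (-(j * u)))) :
    0 ≤ ∑ j ∈ Finset.Icc 1 n, α j * ((Nat.factorial 11 : ℕ) / (j : ℝ) ^ 12) := by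
  have key : ∀ j ∈ Finset.Icc 1 n, IntegrableOn (fun u : ℝ => u ^ 11 * Real.exp (-(j * u)))
      (Set.Ioi 0) ∧ ∫ u in Set.Ioi (0 : ℝ), u ^ 11 * Real.exp (-(j * u)) =
        (Nat.factorial 11 : ℕ) / (j : ℝ) ^ 12 := by
    intro j hj
    have hj0 : (0 : ℝ) < j := by exact_mod_cast (Finset.mem_Icc.mp hj).1
    have e : Set.EqOn (fun u : ℝ => u ^ ((12 : ℝ) - 1) * Real.exp (-(j * u)))
        (fun u : ℝ => u ^ 11 * Real.exp (-(j * u))) (Set.Ioi 0) := by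
      intro u hu
      simp only
      congr 1
      rw [show (12 : ℝ) - 1 = ((11 : ℕ) : ℝ) by norm_num, Real.rpow_natCast]
    constructor
    · have h1 := integrableOn_rpow_mul_exp_neg_mul_rpow (s := 11) (p := 1) (b := j)
        (by norm_num) (by norm_num) hj0
      refine h1.congr_fun (fun u hu => ?_) measurableSet_Ioi
      simp only
      rw [Real.rpow_one, show (11 : ℝ) = ((11 : ℕ) : ℝ) by norm_num, Real.rpow_natCast]
      congr 2
      ring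
    · rw [← setIntegral_congr_fun measurableSet_Ioi e,
        Real.integral_rpow_mul_exp_neg_mul_Ioi (by norm_num) hj0]
      rw [show (12 : ℝ) = ((11 : ℕ) : ℝ) + 1 by norm_num, Real.Gamma_nat_eq_factorial]
      rw [show ((11 : ℕ) : ℝ) + 1 = ((12 : ℕ) : ℝ) by norm_num, Real.rpow_natCast]
      rw [one_div, inv_pow]
      ring
  have h2 : ∑ j ∈ Finset.Icc 1 n, α j * ((Nat.factorial 11 : ℕ) / (j : ℝ) ^ 12) =
      ∫ u in Set.Ioi (0 : ℝ), ∑ j ∈ Finset.Icc 1 n, α j * (u ^ 11 * Real.exp (-(j * u))) := by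
    rw [integral_finsetSum _ fun j hj => ((key j hj).1.const_mul _)]
    refine Finset.sum_congr rfl fun j hj => ?_
    rw [integral_const_mul, (key j hj).2]
  rw [h2]
  exact setIntegral_nonneg measurableSet_Ioi fun u hu => h u hu

/-- constants on the small circle -/
lemma circ_const : ∃ G Cz L₀ : ℝ, 0 < G ∧ 0 < Cz ∧ 4 ≤ L₀ ∧ ∀ T : ℝ, 0 < T → L₀ ≤ Real.log T →
    ∀ a : ℂ, ‖a‖ = 1 / Real.log T →
    ‖riemannZeta (1 + 2 * a)‖ ≤ Cz * Real.log T ∧ ‖riemannZeta (1 - 2 * a)‖ ≤ Cz * Real.log T ∧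
    ‖Gamma 12‖ ≤ G ∧ ‖Gamma (12 - 2 * a)‖ ≤ G ∧
    ‖((T / (2 * Real.pi) : ℝ) : ℂ) ^ (-(2 * a))‖ ≤ Real.exp 2 := by
  obtain ⟨Cz, L₀, hCz, hL₀, hz⟩ := Twist.zeta_circle
  obtain ⟨G, hG, hG1⟩ := Twist.Gamma_bdd (c := 12) (by norm_num)
  refine ⟨G, Cz, L₀, hG, hCz, hL₀, fun T hTpos hL a ha => ?_⟩
  obtain ⟨z1, z2⟩ := hz (Real.log T) hL a ha
  have hL4 : 4 ≤ Real.log T := hL₀.trans hL
  have hL0 : 0 < Real.log T := by linarith
  have hpi := Real.pi_gt_three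
  have hpi4 := Real.pi_lt_four
  have hT8 : 8 ≤ T := by
    have h1 := Real.add_one_le_exp (Real.log T)
    rw [Real.exp_log hTpos] at h1
    have h2 : Real.exp 4 ≤ T := by
      rw [← Real.exp_log hTpos]; exact Real.exp_le_exp.mpr hL4
    have h3 : (8 : ℝ) ≤ Real.exp 4 := by
      have h4 := Real.add_one_le_exp (1 : ℝ)
      have : Real.exp 4 = Real.exp 1 ^ 4 := by rw [← Real.exp_nat_mul]; norm_num
      rw [this]
      calc (8 : ℝ) ≤ 2 ^ 4 := by norm_num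
        _ ≤ _ := by gcongr; linarith
    linarith
  have hre : |a.re| ≤ 1 / Real.log T := ha ▸ Complex.abs_re_le_norm a
  have hr : 1 / Real.log T ≤ 1 / 4 := one_div_le_one_div_of_le (by norm_num) hL4
  refine ⟨z1, z2, by simpa using hG1 0 (by norm_num), hG1 a (by linarith), ?_⟩
  have hY1 : 1 ≤ T / (2 * Real.pi) := by
    rw [le_div_iff₀ (by positivity)]; linarith
  have hY0 : 0 < T / (2 * Real.pi) := by linarith
  rw [ThreeLines.norm_X_cpow hY0]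
  calc (T / (2 * Real.pi)) ^ (-(2 * a.re)) ≤ (T / (2 * Real.pi)) ^ (2 * (1 / Real.log T)) := by
        apply Real.rpow_le_rpow_of_exponent_le hY1
        have := (abs_le.mp hre).1
        linarith
    _ ≤ T ^ (2 * (1 / Real.log T)) := by
        apply Real.rpow_le_rpow hY0.le _ (by positivity)
        apply div_le_self hTpos.le
        linarith
    _ = Real.exp 2 := by
        rw [Real.rpow_def_of_pos hTpos]
        congr 1
        field_simp

lemma Mt_lin {G Cz E L : ℝ} (hG : 0 ≤ G) (hCz : 0 ≤ Cz) (hE : 0 ≤ E) (hL : 0 ≤ L) {T : ℝ} {a : ℂ}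
    (z1 : ‖riemannZeta (1 + 2 * a)‖ ≤ Cz * L) (z2 : ‖riemannZeta (1 - 2 * a)‖ ≤ Cz * L)
    (g1 : ‖Gamma 12‖ ≤ G) (g2 : ‖Gamma (12 - 2 * a)‖ ≤ G)
    (y1 : ‖((T / (2 * Real.pi) : ℝ) : ℂ) ^ (-(2 * a))‖ ≤ E) {N : ℕ} {c c' : ℕ → ℂ} {l : ℂ} {R : ℝ}
    (h1 : ‖RF N c a - l * RF N c' a‖ ≤ R) (h2 : ‖RF N c (-a) - l * RF N c' (-a)‖ ≤ R) :
    ‖Mt T 12 N c a - l * Mt T 12 N c' a‖ ≤ (G * Cz + E * (G * Cz)) * L * R := by
  have hR : 0 ≤ R := (norm_nonneg _).trans h1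
  have e : Mt T 12 N c a - l * Mt T 12 N c' a =
      Gamma 12 * (riemannZeta (1 + 2 * a) * (RF N c a - l * RF N c' a)) +
      ((T / (2 * Real.pi) : ℝ) : ℂ) ^ (-(2 * a)) * (Gamma (12 - 2 * a) *
        (riemannZeta (1 - 2 * a) * (RF N c (-a) - l * RF N c' (-a)))) := by
    rw [Mt, Mt]; ring
  rw [e]
  calc _ ≤ G * (Cz * L * R) + E * (G * (Cz * L * R)) := by
        refine (norm_add_le _ _).trans (add_le_add ?_ ?_)
        · rw [norm_mul, norm_mul]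
          gcongr
        · rw [norm_mul, norm_mul, norm_mul]
          gcongr
    _ = _ := by ring

lemma Mt_bd {G Cz E L : ℝ} (hG : 0 ≤ G) (hCz : 0 ≤ Cz) (hE : 0 ≤ E) (hL : 0 ≤ L) {T : ℝ} {a : ℂ}
    (z1 : ‖riemannZeta (1 + 2 * a)‖ ≤ Cz * L) (z2 : ‖riemannZeta (1 - 2 * a)‖ ≤ Cz * L)
    (g1 : ‖Gamma 12‖ ≤ G) (g2 : ‖Gamma (12 - 2 * a)‖ ≤ G)
    (y1 : ‖((T / (2 * Real.pi) : ℝ) : ℂ) ^ (-(2 * a))‖ ≤ E) {N : ℕ} {c : ℕ → ℂ} {R : ℝ}
    (h1 : ‖RF N c a‖ ≤ R) (h2 : ‖RF N c (-a)‖ ≤ R) :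
    ‖Mt T 12 N c a‖ ≤ (G * Cz + E * (G * Cz)) * L * R := by
  have := Mt_lin hG hCz hE hL z1 z2 g1 g2 y1 (N := N) (c := c) (c' := c) (l := 0) (R := R)
    (by simpa using h1) (by simpa using h2)
  simpa using this

lemma Mt_shift {G Cz E L : ℝ} (hG : 0 ≤ G) (hCz : 0 ≤ Cz) (hE : 0 ≤ E) (hL : 0 < L) {T : ℝ}
    (hT : 0 < T) {a : ℂ} (ha : ‖a‖ = 1 / L) (z2 : ‖riemannZeta (1 - 2 * a)‖ ≤ Cz * L)
    (g2 : ‖Gamma (12 - 2 * a)‖ ≤ G)
    (y1 : ‖((T / (2 * Real.pi) : ℝ) : ℂ) ^ (-(2 * a))‖ ≤ E) {N : ℕ} {c : ℕ → ℂ} {R : ℝ}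
    (h2 : ‖RF N c (-a)‖ ≤ R) {j : ℕ} (hj : 1 ≤ j) (hjL : 2 * Real.log j ≤ L) :
    ‖Mt (T / j) 12 N c a - Mt T 12 N c a‖ ≤ 4 * E * G * Cz * Real.log j * R := by
  have hR : 0 ≤ R := (norm_nonneg _).trans h2
  have hpi := Real.pi_pos
  have hj0 : (0 : ℝ) < j := by exact_mod_cast hj
  have hlj : 0 ≤ Real.log j := Real.log_nonneg (by exact_mod_cast hj)
  have e0 : ((T / j / (2 * Real.pi) : ℝ) : ℂ) ^ (-(2 * a)) =
      ((T / (2 * Real.pi) : ℝ) : ℂ) ^ (-(2 * a)) * cexp (2 * a * (Real.log j : ℝ)) := by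
    have e1 : (T / j / (2 * Real.pi) : ℝ) = T / (2 * Real.pi) * (j : ℝ)⁻¹ := by
      field_simp
    rw [e1, ofReal_mul, mul_cpow_ofReal_nonneg (by positivity) (by positivity)]
    congr 1
    rw [cpow_def_of_ne_zero (by exact_mod_cast (inv_pos.mpr hj0).ne'), ← ofReal_log (by positivity),
      Real.log_inv]
    congr 1
    push_cast
    ring
  have e : Mt (T / j) 12 N c a - Mt T 12 N c a =
      ((T / (2 * Real.pi) : ℝ) : ℂ) ^ (-(2 * a)) * ((cexp (2 * a * (Real.log j : ℝ)) - 1) *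
        (Gamma (12 - 2 * a) * (riemannZeta (1 - 2 * a) * RF N c (-a)))) := by
    rw [Mt, Mt, e0]; ring
  have hn : ‖2 * a * (Real.log j : ℝ)‖ = 2 * Real.log j / L := by
    rw [norm_mul, norm_mul, ha, Complex.norm_real, Real.norm_of_nonneg hlj]
    simp only [Complex.norm_ofNat]
    ring
  have h3 : ‖cexp (2 * a * (Real.log j : ℝ)) - 1‖ ≤ 4 * Real.log j / L := by
    refine (Complex.norm_exp_sub_one_le ?_).trans ?_
    · rw [hn, div_le_one hL]; exact hjL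
    · rw [hn]; apply le_of_eq; ring
  rw [e, norm_mul, norm_mul, norm_mul, norm_mul]
  calc _ ≤ E * ((4 * Real.log j / L) * (G * (Cz * L * R))) := by gcongr
    _ = _ := by field_simp

lemma Wr_eq {T : ℝ} (hT : 0 < T) {j : ℕ} (hj : 1 ≤ j) (t : ℝ) :
    (t / T) ^ 11 * Real.exp (-(j * (t / T))) = T / (j : ℝ) ^ 12 * Wr (T / j) t := by
  have hj0 : (0 : ℝ) < j := by exact_mod_cast hj
  unfold Wr
  have e1 : t / (T / j) = j * (t / T) := by field_simp
  rw [e1, mul_pow]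
  field_simp

lemma kar_int {f : ℝ → ℝ} (hf : Continuous f) (hf0 : ∀ t, 0 ≤ f t) {T u₀ u₁ : ℝ} (hT : 0 < T)
    (hu0 : 0 < u₀) (hu : u₀ < u₁) {n : ℕ} {α : ℕ → ℝ}
    (h0 : ∀ u : ℝ, 0 < u → 0 ≤ ∑ j ∈ Finset.Icc 1 n, α j * (u ^ 11 * Real.exp (-(j * u))))
    (h1 : ∀ u : ℝ, u₀ ≤ u → u ≤ u₁ →
      1 ≤ ∑ j ∈ Finset.Icc 1 n, α j * (u ^ 11 * Real.exp (-(j * u))))
    (hi : ∀ j ∈ Finset.Icc 1 n, IntegrableOn (fun t => f t * Wr (T / j) t) (Set.Ioi 0)) :
    ∫ t in (u₀ * T)..(u₁ * T), f t ≤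
      ∑ j ∈ Finset.Icc 1 n, α j * (T / (j : ℝ) ^ 12 *
        ∫ t in Set.Ioi (0 : ℝ), f t * Wr (T / j) t) := by
  set p : ℝ → ℝ := fun t => ∑ j ∈ Finset.Icc 1 n, α j * ((t / T) ^ 11 * Real.exp (-(j * (t / T))))
    with hp
  have hpc : Continuous p := by
    rw [hp]
    fun_prop
  have hfp : ∀ t, f t * p t =
      ∑ j ∈ Finset.Icc 1 n, α j * (T / (j : ℝ) ^ 12) * (f t * Wr (T / j) t) := by
    intro t
    rw [hp]
    simp only
    rw [Finset.mul_sum]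
    refine Finset.sum_congr rfl fun j hj => ?_
    rw [Wr_eq hT (Finset.mem_Icc.mp hj).1]
    ring
  have hfi : IntegrableOn (fun t => f t * p t) (Set.Ioi 0) := by
    simp only [hfp]
    exact integrable_finsetSum _ fun j hj => (hi j hj).const_mul _
  have hle : u₀ * T ≤ u₁ * T := by gcongr
  have hsub : Set.Ioc (u₀ * T) (u₁ * T) ⊆ Set.Ioi 0 := fun t ht => by
    have : 0 < u₀ * T := by positivity
    exact this.trans ht.1
  have hval : ∫ t in Set.Ioi (0 : ℝ), f t * p t = ∑ j ∈ Finset.Icc 1 n, α j * (T / (j : ℝ) ^ 12 *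
        ∫ t in Set.Ioi (0 : ℝ), f t * Wr (T / j) t) := by
    simp only [hfp]
    rw [integral_finsetSum _ fun j hj => ((hi j hj).const_mul _)]
    refine Finset.sum_congr rfl fun j hj => ?_
    rw [integral_const_mul]
    ring
  rw [← hval, intervalIntegral.integral_of_le hle]
  calc ∫ t in Set.Ioc (u₀ * T) (u₁ * T), f t
      ≤ ∫ t in Set.Ioc (u₀ * T) (u₁ * T), f t * p t := by
        refine setIntegral_mono_on hf.integrableOn_Ioc (hfi.mono_set hsub) measurableSet_Ioc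
          fun t ht => ?_
        have h2 : 1 ≤ p t := h1 (t / T) (by rw [le_div_iff₀ hT]; exact ht.1.le)
          (by rw [div_le_iff₀ hT]; exact ht.2)
        nlinarith [hf0 t]
    _ ≤ ∫ t in Set.Ioi (0 : ℝ), f t * p t := by
        refine setIntegral_mono_set hfi ?_ (Filter.Eventually.of_forall hsub)
        refine (ae_restrict_iff' measurableSet_Ioi).mpr (Filter.Eventually.of_forall fun t ht => ?_)
        exact mul_nonneg (hf0 t) (h0 (t / T) (div_pos ht hT))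

/-- the numerical end of the argument -/
lemma finish {n : ℕ} {α I : ℕ → ℝ} {T D err U S P e1 e2 F : ℝ} (hT : 0 < T) (hF : 1 ≤ F)
    (herr : 0 ≤ err) (hI : ∀ j ∈ Finset.Icc 1 n, |I j - D| ≤ err)
    (hs0 : 0 ≤ ∑ j ∈ Finset.Icc 1 n, α j * (F / (j : ℝ) ^ 12))
    (hs1 : ∑ j ∈ Finset.Icc 1 n, α j * (F / (j : ℝ) ^ 12) ≤ U + e1)
    (hU0 : 0 ≤ U) (hU2 : U ≤ 2) (he1 : 0 ≤ e1) (hS : 0 ≤ S) (he2 : 0 ≤ e2) (hP : 0 ≤ P)
    (hD1 : D ≤ F * S + e2) (hD2 : D ≤ P) :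
    ∑ j ∈ Finset.Icc 1 n, α j * (T / (j : ℝ) ^ 12 * I j) ≤
      T * (U * S + 2 * e2 + e1 * P + (∑ j ∈ Finset.Icc 1 n, |α j|) * err) := by
  have hF0 : 0 < F := by linarith
  set s := ∑ j ∈ Finset.Icc 1 n, α j * (F / (j : ℝ) ^ 12) with hs
  have h1 : ∑ j ∈ Finset.Icc 1 n, α j * (T / (j : ℝ) ^ 12 * I j) ≤
      ∑ j ∈ Finset.Icc 1 n, (α j * (T / (j : ℝ) ^ 12 * D) + T * (|α j| * err)) := by
    refine Finset.sum_le_sum fun j hj => ?_
    have hj1 : (1 : ℝ) ≤ j := by exact_mod_cast (Finset.mem_Icc.mp hj).1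
    have h2 : α j * (T / (j : ℝ) ^ 12 * I j) = α j * (T / (j : ℝ) ^ 12 * D) +
        T / (j : ℝ) ^ 12 * (α j * (I j - D)) := by ring
    rw [h2]
    have h3 : α j * (I j - D) ≤ |α j| * err := by
      refine (le_abs_self _).trans ?_
      rw [abs_mul]
      exact mul_le_mul_of_nonneg_left (hI j hj) (abs_nonneg _)
    have h4 : T / (j : ℝ) ^ 12 ≤ T := div_le_self hT.le (one_le_pow₀ hj1)
    have h5 : 0 ≤ |α j| * err := mul_nonneg (abs_nonneg _) herr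
    have h6 : T / (j : ℝ) ^ 12 * (α j * (I j - D)) ≤ T / (j : ℝ) ^ 12 * (|α j| * err) := by
      gcongr
    have h7 : T / (j : ℝ) ^ 12 * (|α j| * err) ≤ T * (|α j| * err) := by gcongr
    linarith
  refine h1.trans ?_
  rw [Finset.sum_add_distrib, ← Finset.mul_sum, ← Finset.sum_mul]
  have h8 : ∑ j ∈ Finset.Icc 1 n, α j * (T / (j : ℝ) ^ 12 * D) = T * (s * (D / F)) := by
    rw [hs, Finset.sum_mul, Finset.mul_sum]
    refine Finset.sum_congr rfl fun j _ => ?_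
    field_simp
  rw [h8]
  set m := max (D / F) 0 with hm
  have hm0 : 0 ≤ m := le_max_right _ _
  have h9 : s * (D / F) ≤ s * m := by gcongr; exact le_max_left _ _
  have h10 : s * m ≤ (U + e1) * m := by gcongr
  have h11 : m ≤ S + e2 := by
    apply max_le
    · rw [div_le_iff₀ hF0]
      nlinarith
    · positivity
  have h12 : m ≤ P := by
    apply max_le _ hP
    rw [div_le_iff₀ hF0]
    nlinarith
  have h13 : U * m ≤ U * S + 2 * e2 := by
    have : U * m ≤ U * (S + e2) := by gcongr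
    nlinarith
  have h14 : e1 * m ≤ e1 * P := by gcongr
  have h15 : s * (D / F) ≤ U * S + 2 * e2 + e1 * P := by
    calc s * (D / F) ≤ s * m := h9
      _ ≤ (U + e1) * m := h10
      _ = U * m + e1 * m := by ring
      _ ≤ _ := by linarith
  have h16 := mul_le_mul_of_nonneg_left h15 hT.le
  calc _ ≤ T * (U * S + 2 * e2 + e1 * P) + T * ((∑ j ∈ Finset.Icc 1 n, |α j|) * err) := by
        gcongr
    _ = _ := by ring

end SharpA

open SharpA ThreeLines in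
theorem stSharpA (hc : StCoG) (hj : StJG) (hm : StMainC) (hr : StRed) (h4 : StCirc) (hk : StKar) :
    StSharpA := by
  intro δ η hδ hδ2 hη
  have hφ := cutK_fA hδ
  obtain ⟨Cj, hCj, Tj, hTj3, hj⟩ := hj (fA δ) hφ
  obtain ⟨Cm, hm⟩ := hm
  obtain ⟨Mm, hm⟩ := hm (fA δ) hφ
  obtain ⟨C4, hC4, h4⟩ := h4
  obtain ⟨T4, hT43, h4⟩ := h4 δ hδ hδ2
  obtain ⟨Tc, hTc3, hc⟩ := hc (fA δ) hφ
  obtain ⟨G, Cz, L₀, hG, hCz, hL₀, hcc⟩ := circ_const
  set E : ℝ := Real.exp 2 with hE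
  have hE0 : 0 < E := Real.exp_pos _
  set V : ℝ := G * Cz + E * (G * Cz) with hV
  have hV0 : 0 < V := by positivity
  obtain ⟨Mr, hr⟩ := hr (fA δ) hφ (η / (8 * V)) (by positivity)
  obtain ⟨Md, hdp⟩ := dp_AA2 (ε := 1 / 1000) (by norm_num)
  refine ⟨max (max Mm Mr) Md, fun M hM => ?_⟩
  obtain ⟨Tm, hTm3, hm⟩ := hm M (((le_max_left _ _).trans (le_max_left _ _)).trans hM)
  obtain ⟨κ₁, hκ0, hκ1, Tr, hTr3, hr⟩ :=
    hr M (((le_max_right _ _).trans (le_max_left _ _)).trans hM)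
  obtain ⟨Td, hdp⟩ := hdp M ((le_max_right _ _).trans hM)
  refine ⟨κ₁, hκ0, hκ1, fun u₀ u₁ hu0 hu hu1 => ?_⟩
  set W : ℝ := Real.exp (Cm * M) with hW
  have hW0 : 0 < W := Real.exp_pos _
  obtain ⟨n, α, hα0, hα1, hαs⟩ := hk u₀ u₁ (η / (4 * (V * W))) hu0 hu (by positivity)
  set A : ℝ := ∑ j ∈ Finset.Icc 1 n, |α j| with hA
  have hA0 : 0 ≤ A := Finset.sum_nonneg fun _ _ => abs_nonneg _
  set Q : ℝ := 4 * E * G * Cz * Real.log (n + 1) * W with hQ
  have hln : 0 ≤ Real.log ((n : ℝ) + 1) := Real.log_nonneg (by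
    have : (0 : ℝ) ≤ n := Nat.cast_nonneg n
    linarith)
  have hQ0 : 0 ≤ Q := by positivity
  -- thresholds
  have ev1 : ∀ᶠ T : ℝ in atTop, max (max L₀ (2 * Real.log (n + 1)))
      ((2 * C4 + A * Q) * (4 / η)) ≤ Real.log T :=
    Real.tendsto_log_atTop.eventually_ge_atTop _
  have ev2 : ∀ᶠ T : ℝ in atTop, (n : ℝ) + 1 ≤ T ^ (1 / 1000 : ℝ) :=
    (tendsto_rpow_atTop (by norm_num)).eventually_ge_atTop _
  have ev3 : ∀ᶠ T : ℝ in atTop, A * Cj * (4 / η) + 1 ≤ T ^ (1 / 200 : ℝ) :=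
    (tendsto_rpow_atTop (by norm_num)).eventually_ge_atTop _
  obtain ⟨T₁, hT₁⟩ := eventually_atTop.mp (ev1.and (ev2.and ev3))
  refine ⟨max (max (max Tj T4) (max Tc Tm)) (max (max Tr Td) T₁),
    hTj3.trans (((le_max_left _ _).trans (le_max_left _ _)).trans (le_max_left _ _)),
    fun T hT k hk1 hk2 => ?_⟩
  have hTj : Tj ≤ T :=
    (((le_max_left _ _).trans (le_max_left _ _)).trans (le_max_left _ _)).trans hT
  have hT4 : T4 ≤ T :=
    (((le_max_right _ _).trans (le_max_left _ _)).trans (le_max_left _ _)).trans hT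
  have hTc : Tc ≤ T :=
    (((le_max_left _ _).trans (le_max_right _ _)).trans (le_max_left _ _)).trans hT
  have hTm : Tm ≤ T :=
    (((le_max_right _ _).trans (le_max_right _ _)).trans (le_max_left _ _)).trans hT
  have hTr : Tr ≤ T :=
    (((le_max_left _ _).trans (le_max_left _ _)).trans (le_max_right _ _)).trans hT
  have hTd : Td ≤ T :=
    (((le_max_right _ _).trans (le_max_left _ _)).trans (le_max_right _ _)).trans hT
  have hTT1 : T₁ ≤ T := ((le_max_right _ _).trans (le_max_right _ _)).trans hT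
  obtain ⟨e1, e2, e3⟩ := hT₁ T hTT1
  have hT3 : 3 ≤ T := hTj3.trans hTj
  have hT0 : 0 < T := by linarith
  have hT1 : 1 < T := by linarith
  set L : ℝ := Real.log T with hL
  have hLL0 : L₀ ≤ L := ((le_max_left _ _).trans (le_max_left _ _)).trans e1
  have hLn : 2 * Real.log (n + 1) ≤ L := ((le_max_right _ _).trans (le_max_left _ _)).trans e1
  have hLQ : (2 * C4 + A * Q) * (4 / η) ≤ L := (le_max_right _ _).trans e1
  have hL4 : 4 ≤ L := hL₀.trans hLL0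
  have hL0 : 0 < L := by linarith
  have hL1 : 1 ≤ L := by linarith
  have hk10 : 19 / 10 ≤ k := by linarith
  have hk1' : 1 ≤ k := by linarith
  obtain ⟨b, hb, hbA⟩ := Dy.exists_b hT0.le
    (hdp T hTd (k - 2) (by rw [abs_le]; constructor <;> linarith) (Finset.range (JJ T + 1)) ∅)
  set N : ℕ := Nh T with hN
  set c : ℕ → ℂ := cg (fA δ) T 0 b with hcdef
  set c1 : ℕ → ℂ := cg (fA δ) T 0 b1 with hc1def
  set Lk : ℝ := L ^ (k ^ 2) with hLk
  set Lk1 : ℝ := L ^ (k ^ 2 - 1) with hLk1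
  set Lk4 : ℝ := L ^ (k ^ 2 - 4) with hLk4
  have hLk0 : 0 ≤ Lk := Real.rpow_nonneg hL0.le _
  have hLk10 : 0 ≤ Lk1 := Real.rpow_nonneg hL0.le _
  have hLk40 : 0 ≤ Lk4 := Real.rpow_nonneg hL0.le _
  have hLkge : 1 ≤ Lk := Real.one_le_rpow hL1 (by positivity)
  have hLkL : L * Lk1 = Lk := by
    have hkk : 1 ≤ k ^ 2 := one_le_pow₀ hk1'
    rw [hLk1, hLk, ← Real.rpow_one_add' hL0.le (by linarith)]
    congr 1; ring
  have hLk43 : Lk4 * L ^ 3 = Lk1 := by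
    rw [hLk1, hLk4, ← Real.rpow_natCast L 3, ← Real.rpow_add hL0]
    congr 1; push_cast; ring
  -- bounds for the arithmetic factor
  have hRF : ∀ a : ℂ, ‖a‖ = 1 / L → ‖RF N c a‖ ≤ W * Lk1 := by
    intro a ha
    have := hm T hTm k hk1' hk2 (Finset.range (JJ T + 1)) ∅ (by simp) b hb hbA 0 a ha
    simpa using this
  have hRed : ∀ a : ℂ, ‖a‖ = 1 / L →
      ‖RF N c a - ((Lk4 : ℝ) : ℂ) * RF N c1 a‖ ≤ η / (8 * V) * Lk1 := by
    intro a ha
    exact hr T hTr k hk1 hk2 b hb (fun f hf => hbA f hf) 0 a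
      (by rw [abs_zero]; positivity) ha
  have hna : ∀ a : ℂ, ‖a‖ = 1 / L → ‖-a‖ = 1 / L := fun a ha => by rw [norm_neg, ha]
  set r : ℝ := 1 / L with hrdef
  have hr0 : 0 < r := by positivity
  have hr1 : r < 5 / 8 := by
    have : 1 / L ≤ 1 / 4 := one_div_le_one_div_of_le (by norm_num) hL4
    rw [hrdef]; linarith
  set D : ℂ := Real.circleAverage (Mt T 12 N c) 0 r with hD
  set D1 : ℂ := Real.circleAverage (Mt T 12 N c1) 0 r with hD1
  -- comparison with the untwisted main term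
  have hcomp : ‖D - ((Lk4 : ℝ) : ℂ) * D1‖ ≤ η / 8 * Lk := by
    have i1 := Mt_circ hT0 N c hr0 hr1
    have i2 := Mt_circ hT0 N c1 hr0 hr1
    have e : D - ((Lk4 : ℝ) : ℂ) * D1 =
        Real.circleAverage (fun a => Mt T 12 N c a - ((Lk4 : ℝ) : ℂ) * Mt T 12 N c1 a) 0 r := by
      have e5 : (fun a => ((Lk4 : ℝ) : ℂ) * Mt T 12 N c1 a) =
          fun a => ((Lk4 : ℝ) : ℂ) • Mt T 12 N c1 a := by
        funext a; rw [smul_eq_mul]
      have i3 : CircleIntegrable (fun a => ((Lk4 : ℝ) : ℂ) * Mt T 12 N c1 a) 0 r := by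
        rw [e5]
        exact i2.const_fun_smul
      rw [Real.circleAverage_fun_sub i1 i3, e5, Real.circleAverage_fun_smul, smul_eq_mul]
    rw [e]
    refine norm_circleAverage_le hr0 fun a ha => ?_
    obtain ⟨z1, z2, g1, g2, y1⟩ := hcc T hT0 hLL0 a ha
    refine (Mt_lin hG.le hCz.le hE0.le hL0.le z1 z2 g1 g2 y1 (hRed a ha)
      (hRed (-a) (hna a ha))).trans (le_of_eq ?_)
    rw [← hV, ← hLkL]
    field_simp
  have hDbd : ‖D‖ ≤ V * W * Lk := by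
    refine norm_circleAverage_le hr0 fun a ha => ?_
    obtain ⟨z1, z2, g1, g2, y1⟩ := hcc T hT0 hLL0 a ha
    refine (Mt_bd hG.le hCz.le hE0.le hL0.le z1 z2 g1 g2 y1 (hRF a ha)
      (hRF (-a) (hna a ha))).trans (le_of_eq ?_)
    rw [← hV, ← hLkL]
    ring
  have hD1' : ‖D1 - (((Nat.factorial 11 : ℕ) * S1 δ T : ℝ) : ℂ)‖ ≤ C4 * L ^ 3 := h4 T hT4
  have hS1 := S1_nonneg hδ hT1
  set F : ℝ := ((Nat.factorial 11 : ℕ) : ℝ) with hF
  have hF1 : 1 ≤ F := by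
    rw [hF]; exact_mod_cast Nat.one_le_iff_ne_zero.mpr (Nat.factorial_ne_zero 11)
  have hDre : D.re ≤ F * (Lk4 * S1 δ T) + (η / 8 * Lk + C4 * Lk1) := by
    have e5 : D = (D - ((Lk4 : ℝ) : ℂ) * D1) + ((Lk4 : ℝ) : ℂ) * (D1 - ((F * S1 δ T : ℝ) : ℂ)) +
        ((Lk4 * (F * S1 δ T) : ℝ) : ℂ) := by push_cast; ring
    have e6 : D.re = (D - ((Lk4 : ℝ) : ℂ) * D1).re +
        (((Lk4 : ℝ) : ℂ) * (D1 - ((F * S1 δ T : ℝ) : ℂ))).re + Lk4 * (F * S1 δ T) := by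
      conv_lhs => rw [e5]
      rw [add_re, add_re, ofReal_re]
    have e7 := (Complex.re_le_norm (D - ((Lk4 : ℝ) : ℂ) * D1)).trans hcomp
    have e8 : (((Lk4 : ℝ) : ℂ) * (D1 - ((F * S1 δ T : ℝ) : ℂ))).re ≤ C4 * Lk1 := by
      refine (Complex.re_le_norm _).trans ?_
      rw [norm_mul, Complex.norm_real, Real.norm_of_nonneg hLk40]
      calc Lk4 * ‖D1 - ((F * S1 δ T : ℝ) : ℂ)‖ ≤ Lk4 * (C4 * L ^ 3) := by gcongr
        _ = C4 * (Lk4 * L ^ 3) := by ring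
        _ = _ := by rw [hLk43]
    rw [e6]
    exact (add_le_add (add_le_add e7 e8) le_rfl).trans (le_of_eq (by ring))
  -- the integrals
  set f : ℝ → ℝ := fun t => ‖riemannZeta (1 / 2 + t * I)‖ ^ 2 * ‖HP N c t‖ ^ 2 with hf
  have hfc : Continuous f := (Twist.zeta_cont.norm.pow 2).mul ((Twist.HP_cont N c).norm.pow 2)
  have hf0 : ∀ t, 0 ≤ f t := fun t => by rw [hf]; positivity
  have hfe : ∀ t : ℝ, ‖riemannZeta (1 / 2 + t * I)‖ ^ 2 *
      ‖SH δ T (fs (1 / 2 + t * I))‖ ^ 2 * ‖NN T M (k - 2) (fs (1 / 2 + t * I))‖ ^ 2 = f t := by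
    intro t
    have e5 : HP N c t = SH δ T (fs (1 / 2 + t * I)) * NN T M (k - 2) (fs (1 / 2 + t * I)) := by
      have e6 := (hc T hTc 0 b hb).2.2.2.2.2 (fs (1 / 2 + t * I)) (cmul_fs _)
      rw [SH_eq hT1] at e6
      have e7 : NN T M (k - 2) (fs (1 / 2 + t * I)) =
          ∑ n ∈ Finset.Icc 1 (Na T), b n * fs (1 / 2 + t * I) n := hbA _ (cmul_fs _)
      rw [e7]
      exact e6
    rw [hf]
    simp only
    rw [e5, norm_mul]
    ring
  have hXj : ∀ j ∈ Finset.Icc 1 n, T ^ (999 / 1000 : ℝ) ≤ T / j ∧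
      T / j ≤ T ^ (1 + 1 / 10000 : ℝ) ∧ Real.log j ≤ Real.log (n + 1) ∧ 2 * Real.log j ≤ L := by
    intro j hj
    have hj1 := (Finset.mem_Icc.mp hj).1
    have hj2 := (Finset.mem_Icc.mp hj).2
    have hj0 : (0 : ℝ) < j := by exact_mod_cast hj1
    have hj1' : (1 : ℝ) ≤ j := by exact_mod_cast hj1
    have hjn : (j : ℝ) ≤ n := by exact_mod_cast hj2
    have hl : Real.log j ≤ Real.log (n + 1) := Real.log_le_log hj0 (by linarith)
    refine ⟨?_, ?_, hl, by linarith⟩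
    · rw [le_div_iff₀ hj0]
      calc T ^ (999 / 1000 : ℝ) * j ≤ T ^ (999 / 1000 : ℝ) * T ^ (1 / 1000 : ℝ) := by
            gcongr
            linarith
        _ = T := by
            rw [← Real.rpow_add hT0]
            norm_num
    · calc T / j ≤ T := div_le_self hT0.le hj1'
        _ = T ^ (1 : ℝ) := (Real.rpow_one T).symm
        _ ≤ _ := Real.rpow_le_rpow_of_exponent_le hT1.le (by norm_num)
  set Ij : ℕ → ℝ := fun j => ∫ t in Set.Ioi (0 : ℝ), f t * Wr (T / j) t with hIj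
  have hIerr : ∀ j ∈ Finset.Icc 1 n, |Ij j - D.re| ≤ Q * Lk1 + Cj * T ^ (-(1 / 200) : ℝ) := by
    intro j hj'
    obtain ⟨x1, x2, x3, x4⟩ := hXj j hj'
    have hj1 := (Finset.mem_Icc.mp hj').1
    have hj0 : (0 : ℝ) < j := by exact_mod_cast hj1
    have hTj0 : 0 < T / j := by positivity
    obtain ⟨-, h5⟩ := hj T hTj (T / j) x1 x2 0 b hb
    have h6 : ‖Real.circleAverage (Mt (T / j) 12 N c) 0 r - D‖ ≤ Q * Lk1 := by
      rw [hD, ← Real.circleAverage_fun_sub (Mt_circ hTj0 N c hr0 hr1) (Mt_circ hT0 N c hr0 hr1)]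
      refine norm_circleAverage_le hr0 fun a ha => ?_
      obtain ⟨z1, z2, g1, g2, y1⟩ := hcc T hT0 hLL0 a ha
      refine (Mt_shift hG.le hCz.le hE0.le hL0 hT0 ha z2 g2 y1 (hRF (-a) (hna a ha)) hj1 x4).trans ?_
      rw [hQ]
      have : 0 ≤ 4 * E * G * Cz := by positivity
      calc 4 * E * G * Cz * Real.log j * (W * Lk1) ≤
            4 * E * G * Cz * Real.log (n + 1) * (W * Lk1) := by gcongr
        _ = _ := by ring
    have h7 : ‖((Ij j : ℝ) : ℂ) - Real.circleAverage (Mt (T / j) 12 N c) 0 r‖ ≤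
        Cj * T ^ (-(1 / 200) : ℝ) := by
      have h8 := h5
      rw [abs_zero, add_zero, mul_one] at h8
      exact h8
    have h9 : Ij j - D.re = ((((Ij j : ℝ) : ℂ) - Real.circleAverage (Mt (T / j) 12 N c) 0 r) +
        (Real.circleAverage (Mt (T / j) 12 N c) 0 r - D)).re := by
      rw [add_re, sub_re, sub_re, ofReal_re]; ring
    rw [h9]
    refine (Complex.abs_re_le_norm _).trans ((norm_add_le _ _).trans ?_)
    linarith
  have hmain := kar_int hfc hf0 hT0 hu0 hu hα0 hα1 (fun j hj' => by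
    obtain ⟨x1, x2, -, -⟩ := hXj j hj'
    exact (hj T hTj (T / j) x1 x2 0 b hb).1)
  have hTneg : 0 ≤ T ^ (-(1 / 200) : ℝ) := Real.rpow_nonneg hT0.le _
  have hfin := finish (n := n) (α := α) (I := Ij) (T := T) (D := D.re)
    (err := Q * Lk1 + Cj * T ^ (-(1 / 200) : ℝ)) (U := u₁ - u₀) (S := Lk4 * S1 δ T)
    (P := V * W * Lk) (e1 := η / (4 * (V * W))) (e2 := η / 8 * Lk + C4 * Lk1) (F := F)
    hT0 hF1 (by positivity) hIerr (kar_nonneg hα0) hαs (by linarith) (by linarith) (by positivity)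
    (by positivity) (by positivity) (by positivity) hDre
    ((Complex.re_le_norm D).trans hDbd)
  have hTpow : A * (Cj * T ^ (-(1 / 200) : ℝ)) ≤ η / 4 * Lk := by
    have h5 : T ^ (-(1 / 200) : ℝ) = (T ^ (1 / 200 : ℝ))⁻¹ := Real.rpow_neg hT0.le _
    have h6 : 0 < T ^ (1 / 200 : ℝ) := Real.rpow_pos_of_pos hT0 _
    rw [h5]
    have h7 : A * (Cj * (T ^ (1 / 200 : ℝ))⁻¹) ≤ η / 4 := by
      rw [← mul_assoc, ← div_eq_mul_inv, div_le_iff₀ h6]
      have h8 : A * Cj = (A * Cj * (4 / η)) * (η / 4) := by field_simp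
      rw [h8, mul_comm (η / 4)]
      exact mul_le_mul_of_nonneg_right (by linarith) (by positivity)
    exact h7.trans (le_mul_of_one_le_right (by positivity) hLkge)
  have hLast : (2 * C4 + A * Q) * Lk1 ≤ η / 4 * Lk := by
    have h5 : (2 * C4 + A * Q) ≤ η / 4 * L := by
      have h8 : 2 * C4 + A * Q = ((2 * C4 + A * Q) * (4 / η)) * (η / 4) := by field_simp
      rw [h8, mul_comm (η / 4)]
      exact mul_le_mul_of_nonneg_right hLQ (by positivity)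
    calc (2 * C4 + A * Q) * Lk1 ≤ η / 4 * L * Lk1 := by gcongr
      _ = η / 4 * (L * Lk1) := by ring
      _ = _ := by rw [hLkL]
  have hP : η / (4 * (V * W)) * (V * W * Lk) = η / 4 * Lk := by field_simp
  calc ∫ t in (u₀ * T)..(u₁ * T), ‖riemannZeta (1 / 2 + t * I)‖ ^ 2 *
      ‖SH δ T (fs (1 / 2 + t * I))‖ ^ 2 * ‖NN T M (k - 2) (fs (1 / 2 + t * I))‖ ^ 2
      = ∫ t in (u₀ * T)..(u₁ * T), f t := by simp only [hfe]
    _ ≤ _ := hmain.trans hfin
    _ ≤ _ := by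
        apply mul_le_mul_of_nonneg_left _ hT0.le
        rw [hP, ← hA]
        have e9 : (u₁ - u₀) * Lk4 * S1 δ T = (u₁ - u₀) * (Lk4 * S1 δ T) := by ring
        have e10 : A * (Q * Lk1 + Cj * T ^ (-(1 / 200) : ℝ)) =
            A * Q * Lk1 + A * (Cj * T ^ (-(1 / 200) : ℝ)) := by ring
        have e11 : (2 * C4 + A * Q) * Lk1 = 2 * (C4 * Lk1) + A * Q * Lk1 := by ring
        rw [e11] at hLast
        rw [e9, e10]
        linarith

end K4
end Pool.Agent.Lib.MP_973905_nt
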