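import Pool.Agent.Lib.MP_973905_nt.K4.Stmts
import Pool.Agent.Lib.MP_973905_nt.F4.Cr4

/-! (R3): the arithmetic factor of the bump. -/

namespace Pool.Agent.Lib.MP_973905_nt
namespace K4

namespace BumpRF

open Complex K1 F4

lemma cg_b1 (φ : ℝ → ℝ) (T ν : ℝ) {n : ℕ} (hn : n ≠ 0) : cg φ T ν b1 n = qg φ T ν n := by
  rw [cg, Finset.sum_eq_single (n, 1)]
  · simp [b1]
  · rintro ⟨x, y⟩ hx hxy
    rw [Nat.mem_divisorsAntidiagonal] at hx
    have : y ≠ 1 := by
      rintro rfl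
      apply hxy
      simp only [mul_one] at hx
      rw [hx.1]
    simp [b1, this]
  · intro h
    exfalso
    apply h
    rw [Nat.mem_divisorsAntidiagonal]
    exact ⟨mul_one _, hn⟩

/-- harmonic sums over intervals -/
lemma harm_Ico {a b : ℕ} (ha : 1 ≤ a) (hab : a ≤ b) :
    ∑ m ∈ Finset.Ico a b, (1 : ℝ) / ((m : ℝ) + 1) ≤ Real.log b - Real.log a := by
  induction b, hab using Nat.le_induction with
  | base => simp
  | succ b hb ih =>
    rw [Finset.sum_Ico_succ_top hb]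
    have hb0 : (0 : ℝ) < b := by
      have : 1 ≤ b := ha.trans hb
      exact_mod_cast this
    have h1 : (1 : ℝ) / ((b : ℝ) + 1) ≤ Real.log ((b + 1 : ℕ) : ℝ) - Real.log b := by
      rw [← Real.log_div (by positivity) hb0.ne']
      have h2 := Real.one_sub_inv_le_log_of_pos (x := ((b + 1 : ℕ) : ℝ) / b) (by positivity)
      refine le_trans (le_of_eq ?_) h2
      push_cast
      field_simp
      ring
    linarith

lemma harm_window {A B : ℝ} (hA : 0 < A) (hAB : A ≤ B) (N : ℕ) :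
    ∑ m ∈ (Finset.Icc 1 N).filter (fun m : ℕ => A ≤ m ∧ (m : ℝ) ≤ B), (1 : ℝ) / m ≤
      1 + (Real.log B - Real.log A) := by
  have hlog : 0 ≤ Real.log B - Real.log A := by
    have := Real.log_le_log hA hAB
    linarith
  set a := ⌈A⌉₊ with ha
  set b := ⌊B⌋₊ with hb
  have ha1 : 1 ≤ a := Nat.one_le_ceil_iff.2 hA
  by_cases hab : a ≤ b
  · have hsub : (Finset.Icc 1 N).filter (fun m : ℕ => A ≤ m ∧ (m : ℝ) ≤ B) ⊆ Finset.Icc a b := by
      intro m hm
      rw [Finset.mem_filter] at hm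
      rw [Finset.mem_Icc]
      exact ⟨Nat.ceil_le.2 hm.2.1, Nat.le_floor hm.2.2⟩
    calc _ ≤ ∑ m ∈ Finset.Icc a b, (1 : ℝ) / m :=
          Finset.sum_le_sum_of_subset_of_nonneg hsub fun m _ _ => by positivity
      _ = 1 / (a : ℝ) + ∑ m ∈ Finset.Ico a b, (1 : ℝ) / ((m : ℝ) + 1) := by
          have h1 : Finset.Icc a b = insert a (Finset.Icc (a + 1) b) := by
            rw [Finset.insert_Icc_add_one_left_eq_Icc hab]
          rw [h1, Finset.sum_insert (by simp)]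
          congr 1
          have h2 : Finset.Icc (a + 1) b = (Finset.Ico a b).image (fun x => x + 1) := by
            ext x
            simp only [Finset.mem_Icc, Finset.mem_image, Finset.mem_Ico]
            constructor
            · rintro ⟨h, h'⟩
              exact ⟨x - 1, by omega, by omega⟩
            · rintro ⟨y, hy, rfl⟩
              omega
          rw [h2, Finset.sum_image (fun x _ y _ h => by simpa using h)]
          refine Finset.sum_congr rfl fun x _ => ?_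
          push_cast
          rfl
      _ ≤ 1 + (Real.log b - Real.log a) := by
          have h3 := harm_Ico ha1 hab
          have h4 : 1 / (a : ℝ) ≤ 1 := by
            rw [div_le_one (by exact_mod_cast ha1)]
            exact_mod_cast ha1
          linarith
      _ ≤ 1 + (Real.log B - Real.log A) := by
          have hB0 : 0 ≤ B := hA.le.trans hAB
          have hb0 : (0 : ℝ) < b := by
            have : 1 ≤ b := ha1.trans hab
            exact_mod_cast this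
          have h5 : Real.log b ≤ Real.log B := Real.log_le_log hb0 (Nat.floor_le hB0)
          have h6 : Real.log A ≤ Real.log a := Real.log_le_log hA (Nat.le_ceil A)
          linarith
  · have hempty : (Finset.Icc 1 N).filter (fun m : ℕ => A ≤ m ∧ (m : ℝ) ≤ B) = ∅ := by
      rw [Finset.filter_eq_empty_iff]
      rintro m _ ⟨h1, h2⟩
      exact hab ((Nat.ceil_le.2 h1).trans (Nat.le_floor h2))
    rw [hempty, Finset.sum_empty]
    linarith

/-- the gcd sum over a window -/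
lemma gcd_window {A B : ℝ} (hA : 0 < A) (hAB : A ≤ B) (N : ℕ) {c : ℕ → ℝ} {K : ℝ} (hK : 0 ≤ K)
    (hc0 : ∀ n, 0 ≤ c n) (hc : ∀ n, 1 ≤ n → c n ≤ K)
    (hcW : ∀ n : ℕ, 1 ≤ n → ¬ (A ≤ n ∧ (n : ℝ) ≤ B) → c n = 0) :
    ∑ m ∈ Finset.Icc 1 N, ∑ n ∈ Finset.Icc 1 N,
    c m * c n * ((1 : ℝ) / ((m.gcd n : ℕ) * ((m / m.gcd n : ℕ) * (n / m.gcd n : ℕ)))) ≤
      K ^ 2 * ((1 + Real.log N) * (1 + (Real.log B - Real.log A)) ^ 2) := by
  classical
  set ψ : ℕ × ℕ × ℕ → ℝ := fun x => c (x.1 * x.2.1) * c (x.1 * x.2.2) *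
    ((1 : ℝ) / (x.1 * (x.2.1 * x.2.2))) with hψ
  set i : ℕ × ℕ → ℕ × ℕ × ℕ := fun p => (p.1.gcd p.2, p.1 / p.1.gcd p.2, p.2 / p.1.gcd p.2) with hi
  have hinj : Set.InjOn i ((Finset.Icc 1 N ×ˢ Finset.Icc 1 N : Finset (ℕ × ℕ)) : Set (ℕ × ℕ)) := by
    rintro ⟨a, b⟩ _ ⟨c, d⟩ _ h
    simp only [hi, Prod.mk.injEq] at h
    obtain ⟨h1, h2, h3⟩ := h
    have e1 := Nat.div_mul_cancel (Nat.gcd_dvd_left a b)
    have e2 := Nat.div_mul_cancel (Nat.gcd_dvd_left c d)
    have e3 := Nat.div_mul_cancel (Nat.gcd_dvd_right a b)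
    have e4 := Nat.div_mul_cancel (Nat.gcd_dvd_right c d)
    rw [h2, h1, e2] at e1
    rw [h3, h1, e4] at e3
    rw [e1, e3]
  have h1 : ∑ m ∈ Finset.Icc 1 N, ∑ n ∈ Finset.Icc 1 N,
      c m * c n * ((1 : ℝ) / ((m.gcd n : ℕ) * ((m / m.gcd n : ℕ) * (n / m.gcd n : ℕ)))) =
      ∑ x ∈ (Finset.Icc 1 N ×ˢ Finset.Icc 1 N).image i, ψ x := by
    rw [Finset.sum_image hinj, Finset.sum_product]
    refine Finset.sum_congr rfl fun m _ => Finset.sum_congr rfl fun n _ => ?_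
    simp only [hψ, hi]
    rw [Nat.mul_div_cancel' (Nat.gcd_dvd_left m n), Nat.mul_div_cancel' (Nat.gcd_dvd_right m n)]
  have h2 : (Finset.Icc 1 N ×ˢ Finset.Icc 1 N).image i ⊆
      Finset.Icc 1 N ×ˢ (Finset.Icc 1 N ×ˢ Finset.Icc 1 N) := by
    intro x hx
    rw [Finset.mem_image] at hx
    obtain ⟨⟨m, n⟩, hmn, rfl⟩ := hx
    simp only [Finset.mem_product, Finset.mem_Icc] at hmn
    obtain ⟨⟨hm1, hm2⟩, hn1, hn2⟩ := hmn
    have hg : 0 < m.gcd n := Nat.gcd_pos_of_pos_left n hm1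
    have hgm : m.gcd n ≤ m := Nat.gcd_le_left n hm1
    have hgn : m.gcd n ≤ n := Nat.gcd_le_right m hn1
    simp only [hi, Finset.mem_product, Finset.mem_Icc]
    exact ⟨⟨hg, hgm.trans hm2⟩, ⟨Nat.div_pos hgm hg, (Nat.div_le_self _ _).trans hm2⟩,
      Nat.div_pos hgn hg, (Nat.div_le_self _ _).trans hn2⟩
  have hlog : 0 ≤ Real.log B - Real.log A := by
    have := Real.log_le_log hA hAB
    linarith
  set R : ℝ := 1 + (Real.log B - Real.log A) with hR
  have hR0 : 0 ≤ R := by positivity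
  -- the inner sum
  have hinner : ∀ g ∈ Finset.Icc 1 N, ∑ m ∈ Finset.Icc 1 N, c (g * m) * ((1 : ℝ) / m) ≤ K * R := by
    intro g hg
    rw [Finset.mem_Icc] at hg
    have hg0 : (0 : ℝ) < g := by exact_mod_cast hg.1
    have h3 : ∑ m ∈ Finset.Icc 1 N, c (g * m) * ((1 : ℝ) / m) ≤
        ∑ m ∈ (Finset.Icc 1 N).filter (fun m : ℕ => A / g ≤ m ∧ (m : ℝ) ≤ B / g),
          K * ((1 : ℝ) / m) := by
      rw [Finset.sum_filter]
      apply Finset.sum_le_sum
      intro m hm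
      rw [Finset.mem_Icc] at hm
      have hgm : 1 ≤ g * m := Nat.mul_pos hg.1 hm.1
      split_ifs with h
      · exact mul_le_mul_of_nonneg_right (hc _ hgm) (by positivity)
      · rw [hcW _ hgm, zero_mul]
        intro h'
        apply h
        push_cast at h'
        rw [div_le_iff₀ hg0, le_div_iff₀ hg0]
        constructor
        · linarith [h'.1, mul_comm (g : ℝ) m]
        · linarith [h'.2, mul_comm (g : ℝ) m]
    refine h3.trans ?_
    rw [← Finset.mul_sum]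
    refine mul_le_mul_of_nonneg_left ?_ hK
    refine (harm_window (A := A / g) (B := B / g) (by positivity)
      (div_le_div_of_nonneg_right hAB hg0.le) N).trans ?_
    rw [Real.log_div (by linarith) hg0.ne', Real.log_div hA.ne' hg0.ne', hR]
    linarith
  have hinner0 : ∀ g, 0 ≤ ∑ m ∈ Finset.Icc 1 N, c (g * m) * ((1 : ℝ) / m) := fun g =>
    Finset.sum_nonneg fun m _ => mul_nonneg (hc0 _) (by positivity)
  rw [h1]
  calc ∑ x ∈ (Finset.Icc 1 N ×ˢ Finset.Icc 1 N).image i, ψ x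
      ≤ ∑ x ∈ Finset.Icc 1 N ×ˢ (Finset.Icc 1 N ×ˢ Finset.Icc 1 N), ψ x :=
        Finset.sum_le_sum_of_subset_of_nonneg h2 fun x _ _ =>
          mul_nonneg (mul_nonneg (hc0 _) (hc0 _)) (by positivity)
    _ = ∑ g ∈ Finset.Icc 1 N, (1 : ℝ) / g * ((∑ m ∈ Finset.Icc 1 N, c (g * m) * ((1 : ℝ) / m)) *
          ∑ m ∈ Finset.Icc 1 N, c (g * m) * ((1 : ℝ) / m)) := by
        rw [Finset.sum_product]
        refine Finset.sum_congr rfl fun g _ => ?_
        rw [Finset.sum_product, Finset.sum_mul, Finset.mul_sum]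
        refine Finset.sum_congr rfl fun b _ => ?_
        rw [Finset.mul_sum, Finset.mul_sum]
        refine Finset.sum_congr rfl fun d _ => ?_
        simp only [hψ]
        have e1 : (1 : ℝ) / (g * (b * d)) = 1 / g * (1 / b * (1 / d)) := by
          rw [one_div_mul_one_div, one_div_mul_one_div]
        rw [e1]
        ring
    _ ≤ ∑ g ∈ Finset.Icc 1 N, (1 : ℝ) / g * ((K * R) * (K * R)) := by
        apply Finset.sum_le_sum
        intro g hg
        refine mul_le_mul_of_nonneg_left ?_ (by positivity)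
        exact mul_le_mul (hinner g hg) (hinner g hg) (hinner0 g) (by positivity)
    _ = (∑ g ∈ Finset.Icc 1 N, (1 : ℝ) / g) * ((K * R) * (K * R)) := by rw [Finset.sum_mul]
    _ ≤ (1 + Real.log N) * ((K * R) * (K * R)) :=
        mul_le_mul_of_nonneg_right (F4.Cr4.harm N) (by positivity)
    _ = _ := by ring

/-- the arithmetic factor, with coefficients supported in a window -/
lemma RF_window {T : ℝ} (hT : 3 ≤ T) {N : ℕ} (hN : (N : ℝ) ≤ T) {A B : ℝ} (hA : 0 < A)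
    (hAB : A ≤ B) {c : ℕ → ℂ} {K : ℝ} (hK : 0 ≤ K) (hc : ∀ n, 1 ≤ n → ‖c n‖ ≤ K)
    (hcW : ∀ n : ℕ, 1 ≤ n → ¬ (A ≤ n ∧ (n : ℝ) ≤ B) → c n = 0)
    {a : ℂ} (ha : ‖a‖ = 1 / Real.log T) :
    ‖ThreeLines.RF N c a‖ ≤
      Real.exp 2 * (K ^ 2 * ((1 + Real.log N) * (1 + (Real.log B - Real.log A)) ^ 2)) := by
  have hT1 : 1 < T := by linarith
  have hT0 : 0 < T := by linarith
  have hL : 0 < Real.log T := Real.log_pos hT1
  have hbase : ∀ x : ℕ, 1 ≤ x → x ≤ N → ‖(x : ℂ) ^ (-(1 / 2 + a))‖ ≤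
      Real.exp 1 * (x : ℝ) ^ (-(1 / 2) : ℝ) := by
    intro x hx hxN
    have hx1 : (1 : ℝ) ≤ x := by exact_mod_cast hx
    have hx0 : (0 : ℝ) < x := by linarith
    rw [norm_natCast_cpow_of_pos (by omega)]
    have e : (-(1 / 2 + a) : ℂ).re = -(1 / 2) + -a.re := by simp; ring
    rw [e, Real.rpow_add hx0, mul_comm]
    gcongr
    have h1 : -a.re ≤ 1 / Real.log T := by
      rw [← ha]
      exact (neg_le_abs _).trans (abs_re_le_norm a)
    calc (x : ℝ) ^ (-a.re) ≤ (x : ℝ) ^ (1 / Real.log T) :=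
          Real.rpow_le_rpow_of_exponent_le hx1 h1
      _ ≤ T ^ (1 / Real.log T) := by
          apply Real.rpow_le_rpow hx0.le _ (by positivity)
          have : (x : ℝ) ≤ N := by exact_mod_cast hxN
          linarith
      _ = Real.exp 1 := by
          rw [Real.rpow_def_of_pos hT0, mul_one_div_cancel hL.ne']
  have hhalf : ∀ x : ℕ, ‖(x : ℂ) ^ (-(1 / 2 : ℂ))‖ ≤ (x : ℝ) ^ (-(1 / 2) : ℝ) := by
    intro x
    rcases Nat.eq_zero_or_pos x with rfl | hx
    · simp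
    · rw [norm_natCast_cpow_of_pos hx]
      simp
  have hterm : ∀ m ∈ Finset.Icc 1 N, ∀ n ∈ Finset.Icc 1 N,
      ‖c m * (starRingEnd ℂ) (c n) * (m : ℂ) ^ (-(1 / 2 : ℂ)) * (n : ℂ) ^ (-(1 / 2 : ℂ)) *
        ((n / m.gcd n : ℕ) : ℂ) ^ (-(1 / 2 + a)) * ((m / m.gcd n : ℕ) : ℂ) ^ (-(1 / 2 + a))‖ ≤
      Real.exp 2 * (‖c m‖ * ‖c n‖ *
        ((1 : ℝ) / ((m.gcd n : ℕ) * ((m / m.gcd n : ℕ) * (n / m.gcd n : ℕ))))) := by
    intro m hm n hn
    rw [Finset.mem_Icc] at hm hn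
    obtain ⟨hm1, hm2⟩ := hm
    obtain ⟨hn1, hn2⟩ := hn
    have hg : 0 < m.gcd n := Nat.gcd_pos_of_pos_left n hm1
    have hgm : m.gcd n ≤ m := Nat.gcd_le_left n hm1
    have hgn : m.gcd n ≤ n := Nat.gcd_le_right m hn1
    set m' := m / m.gcd n with hm'
    set n' := n / m.gcd n with hn'
    have em : m = m.gcd n * m' := (Nat.mul_div_cancel' (Nat.gcd_dvd_left m n)).symm
    have en : n = m.gcd n * n' := (Nat.mul_div_cancel' (Nat.gcd_dvd_right m n)).symm
    have hm'1 : 1 ≤ m' := Nat.div_pos hgm hg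
    have hn'1 : 1 ≤ n' := Nat.div_pos hgn hg
    have h1 := hbase m' hm'1 ((Nat.div_le_self _ _).trans hm2)
    have h2 := hbase n' hn'1 ((Nat.div_le_self _ _).trans hn2)
    have h3 := hhalf m
    have h4 := hhalf n
    rw [norm_mul, norm_mul, norm_mul, norm_mul, norm_mul, norm_conj]
    have e1 : Real.exp 1 * Real.exp 1 = Real.exp 2 := by rw [← Real.exp_add]; norm_num
    have hG : (0 : ℝ) < m.gcd n := by exact_mod_cast hg
    have hM : (0 : ℝ) < m' := by exact_mod_cast hm'1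
    have hN' : (0 : ℝ) < n' := by exact_mod_cast hn'1
    have r1 : (m : ℝ) ^ (-(1 / 2) : ℝ) = ((m.gcd n : ℕ) : ℝ) ^ (-(1 / 2) : ℝ) * (m' : ℝ) ^ (-(1 / 2) : ℝ) := by
      conv_lhs => rw [em]
      rw [Nat.cast_mul, Real.mul_rpow hG.le hM.le]
    have r2 : (n : ℝ) ^ (-(1 / 2) : ℝ) = ((m.gcd n : ℕ) : ℝ) ^ (-(1 / 2) : ℝ) * (n' : ℝ) ^ (-(1 / 2) : ℝ) := by
      conv_lhs => rw [en]
      rw [Nat.cast_mul, Real.mul_rpow hG.le hN'.le]
    have sq : ∀ x : ℝ, 0 < x → x ^ (-(1 / 2) : ℝ) * x ^ (-(1 / 2) : ℝ) = x⁻¹ := by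
      intro x hx
      rw [← Real.rpow_add hx, ← Real.rpow_neg_one]
      norm_num
    calc ‖c m‖ * ‖c n‖ * ‖(m : ℂ) ^ (-(1 / 2 : ℂ))‖ * ‖(n : ℂ) ^ (-(1 / 2 : ℂ))‖ *
          ‖(n' : ℂ) ^ (-(1 / 2 + a))‖ * ‖(m' : ℂ) ^ (-(1 / 2 + a))‖
        ≤ ‖c m‖ * ‖c n‖ * (m : ℝ) ^ (-(1 / 2) : ℝ) * (n : ℝ) ^ (-(1 / 2) : ℝ) *
          (Real.exp 1 * (n' : ℝ) ^ (-(1 / 2) : ℝ)) * (Real.exp 1 * (m' : ℝ) ^ (-(1 / 2) : ℝ)) := by
          gcongr
      _ = (Real.exp 1 * Real.exp 1) * (‖c m‖ * ‖c n‖ * ((((m.gcd n : ℕ) : ℝ) ^ (-(1 / 2) : ℝ) *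
          ((m.gcd n : ℕ) : ℝ) ^ (-(1 / 2) : ℝ)) *
          (((m' : ℝ) ^ (-(1 / 2) : ℝ) * (m' : ℝ) ^ (-(1 / 2) : ℝ)) *
          ((n' : ℝ) ^ (-(1 / 2) : ℝ) * (n' : ℝ) ^ (-(1 / 2) : ℝ))))) := by
          rw [r1, r2]; ring
      _ = Real.exp 2 * (‖c m‖ * ‖c n‖ * (((m.gcd n : ℕ) : ℝ)⁻¹ * ((m' : ℝ)⁻¹ * (n' : ℝ)⁻¹))) := by
          rw [sq _ hG, sq _ hM, sq _ hN', e1]
      _ = _ := by rw [one_div, mul_inv, mul_inv]
      _ ≤ _ := le_rfl
  unfold ThreeLines.RF
  refine (norm_sum_le _ _).trans ?_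
  calc ∑ m ∈ Finset.Icc 1 N, ‖∑ n ∈ Finset.Icc 1 N, c m * (starRingEnd ℂ) (c n) *
        (m : ℂ) ^ (-(1 / 2 : ℂ)) * (n : ℂ) ^ (-(1 / 2 : ℂ)) *
        ((n / m.gcd n : ℕ) : ℂ) ^ (-(1 / 2 + a)) * ((m / m.gcd n : ℕ) : ℂ) ^ (-(1 / 2 + a))‖
      ≤ ∑ m ∈ Finset.Icc 1 N, ∑ n ∈ Finset.Icc 1 N, Real.exp 2 * (‖c m‖ * ‖c n‖ *
        ((1 : ℝ) / ((m.gcd n : ℕ) * ((m / m.gcd n : ℕ) * (n / m.gcd n : ℕ))))) :=
        Finset.sum_le_sum fun m hm => (norm_sum_le _ _).trans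
          (Finset.sum_le_sum fun n hn => hterm m hm n hn)
    _ = Real.exp 2 * ∑ m ∈ Finset.Icc 1 N, ∑ n ∈ Finset.Icc 1 N, ‖c m‖ * ‖c n‖ *
        ((1 : ℝ) / ((m.gcd n : ℕ) * ((m / m.gcd n : ℕ) * (n / m.gcd n : ℕ)))) := by
        rw [Finset.mul_sum]
        refine Finset.sum_congr rfl fun m _ => ?_
        rw [Finset.mul_sum]
    _ ≤ _ := by
        refine mul_le_mul_of_nonneg_left ?_ (Real.exp_pos _).le
        exact gcd_window hA hAB N hK (c := fun n => ‖c n‖) (fun n => norm_nonneg _) hc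
          (fun n hn h => by simp [hcW n hn h])

/-- the values of the cutoff -/
lemma fB_facts {δ : ℝ} (hδ : 0 < δ) (x : ℝ) :
    |fB δ x| ≤ Real.exp x * Real.exp 2 ∧
      (¬ (1 / 2 - 2 * δ ≤ x ∧ x ≤ 1 / 2 + 2 * δ) → fB δ x = 0) := by
  have h1 : 0 ≤ Pc δ x := mul_nonneg (Real.smoothTransition.nonneg _) (Real.smoothTransition.nonneg _)
  have h2 : Pc δ x ≤ 1 := mul_le_one₀ (Real.smoothTransition.le_one _)
    (Real.smoothTransition.nonneg _) (Real.smoothTransition.le_one _)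
  have h3 : 0 ≤ Pb δ x := mul_nonneg (Real.smoothTransition.nonneg _) (Real.smoothTransition.nonneg _)
  have h4 : Pb δ x ≤ 1 := mul_le_one₀ (Real.smoothTransition.le_one _)
    (Real.smoothTransition.nonneg _) (Real.smoothTransition.le_one _)
  have hout : ¬ (1 / 2 - 2 * δ ≤ x ∧ x ≤ 1 / 2 + 2 * δ) → fB δ x = 0 := by
    intro h
    have h5 : Pc δ x = Pb δ x := by
      unfold Pc Pb
      rcases not_and_or.1 h with h | h
      · push Not at h
        have e1 : Real.smoothTransition ((1 / 2 + 2 * δ - x) / δ) = 1 := by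
          apply Real.smoothTransition.one_of_one_le
          rw [le_div_iff₀ hδ]; linarith
        have e2 : Real.smoothTransition ((1 / 2 - δ - x) / δ) = 1 := by
          apply Real.smoothTransition.one_of_one_le
          rw [le_div_iff₀ hδ]; linarith
        rw [e1, e2]
      · push Not at h
        have e1 : Real.smoothTransition ((1 / 2 + 2 * δ - x) / δ) = 0 := by
          apply Real.smoothTransition.zero_of_nonpos
          apply div_nonpos_of_nonpos_of_nonneg _ hδ.le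
          linarith
        have e2 : Real.smoothTransition ((1 / 2 - δ - x) / δ) = 0 := by
          apply Real.smoothTransition.zero_of_nonpos
          apply div_nonpos_of_nonpos_of_nonneg _ hδ.le
          linarith
        rw [e1, e2]
    unfold fB
    rw [h5, sub_self, mul_zero]
  refine ⟨?_, hout⟩
  by_cases h : 1 / 2 - 2 * δ ≤ x ∧ x ≤ 1 / 2 + 2 * δ
  · unfold fB
    rw [abs_mul, abs_of_pos (Real.exp_pos _), Real.exp_add]
    have h6 : |Pc δ x - Pb δ x| ≤ 1 := by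
      rw [abs_le]
      constructor <;> linarith
    have h7 : Real.exp ((1 / 2 - x) / δ) ≤ Real.exp 2 := by
      apply Real.exp_le_exp.2
      rw [div_le_iff₀ hδ]
      linarith [h.1]
    calc Real.exp x * Real.exp ((1 / 2 - x) / δ) * |Pc δ x - Pb δ x| ≤
        Real.exp x * Real.exp 2 * 1 := by gcongr
      _ = _ := mul_one _
  · rw [hout h, abs_zero]
    positivity

end BumpRF

open BumpRF Complex K1 F4 in
theorem stBumpRF : StBumpRF := by
  refine ⟨Real.exp 2 * ((Real.exp 2) ^ 2 * (2 * 64)), by positivity, fun δ hδ _hδ' => ?_⟩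
  refine ⟨max 3 (Real.exp (1 / (4 * δ))), le_max_left _ _, fun T hT ν a ha => ?_⟩
  have hT3 : 3 ≤ T := (le_max_left _ _).trans hT
  have hT1 : 1 < T := by linarith
  have hT0 : 0 < T := by linarith
  have hL : 0 < Real.log T := Real.log_pos hT1
  have hδL : 1 ≤ 4 * δ * Real.log T := by
    have h1 : 1 / (4 * δ) ≤ Real.log T :=
      (Real.le_log_iff_exp_le hT0).2 ((le_max_right _ _).trans hT)
    rw [div_le_iff₀ (by positivity)] at h1
    linarith
  have hL1 : 1 ≤ Real.log T := by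
    rw [Real.le_log_iff_exp_le hT0]
    have := Real.exp_one_lt_d9
    linarith
  set L := Real.log T with hLdef
  set A : ℝ := Real.exp ((1 / 2 - 2 * δ) * L) with hA
  set B : ℝ := Real.exp ((1 / 2 + 2 * δ) * L) with hB
  have hA0 : 0 < A := Real.exp_pos _
  have hAB : A ≤ B := by
    apply Real.exp_le_exp.2
    nlinarith
  have hN : ((Nh T : ℕ) : ℝ) ≤ T := by
    unfold Nh
    refine (Nat.floor_le (by positivity)).trans ?_
    conv_rhs => rw [← Real.rpow_one T]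
    exact Real.rpow_le_rpow_of_exponent_le hT1.le (by norm_num)
  have hq : ∀ n : ℕ, 1 ≤ n → ‖cg (fB δ) T ν b1 n‖ =
      |fB δ (Real.log n / L)| * Real.exp (-(Real.log n / L)) := by
    intro n hn
    have hn0 : (0 : ℝ) < n := by exact_mod_cast hn
    rw [cg_b1 _ _ _ (by omega), qg, norm_mul, norm_real, Real.norm_eq_abs,
      norm_natCast_cpow_of_pos (by omega)]
    congr 1
    rw [Real.rpow_def_of_pos hn0]
    congr 1
    simp
    ring
  have hc : ∀ n : ℕ, 1 ≤ n → ‖cg (fB δ) T ν b1 n‖ ≤ Real.exp 2 := by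
    intro n hn
    rw [hq n hn]
    have h1 := (fB_facts hδ (Real.log n / L)).1
    calc |fB δ (Real.log n / L)| * Real.exp (-(Real.log n / L)) ≤
        Real.exp (Real.log n / L) * Real.exp 2 * Real.exp (-(Real.log n / L)) := by gcongr
      _ = Real.exp 2 := by
          rw [Real.exp_neg]
          field_simp
  have hcW : ∀ n : ℕ, 1 ≤ n → ¬ (A ≤ n ∧ (n : ℝ) ≤ B) → cg (fB δ) T ν b1 n = 0 := by
    intro n hn h
    have hn0 : (0 : ℝ) < n := by exact_mod_cast hn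
    rw [← norm_eq_zero, hq n hn, (fB_facts hδ (Real.log n / L)).2, abs_zero, zero_mul]
    intro h'
    apply h
    rw [le_div_iff₀ hL, div_le_iff₀ hL] at h'
    constructor
    · rw [hA, ← Real.le_log_iff_exp_le hn0]
      exact h'.1
    · rw [hB, ← Real.log_le_iff_le_exp hn0]
      exact h'.2
  have h1 := RF_window hT3 hN hA0 hAB (Real.exp_pos 2).le hc hcW ha
  refine h1.trans ?_
  have h2 : Real.log B - Real.log A = 4 * δ * L := by
    rw [hA, hB, Real.log_exp, Real.log_exp]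
    ring
  rw [h2]
  have h3 : 1 + Real.log (Nh T : ℕ) ≤ 2 * L := by
    rcases Nat.eq_zero_or_pos (Nh T) with h | h
    · rw [h]
      simp only [CharP.cast_eq_zero, Real.log_zero, add_zero]
      linarith
    · have hN0 : (0 : ℝ) < (Nh T : ℕ) := by exact_mod_cast h
      have := Real.log_le_log hN0 hN
      linarith
  have h4 : (1 + 4 * δ * L) ^ 2 ≤ 64 * (δ * L) ^ 2 := by
    have : 1 + 4 * δ * L ≤ 8 * (δ * L) := by linarith
    calc (1 + 4 * δ * L) ^ 2 ≤ (8 * (δ * L)) ^ 2 := by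
          apply pow_le_pow_left₀ (by positivity) this
      _ = _ := by ring
  have h5 : (1 + Real.log (Nh T : ℕ)) * (1 + 4 * δ * L) ^ 2 ≤ 2 * L * (64 * (δ * L) ^ 2) := by
    apply mul_le_mul h3 h4 (by positivity) (by positivity)
  calc Real.exp 2 * (Real.exp 2 ^ 2 * ((1 + Real.log (Nh T : ℕ)) * (1 + 4 * δ * L) ^ 2)) ≤
      Real.exp 2 * (Real.exp 2 ^ 2 * (2 * L * (64 * (δ * L) ^ 2))) := by gcongr
    _ = _ := by ring

end K4
end Pool.Agent.Lib.MP_973905_nt
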