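import Pool.Agent.Lib.MP_973905_nt.K4.Stmts

/-! Module (A8) of K4: the final theorem. -/

namespace Pool.Agent.Lib.MP_973905_nt
namespace K4

open MeasureTheory ProbabilityTheory Complex Filter Topology K1 F4

/-- (A8) the final theorem -/
theorem stFinal (h : StUpperU) (hc : K3.StCK2) : StFinal := by
  intro ε hε
  set q : ℝ := 1 / (2 * Real.pi ^ 2) with hq
  have hq0 : 0 < q := by positivity
  obtain ⟨k₂, hk₂, hk₂', T₀, hT₀, hup⟩ := h (ε / 2) (by positivity)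
  have hC : Tendsto cK (𝓝 2) (𝓝 q) := hc
  have hev : ∀ᶠ k in 𝓝 (2 : ℝ), 0 < cK k ∧ (1 + ε / 2) * q < (1 + ε) * cK k := by
    refine (hC.eventually (lt_mem_nhds hq0)).and ?_
    have h1 : Tendsto (fun k => (1 + ε) * cK k) (𝓝 2) (𝓝 ((1 + ε) * q)) := hC.const_mul _
    refine h1.eventually (lt_mem_nhds ?_)
    nlinarith
  obtain ⟨r, hr, hball⟩ := Metric.eventually_nhds_iff.1 hev
  refine ⟨max k₂ (2 - r / 2), lt_of_lt_of_le hk₂ (le_max_left _ _), max_lt hk₂' (by linarith),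
    T₀, hT₀, fun T hT k hk hk1 => ?_⟩
  have hka : k₂ ≤ k := (le_max_left _ _).trans hk
  have hkb : 2 - r / 2 ≤ k := (le_max_right _ _).trans hk
  have hT3 : 3 ≤ T := hT₀.trans hT
  have hL0 : 0 < Real.log T := Real.log_pos (by linarith)
  have hΛ0 : 0 < (Real.log T) ^ (k ^ 2) := Real.rpow_pos_of_pos hL0 _
  obtain ⟨hc0, hc1⟩ := hball (show dist k 2 < r by
    rw [Real.dist_eq, abs_of_nonpos (by linarith)]; linarith)
  have h1 := hup T hT k hka hk1
  rw [div_le_iff₀ (mul_pos hc0 hΛ0)]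
  refine h1.trans ?_
  calc (1 + ε / 2) * (1 / (2 * Real.pi ^ 2)) * (Real.log T) ^ (k ^ 2) ≤
      ((1 + ε) * cK k) * (Real.log T) ^ (k ^ 2) :=
        mul_le_mul_of_nonneg_right hc1.le hΛ0.le
    _ = _ := by ring

end K4
end Pool.Agent.Lib.MP_973905_nt
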