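import Pool.Agent.Lib.MP_973905_nt.K4.Stmts
import Pool.Agent.Lib.MP_973905_nt.K1.SHFourier
import Pool.Agent.Lib.MP_973905_nt.K3.TransferZ2

/-! (R7) the pairing of `ζ²` with `conj A²` in the random model. -/

namespace Pool.Agent.Lib.MP_973905_nt
namespace K4

open MeasureTheory ProbabilityTheory Complex Filter Topology K1

namespace PairR

open K1.SHF

lemma NN_zero (T : ℝ) (M : ℕ) (f : ℕ → ℂ) : NN T M 0 f = 1 := by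
  unfold NN AA
  refine Finset.prod_eq_one fun j hj => ?_
  rw [Fc, if_pos hj, if_neg (Finset.notMem_empty _), mul_one, Ntr, Finset.sum_range_succ']
  simp

/-- The crude bound with an unspecified exponent. -/
lemma core4 (h8 : K3.StCore4) : ∃ D : ℕ, ∃ C : ℝ, 0 < C ∧ ∃ M₀ : ℕ, 1 ≤ M₀ ∧ ∀ M : ℕ, M₀ ≤ M →
    ∃ T₀ : ℝ, 3 ≤ T₀ ∧ ∀ T, T₀ ≤ T → ∀ k : ℝ, |k - 2| ≤ 1 / 10 → ∀ z : ℂ, 0 ≤ z.re →
    ER (SB T M (JJ T)) (fun f => ‖ZZ (PS 0 T) (tw ((1 / 2 : ℂ) + z / Real.log T) f)‖ ^ 4 *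
        ‖NN T M (k - 2) (tw (1 / 2) f)‖ ^ 2) ≤
      Real.exp (C * M) * (1 + ‖z‖) ^ D * (Real.log T) ^ (k ^ 2) := by
  obtain ⟨C, hC, M₀, hM₀, cr⟩ := h8
  refine ⟨100, C, hC, M₀, hM₀, fun M hM => ?_⟩
  obtain ⟨T₀, hT₀, cr⟩ := cr M hM
  refine ⟨T₀, hT₀, fun T hT k hk z hz => ?_⟩
  have h := cr T hT k hk (Finset.range (JJ T + 1)) ∅ (by simp) z hz
  simp only [K3.AQ_NN, Finset.prod_empty, mul_one] at h
  exact h

lemma am_gm4 {x y z n : ℝ} (hn : 0 ≤ n) :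
    x * y * (z * z) * (n * n) ≤ x ^ 4 * n ^ 2 + y ^ 4 * n ^ 2 + z ^ 4 * n ^ 2 := by
  have h2 : x * y * (z * z) ≤ x ^ 4 + y ^ 4 + z ^ 4 := by
    nlinarith [sq_nonneg (x * y - z * z), sq_nonneg (x * x - y * y), sq_nonneg (x * x),
      sq_nonneg (y * y), sq_nonneg (z * z)]
  calc x * y * (z * z) * (n * n) ≤ (x ^ 4 + y ^ 4 + z ^ 4) * (n * n) := by gcongr
    _ = x ^ 4 * n ^ 2 + y ^ 4 * n ^ 2 + z ^ 4 * n ^ 2 := by ring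

/-- Crude bound for the shifted fourth moment. -/
lemma crude4 (h8 : K3.StCore4) : ∃ D : ℕ, ∃ C : ℝ, 0 < C ∧ ∃ M₀ : ℕ, 1 ≤ M₀ ∧ ∀ M : ℕ, M₀ ≤ M →
    ∃ T₀ : ℝ, 3 ≤ T₀ ∧ ∀ T, T₀ ≤ T → ∀ k : ℝ, |k - 2| ≤ 1 / 10 → ∀ z₁ z₂ : ℂ, 0 ≤ z₁.re →
    0 ≤ z₂.re →
    ‖K3.RZ4 T M (NN T M (k - 2)) (z₁ / Real.log T) (z₂ / Real.log T) 0 0‖ ≤
      Real.exp (C * M) * (3 * ((1 + ‖z₁‖) * (1 + ‖z₂‖)) ^ D) * (Real.log T) ^ (k ^ 2) := by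
  obtain ⟨D, C, hC, M₀, hM₀, cr⟩ := core4 h8
  refine ⟨D, C, hC, M₀, hM₀, fun M hM => ?_⟩
  obtain ⟨T₀, hT₀, cr⟩ := cr M hM
  refine ⟨T₀, hT₀, fun T hT k hk z₁ z₂ hz₁ hz₂ => ?_⟩
  have hT3 : 3 ≤ T := hT₀.trans hT
  have hT1 : 1 < T := by linarith
  have hL : 0 < Real.log T := Real.log_pos hT1
  have c0 := cr T hT k hk 0 le_rfl
  have c1 := cr T hT k hk z₁ hz₁
  have c2 := cr T hT k hk z₂ hz₂
  simp only [zero_div, add_zero, norm_zero, one_pow, mul_one] at c0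
  set L := Real.log T with hLd
  set Sb := SB T M (JJ T) with hSb
  set N : (ℕ → ℂ) → ℂ := fun f => NN T M (k - 2) (tw (1 / 2) f) with hN
  set Z₁ : (ℕ → ℂ) → ℂ := fun f => ZZ (PS 0 T) (tw ((1 / 2 : ℂ) + z₁ / L) f) with hZ₁
  set Z₂ : (ℕ → ℂ) → ℂ := fun f => ZZ (PS 0 T) (tw ((1 / 2 : ℂ) + z₂ / L) f) with hZ₂
  set Z₀ : (ℕ → ℂ) → ℂ := fun f => ZZ (PS 0 T) (tw (1 / 2 : ℂ) f) with hZ₀
  have hα : |k - 2| ≤ 1 := hk.trans (by norm_num)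
  have bN : BC Sb N := bc_NN hT1 (hM₀.trans hM) hα (by norm_num)
  have b1 : BC Sb Z₁ := bc_ZZ (fun p hp => XB.prime_PS hp) (by
    rw [add_re, div_ofReal_re]
    have : 0 ≤ z₁.re / L := by positivity
    norm_num
    linarith)
  have b2 : BC Sb Z₂ := bc_ZZ (fun p hp => XB.prime_PS hp) (by
    rw [add_re, div_ofReal_re]
    have : 0 ≤ z₂.re / L := by positivity
    norm_num
    linarith)
  have b0 : BC Sb Z₀ := bc_ZZ (fun p hp => XB.prime_PS hp) (by norm_num)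
  have e1 : K3.RZ4 T M (NN T M (k - 2)) (z₁ / L) (z₂ / L) 0 0 =
      ER Sb (fun f => Z₁ f * Z₂ f * (starRingEnd ℂ) (Z₀ f * Z₀ f) *
        (N f * (starRingEnd ℂ) (N f))) := by
    rw [K3.RZ4]
    simp only [map_zero, add_zero, hZ₁, hZ₂, hZ₀, hN, hSb]
  have iZ : ∀ Z : (ℕ → ℂ) → ℂ, BC Sb Z →
      Integrable (fun ω => ‖Z (XX Sb ω)‖ ^ 4 * ‖N (XX Sb ω)‖ ^ 2) (PP0 Sb) := by
    intro Z bZ
    refine (((bZ.mul bZ).mul bN).norm_sq.integrable).congr (Filter.Eventually.of_forall fun ω => ?_)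
    simp only [norm_mul, mul_pow]
    ring
  have i1 := iZ Z₁ b1
  have i2 := iZ Z₂ b2
  have i0 := iZ Z₀ b0
  have h1 : ‖K3.RZ4 T M (NN T M (k - 2)) (z₁ / L) (z₂ / L) 0 0‖ ≤
      ER Sb (fun f => ‖Z₁ f‖ ^ 4 * ‖N f‖ ^ 2) + ER Sb (fun f => ‖Z₂ f‖ ^ 4 * ‖N f‖ ^ 2) +
        ER Sb (fun f => ‖Z₀ f‖ ^ 4 * ‖N f‖ ^ 2) := by
    have e2 : ER Sb (fun f => ‖Z₁ f‖ ^ 4 * ‖N f‖ ^ 2) + ER Sb (fun f => ‖Z₂ f‖ ^ 4 * ‖N f‖ ^ 2) +
        ER Sb (fun f => ‖Z₀ f‖ ^ 4 * ‖N f‖ ^ 2) =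
        ∫ ω, (‖Z₁ (XX Sb ω)‖ ^ 4 * ‖N (XX Sb ω)‖ ^ 2 + ‖Z₂ (XX Sb ω)‖ ^ 4 * ‖N (XX Sb ω)‖ ^ 2 +
          ‖Z₀ (XX Sb ω)‖ ^ 4 * ‖N (XX Sb ω)‖ ^ 2) ∂(PP0 Sb) := by
      rw [ER_eq, ER_eq, ER_eq, ← integral_add i1 i2]
      exact (integral_add (i1.add i2) i0).symm
    rw [e1, e2, ER_eq]
    refine (norm_integral_le_integral_norm _).trans ?_
    refine integral_mono_of_nonneg (Filter.Eventually.of_forall fun ω => norm_nonneg _)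
      ((i1.add i2).add i0) (Filter.Eventually.of_forall fun ω => ?_)
    show ‖Z₁ (XX Sb ω) * Z₂ (XX Sb ω) * (starRingEnd ℂ) (Z₀ (XX Sb ω) * Z₀ (XX Sb ω)) *
        (N (XX Sb ω) * (starRingEnd ℂ) (N (XX Sb ω)))‖ ≤ _
    rw [norm_mul, norm_mul, norm_mul, norm_mul, RCLike.norm_conj, RCLike.norm_conj, norm_mul]
    exact am_gm4 (norm_nonneg _)
  refine h1.trans ((add_le_add (add_le_add c1 c2) c0).trans ?_)
  have hu1 : 1 ≤ 1 + ‖z₁‖ := by linarith [norm_nonneg z₁]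
  have hu2 : 1 ≤ 1 + ‖z₂‖ := by linarith [norm_nonneg z₂]
  have hp1 : (1 + ‖z₁‖) ^ D ≤ ((1 + ‖z₁‖) * (1 + ‖z₂‖)) ^ D :=
    pow_le_pow_left₀ (by positivity) (le_mul_of_one_le_right (by positivity) hu2) _
  have hp2 : (1 + ‖z₂‖) ^ D ≤ ((1 + ‖z₁‖) * (1 + ‖z₂‖)) ^ D :=
    pow_le_pow_left₀ (by positivity) (le_mul_of_one_le_left (by positivity) hu1) _
  have hp0 : 1 ≤ ((1 + ‖z₁‖) * (1 + ‖z₂‖)) ^ D :=
    one_le_pow₀ (one_le_mul_of_one_le_of_one_le hu1 hu2)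
  have hE : 0 ≤ Real.exp (C * M) * L ^ (k ^ 2) := by positivity
  calc Real.exp (C * M) * (1 + ‖z₁‖) ^ D * L ^ (k ^ 2) +
        Real.exp (C * M) * (1 + ‖z₂‖) ^ D * L ^ (k ^ 2) + Real.exp (C * M) * L ^ (k ^ 2)
      = (Real.exp (C * M) * L ^ (k ^ 2)) * ((1 + ‖z₁‖) ^ D + (1 + ‖z₂‖) ^ D + 1) := by ring
    _ ≤ (Real.exp (C * M) * L ^ (k ^ 2)) * (3 * ((1 + ‖z₁‖) * (1 + ‖z₂‖)) ^ D) :=
        mul_le_mul_of_nonneg_left (by linarith) hE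
    _ = _ := by ring

lemma RZ4_one (T : ℝ) (M : ℕ) (a₁ a₂ b₁ b₂ : ℂ) :
    K3.RZ4 T M (fun _ => 1) a₁ a₂ b₁ b₂ = K3.RZ4 T M (NN T M (2 - 2)) a₁ a₂ b₁ b₂ := by
  have h : NN T M (2 - 2) = fun _ => 1 := by
    funext f
    rw [sub_self]
    exact NN_zero T M f
  rw [h]

/-- Comparison of the shifted fourth moment with the untwisted one, all shifts. -/
lemma keyD4 (h7 : K3.StRA4) (h8 : K3.StCore4) : ∃ A : ℕ, ∀ η : ℝ, 0 < η → ∃ M₀ : ℕ, 1 ≤ M₀ ∧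
    ∀ M : ℕ, M₀ ≤ M → ∃ κ₁ : ℝ, 0 < κ₁ ∧ κ₁ ≤ 1 / 10 ∧ ∃ T₀ : ℝ, 3 ≤ T₀ ∧ ∀ T, T₀ ≤ T →
    ∀ k : ℝ, |k - 2| ≤ κ₁ → ∀ z₁ z₂ : ℂ, 0 ≤ z₁.re → 0 ≤ z₂.re →
    ‖K3.RZ4 T M (NN T M (k - 2)) (z₁ / Real.log T) (z₂ / Real.log T) 0 0 -
      (((Real.log T) ^ (k ^ 2 - 4) : ℝ) : ℂ) *
        K3.RZ4 T M (fun _ => 1) (z₁ / Real.log T) (z₂ / Real.log T) 0 0‖ ≤
      η * (Real.log T) ^ (k ^ 2) * ((1 + ‖z₁‖) ^ A * (1 + ‖z₂‖) ^ A) := by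
  obtain ⟨D, C, hC, Mc, hMc, cr⟩ := crude4 h8
  obtain ⟨C₀, hC₀, hEE⟩ := EE_le
  set q := ⌈C⌉₊ with hq
  have hqC : C ≤ q := Nat.le_ceil C
  refine ⟨D + (2 * q + 2), fun η hη => ?_⟩
  obtain ⟨Mr, ra⟩ := h7 (η / C₀ ^ 4) (by positivity)
  obtain ⟨Me, hMe⟩ := exists_nat_ge (Real.log (6 / η))
  refine ⟨max Mc (max Mr Me), hMc.trans (le_max_left _ _), fun M hM => ?_⟩
  have hM1 : Mc ≤ M := (le_max_left _ _).trans hM
  have hM2 : Mr ≤ M := ((le_max_left _ _).trans (le_max_right _ _)).trans hM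
  have hM3 : Me ≤ M := ((le_max_right _ _).trans (le_max_right _ _)).trans hM
  obtain ⟨κ₁, hκ₁, hκ₁1, Tr, hTr, ra⟩ := ra M hM2
  obtain ⟨Tc, hTc, cr⟩ := cr M hM1
  refine ⟨κ₁, hκ₁, hκ₁1, max Tr Tc, hTr.trans (le_max_left _ _), fun T hT k hk z₁ z₂ hz₁ hz₂ => ?_⟩
  have hTTr : Tr ≤ T := (le_max_left _ _).trans hT
  have hTTc : Tc ≤ T := (le_max_right _ _).trans hT
  have hT3 : 3 ≤ T := hTr.trans hTTr
  have hL : 0 < Real.log T := Real.log_pos (by linarith)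
  have ra := ra T hTTr k hk (z₁ / Real.log T) (z₂ / Real.log T) 0 0
  have cr1 := cr T hTTc k (hk.trans hκ₁1) z₁ z₂ hz₁ hz₂
  have cr2 := cr T hTTc 2 (by norm_num) z₁ z₂ hz₁ hz₂
  rw [← RZ4_one] at cr2
  set L := Real.log T with hLd
  have hEE1 : ‖K3.EP T (z₁ / L + 0)‖ ≤ C₀ * L := hEE T hT3 _ (by
    rw [add_zero, div_ofReal_re]; positivity)
  have hEE2 : ‖K3.EP T (z₂ / L + 0)‖ ≤ C₀ * L := hEE T hT3 _ (by
    rw [add_zero, div_ofReal_re]; positivity)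
  have hLk : L ^ (k ^ 2 - 4) * L ^ 4 = L ^ (k ^ 2) := by
    rw [← Real.rpow_natCast L 4, ← Real.rpow_add hL]
    congr 1; push_cast; ring
  have hLk' : L ^ (k ^ 2 - 4) * L ^ ((2 : ℝ) ^ 2) = L ^ (k ^ 2) := by
    rw [← Real.rpow_add hL]
    congr 1; ring
  have hLk0 : 0 < L ^ (k ^ 2 - 4) := Real.rpow_pos_of_pos hL _
  have hLk2 : 0 < L ^ (k ^ 2) := Real.rpow_pos_of_pos hL _
  have hu1 : 1 ≤ 1 + ‖z₁‖ := by linarith [norm_nonneg z₁]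
  have hu2 : 1 ≤ 1 + ‖z₂‖ := by linarith [norm_nonneg z₂]
  set A := D + (2 * q + 2) with hA
  set P := (1 + ‖z₁‖) * (1 + ‖z₂‖) with hP
  have hP1 : 1 ≤ P := one_le_mul_of_one_le_of_one_le hu1 hu2
  have hPA : (1 + ‖z₁‖) ^ A * (1 + ‖z₂‖) ^ A = P ^ A := by rw [hP, mul_pow]
  rw [hPA]
  by_cases hcase : ‖z₁‖ ≤ Real.exp (M / 2) ∧ ‖z₂‖ ≤ Real.exp (M / 2)
  · have n1 : ‖z₁ / (L : ℂ)‖ ≤ Real.exp (M / 2) / L := by
      rw [norm_div, norm_real, Real.norm_eq_abs, abs_of_pos hL]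
      gcongr
      exact hcase.1
    have n2 : ‖z₂ / (L : ℂ)‖ ≤ Real.exp (M / 2) / L := by
      rw [norm_div, norm_real, Real.norm_eq_abs, abs_of_pos hL]
      gcongr
      exact hcase.2
    have n0 : ‖(0 : ℂ)‖ ≤ Real.exp (M / 2) / L := by
      rw [norm_zero]; positivity
    have ra := ra n1 n2 n0 n0
    refine ra.trans ?_
    calc η / C₀ ^ 4 * L ^ (k ^ 2 - 4) * (‖K3.EP T (z₁ / L + 0)‖ * ‖K3.EP T (z₁ / L + 0)‖ *
          ‖K3.EP T (z₂ / L + 0)‖ * ‖K3.EP T (z₂ / L + 0)‖)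
        ≤ η / C₀ ^ 4 * L ^ (k ^ 2 - 4) * ((C₀ * L) * (C₀ * L) * (C₀ * L) * (C₀ * L)) := by gcongr
      _ = η * L ^ (k ^ 2) := by rw [← hLk]; field_simp
      _ ≤ _ := le_mul_of_one_le_right (by positivity) (one_le_pow₀ hP1)
  · have hbig : Real.exp (M / 2) ≤ P := by
      rw [not_and_or, not_le, not_le] at hcase
      rcases hcase with h | h
      · calc Real.exp (M / 2) ≤ ‖z₁‖ := h.le
          _ ≤ (1 + ‖z₁‖) * 1 := by linarith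
          _ ≤ P := by rw [hP]; gcongr
      · calc Real.exp (M / 2) ≤ ‖z₂‖ := h.le
          _ ≤ 1 * (1 + ‖z₂‖) := by linarith
          _ ≤ P := by rw [hP]; gcongr
    have h1 : Real.exp (C * M) * Real.exp M ≤ P ^ (2 * q + 2) := by
      calc Real.exp (C * M) * Real.exp M = Real.exp ((C + 1) * M) := by
            rw [← Real.exp_add]; congr 1; ring
        _ ≤ Real.exp (((2 * q + 2 : ℕ) : ℝ) * (M / 2)) := by
            apply Real.exp_le_exp.2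
            push_cast
            have : (C + 1) * M ≤ (q + 1) * M := by gcongr
            linarith
        _ = Real.exp (M / 2) ^ (2 * q + 2) := by rw [Real.exp_nat_mul]
        _ ≤ _ := pow_le_pow_left₀ (Real.exp_pos _).le hbig _
    have h2 : 6 ≤ η * Real.exp M := by
      have h3 : Real.log (6 / η) ≤ M := hMe.trans (by exact_mod_cast hM3)
      have h4 : 6 / η ≤ Real.exp M := by
        rw [← Real.exp_log (show 0 < 6 / η by positivity)]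
        exact Real.exp_le_exp.2 h3
      rw [div_le_iff₀ hη] at h4
      linarith
    have h5 : ‖((L ^ (k ^ 2 - 4) : ℝ) : ℂ) * K3.RZ4 T M (fun _ => 1) (z₁ / L) (z₂ / L) 0 0‖ ≤
        Real.exp (C * M) * (3 * P ^ D) * L ^ (k ^ 2) := by
      rw [norm_mul, norm_real, Real.norm_eq_abs, abs_of_pos hLk0]
      calc L ^ (k ^ 2 - 4) * ‖K3.RZ4 T M (fun _ => 1) (z₁ / L) (z₂ / L) 0 0‖
          ≤ L ^ (k ^ 2 - 4) * (Real.exp (C * M) * (3 * P ^ D) * L ^ ((2 : ℝ) ^ 2)) := by gcongr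
        _ = _ := by rw [← hLk']; ring
    refine (norm_sub_le _ _).trans ((add_le_add cr1 h5).trans ?_)
    calc Real.exp (C * M) * (3 * P ^ D) * L ^ (k ^ 2) +
          Real.exp (C * M) * (3 * P ^ D) * L ^ (k ^ 2) =
          6 * Real.exp (C * M) * P ^ D * L ^ (k ^ 2) := by ring
      _ ≤ (η * Real.exp M) * Real.exp (C * M) * P ^ D * L ^ (k ^ 2) := by gcongr
      _ = η * L ^ (k ^ 2) * (P ^ D * (Real.exp (C * M) * Real.exp M)) := by ring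
      _ ≤ η * L ^ (k ^ 2) * (P ^ D * P ^ (2 * q + 2)) := by gcongr
      _ = _ := by rw [hA, pow_add P D]

/-- The pairing as a double average of shifted fourth moments. -/
lemma rep {δ : ℝ} (hδ : 0 < δ) {g : ℝ → ℂ} (hg : GF δ g) {T : ℝ} (hT : 1 < T) (M : ℕ)
    (G : (ℕ → ℂ) → ℂ) (hG : BC (SB T M (JJ T)) (fun f => G (tw (1 / 2) f))) :
    (∀ ξ : ℝ, Integrable (fun ξ₂ : ℝ => g ξ₂ *
      K3.RZ4 T M G (zz ξ₂ / Real.log T) (zz ξ / Real.log T) 0 0)) ∧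
    Integrable (fun ξ : ℝ => g ξ * ∫ ξ₂ : ℝ, g ξ₂ *
      K3.RZ4 T M G (zz ξ₂ / Real.log T) (zz ξ / Real.log T) 0 0) ∧
    (starRingEnd ℂ) (ER (SB T M (JJ T)) (fun f => ZZ (PS 0 T) (tw (1 / 2) f) ^ 2 *
        (G (tw (1 / 2) f) * (starRingEnd ℂ) (SH δ T (tw (1 / 2) f) ^ 2 * G (tw (1 / 2) f))))) =
      ∫ ξ : ℝ, g ξ * ∫ ξ₂ : ℝ, g ξ₂ *
        K3.RZ4 T M G (zz ξ₂ / Real.log T) (zz ξ / Real.log T) 0 0 := by
  have hL : 0 < Real.log T := Real.log_pos hT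
  set N : (ℕ → ℂ) → ℂ := fun f => G (tw (1 / 2) f) with hN
  set Z : (ℕ → ℂ) → ℂ := fun f => ZZ (PS 0 T) (tw (1 / 2) f) with hZ
  have bZ : BC (SB T M (JJ T)) Z := bc_ZZ (fun p hp => XB.prime_PS hp) (by norm_num)
  set S : (ℕ → ℂ) → ℂ := fun f => SH δ T (tw (1 / 2) f) with hS
  have bS : BC (SB T M (JJ T)) S := bc_SH δ T (1 / 2) _
  set B : (ℕ → ℂ) → ℂ := fun f => S f * ((starRingEnd ℂ) (Z f * Z f) *
    (N f * (starRingEnd ℂ) (N f))) with hB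
  have bB : BC (SB T M (JJ T)) B := bS.mul ((bZ.mul bZ).conj.mul (hG.mul hG.conj))
  obtain ⟨i1, r1⟩ := ER_SH hδ hg (blk_SB hT M (JJ T)) hT
    (fun n h1 h2 => mem_factored hT M (JJ T) h1 h2) (w := 1 / 2) (by norm_num) bB
  set L := Real.log T with hLd
  have inner : ∀ ξ : ℝ, Integrable (fun ξ₂ : ℝ => g ξ₂ *
        K3.RZ4 T M G (zz ξ₂ / L) (zz ξ / L) 0 0) ∧ ER (SB T M (JJ T)) (fun f =>
        ZZ (UU (SB T M (JJ T))) (tw (1 / 2 + zz ξ / L) f) * B f) = ∫ ξ₂ : ℝ, g ξ₂ *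
        K3.RZ4 T M G (zz ξ₂ / L) (zz ξ / L) 0 0 := by
    intro ξ
    set B' : (ℕ → ℂ) → ℂ := fun f => ZZ (PS 0 T) (tw (1 / 2 + zz ξ / L) f) *
      ((starRingEnd ℂ) (Z f * Z f) * (N f * (starRingEnd ℂ) (N f))) with hB'
    have bZ' : BC (SB T M (JJ T)) (fun f => ZZ (PS 0 T) (tw (1 / 2 + zz ξ / L) f)) :=
      bc_ZZ (fun p hp => XB.prime_PS hp) (by
        rw [sh_re]
        have h2 : ((1 / 2 : ℂ)).re = 1 / 2 := by norm_num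
        rw [h2]
        positivity)
    obtain ⟨i3, r3⟩ := ER_SH hδ hg (blk_SB hT M (JJ T)) hT
      (fun n h1 h2 => mem_factored hT M (JJ T) h1 h2) (w := 1 / 2) (by norm_num)
      (B := B') (bZ'.mul ((bZ.mul bZ).conj.mul (hG.mul hG.conj)))
    rw [← hLd] at i3 r3
    have e3 : ∀ ξ₂ : ℝ, ER (SB T M (JJ T)) (fun f => ZZ (UU (SB T M (JJ T)))
        (tw (1 / 2 + zz ξ₂ / L) f) * B' f) = K3.RZ4 T M G (zz ξ₂ / L) (zz ξ / L) 0 0 := by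
      intro ξ₂
      rw [K3.RZ4, UU_SB hT]
      congr 1
      funext f
      simp only [hB', hN, hZ, map_zero, add_zero]
      ring
    simp only [e3] at i3 r3
    refine ⟨i3, ?_⟩
    rw [← r3, UU_SB hT]
    congr 1
    funext f
    simp only [hB, hB', hS]
    ring
  have e1 := fun ξ => (inner ξ).2
  simp only [e1] at i1 r1
  refine ⟨fun ξ => (inner ξ).1, i1, ?_⟩
  rw [← r1, ← ER_conj]
  congr 1
  funext f
  simp only [hB, hS, hZ, hN, map_mul, map_pow, conj_conj]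
  ring

/-- The exact value without mollifier. -/
lemma exact {δ : ℝ} (hδ : 0 < δ) {T : ℝ} (hT : 1 < T) (M : ℕ) :
    ER (SB T M (JJ T)) (fun f => ZZ (PS 0 T) (tw (1 / 2) f) ^ 2 *
        ((1 : ℂ) * (starRingEnd ℂ) (SH δ T (tw (1 / 2) f) ^ 2 * 1))) = ((S2 δ T : ℝ) : ℂ) := by
  have hT0 : 0 < T := by linarith
  have hL : 0 < Real.log T := Real.log_pos hT
  have bZ : BC (SB T M (JJ T)) (fun f => ZZ (PS 0 T) (tw (1 / 2) f)) :=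
    bc_ZZ (fun p hp => XB.prime_PS hp) (by norm_num)
  have bZ2 : BC (SB T M (JJ T)) (fun f => ZZ (PS 0 T) (tw (1 / 2) f) ^ 2) := by
    have h := bZ.mul bZ
    simpa only [sq] using h
  set c : ℕ → ℕ → ℂ := fun m n => (Pb δ (Real.log m / Real.log T) : ℂ) *
    (Pb δ (Real.log n / Real.log T) : ℂ) * ((m * n : ℕ) : ℂ) ^ (-(1 / 2 : ℂ)) with hc
  have hreal : ∀ n : ℕ, (starRingEnd ℂ) ((n : ℂ) ^ (-(1 / 2 : ℂ))) = (n : ℂ) ^ (-(1 / 2 : ℂ)) := by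
    intro n
    have h1 : (n : ℂ) ^ (-(1 / 2 : ℂ)) = (((n : ℝ) ^ (-(1 / 2) : ℝ) : ℝ) : ℂ) := by
      rw [ofReal_cpow (Nat.cast_nonneg n)]
      push_cast
      rfl
    rw [h1, conj_ofReal]
  have e1 : ∀ ω, ZZ (PS 0 T) (tw (1 / 2) (XX (SB T M (JJ T)) ω)) ^ 2 *
        ((1 : ℂ) * (starRingEnd ℂ) (SH δ T (tw (1 / 2) (XX (SB T M (JJ T)) ω)) ^ 2 * 1)) =
      ∑ m ∈ Finset.Icc 1 ⌊T⌋₊, ∑ n ∈ Finset.Icc 1 ⌊T⌋₊, c m n *
        (ZZ (PS 0 T) (tw (1 / 2) (XX (SB T M (JJ T)) ω)) ^ 2 *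
          ((XX (SB T M (JJ T)) ω) 1 * (starRingEnd ℂ) ((XX (SB T M (JJ T)) ω) (m * n)))) := by
    intro ω
    have hf := cmul_XX (SB T M (JJ T)) ω
    set f := XX (SB T M (JJ T)) ω with hfd
    rw [one_mul, mul_one, sq (SH δ T (tw (1 / 2) f)), SH, Finset.sum_mul_sum, map_sum,
      Finset.mul_sum]
    refine Finset.sum_congr rfl fun m hm => ?_
    rw [map_sum, Finset.mul_sum]
    refine Finset.sum_congr rfl fun n hn => ?_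
    have hm0 : m ≠ 0 := by rw [Finset.mem_Icc] at hm; omega
    have hn0 : n ≠ 0 := by rw [Finset.mem_Icc] at hn; omega
    rw [hf.2 m n hm0 hn0, hf.1]
    simp only [hc, tw, map_mul, conj_ofReal, hreal]
    push_cast
    rw [natCast_mul_natCast_cpow]
    ring
  have e2 : ER (SB T M (JJ T)) (fun f => ZZ (PS 0 T) (tw (1 / 2) f) ^ 2 *
        ((1 : ℂ) * (starRingEnd ℂ) (SH δ T (tw (1 / 2) f) ^ 2 * 1))) =
      ER (SB T M (JJ T)) (fun f => ∑ m ∈ Finset.Icc 1 ⌊T⌋₊, ∑ n ∈ Finset.Icc 1 ⌊T⌋₊, c m n *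
        (ZZ (PS 0 T) (tw (1 / 2) f) ^ 2 * (f 1 * (starRingEnd ℂ) (f (m * n))))) := by
    simp only [ER_eq]
    exact integral_congr_ae (Filter.Eventually.of_forall e1)
  have hbc : ∀ m n : ℕ, BC (SB T M (JJ T)) (fun f => c m n *
      (ZZ (PS 0 T) (tw (1 / 2) f) ^ 2 * (f 1 * (starRingEnd ℂ) (f (m * n))))) := fun m n =>
    BC.const_mul (bZ2.mul ((bc_apply _).mul (bc_apply _).conj)) _
  rw [e2, ER_sum _ fun m _ => bc_sum _ fun n _ => hbc m n, S2]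
  push_cast
  refine Finset.sum_congr rfl fun m hm => ?_
  rw [ER_sum _ fun n _ => hbc m n]
  refine Finset.sum_congr rfl fun n hn => ?_
  rw [ER_const_mul]
  have hm1 : 1 ≤ m := (Finset.mem_Icc.1 hm).1
  have hn1 : 1 ≤ n := (Finset.mem_Icc.1 hn).1
  have hm0 : (0 : ℝ) < m := by exact_mod_cast hm1
  have hn0 : (0 : ℝ) < n := by exact_mod_cast hn1
  by_cases hmn : ((m * n : ℕ) : ℝ) ≤ T
  · rw [K3.TransferZ2.er_pair2 hT M (JJ T) le_rfl (by push_cast; linarith)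
      (Nat.mul_pos hm1 hn1) hmn, if_pos (one_dvd _), Nat.div_one]
    have h0 : ((m * n : ℕ) : ℂ) ≠ 0 := by
      have := Nat.mul_pos hm1 hn1
      exact_mod_cast this.ne'
    have h1 : ((m * n : ℕ) : ℂ) ^ (-(1 / 2 : ℂ)) * ((m * n : ℕ) : ℂ) ^ (-(1 / 2 : ℂ)) =
        ((m * n : ℕ) : ℂ)⁻¹ := by
      rw [← cpow_add _ _ h0, ← cpow_neg_one]
      congr 1
      ring
    calc c m n * ((K3.dv (m * n) : ℂ) * ((m * n : ℕ) : ℂ) ^ (-(1 / 2 : ℂ)))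
        = (Pb δ (Real.log m / Real.log T) : ℂ) * (Pb δ (Real.log n / Real.log T) : ℂ) *
          (K3.dv (m * n) : ℂ) * (((m * n : ℕ) : ℂ) ^ (-(1 / 2 : ℂ)) *
            ((m * n : ℕ) : ℂ) ^ (-(1 / 2 : ℂ))) := by simp only [hc]; ring
      _ = _ := by
          rw [h1]
          push_cast
          exact (div_eq_mul_inv _ _).symm
  · push Not at hmn
    have h1 : Pb δ (Real.log m / Real.log T) * Pb δ (Real.log n / Real.log T) = 0 := by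
      by_contra h
      rw [mul_eq_zero, not_or] at h
      have h2 : Real.log m / Real.log T < 1 / 2 - δ := by
        by_contra h3
        exact h.1 (Pb_zero hδ (not_lt.1 h3))
      have h3 : Real.log n / Real.log T < 1 / 2 - δ := by
        by_contra h3
        exact h.2 (Pb_zero hδ (not_lt.1 h3))
      rw [div_lt_iff₀ hL] at h2 h3
      have h4 := Real.log_lt_log hT0 hmn
      push_cast at h4
      rw [Real.log_mul hm0.ne' hn0.ne'] at h4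
      nlinarith
    have h2 : (Pb δ (Real.log m / Real.log T) : ℂ) * (Pb δ (Real.log n / Real.log T) : ℂ) = 0 := by
      rw [← ofReal_mul, h1, ofReal_zero]
    simp only [hc]
    rw [h2]
    ring

end PairR

open PairR K1.SHF in
theorem stPairR (h7 : K3.StRA4) (h8 : K3.StCore4) : StPairR := by
  intro δ η hδ _ hη
  obtain ⟨g, hg⟩ := exists_g hδ
  obtain ⟨A, key⟩ := keyD4 h7 h8
  set K : ℝ := ∫ ξ : ℝ, ‖g ξ‖ * (1 + |ξ|) ^ A with hK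
  have hK0 : 0 ≤ K := integral_nonneg fun ξ => by positivity
  obtain ⟨M₀, hM₀, key⟩ := key (η / (7 ^ A * (K + 1)) ^ 2) (by positivity)
  refine ⟨M₀, fun M hM => ?_⟩
  obtain ⟨κ₁, hκ₁, hκ₁1, T₀, hT₀, key⟩ := key M hM
  refine ⟨κ₁, hκ₁, hκ₁1, T₀, hT₀, fun T hT k hk => ?_⟩
  have hT3 : 3 ≤ T := hT₀.trans hT
  have hT1 : 1 < T := by linarith
  have hL : 0 < Real.log T := Real.log_pos hT1
  have key := key T hT k hk
  have hα : |k - 2| ≤ 1 := hk.trans (hκ₁1.trans (by norm_num))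
  have bN : BC (SB T M (JJ T)) (fun f => NN T M (k - 2) (tw (1 / 2) f)) :=
    bc_NN hT1 (hM₀.trans hM) hα (by norm_num)
  obtain ⟨j1, i1, r1⟩ := rep hδ hg hT1 M (NN T M (k - 2)) bN
  obtain ⟨j2, i2, r2⟩ := rep hδ hg hT1 M (fun _ => (1 : ℂ)) (bc_const _)
  rw [PairR.exact hδ hT1 M, conj_ofReal] at r2
  set L := Real.log T with hLd
  set c : ℝ := L ^ (k ^ 2 - 4) with hc
  rw [← RCLike.norm_conj (_ - _), map_sub, conj_ofReal, ofReal_mul, r1, r2, ← integral_const_mul,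
    ← integral_sub i1 (i2.const_mul _)]
  have hin : ∀ ξ : ℝ, g ξ * (∫ ξ₂ : ℝ, g ξ₂ *
      K3.RZ4 T M (NN T M (k - 2)) (zz ξ₂ / L) (zz ξ / L) 0 0) - (c : ℂ) * (g ξ * ∫ ξ₂ : ℝ, g ξ₂ *
      K3.RZ4 T M (fun _ => 1) (zz ξ₂ / L) (zz ξ / L) 0 0) = g ξ * ∫ ξ₂ : ℝ, g ξ₂ *
      (K3.RZ4 T M (NN T M (k - 2)) (zz ξ₂ / L) (zz ξ / L) 0 0 -
        (c : ℂ) * K3.RZ4 T M (fun _ => 1) (zz ξ₂ / L) (zz ξ / L) 0 0) := by
    intro ξ
    have h1 : ∫ ξ₂ : ℝ, g ξ₂ * (K3.RZ4 T M (NN T M (k - 2)) (zz ξ₂ / L) (zz ξ / L) 0 0 -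
        (c : ℂ) * K3.RZ4 T M (fun _ => 1) (zz ξ₂ / L) (zz ξ / L) 0 0) =
        (∫ ξ₂ : ℝ, g ξ₂ * K3.RZ4 T M (NN T M (k - 2)) (zz ξ₂ / L) (zz ξ / L) 0 0) -
        (c : ℂ) * ∫ ξ₂ : ℝ, g ξ₂ * K3.RZ4 T M (fun _ => 1) (zz ξ₂ / L) (zz ξ / L) 0 0 := by
      rw [← integral_const_mul, ← integral_sub (j1 ξ) ((j2 ξ).const_mul _)]
      congr 1
      funext ξ₂
      ring
    rw [h1]
    ring
  simp only [hin]
  have hb2 : ∀ ξ : ℝ, ‖∫ ξ₂ : ℝ, g ξ₂ *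
      (K3.RZ4 T M (NN T M (k - 2)) (zz ξ₂ / L) (zz ξ / L) 0 0 -
        (c : ℂ) * K3.RZ4 T M (fun _ => 1) (zz ξ₂ / L) (zz ξ / L) 0 0)‖ ≤
      K * ((1 + |ξ|) ^ A * (η / (K + 1) ^ 2 * L ^ (k ^ 2))) := by
    intro ξ
    have hb : ∀ ξ₂ : ℝ, ‖g ξ₂ * (K3.RZ4 T M (NN T M (k - 2)) (zz ξ₂ / L) (zz ξ / L) 0 0 -
        (c : ℂ) * K3.RZ4 T M (fun _ => 1) (zz ξ₂ / L) (zz ξ / L) 0 0)‖ ≤
        ‖g ξ₂‖ * (1 + |ξ₂|) ^ A * ((1 + |ξ|) ^ A * (η / (K + 1) ^ 2 * L ^ (k ^ 2))) := by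
      intro ξ₂
      have h1 := key (zz ξ₂) (zz ξ) (by rw [zz_re]; norm_num) (by rw [zz_re]; norm_num)
      rw [norm_mul]
      have h2 : ∀ x : ℝ, (1 + ‖zz x‖) ^ A ≤ 7 ^ A * (1 + |x|) ^ A := by
        intro x
        rw [← mul_pow]
        exact pow_le_pow_left₀ (by positivity) (norm_zz_le x) A
      have h3 := h2 ξ
      have h4 := h2 ξ₂
      calc ‖g ξ₂‖ * ‖K3.RZ4 T M (NN T M (k - 2)) (zz ξ₂ / L) (zz ξ / L) 0 0 -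
            (c : ℂ) * K3.RZ4 T M (fun _ => 1) (zz ξ₂ / L) (zz ξ / L) 0 0‖ ≤
            ‖g ξ₂‖ * (η / (7 ^ A * (K + 1)) ^ 2 * L ^ (k ^ 2) *
              ((7 ^ A * (1 + |ξ₂|) ^ A) * (7 ^ A * (1 + |ξ|) ^ A))) := by
            gcongr
            exact h1.trans (by gcongr)
        _ = _ := by
            field_simp
    refine (norm_integral_le_of_norm_le ((hg.int A).mul_const _)
      (Filter.Eventually.of_forall hb)).trans ?_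
    rw [integral_mul_const, ← hK]
  have hb3 : ∀ ξ : ℝ, ‖g ξ * ∫ ξ₂ : ℝ, g ξ₂ *
      (K3.RZ4 T M (NN T M (k - 2)) (zz ξ₂ / L) (zz ξ / L) 0 0 -
        (c : ℂ) * K3.RZ4 T M (fun _ => 1) (zz ξ₂ / L) (zz ξ / L) 0 0)‖ ≤
      ‖g ξ‖ * (1 + |ξ|) ^ A * (K * (η / (K + 1) ^ 2 * L ^ (k ^ 2))) := by
    intro ξ
    rw [norm_mul]
    calc ‖g ξ‖ * ‖∫ ξ₂ : ℝ, g ξ₂ *
        (K3.RZ4 T M (NN T M (k - 2)) (zz ξ₂ / L) (zz ξ / L) 0 0 -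
          (c : ℂ) * K3.RZ4 T M (fun _ => 1) (zz ξ₂ / L) (zz ξ / L) 0 0)‖ ≤
        ‖g ξ‖ * (K * ((1 + |ξ|) ^ A * (η / (K + 1) ^ 2 * L ^ (k ^ 2)))) := by
          gcongr
          exact hb2 ξ
      _ = _ := by ring
  refine (norm_integral_le_of_norm_le ((hg.int A).mul_const _)
    (Filter.Eventually.of_forall hb3)).trans ?_
  rw [integral_mul_const, ← hK]
  have hKK : K * K ≤ (K + 1) ^ 2 := by nlinarith
  calc K * (K * (η / (K + 1) ^ 2 * L ^ (k ^ 2))) = (K * K) * (η / (K + 1) ^ 2 * L ^ (k ^ 2)) := by ring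
    _ ≤ (K + 1) ^ 2 * (η / (K + 1) ^ 2 * L ^ (k ^ 2)) := by gcongr
    _ = _ := by field_simp

end K4
end Pool.Agent.Lib.MP_973905_nt
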