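import Pool.Agent.Lib.MP_973905_nt.K4.Stmts
import Pool.Agent.Lib.MP_973905_nt.K1.Fourth
import Pool.Agent.Lib.MP_973905_nt.K1.Small

/-! Module (A1) of K4: the pairing on Gaussian means. -/

namespace Pool.Agent.Lib.MP_973905_nt
namespace K4

open MeasureTheory ProbabilityTheory Complex Filter Topology K1 F4

/-- (A1) the pairing on Gaussian means of variance `T^{2-δ/2}` -/
theorem stPairT (hr : StPairR) (h2 : K3.StTransferZ2) : StPairT := by
  intro δ η hδ hδ8 hη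
  obtain ⟨Ma, hMa⟩ := hr δ (η / 2) hδ hδ8 (by positivity)
  obtain ⟨Mb, hMb⟩ := stShort (δ / 2) (by positivity)
  obtain ⟨T₂, hT₂, hZ⟩ := h2 δ hδ hδ8
  refine ⟨max Ma Mb, fun M hM => ?_⟩
  obtain ⟨κ₁, hκ₁, hκ₁1, T₁, hT₁, hR⟩ := hMa M ((le_max_left _ _).trans hM)
  obtain ⟨T₃, hT₃, hS⟩ := hMb M ((le_max_right _ _).trans hM)
  refine ⟨κ₁, hκ₁, hκ₁1, max T₁ (max T₂ (max T₃ (2 / η))), hT₁.trans (le_max_left _ _),
    fun T hT k hk τ hτ1 hτ2 => ?_⟩
  simp only [max_le_iff] at hT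
  obtain ⟨hTa, hTb, hTc, hTd⟩ := hT
  have hT3 : 3 ≤ T := hT₁.trans hTa
  have hT1 : 1 < T := by linarith
  have hT0 : 0 < T := by linarith
  have hL1 : 1 ≤ Real.log T := by
    rw [Real.le_log_iff_exp_le hT0]
    linarith [Real.exp_one_lt_d9]
  have hN : DP (T ^ (δ / 2)) (T ^ (δ / 2)) (NN T M (k - 2)) :=
    hS T hTc (k - 2) (hk.trans (hκ₁1.trans (by norm_num))) _ _
  have hSH : DP (T ^ (1 / 2 - δ)) T (SH δ T) := K1.Fourth.dp_SH hδ hT1
  have hG : DP (T ^ (1 - 3 * δ / 8 : ℝ)) (T ^ 3) (fun f => NN T M (k - 2) (tw (1 / 2) f)) := by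
    refine (hN.twist (w := (1 / 2 : ℂ)) (by norm_num)).mono ?_ ?_
    · exact Real.rpow_le_rpow_of_exponent_le hT1.le (by linarith)
    · rw [← Real.rpow_natCast]
      exact Real.rpow_le_rpow_of_exponent_le hT1.le (by push_cast; linarith)
  have hSN := ((hSH.pow 2).mul hN)
  have hH : DP (T ^ (1 - 3 * δ / 8 : ℝ)) (T ^ 3)
      (fun f => SH δ T (tw (1 / 2) f) ^ 2 * NN T M (k - 2) (tw (1 / 2) f)) := by
    refine (hSN.twist (w := (1 / 2 : ℂ)) (by norm_num)).mono ?_ ?_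
    · rw [← Real.rpow_natCast, ← Real.rpow_mul hT0.le, ← Real.rpow_add hT0]
      exact Real.rpow_le_rpow_of_exponent_le hT1.le (by push_cast; linarith)
    · rw [show (T : ℝ) ^ 3 = T ^ 2 * T ^ (1 : ℝ) by rw [Real.rpow_one]; ring]
      exact mul_le_mul_of_nonneg_left
        (Real.rpow_le_rpow_of_exponent_le hT1.le (by linarith)) (by positivity)
  have h3 := hZ T hTb τ hτ1 hτ2 M _ _ hG hH
  have h4 := hR T hTa k hk
  have e1 : ∀ t : ℝ, riemannZeta (1 / 2 + t * I) ^ 2 *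
        (starRingEnd ℂ) (SH δ T (fs (1 / 2 + t * I)) ^ 2) *
        ((‖NN T M (k - 2) (fs (1 / 2 + t * I))‖ ^ 2 : ℝ) : ℂ) =
      riemannZeta (1 / 2 + t * I) ^ 2 * (NN T M (k - 2) (tw (1 / 2) (fs (t * I))) *
        (starRingEnd ℂ) (SH δ T (tw (1 / 2) (fs (t * I))) ^ 2 *
          NN T M (k - 2) (tw (1 / 2) (fs (t * I))))) := by
    intro t
    rw [← hN.fs_add, ← hSH.fs_add, map_mul]
    have e2 : ((‖NN T M (k - 2) (fs (1 / 2 + t * I))‖ ^ 2 : ℝ) : ℂ) =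
        NN T M (k - 2) (fs (1 / 2 + t * I)) *
          (starRingEnd ℂ) (NN T M (k - 2) (fs (1 / 2 + t * I))) := by
      rw [Complex.mul_conj, Complex.normSq_eq_norm_sq]
    rw [e2]
    ring
  simp only [e1]
  have h5 : T ^ (-2 : ℝ) ≤ η / 2 * (Real.log T) ^ (k ^ 2) := by
    have h6 : (1 : ℝ) ≤ (Real.log T) ^ (k ^ 2) := Real.one_le_rpow hL1 (sq_nonneg _)
    have h7 : T ^ (-2 : ℝ) ≤ T⁻¹ := by
      rw [← Real.rpow_neg_one]
      exact Real.rpow_le_rpow_of_exponent_le hT1.le (by norm_num)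
    have h8 : T⁻¹ ≤ η / 2 := by
      rw [inv_le_comm₀ hT0 (by positivity)]
      refine le_trans (le_of_eq ?_) hTd
      field_simp
    calc T ^ (-2 : ℝ) ≤ η / 2 * 1 := by linarith
      _ ≤ _ := by gcongr
  refine (norm_sub_le_norm_sub_add_norm_sub _ _ _).trans ((add_le_add h3 h4).trans ?_)
  linarith

end K4
end Pool.Agent.Lib.MP_973905_nt
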