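import Pool.Agent.Lib.MP_973905_nt.K4.CoG
import Pool.Agent.Lib.MP_973905_nt.F4.Rem
import Pool.Agent.Lib.MP_973905_nt.F4.RemIn

/-! (G2) all nonzero frequencies together, general cutoff. -/

namespace Pool.Agent.Lib.MP_973905_nt
namespace K4

open MeasureTheory ProbabilityTheory Complex Filter Topology K1 F4

namespace RemG

/-- The weight of the polynomial `qg`. -/
noncomputable def vg (φ : ℝ → ℝ) (T ν : ℝ) (y : ℝ) : ℂ :=
  (φ (Real.log y / Real.log T) : ℂ) * (y : ℂ) ^ (-(((1 / Real.log T : ℝ) : ℂ) + ν * I))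

variable {φ : ℝ → ℝ}

theorem vg_nat (T ν : ℝ) (n : ℕ) : vg φ T ν n = qg φ T ν n := by
  unfold vg qg
  simp

theorem vg_bound {K : ℝ} (hK1 : 1 ≤ K) (hK : ∀ x, |φ x| ≤ K) {T ν y : ℝ} (hT : 3 ≤ T)
    (hy : 1 ≤ y) : ‖vg φ T ν y‖ ≤ K := by
  unfold vg
  rw [norm_mul, Complex.norm_real, Real.norm_eq_abs]
  calc |φ (Real.log y / Real.log T)| * ‖(y : ℂ) ^ (-(((1 / Real.log T : ℝ) : ℂ) + ν * I))‖ ≤
      K * 1 := mul_le_mul (hK _) (RemInP.vq_norm hT hy) (norm_nonneg _) (by linarith)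
    _ = K := mul_one K

theorem vg_zero (hφ : CutK φ) {T ν y : ℝ} (hT : 3 ≤ T) (hy : T ^ (501 / 1000 : ℝ) ≤ y) :
    vg φ T ν y = 0 := by
  have hL : 0 < Real.log T := Real.log_pos (by linarith)
  unfold vg
  rw [hφ.zeroK, Complex.ofReal_zero, zero_mul]
  rw [le_div_iff₀ hL, ← Real.log_rpow (by linarith)]
  exact Real.log_le_log (by positivity) hy

theorem vg_deriv (hφ : CutK φ) {K K' : ℝ} (hK1 : 1 ≤ K) (hK : ∀ x, |φ x| ≤ K)
    (hK0' : 0 < K') (hK' : ∀ x, |deriv φ x| ≤ K') {T ν y : ℝ} (hT : 3 ≤ T) (hy : 1 ≤ y) :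
    ∃ v' : ℂ, HasDerivAt (vg φ T ν) v' y ∧ ‖v'‖ ≤ (K' + K * (1 + |ν|)) / y := by
  have hL1 : 1 ≤ Real.log T := by
    rw [Real.le_log_iff_exp_le (by linarith)]
    linarith [Real.exp_one_lt_d9]
  have hL : 0 < Real.log T := by linarith
  have hy0 : 0 < y := by linarith
  have h1 : HasDerivAt (fun y : ℝ => Real.log y / Real.log T) (y⁻¹ / Real.log T) y :=
    (Real.hasDerivAt_log hy0.ne').div_const _
  have hdiff : Differentiable ℝ φ := hφ.cut.smooth.differentiable (by norm_num)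
  have h2 : HasDerivAt φ (deriv φ (Real.log y / Real.log T)) (Real.log y / Real.log T) :=
    (hdiff _).hasDerivAt
  have h3 : HasDerivAt (fun y : ℝ => φ (Real.log y / Real.log T))
      (deriv φ (Real.log y / Real.log T) * (y⁻¹ / Real.log T)) y := by
    simpa [Function.comp_def] using HasDerivAt.comp (h₂ := φ) y h2 h1
  have h4 := h3.ofReal_comp
  set s : ℂ := -(((1 / Real.log T : ℝ) : ℂ) + ν * I) with hs
  have h5 : HasDerivAt (fun y : ℝ => (y : ℂ) ^ s) (s * (y : ℂ) ^ (s - 1)) y := by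
    have h6 : HasDerivAt (fun z : ℂ => z ^ s) (s * (y : ℂ) ^ (s - 1)) (y : ℂ) := by
      simpa using (hasDerivAt_id (y : ℂ)).cpow_const (c := s)
        (by rw [id, Complex.ofReal_mem_slitPlane]; exact hy0)
    simpa using h6.comp_ofReal
  refine ⟨_, h4.mul h5, ?_⟩
  have hn : ‖(y : ℂ) ^ s‖ ≤ 1 := RemInP.vq_norm hT hy
  have hns : ‖s‖ ≤ 1 + |ν| := by
    rw [hs, norm_neg]
    refine (norm_add_le _ _).trans (add_le_add ?_ ?_)
    · rw [Complex.norm_real, Real.norm_of_nonneg (by positivity)]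
      exact (div_le_one hL).mpr hL1
    · simp
  have hn2 : ‖(y : ℂ) ^ (s - 1)‖ ≤ 1 / y := by
    rw [Complex.cpow_sub _ _ (by exact_mod_cast hy0.ne'), norm_div, Complex.cpow_one,
      Complex.norm_real, Real.norm_of_nonneg hy0.le]
    exact div_le_div_of_nonneg_right hn hy0.le
  have a1 : ‖((deriv φ (Real.log y / Real.log T) * (y⁻¹ / Real.log T) : ℝ) : ℂ) *
      (y : ℂ) ^ s‖ ≤ K' / y := by
    rw [norm_mul, Complex.norm_real, norm_mul, Real.norm_eq_abs, Real.norm_eq_abs,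
      abs_of_pos (by positivity : 0 < y⁻¹ / Real.log T)]
    calc |deriv φ (Real.log y / Real.log T)| * (y⁻¹ / Real.log T) * ‖(y : ℂ) ^ s‖ ≤
        K' * (y⁻¹ / 1) * 1 := by
          gcongr
          exact hK' _
      _ = K' / y := by rw [mul_one, div_one, div_eq_mul_inv]
  have a2 : ‖((φ (Real.log y / Real.log T) : ℝ) : ℂ) * (s * (y : ℂ) ^ (s - 1))‖ ≤
      K * (1 + |ν|) / y := by
    rw [norm_mul, norm_mul, Complex.norm_real, Real.norm_eq_abs]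
    calc |φ (Real.log y / Real.log T)| * (‖s‖ * ‖(y : ℂ) ^ (s - 1)‖) ≤
        K * ((1 + |ν|) * (1 / y)) := by
          gcongr
          exact hK _
      _ = K * (1 + |ν|) / y := by ring
  refine (norm_add_le _ _).trans ((add_le_add a1 a2).trans (le_of_eq ?_))
  ring

end RemG

open RemG CoG F4.RemP in
theorem stRemG (h2 : F4.StInc) (h4 : F4.StGh) (hc : StCoG) : StRemG := by
  intro φ hφ
  obtain ⟨CI, hCI, hI⟩ := h2
  obtain ⟨C1, hC1, hGh⟩ := h4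
  obtain ⟨T3, hT3, hco⟩ := hc φ hφ
  obtain ⟨K, hK1, hK⟩ := bdd hφ
  obtain ⟨K', hK0', hK'⟩ := bdd_deriv hφ
  obtain ⟨P, hP⟩ : ∃ P : ℕ, 2 * K0 * (2 * CI) * (K' + 3 * K) ≤ P := exists_nat_ge _
  refine ⟨C1 + 1, by positivity, max T3 (max 16 ((P : ℝ) ^ (500 : ℝ))), by
    refine hT3.trans (le_max_left _ _), fun T hT X hX1 hX2 a c hae hc1 hc2 ν b hb => ?_⟩
  have hTb : T3 ≤ T := (le_max_left _ _).trans hT
  have hT16 : 16 ≤ T := ((le_max_left _ _).trans (le_max_right _ _)).trans hT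
  have hTP : (P : ℝ) ^ (500 : ℝ) ≤ T := ((le_max_right _ _).trans (le_max_right _ _)).trans hT
  have hT3' : 3 ≤ T := by linarith
  have hT0 : 0 < T := by linarith
  have hT1 : 1 ≤ T := by linarith
  have hXX : 1 ≤ X := (Real.one_le_rpow hT1 (by norm_num)).trans hX1
  have hX0 : 0 < X := by linarith
  obtain ⟨hz, hs1, -, -, hsw, -⟩ := hco T hTb ν b hb
  have hG : ∀ e : ℤ, e = 1 ∨ e = -1 → ∀ l : ℝ, l ≠ 0 → ‖Gh X a c e l‖ ≤
      Real.exp (C1 * (‖a‖ + ‖c‖)) * X ^ (-(25 / 8) : ℝ) / l ^ 2 := by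
    intro e he l hl
    exact ((hGh X hXX a c hae hc1 hc2 e he).2.2 l hl).1
  have hY1 : 1 ≤ T ^ (501 / 1000 : ℝ) := Real.one_le_rpow hT1 (by norm_num)
  -- the cutoff lies beyond `Y`
  have hfl : T ^ (501 / 1000 : ℝ) ≤ (⌊T⌋₊ : ℝ) := by
    have h1 : T ^ (501 / 1000 : ℝ) ≤ T ^ (3 / 4 : ℝ) :=
      Real.rpow_le_rpow_of_exponent_le hT1 (by norm_num)
    have h2 : (2 : ℝ) ≤ T ^ (1 / 4 : ℝ) := by
      calc (2 : ℝ) = ((2 : ℝ) ^ (4 : ℝ)) ^ (1 / 4 : ℝ) := by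
            rw [← Real.rpow_mul (by norm_num)]; norm_num
        _ ≤ T ^ (1 / 4 : ℝ) := by
            refine Real.rpow_le_rpow (by positivity) ?_ (by norm_num)
            norm_num
            exact hT16
    have h3 : T ^ (3 / 4 : ℝ) * T ^ (1 / 4 : ℝ) = T := by
      rw [← Real.rpow_add (by linarith)]
      norm_num
    have h4 : T ^ (3 / 4 : ℝ) * 2 ≤ T := by
      calc T ^ (3 / 4 : ℝ) * 2 ≤ T ^ (3 / 4 : ℝ) * T ^ (1 / 4 : ℝ) :=
            mul_le_mul_of_nonneg_left h2 (by positivity)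
        _ = T := h3
    have h5 := Nat.lt_floor_add_one T
    linarith
  have hsum : ∑ h ∈ Finset.Icc 1 (Nh T), ∑ k ∈ Finset.Icc 1 (Nh T), cg φ T ν b h *
      (starRingEnd ℂ) (cg φ T ν b k) * ((h * k : ℕ) : ℂ) ^ (a - 1) * F4.Rm X a c h k =
      ∑ d ∈ Finset.Icc 1 (Na T), ∑ k ∈ Finset.Icc 1 (Nh T), b d *
        (starRingEnd ℂ) (cg φ T ν b k) * ∑ n ∈ Finset.Icc 1 ⌊T⌋₊,
          qg φ T ν n * ((n * d * k : ℕ) : ℂ) ^ (a - 1) * F4.Rm X a c (n * d) k := by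
    have h1 : ∑ h ∈ Finset.Icc 1 (Nh T), ∑ k ∈ Finset.Icc 1 (Nh T), cg φ T ν b h *
        (starRingEnd ℂ) (cg φ T ν b k) * ((h * k : ℕ) : ℂ) ^ (a - 1) * F4.Rm X a c h k =
        ∑ h ∈ Finset.Icc 1 (Nh T), cg φ T ν b h * ∑ k ∈ Finset.Icc 1 (Nh T),
        (starRingEnd ℂ) (cg φ T ν b k) * ((h * k : ℕ) : ℂ) ^ (a - 1) * F4.Rm X a c h k := by
      refine Finset.sum_congr rfl fun h _ => ?_
      rw [Finset.mul_sum]
      refine Finset.sum_congr rfl fun k _ => ?_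
      ring
    rw [h1, hsw]
    refine Finset.sum_congr rfl fun d _ => ?_
    simp_rw [Finset.mul_sum]
    rw [Finset.sum_comm]
    refine Finset.sum_congr rfl fun k _ => ?_
    refine Finset.sum_congr rfl fun n _ => ?_
    ring
  rw [hsum]
  have hna : 0 ≤ ‖a‖ := norm_nonneg a
  have hν : 0 ≤ |ν| := abs_nonneg ν
  have hK0n := K0_nonneg
  set Z : ℝ := 2 * CI * (Real.exp (C1 * (‖a‖ + ‖c‖)) * X ^ (-(25 / 8) : ℝ)) *
    (K' + K * (1 + |ν|) + K * (‖a - 1‖ + 1)) with hZ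
  have htot := total (X := X) (c := c) hae hG (fun n => qg φ T ν n) b
    (fun k => (starRingEnd ℂ) (cg φ T ν b k)) ⌊T⌋₊ (Na T) (Nh T) Z (T ^ (501 / 1000 : ℝ))
    (by positivity) (fun e he d k R hd hk hR j hj => by
      have h := RemInP.gen hCI hI (E := Real.exp (C1 * (‖a‖ + ‖c‖)) * X ^ (-(25 / 8) : ℝ)) (X := X)
        (by positivity) he hae (hGh X hXX a c hae hc1 hc2 e he).1
        (fun l hl => (hGh X hXX a c hae hc1 hc2 e he).2.2 l hl) (v := vg φ T ν) (B := K)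
        (D := K' + K * (1 + |ν|)) hY1 (fun y hy => vg_zero hφ hT3' hy)
        (fun y hy => vg_deriv hφ hK1 hK hK0' hK' hT3' hy)
        (fun y hy => vg_bound hK1 hK hT3' hy) d k R hd hk hR j hj ⌊T⌋₊ hfl
      simp only [vg_nat] at h
      refine h.trans (le_of_eq ?_)
      rw [hZ]
      ring)
  refine htot.trans ?_
  have hZ0 : 0 ≤ Z := by
    rw [hZ]
    positivity
  -- the sums over `d` and `k`
  have hd : ∑ d ∈ Finset.Icc 1 (Na T), ‖b d‖ * (d : ℝ) ^ (41 / 16 : ℝ) ≤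
      T ^ (1 / 1000 : ℝ) * T ^ (41 / 16000 : ℝ) := by
    have h1 : ∀ d ∈ Finset.Icc 1 (Na T), ‖b d‖ * (d : ℝ) ^ (41 / 16 : ℝ) ≤
        ‖b d‖ * T ^ (41 / 16000 : ℝ) := by
      intro d hd
      rw [Finset.mem_Icc] at hd
      refine mul_le_mul_of_nonneg_left ?_ (norm_nonneg _)
      have h2 : (d : ℝ) ≤ T ^ (1 / 1000 : ℝ) :=
        (Nat.cast_le.mpr hd.2).trans (Nat.floor_le (by positivity))
      calc (d : ℝ) ^ (41 / 16 : ℝ) ≤ (T ^ (1 / 1000 : ℝ)) ^ (41 / 16 : ℝ) :=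
            Real.rpow_le_rpow (Nat.cast_nonneg _) h2 (by norm_num)
        _ = T ^ (41 / 16000 : ℝ) := by
            rw [← Real.rpow_mul hT0.le]; norm_num
    refine (Finset.sum_le_sum h1).trans ?_
    rw [← Finset.sum_mul]
    exact mul_le_mul_of_nonneg_right hb.2 (by positivity)
  have hk : ∑ k ∈ Finset.Icc 1 (Nh T), ‖(starRingEnd ℂ) (cg φ T ν b k)‖ *
      ((T ^ (501 / 1000 : ℝ) / k + 1) * (k : ℝ) ^ (25 / 16 + 3 / 4 + 1 / 500 : ℝ)) ≤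
      T ^ (503 / 1000 : ℝ) * (2 * T ^ (502 / 1000 * (25 / 16 + 3 / 4 + 1 / 500) : ℝ)) := by
    have h1 : ∀ k ∈ Finset.Icc 1 (Nh T), ‖(starRingEnd ℂ) (cg φ T ν b k)‖ *
        ((T ^ (501 / 1000 : ℝ) / k + 1) * (k : ℝ) ^ (25 / 16 + 3 / 4 + 1 / 500 : ℝ)) ≤
        ‖cg φ T ν b k‖ * (2 * T ^ (502 / 1000 * (25 / 16 + 3 / 4 + 1 / 500) : ℝ)) := by
      intro k hk
      rw [Finset.mem_Icc] at hk
      have hk0 : (0 : ℝ) < k := by exact_mod_cast hk.1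
      rw [RCLike.norm_conj]
      by_cases hkT : T ^ (502 / 1000 : ℝ) < k
      · rw [hz k hkT]; simp
      · refine mul_le_mul_of_nonneg_left ?_ (norm_nonneg _)
        rw [not_lt] at hkT
        have e1 : (T ^ (501 / 1000 : ℝ) / k + 1) * (k : ℝ) ^ (25 / 16 + 3 / 4 + 1 / 500 : ℝ) =
            T ^ (501 / 1000 : ℝ) * (k : ℝ) ^ (25 / 16 + 3 / 4 + 1 / 500 - 1 : ℝ) +
              (k : ℝ) ^ (25 / 16 + 3 / 4 + 1 / 500 : ℝ) := by
          rw [Real.rpow_sub hk0, Real.rpow_one]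
          field_simp
        have e2 : (k : ℝ) ^ (25 / 16 + 3 / 4 + 1 / 500 : ℝ) ≤
            T ^ (502 / 1000 * (25 / 16 + 3 / 4 + 1 / 500) : ℝ) := by
          rw [Real.rpow_mul hT0.le]
          exact Real.rpow_le_rpow hk0.le hkT (by norm_num)
        have e3 : (k : ℝ) ^ (25 / 16 + 3 / 4 + 1 / 500 - 1 : ℝ) ≤
            T ^ (502 / 1000 * (25 / 16 + 3 / 4 + 1 / 500 - 1) : ℝ) := by
          rw [Real.rpow_mul hT0.le]
          exact Real.rpow_le_rpow hk0.le hkT (by norm_num)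
        have e4 : T ^ (501 / 1000 : ℝ) * T ^ (502 / 1000 * (25 / 16 + 3 / 4 + 1 / 500 - 1) : ℝ) ≤
            T ^ (502 / 1000 * (25 / 16 + 3 / 4 + 1 / 500) : ℝ) := by
          rw [← Real.rpow_add hT0]
          exact Real.rpow_le_rpow_of_exponent_le hT1 (by norm_num)
        rw [e1]
        have e5 : T ^ (501 / 1000 : ℝ) * (k : ℝ) ^ (25 / 16 + 3 / 4 + 1 / 500 - 1 : ℝ) ≤
            T ^ (501 / 1000 : ℝ) * T ^ (502 / 1000 * (25 / 16 + 3 / 4 + 1 / 500 - 1) : ℝ) :=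
          mul_le_mul_of_nonneg_left e3 (by positivity)
        linarith
    refine (Finset.sum_le_sum h1).trans ?_
    rw [← Finset.sum_mul]
    exact mul_le_mul_of_nonneg_right hs1 (by positivity)
  have hXp : X ^ (-(25 / 8) : ℝ) ≤ T ^ (-(999 / 1000 * (25 / 8)) : ℝ) := by
    rw [show (-(999 / 1000 * (25 / 8)) : ℝ) = 999 / 1000 * (-(25 / 8)) by ring,
      Real.rpow_mul hT0.le]
    exact Real.rpow_le_rpow_of_nonpos (by positivity) hX1 (by norm_num)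
  have hP2 : (P : ℝ) ≤ T ^ (1 / 500 : ℝ) := by
    calc (P : ℝ) = ((P : ℝ) ^ (500 : ℝ)) ^ (1 / 500 : ℝ) := by
          rw [← Real.rpow_mul (Nat.cast_nonneg _)]; norm_num
      _ ≤ T ^ (1 / 500 : ℝ) := Real.rpow_le_rpow (by positivity) hTP (by norm_num)
  -- the constant
  have hKK : K' + K * (1 + |ν|) + K * (‖a - 1‖ + 1) ≤
      (K' + 3 * K) * ((1 + |ν|) * Real.exp (‖a‖ + ‖c‖)) := by
    have g1 : ‖a - 1‖ ≤ ‖a‖ + 1 := (norm_sub_le _ _).trans (by simp)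
    have g2 : 1 + ‖a‖ ≤ Real.exp (‖a‖ + ‖c‖) := by
      have := Real.add_one_le_exp (‖a‖ + ‖c‖)
      have := norm_nonneg c
      linarith
    have g3 : 0 ≤ 1 + ‖a‖ := by linarith
    calc K' + K * (1 + |ν|) + K * (‖a - 1‖ + 1) ≤ (K' + 3 * K) * ((1 + |ν|) * (1 + ‖a‖)) := by
          have e1 : 0 ≤ K' * |ν| := by positivity
          have e2 : 0 ≤ K' * ‖a‖ := by positivity
          have e3 : 0 ≤ K' * (|ν| * ‖a‖) := by positivity
          have e4 : 0 ≤ K * |ν| := by positivity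
          have e5 : 0 ≤ K * ‖a‖ := by positivity
          have e6 : 0 ≤ K * (|ν| * ‖a‖) := by positivity
          have e7 : K * ‖a - 1‖ ≤ K * (‖a‖ + 1) := by gcongr
          nlinarith
      _ ≤ _ := by gcongr
  have hZb : 2 * K0 * Z ≤ T ^ (1 / 500 : ℝ) * (Real.exp ((C1 + 1) * (‖a‖ + ‖c‖)) * (1 + |ν|) *
      T ^ (-(999 / 1000 * (25 / 8)) : ℝ)) := by
    calc 2 * K0 * Z ≤ 2 * K0 * (2 * CI * (Real.exp (C1 * (‖a‖ + ‖c‖)) * X ^ (-(25 / 8) : ℝ)) *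
          ((K' + 3 * K) * ((1 + |ν|) * Real.exp (‖a‖ + ‖c‖)))) := by
          rw [hZ]
          gcongr
      _ = (2 * K0 * (2 * CI) * (K' + 3 * K)) * (Real.exp (C1 * (‖a‖ + ‖c‖)) *
            Real.exp (‖a‖ + ‖c‖) * (1 + |ν|) * X ^ (-(25 / 8) : ℝ)) := by ring
      _ = (2 * K0 * (2 * CI) * (K' + 3 * K)) * (Real.exp ((C1 + 1) * (‖a‖ + ‖c‖)) * (1 + |ν|) *
            X ^ (-(25 / 8) : ℝ)) := by
          rw [← Real.exp_add]
          ring_nf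
      _ ≤ T ^ (1 / 500 : ℝ) * (Real.exp ((C1 + 1) * (‖a‖ + ‖c‖)) * (1 + |ν|) *
            T ^ (-(999 / 1000 * (25 / 8)) : ℝ)) := by
          have := hP.trans hP2
          gcongr
  calc K0 * Z * (T ^ (501 / 1000 : ℝ)) ^ (25 / 16 : ℝ) *
        ((∑ d ∈ Finset.Icc 1 (Na T), ‖b d‖ * (d : ℝ) ^ (41 / 16 : ℝ)) *
        ∑ k ∈ Finset.Icc 1 (Nh T), ‖(starRingEnd ℂ) (cg φ T ν b k)‖ *
          ((T ^ (501 / 1000 : ℝ) / k + 1) *
          (k : ℝ) ^ (25 / 16 + 3 / 4 + 1 / 500 : ℝ))) ≤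
      K0 * Z * (T ^ (501 / 1000 : ℝ)) ^ (25 / 16 : ℝ) *
        ((T ^ (1 / 1000 : ℝ) * T ^ (41 / 16000 : ℝ)) *
        (T ^ (503 / 1000 : ℝ) * (2 * T ^ (502 / 1000 * (25 / 16 + 3 / 4 + 1 / 500) : ℝ)))) := by
        gcongr
    _ = (2 * K0 * Z) * ((T ^ (501 / 1000 : ℝ)) ^ (25 / 16 : ℝ) *
        ((T ^ (1 / 1000 : ℝ) * T ^ (41 / 16000 : ℝ)) *
        (T ^ (503 / 1000 : ℝ) * T ^ (502 / 1000 * (25 / 16 + 3 / 4 + 1 / 500) : ℝ)))) := by
        ring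
    _ ≤ (T ^ (1 / 500 : ℝ) * (Real.exp ((C1 + 1) * (‖a‖ + ‖c‖)) * (1 + |ν|) *
        T ^ (-(999 / 1000 * (25 / 8)) : ℝ))) * ((T ^ (501 / 1000 : ℝ)) ^ (25 / 16 : ℝ) *
        ((T ^ (1 / 1000 : ℝ) * T ^ (41 / 16000 : ℝ)) *
        (T ^ (503 / 1000 : ℝ) * T ^ (502 / 1000 * (25 / 16 + 3 / 4 + 1 / 500) : ℝ)))) :=
        mul_le_mul_of_nonneg_right hZb (by positivity)
    _ = Real.exp ((C1 + 1) * (‖a‖ + ‖c‖)) * (1 + |ν|) * T ^ (1 / 500 +
        (-(999 / 1000 * (25 / 8)) + 501 / 1000 * (25 / 16) + (1 / 1000 + 41 / 16000) +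
          (503 / 1000 + 502 / 1000 * (25 / 16 + 3 / 4 + 1 / 500))) : ℝ) := by
        rw [Real.rpow_add hT0 (1 / 500), Real.rpow_add hT0, Real.rpow_add hT0, Real.rpow_add hT0,
          Real.rpow_add hT0, Real.rpow_add hT0, ← Real.rpow_mul hT0.le]
        ring
    _ ≤ Real.exp ((C1 + 1) * (‖a‖ + ‖c‖)) * (1 + |ν|) * T ^ (-(6635 / 10000) : ℝ) := by
        refine mul_le_mul_of_nonneg_left ?_ (by positivity)
        exact Real.rpow_le_rpow_of_exponent_le hT1 (by norm_num)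

end K4
end Pool.Agent.Lib.MP_973905_nt
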