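import Pool.Agent.Lib.MP_973905_nt.K4.Stmts
import Pool.Agent.Lib.MP_973905_nt.F4.Right4

/-! (G3) the right edge of the twisted second moment, general cutoff. -/

namespace Pool.Agent.Lib.MP_973905_nt
namespace K4

open MeasureTheory ProbabilityTheory Complex Filter Topology K1 F4

open F4.Right4 in
theorem stRightG (h9 : F4.StPair) (h11 : StRemG) (h1 : F4.StExpand) (h2 : StCoG) : StRightG := by
  intro φ hφ
  obtain ⟨C₁, hC₁, H9⟩ := h9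
  obtain ⟨C₂, hC₂, T₂, hT₂, H11⟩ := h11 φ hφ
  obtain ⟨T₃, hT₃, H2⟩ := h2 φ hφ
  refine ⟨max C₁ C₂ + 1, by positivity, max T₂ T₃, by
    exact hT₂.trans (le_max_left _ _), ?_⟩
  intro T hT X hXl hXu a c ha hc hc' ν b hb
  have hT2 : T₂ ≤ T := (le_max_left _ _).trans hT
  have hT3 : T₃ ≤ T := (le_max_right _ _).trans hT
  have hT1 : (3 : ℝ) ≤ T := hT₂.trans hT2
  have hT0 : (0 : ℝ) < T := by linarith
  have hX1 : 1 ≤ X := by
    refine le_trans ?_ hXl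
    exact Real.one_le_rpow (by linarith) (by norm_num)
  have hX0 : (0 : ℝ) < X := by linarith
  obtain ⟨-, -, s1, s2, -, -⟩ := H2 T hT3 ν b hb
  have A := first C₁ X hX1 a c (cg φ T ν b) (Nh T) (fun h k hh hk => by
    have := H9 X hX1 a c ha hc hc' h k hh hk
    unfold F4.Right4.mt
    rwa [show Fp X a c h k - (Gamma c * (riemannZeta (1 + 2 * a) *
        ((h / h.gcd k * (k / h.gcd k) : ℕ) : ℂ) ^ (-(1 / 2 + a))) +
      ((X / (2 * Real.pi) : ℝ) : ℂ) ^ (-(2 * a)) * (Gamma (c - 2 * a) * (riemannZeta (1 - 2 * a) *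
        ((h / h.gcd k * (k / h.gcd k) : ℕ) : ℂ) ^ (-(1 / 2 - a))))) =
      Fp X a c h k - Gamma c * (riemannZeta (1 + 2 * a) *
        ((h / h.gcd k * (k / h.gcd k) : ℕ) : ℂ) ^ (-(1 / 2 + a))) -
      ((X / (2 * Real.pi) : ℝ) : ℂ) ^ (-(2 * a)) * (Gamma (c - 2 * a) * (riemannZeta (1 - 2 * a) *
        ((h / h.gcd k * (k / h.gcd k) : ℕ) : ℂ) ^ (-(1 / 2 - a)))) by ring])
  have B := H11 T hT2 X hXl hXu a c ha hc hc' ν b hb
  rw [decomp h1 X a c hX1 ha hc]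
  refine (norm_add_le _ _).trans ((add_le_add A B).trans ?_)
  have hs1 : (∑ n ∈ Finset.Icc 1 (Nh T), ‖cg φ T ν b n‖ * (n : ℝ) ^ (-(1 / 2) : ℝ)) ^ 2 ≤
      T ^ (504 / 1000 : ℝ) := by
    calc _ ≤ (T ^ (252 / 1000 : ℝ)) ^ 2 := by
          gcongr
      _ = T ^ (504 / 1000 : ℝ) := by
          rw [← Real.rpow_natCast, ← Real.rpow_mul hT0.le]; norm_num
  have hs2 : (∑ n ∈ Finset.Icc 1 (Nh T), ‖cg φ T ν b n‖ * (n : ℝ) ^ (-(7 / 16) : ℝ)) ^ 2 ≤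
      T ^ (568 / 1000 : ℝ) := by
    calc _ ≤ (T ^ (284 / 1000 : ℝ)) ^ 2 := by
          gcongr
      _ = T ^ (568 / 1000 : ℝ) := by
          rw [← Real.rpow_natCast, ← Real.rpow_mul hT0.le]; norm_num
  have hXp : ∀ e : ℝ, 0 ≤ e → X ^ (-e) ≤ T ^ (-(999 / 1000 * e)) := by
    intro e he
    calc X ^ (-e) ≤ (T ^ (999 / 1000 : ℝ)) ^ (-e) := by
          apply Real.rpow_le_rpow_of_nonpos (by positivity) hXl (by linarith)
      _ = T ^ (-(999 / 1000 * e)) := by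
          rw [← Real.rpow_mul hT0.le]; ring_nf
  have b1 : X ^ (-8 : ℝ) * (∑ n ∈ Finset.Icc 1 (Nh T), ‖cg φ T ν b n‖ *
      (n : ℝ) ^ (-(1 / 2) : ℝ)) ^ 2 ≤ T ^ (-(6625 / 10000) : ℝ) := by
    calc _ ≤ T ^ (-(999 / 1000 * 8) : ℝ) * T ^ (504 / 1000 : ℝ) := by
          gcongr
          exact hXp 8 (by norm_num)
      _ = T ^ (-(999 / 1000 * 8) + 504 / 1000 : ℝ) := by rw [← Real.rpow_add hT0]
      _ ≤ T ^ (-(6625 / 10000) : ℝ) := by
          apply Real.rpow_le_rpow_of_exponent_le (by linarith)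
          norm_num
  have b2 : X ^ (-(17 / 8) : ℝ) * (∑ n ∈ Finset.Icc 1 (Nh T), ‖cg φ T ν b n‖ *
      (n : ℝ) ^ (-(7 / 16) : ℝ)) ^ 2 ≤ T ^ (-(6625 / 10000) : ℝ) := by
    calc _ ≤ T ^ (-(999 / 1000 * (17 / 8)) : ℝ) * T ^ (568 / 1000 : ℝ) := by
          gcongr
          exact hXp (17 / 8) (by norm_num)
      _ = T ^ (-(999 / 1000 * (17 / 8)) + 568 / 1000 : ℝ) := by rw [← Real.rpow_add hT0]
      _ ≤ T ^ (-(6625 / 10000) : ℝ) := by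
          apply Real.rpow_le_rpow_of_exponent_le (by linarith)
          norm_num
  have b3 : T ^ (-(6635 / 10000) : ℝ) ≤ T ^ (-(6625 / 10000) : ℝ) := by
    apply Real.rpow_le_rpow_of_exponent_le (by linarith)
    norm_num
  set D := Real.exp (max C₁ C₂ * (‖a‖ + ‖c‖)) with hD
  have hD0 : 0 < D := Real.exp_pos _
  have hac : 0 ≤ ‖a‖ + ‖c‖ := by positivity
  have d1 : Real.exp (C₁ * (‖a‖ + ‖c‖)) ≤ D := by
    apply Real.exp_le_exp.2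
    gcongr
    exact le_max_left _ _
  have d2 : Real.exp (C₂ * (‖a‖ + ‖c‖)) ≤ D := by
    apply Real.exp_le_exp.2
    gcongr
    exact le_max_right _ _
  have hν : 1 ≤ 1 + |ν| := by
    have := abs_nonneg ν
    linarith
  have hcn : 8 ≤ ‖c‖ := hc.trans (re_le_norm c)
  have d3 : 3 * D ≤ Real.exp ((max C₁ C₂ + 1) * (‖a‖ + ‖c‖)) := by
    rw [add_mul, Real.exp_add, one_mul, ← hD, mul_comm]
    gcongr
    have h3 := Real.add_one_le_exp (‖a‖ + ‖c‖)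
    have := norm_nonneg a
    linarith
  set t := T ^ (-(6625 / 10000) : ℝ) with ht
  have ht0 : 0 < t := Real.rpow_pos_of_pos hT0 _
  calc Real.exp (C₁ * (‖a‖ + ‖c‖)) *
      (X ^ (-8 : ℝ) * (∑ n ∈ Finset.Icc 1 (Nh T), ‖cg φ T ν b n‖ * (n : ℝ) ^ (-(1 / 2) : ℝ)) ^ 2 +
      X ^ (-(17 / 8) : ℝ) *
        (∑ n ∈ Finset.Icc 1 (Nh T), ‖cg φ T ν b n‖ * (n : ℝ) ^ (-(7 / 16) : ℝ)) ^ 2) +
      Real.exp (C₂ * (‖a‖ + ‖c‖)) * (1 + |ν|) * T ^ (-(6635 / 10000) : ℝ)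
      ≤ D * (t + t) + D * (1 + |ν|) * t := by
        gcongr
    _ ≤ 3 * D * (1 + |ν|) * t := by
        nlinarith [mul_pos hD0 ht0]
    _ ≤ _ := by gcongr

end K4
end Pool.Agent.Lib.MP_973905_nt
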