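import Pool.Agent.Lib.MP_973905_nt.K4.Stmts
import Pool.Agent.Lib.MP_973905_nt.F4.Three

/-! (G4) three lines, general cutoff. -/

namespace Pool.Agent.Lib.MP_973905_nt
namespace K4

open MeasureTheory ProbabilityTheory Complex Filter Topology K1 F4


open F4.Three ThreeLines in
/-- (Z7) three lines. The growth of the zeta function in a wider strip (`StGrow`) is used, too. -/
theorem stThreeG (h3 : StRightG) (h4 : F4.StLeft4) (h5 : F4.StGrow) (h6 : F4.StStrip4)
    (h2 : StCoG) : StThreeG := by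
  intro φ hφ
  obtain ⟨C₃, hC₃, T₃, hT₃, h3⟩ := h3 φ hφ
  obtain ⟨C₄, hC₄, h4⟩ := h4
  obtain ⟨Cg, hCg, hg⟩ := h5
  obtain ⟨h6a, h6b, h6c⟩ := h6
  obtain ⟨T₂, hT₂, h2⟩ := h2 φ hφ
  set C : ℝ := C₃ + C₄ with hCdef
  have hC0 : 0 < C := by positivity
  have hC3 : C₃ ≤ C := by linarith
  have hC4 : C₄ ≤ C := by linarith
  set K : ℝ := 3 * C + 3 with hK
  set V₀ : ℝ := 4 * Real.exp (15 * C + 3) with hV₀
  obtain ⟨T₁, hT₁⟩ := eventually_atTop.mp
    ((ev_log 1 (e := 66 / 10000) (by norm_num)).and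
    (Real.tendsto_log_atTop.eventually_ge_atTop 34))
  refine ⟨V₀ * (Real.exp 4 * Real.exp (K ^ 2 / 4)), by positivity,
    max (max T₂ T₃) (max T₁ 3), le_max_of_le_right (le_max_right _ _),
    fun T hT X hX1 hX2 ν b hb => ?_⟩
  have hTT2 : T₂ ≤ T := (le_max_left _ _).trans ((le_max_left _ _).trans hT)
  have hTT3 : T₃ ≤ T := (le_max_right _ _).trans ((le_max_left _ _).trans hT)
  have hTT1 : T₁ ≤ T := (le_max_left _ _).trans ((le_max_right _ _).trans hT)
  have hT3 : 3 ≤ T := (le_max_right _ _).trans ((le_max_right _ _).trans hT)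
  obtain ⟨e3, e4⟩ := hT₁ T hTT1
  have hT0 : 0 < T := by linarith
  have hT1 : 1 ≤ T := by linarith
  have hpi := Real.pi_pos
  have hpi3 := Real.pi_gt_three
  have hXone : 1 ≤ X := (Real.one_le_rpow hT1 (by norm_num)).trans hX1
  have hX0 : 0 < X := by linarith
  have hν : 0 ≤ |ν| := abs_nonneg _
  set N : ℕ := Nh T with hN
  set c : ℕ → ℂ := cg φ T ν b with hc
  obtain ⟨-, -, hHP, -, -, -⟩ := h2 T hTT2 ν b hb
  have hHPb : ∀ t : ℝ, ‖HP N c t‖ ≤ T ^ (252 / 1000 : ℝ) := fun t =>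
    (norm_HP_le N c t).trans hHP
  set Y : ℝ := X / (2 * Real.pi) with hY
  have hY0 : 0 < Y := by positivity
  have hYX : Y ≤ X := by
    rw [hY, div_le_iff₀ (by positivity)]
    nlinarith
  -- the right edge for one value of `c`
  have hR : ∀ a s : ℂ, a.re = 9 / 16 → 8 ≤ s.re → s.re ≤ 16 → ‖s‖ ≤ 12 + 2 * ‖a‖ →
      ‖Jt X s N c a - Mt X s N c a‖ ≤
        Real.exp (C * (3 * ‖a‖ + 12)) * (1 + |ν|) * T ^ (-(6625 / 10000) : ℝ) := by
    intro a s ha hs1 hs2 hs3
    refine (h3 T hTT3 X hX1 hX2 a s ha hs1 hs2 ν b hb).trans ?_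
    have hn : 0 ≤ ‖a‖ := norm_nonneg a
    have hns : 0 ≤ ‖s‖ := norm_nonneg s
    have : C₃ * (‖a‖ + ‖s‖) ≤ C * (3 * ‖a‖ + 12) := by
      apply mul_le_mul hC3 (by linarith) (by positivity) hC0.le
    gcongr
  -- the left edge for one value of `c`
  have hL : ∀ a s : ℂ, a.re = 9 / 16 → 10 ≤ s.re → s.re ≤ 12 → ‖s‖ ≤ 12 →
      ‖Jt X s N c (-a) - Mt X s N c (-a)‖ ≤
        2 * Real.exp (C * (3 * ‖a‖ + 12)) * (1 + |ν|) * T ^ (6291 / 10000 : ℝ) := by
    intro a s ha hs1 hs2 hs3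
    have hn : 0 ≤ ‖a‖ := norm_nonneg a
    have hns : 0 ≤ ‖s‖ := norm_nonneg s
    have g1 := h4 X hXone a s ha (by linarith) (by linarith) N c _ hHPb
    have g2 := hR a (s + 2 * a) ha (by simp [ha]; linarith) (by simp [ha]; linarith) (by
      refine (norm_add_le _ _).trans ?_
      have : ‖2 * a‖ = 2 * ‖a‖ := by simp
      rw [this]; linarith)
    have e : Jt X s N c (-a) - Mt X s N c (-a) =
        (Jt X s N c (-a) - (Y : ℂ) ^ (2 * a) * Jt X (s + 2 * a) N c a) +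
        (Y : ℂ) ^ (2 * a) * (Jt X (s + 2 * a) N c a - Mt X (s + 2 * a) N c a) := by
      rw [Mt_neg hX0]
      ring
    have g3 : ‖(Y : ℂ) ^ (2 * a)‖ ≤ T ^ (11252 / 10000 : ℝ) := by
      rw [norm_cpow_eq_rpow_re_of_pos hY0]
      have e1 : (2 * a).re = 9 / 8 := by simp [ha]; norm_num
      rw [e1]
      calc Y ^ (9 / 8 : ℝ) ≤ X ^ (9 / 8 : ℝ) := Real.rpow_le_rpow hY0.le hYX (by norm_num)
        _ ≤ (T ^ (1 + 1 / 10000 : ℝ)) ^ (9 / 8 : ℝ) := Real.rpow_le_rpow hX0.le hX2 (by norm_num)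
        _ = T ^ ((1 + 1 / 10000) * (9 / 8) : ℝ) := by rw [← Real.rpow_mul hT0.le]
        _ ≤ _ := Real.rpow_le_rpow_of_exponent_le hT1 (by norm_num)
    have g4 : (T ^ (252 / 1000 : ℝ)) ^ 2 * X ^ (1 / 8 : ℝ) ≤ T ^ (6291 / 10000 : ℝ) := by
      calc (T ^ (252 / 1000 : ℝ)) ^ 2 * X ^ (1 / 8 : ℝ)
          ≤ (T ^ (252 / 1000 : ℝ)) ^ 2 * (T ^ (1 + 1 / 10000 : ℝ)) ^ (1 / 8 : ℝ) := by
            gcongr
        _ = T ^ (252 / 1000 * 2 + (1 + 1 / 10000) * (1 / 8) : ℝ) := by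
            rw [← Real.rpow_natCast, ← Real.rpow_mul hT0.le, ← Real.rpow_mul hT0.le,
              ← Real.rpow_add hT0]
            norm_num
        _ ≤ _ := Real.rpow_le_rpow_of_exponent_le hT1 (by norm_num)
    have g5 : Real.exp (C₄ * (‖a‖ + ‖s‖)) ≤ Real.exp (C * (3 * ‖a‖ + 12)) := by
      apply Real.exp_le_exp.mpr
      exact mul_le_mul hC4 (by linarith) (by positivity) hC0.le
    have g6 : T ^ (11252 / 10000 : ℝ) * T ^ (-(6625 / 10000) : ℝ) ≤ T ^ (6291 / 10000 : ℝ) := by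
      rw [← Real.rpow_add hT0]
      exact Real.rpow_le_rpow_of_exponent_le hT1 (by norm_num)
    have hE : 0 < Real.exp (C * (3 * ‖a‖ + 12)) := Real.exp_pos _
    have hP : 0 < T ^ (6291 / 10000 : ℝ) := Real.rpow_pos_of_pos hT0 _
    rw [e]
    calc _ ≤ Real.exp (C * (3 * ‖a‖ + 12)) * T ^ (6291 / 10000 : ℝ) +
          T ^ (11252 / 10000 : ℝ) * (Real.exp (C * (3 * ‖a‖ + 12)) * (1 + |ν|) *
            T ^ (-(6625 / 10000) : ℝ)) := by
          refine (norm_add_le _ _).trans (add_le_add ?_ ?_)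
          · refine g1.trans ?_
            rw [mul_assoc]
            gcongr
          · rw [norm_mul]
            gcongr
      _ = Real.exp (C * (3 * ‖a‖ + 12)) * T ^ (6291 / 10000 : ℝ) +
          Real.exp (C * (3 * ‖a‖ + 12)) * (1 + |ν|) * (T ^ (11252 / 10000 : ℝ) *
            T ^ (-(6625 / 10000) : ℝ)) := by ring
      _ ≤ Real.exp (C * (3 * ‖a‖ + 12)) * T ^ (6291 / 10000 : ℝ) +
          Real.exp (C * (3 * ‖a‖ + 12)) * (1 + |ν|) * T ^ (6291 / 10000 : ℝ) := by gcongr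
      _ ≤ Real.exp (C * (3 * ‖a‖ + 12)) * (1 + |ν|) * T ^ (6291 / 10000 : ℝ) +
          Real.exp (C * (3 * ‖a‖ + 12)) * (1 + |ν|) * T ^ (6291 / 10000 : ℝ) := by
          gcongr
          nlinarith
      _ = _ := by ring
  -- the exponentials
  have hexp : ∀ a : ℂ, |a.re| ≤ 9 / 16 →
      Real.exp (3 * ‖a‖) * Real.exp (C * (3 * ‖a‖ + 12)) ≤
        Real.exp (15 * C + 3) * Real.exp (K * |a.im|) := by
    intro a ha
    rw [← Real.exp_add, ← Real.exp_add]
    apply Real.exp_le_exp.mpr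
    have h1 := norm_le_im ha
    have h2 : (3 + 3 * C) * ‖a‖ ≤ (3 + 3 * C) * (1 + |a.im|) :=
      mul_le_mul_of_nonneg_left h1 (by positivity)
    rw [hK]
    linarith
  have n12 : ‖(12 : ℂ)‖ = 12 := by norm_num
  have n10 : ‖(10 : ℂ)‖ = 10 := by norm_num
  have D : Dat K (V₀ * (1 + |ν|)) T (Js X 12 N c) (HS X N c) := by
    refine ⟨by positivity, by positivity, by linarith, h6a X hXone 12 (by norm_num) N c,
      HS_diff hX0 N c, ?_, ?_, ?_⟩
    · obtain ⟨D₁, hD₁⟩ := h6b X hXone 12 (by norm_num) N c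
      obtain ⟨D₂, hD₂0, hD₂⟩ := HS_growth hg hCg hXone N c
      refine ⟨|D₁| * Real.exp 2 + D₂, fun a ha => ?_⟩
      have k1 := hD₁ a ha
      have k2 := hD₂ a ha
      have k3 := norm_le_im ha
      have him : 0 ≤ |a.im| := abs_nonneg _
      have k4 := (fac_le a hXone).1
      calc ‖a * Js X 12 N c a - HS X N c a‖ ≤ ‖a‖ * ‖Js X 12 N c a‖ + ‖HS X N c a‖ := by
            rw [← norm_mul]; exact norm_sub_le _ _
        _ ≤ Real.exp ‖a‖ * (|D₁| * Real.exp ‖a‖) + D₂ * Real.exp (8 * |a.im|) := by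
            gcongr
            exact k1.trans (by gcongr; exact le_abs_self _)
        _ = |D₁| * Real.exp (2 * ‖a‖) + D₂ * Real.exp (8 * |a.im|) := by
            have : Real.exp (2 * ‖a‖) = Real.exp ‖a‖ * Real.exp ‖a‖ := by
              rw [← Real.exp_add]; ring_nf
            rw [this]; ring
        _ ≤ |D₁| * Real.exp (2 + 8 * |a.im|) + D₂ * Real.exp (8 * |a.im|) := by
            gcongr
            linarith
        _ = _ := by rw [Real.exp_add]; ring
    · intro a ha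
      have ha8 : |a.re| ≤ 9 / 16 := by rw [ha, abs_of_pos] <;> norm_num
      have ha0 : a ≠ 0 := by rintro rfl; norm_num at ha
      have k := combine hXone N c ha0 (h6c X hXone 12 (by norm_num) N c a ha8
        (by rw [ha]; norm_num) (by rw [ha]; norm_num))
        (B := Real.exp (C * (3 * ‖a‖ + 12)) * (1 + |ν|) * T ^ (-(6625 / 10000) : ℝ))
        (by positivity)
        (hR a 12 ha (by norm_num) (by norm_num) (by rw [n12]; linarith [norm_nonneg a]))
        (hR a 10 ha (by norm_num) (by norm_num) (by rw [n10]; linarith [norm_nonneg a]))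
      refine k.trans ?_
      calc 2 * Real.exp (3 * ‖a‖) * (Real.exp (C * (3 * ‖a‖ + 12)) * (1 + |ν|) *
            T ^ (-(6625 / 10000) : ℝ))
          = 2 * (Real.exp (3 * ‖a‖) * Real.exp (C * (3 * ‖a‖ + 12))) * (1 + |ν|) *
            T ^ (-(6625 / 10000) : ℝ) := by ring
        _ ≤ 4 * (Real.exp (15 * C + 3) * Real.exp (K * |a.im|)) * (1 + |ν|) *
            T ^ (-(6625 / 10000) : ℝ) := by
            have := hexp a ha8
            gcongr
            norm_num
        _ = _ := by rw [hV₀]; ring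
    · intro z hz
      have hz8 : |z.re| ≤ 9 / 16 := by rw [hz, abs_neg, abs_of_pos] <;> norm_num
      have hz0 : z ≠ 0 := by rintro rfl; norm_num at hz
      have ha : (-z).re = 9 / 16 := by simp [hz]
      have k12 := hL (-z) 12 ha (by norm_num) (by norm_num) (by rw [n12])
      have k10 := hL (-z) 10 ha (by norm_num) (by norm_num) (by rw [n10]; norm_num)
      rw [neg_neg, norm_neg] at k12 k10
      have k := combine hXone N c hz0 (h6c X hXone 12 (by norm_num) N c z hz8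
        (by rw [hz]; norm_num) (by rw [hz]; norm_num)) (by positivity) k12 k10
      refine k.trans ?_
      calc 2 * Real.exp (3 * ‖z‖) * (2 * Real.exp (C * (3 * ‖z‖ + 12)) * (1 + |ν|) *
            T ^ (6291 / 10000 : ℝ))
          = 4 * (Real.exp (3 * ‖z‖) * Real.exp (C * (3 * ‖z‖ + 12))) * (1 + |ν|) *
            T ^ (6291 / 10000 : ℝ) := by ring
        _ ≤ 4 * (Real.exp (15 * C + 3) * Real.exp (K * |z.im|)) * (1 + |ν|) *
            T ^ (6291 / 10000 : ℝ) := by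
            have := hexp z hz8
            gcongr
        _ = _ := by rw [hV₀]; ring
  have hfin := D.final e4 e3 (M := Ms X 12 N c) fun a ha => HS_eq X N c ha
  refine hfin.trans (le_of_eq ?_)
  ring

end K4
end Pool.Agent.Lib.MP_973905_nt
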