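import Pool.Agent.Lib.MP_973905_nt.F4.AllF4
import Pool.Agent.Lib.MP_973905_nt.K3.AllK3
import Pool.Agent.Lib.MP_973905_nt.K4.AfeB
import Pool.Agent.Lib.MP_973905_nt.K4.BumpMom
import Pool.Agent.Lib.MP_973905_nt.K4.BumpRF
import Pool.Agent.Lib.MP_973905_nt.K4.Circ
import Pool.Agent.Lib.MP_973905_nt.K4.CoG
import Pool.Agent.Lib.MP_973905_nt.K4.Final
import Pool.Agent.Lib.MP_973905_nt.K4.JG
import Pool.Agent.Lib.MP_973905_nt.K4.Kar
import Pool.Agent.Lib.MP_973905_nt.K4.MainC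
import Pool.Agent.Lib.MP_973905_nt.K4.PairR
import Pool.Agent.Lib.MP_973905_nt.K4.PairT
import Pool.Agent.Lib.MP_973905_nt.K4.Red
import Pool.Agent.Lib.MP_973905_nt.K4.RemG
import Pool.Agent.Lib.MP_973905_nt.K4.RightG
import Pool.Agent.Lib.MP_973905_nt.K4.S1
import Pool.Agent.Lib.MP_973905_nt.K4.S2
import Pool.Agent.Lib.MP_973905_nt.K4.Sharp4
import Pool.Agent.Lib.MP_973905_nt.K4.SharpA
import Pool.Agent.Lib.MP_973905_nt.K4.ThreeG
import Pool.Agent.Lib.MP_973905_nt.K4.UpperU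

/-! Assembly of the upper bound in the joint limit `T → ∞`, `k → 2-`. -/

namespace Pool.Agent.Lib.MP_973905_nt.K4

theorem final : K4.StFinal := by
  have n1 : F4.StKl := F4.stKl
  have n2 : F4.StInc := F4.stInc n1
  have n3 : F4.StGz := F4.stGz
  have n4 : F4.StGh := F4.stGh n3
  have n6 : F4.StBeta := F4.stBeta
  have n7 : F4.StZero := F4.stZero n6
  have n9 : F4.StPair := F4.stPair n4 (F4.stPoi n3 n4) n7 F4.stOff
  have z5 : F4.StGrow := F4.stGrow
  have z6 : F4.StStrip4 := F4.stStrip4 z5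
  have hc : StCoG := stCoG
  have r1 : StRightG := stRightG n9 (stRemG n2 n4 hc) F4.stExpand hc
  have r2 : StThreeG := stThreeG r1 F4.stLeft4 z5 z6 hc
  have h7 : K3.StRA4 := K3.stRA4 K3.stLF4 (K3.stBlock4 K3.stLF4)
  have hm : StMainC := stMainC F4.stRand4 hc
  have hr : StRed := stRed h7 F4.stRand4 hc
  have hb : StBumpMom := stBumpMom hc (stTwistG r2 z6) hm hr stBumpRF (stAfeB F4.stFFr) F4.stDy_all
  have hs : StSharpA := stSharpA hc (stJG r2 z6 hc) hm hr stCirc stKar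
  have hp : StPairT := stPairT (stPairR h7 K3.stCore4) (K3.stTransferZ2 K3.stZ2Pair)
  have h4 : StSharp4 := stSharp4 hb hs hp stS1 stS2 F4.stDy_all F4.stCr4_all
  exact stFinal (stUpperU h4 F4.stF4_all) K3.stCK2

end Pool.Agent.Lib.MP_973905_nt.K4
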