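import Pool.Agent.Lib.MP_973905_nt.F4.Stmts
import Pool.Agent.Lib.MP_973905_nt.K3.Stmts

/-! Definitions for the sharp upper bound in the joint limit `T → ∞`, `k → 2-` (folder K4). -/

namespace Pool.Agent.Lib.MP_973905_nt
namespace K4

open MeasureTheory ProbabilityTheory Complex Filter Topology K1 F4

/-- Smooth cutoffs supported in `[-2, 0.501]`. -/
structure CutK (φ : ℝ → ℝ) : Prop where
  cut : FourG.Cut φ
  zeroK : ∀ x, 501 / 1000 ≤ x → φ x = 0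

/-- Coefficients of a smooth polynomial (as `F4.qc`, with an arbitrary cutoff). -/
noncomputable def qg (φ : ℝ → ℝ) (T ν : ℝ) (n : ℕ) : ℂ :=
  (φ (Real.log n / Real.log T) : ℂ) * (n : ℂ) ^ (-(((1 / Real.log T : ℝ) : ℂ) + ν * I))

/-- Dirichlet convolution of `qg` with `b` (as `F4.cH`). -/
noncomputable def cg (φ : ℝ → ℝ) (T ν : ℝ) (b : ℕ → ℂ) (n : ℕ) : ℂ :=
  ∑ x ∈ n.divisorsAntidiagonal, qg φ T ν x.1 * b x.2

/-- The coefficients of the constant polynomial `1`. -/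
noncomputable def b1 (n : ℕ) : ℂ := if n = 1 then 1 else 0

/-- The cutoff with `qg (fA δ) T 0 n = Pb δ (log n / log T)`. -/
noncomputable def fA (δ x : ℝ) : ℝ := Real.exp x * Pb δ x

/-- Cutoff: `1` on `[-1, 1/2 + δ]`, `0` outside `[-2, 1/2 + 2δ]`. -/
noncomputable def Pc (δ x : ℝ) : ℝ :=
  Real.smoothTransition ((1 / 2 + 2 * δ - x) / δ) * Real.smoothTransition (x + 2)

/-- The bump, supported in `[1/2 - 2δ, 1/2 + 2δ]`. -/
noncomputable def fB (δ x : ℝ) : ℝ := Real.exp (x + (1 / 2 - x) / δ) * (Pc δ x - Pb δ x)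

/-- `A + χ conj A` with `A = SH δ T`. -/
noncomputable def DA (δ T t : ℝ) : ℂ :=
  SH δ T (fs (1 / 2 + t * I)) +
    (starRingEnd ℂ) (FF (1 / 2 + t * I)) * (starRingEnd ℂ) (SH δ T (fs (1 / 2 + t * I)))

/-- The remainder in the approximate functional equation. -/
noncomputable def RR (δ T t : ℝ) : ℂ := riemannZeta (1 / 2 + t * I) - DA δ T t

/-- The main term of the mean of `|ζ|² |A|²`. -/
noncomputable def S1 (δ T : ℝ) : ℝ :=
  ∑ m ∈ Finset.Icc 1 ⌊T⌋₊, ∑ n ∈ Finset.Icc 1 ⌊T⌋₊,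
    Pb δ (Real.log m / Real.log T) * Pb δ (Real.log n / Real.log T) *
      ((m.gcd n : ℝ) / (m * n)) *
      (Real.log T - Real.log (m / m.gcd n : ℕ) - Real.log (n / m.gcd n : ℕ))

/-- The main term of the mean of `conj ζ² A²`. -/
noncomputable def S2 (δ T : ℝ) : ℝ :=
  ∑ m ∈ Finset.Icc 1 ⌊T⌋₊, ∑ n ∈ Finset.Icc 1 ⌊T⌋₊,
    Pb δ (Real.log m / Real.log T) * Pb δ (Real.log n / Real.log T) * K3.dv (m * n) / (m * n)

/-- The real weight `X⁻¹ (t/X)^11 e^{-t/X}`. -/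
noncomputable def Wr (X t : ℝ) : ℝ := X⁻¹ * (t / X) ^ 11 * Real.exp (-(t / X))

end K4
end Pool.Agent.Lib.MP_973905_nt
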