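import Pool.Agent.Lib.MP_973905_nt.K4.Stmts
import Pool.Agent.Lib.MP_973905_nt.F4.Main4

/-! Module R1 (K4): the arithmetic factor of our product polynomials, general cutoff. -/

namespace Pool.Agent.Lib.MP_973905_nt
namespace K4

open MeasureTheory ProbabilityTheory Complex Filter Topology K1 F4

namespace MainC

lemma qg_sum (φ : ℝ → ℝ) (T ν : ℝ) (f : ℕ → ℂ) :
    ∑ n ∈ Finset.Icc 1 ⌊T⌋₊, qg φ T ν n * tw (1 / 2) f n =
      FourG.SG φ T (tw (1 / 2 + ((1 / Real.log T : ℝ) : ℂ) + ν * I) f) := by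
  rw [FourG.SG]
  refine Finset.sum_congr rfl fun n hn => ?_
  rw [Finset.mem_Icc] at hn
  have h0 : (n : ℂ) ≠ 0 := by
    have : n ≠ 0 := by omega
    exact_mod_cast this
  simp only [qg, tw]
  rw [show -(1 / 2 + ((1 / Real.log T : ℝ) : ℂ) + ν * I) =
    -(((1 / Real.log T : ℝ) : ℂ) + ν * I) + -(1 / 2 : ℂ) by ring, cpow_add _ _ h0]
  ring

end MainC

open F4.Main4 MainC in
/-- (R1) crude bound for the arithmetic factor, general cutoff -/
theorem stMainC (h1 : F4.StRand4) (h3 : StCoG) : StMainC := by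
  obtain ⟨C, M₀, hR⟩ := h1
  obtain ⟨Cp, hCp, hprod⟩ := prod_bound
  refine ⟨C + 1, fun φ hφ => ?_⟩
  obtain ⟨g0, hg0, hgi, hFB⟩ := F4.FB4.fourier_bound4 hφ.cut
  obtain ⟨T₁, hT₁, hCo⟩ := h3 φ hφ
  set Ig : ℝ := ∫ ξ : ℝ, g0 ξ * (1 + |ξ|) ^ C with hIg
  have hIg0 : 0 ≤ Ig := integral_nonneg fun ξ => mul_nonneg (hg0 ξ) (by positivity)
  set D : ℝ := Cp * (2 ^ C + 7 ^ C * Ig) with hD
  have hD0 : 0 < D := by positivity
  refine ⟨max M₀ (max ⌈Real.log D⌉₊ 1), fun M hM => ?_⟩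
  obtain ⟨T₂, hT₂, hR2⟩ := hR M ((le_max_left _ _).trans hM)
  refine ⟨max (max T₁ T₂) 10, (by
    have := le_max_right (max T₁ T₂) 10
    linarith), fun T hT k hk1 hk2 g h hgh b hb hAA ν a ha => ?_⟩
  have hTT₁ : T₁ ≤ T := ((le_max_left _ _).trans (le_max_left _ _)).trans hT
  have hTT₂ : T₂ ≤ T := ((le_max_right _ _).trans (le_max_left _ _)).trans hT
  have hT10 : 10 ≤ T := (le_max_right _ _).trans hT
  have hT1 : 1 < T := by linarith
  have hT0 : 0 < T := by linarith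
  have hM1 : 1 ≤ M := ((le_max_right _ _).trans (le_max_right _ _)).trans hM
  have hMD : ⌈Real.log D⌉₊ ≤ M := ((le_max_left _ _).trans (le_max_right _ _)).trans hM
  have hL2 : 2 < Real.log T := by
    rw [Real.lt_log_iff_exp_lt hT0]
    have h := Real.exp_one_lt_d9
    have : Real.exp 2 = Real.exp 1 * Real.exp 1 := by rw [← Real.exp_add]; norm_num
    rw [this]
    have h' := Real.exp_pos 1
    nlinarith
  have hL0 : 0 < Real.log T := by linarith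
  obtain ⟨-, -, -, -, -, hconv⟩ := hCo T hTT₁ ν b hb
  have hB := blk_SB hT1 M (JJ T)
  have hUU := UU_SB hT1 M (JJ T)
  have hprime : ∀ p ∈ PS 0 T, p.Prime := fun p hp => ((mem_PS le_rfl hT0.le).mp hp).1
  -- the functionals
  set A : (ℕ → ℂ) → ℂ := AA T M (JJ T) (k - 2) g h with hA
  set G : (ℕ → ℂ) → ℂ := fun f => (∑ n ∈ Finset.Icc 1 ⌊T⌋₊, qg φ T ν n * f n) * A f with hG
  have hGf : ∀ f, CMul f → G f = ∑ n ∈ Finset.Icc 1 ⌊T ^ (51 / 100 : ℝ)⌋₊, cg φ T ν b n * f n := by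
    intro f hf
    rw [hG]
    show (∑ n ∈ Finset.Icc 1 ⌊T⌋₊, qg φ T ν n * f n) * A f = _
    rw [hAA f hf]
    exact (hconv f hf).symm
  have hN : T ^ (51 / 100 : ℝ) ≤ T := by
    calc T ^ (51 / 100 : ℝ) ≤ T ^ (1 : ℝ) := Real.rpow_le_rpow_of_exponent_le hT1.le (by norm_num)
      _ = T := Real.rpow_one T
  have hare : |a.re| ≤ 1 / Real.log T := by rw [← ha]; exact abs_re_le_norm a
  have h1L : 1 / Real.log T < 1 / 2 := one_div_lt_one_div_of_lt (by norm_num) hL2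
  have hare' : -(1 / 2) < a.re := by
    have := (abs_le.mp hare).1
    linarith
  have hRF : ThreeLines.RF (Nh T) (cg φ T ν b) a = RA T M G a a := by
    rw [FinM.formula hT1 hN (cg φ T ν b) G hGf M a a hare' hare']
    rfl
  rw [hRF, RA, norm_mul]
  have hP := hprod T (by linarith) a ha
  -- bound of RZ
  have hwa : 0 < (1 / 2 + a : ℂ).re := by rw [add_re]; norm_num; linarith
  have hwb : 0 < (1 / 2 + (starRingEnd ℂ) a : ℂ).re := by rw [add_re, conj_re]; norm_num; linarith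
  have b1 : BC (SB T M (JJ T)) (fun f => ZZ (PS 0 T) (tw (1 / 2 + a) f)) := bc_ZZ hprime hwa
  have b2 : BC (SB T M (JJ T)) (fun f => ZZ (PS 0 T) (tw (1 / 2 + (starRingEnd ℂ) a) f)) :=
    bc_ZZ hprime hwb
  have b3 : BC (SB T M (JJ T)) (fun f => ∑ n ∈ Finset.Icc 1 ⌊T⌋₊, qg φ T ν n * tw (1 / 2) f n) :=
    bc_lin _ _ _
  have b4 : BC (SB T M (JJ T)) (fun f => A (tw (1 / 2) f)) := by
    refine bc_congr (bc_lin (Finset.Icc 1 (Na T)) b (1 / 2)) fun ω => ?_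
    exact (hAA _ (cmul_tw (cmul_XX _ ω) _)).symm
  have hRZ := rz_bound b1 b2 b3 b4
  -- the common bound
  set K : ℝ := Real.exp (C * M) * (Real.log T) ^ (k ^ 2) * ∏ j ∈ h, ss M (JJ T) j with hK
  have hss : 0 ≤ ∏ j ∈ h, ss M (JJ T) j := Finset.prod_nonneg fun j _ => (Real.exp_pos _).le
  have hK0 : 0 ≤ K := by
    have : 0 < (Real.log T) ^ (k ^ 2) := Real.rpow_pos_of_pos hL0 _
    positivity
  have hRz : ∀ z : ℂ, -1 ≤ z.re → ER (SB T M (JJ T)) (fun f =>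
      ‖ZZ (PS 0 T) (tw ((1 / 2 : ℂ) + z / Real.log T) f)‖ ^ 4 * ‖A (tw (1 / 2) f)‖ ^ 2) ≤
        (1 + ‖z‖) ^ C * K := by
    intro z hz
    have := hR2 T hTT₂ k hk1 hk2 g h hgh z hz
    rw [hUU] at this
    refine this.trans (le_of_eq ?_)
    rw [hK]; ring
  have hLC : (Real.log T : ℂ) ≠ 0 := by exact_mod_cast hL0.ne'
  have hx : 1 ≤ 1 + Real.log T * |ν| := by
    have : 0 ≤ Real.log T * |ν| := by positivity
    linarith
  have hone : (1 : ℝ) ≤ (1 + Real.log T * |ν|) ^ C := one_le_pow₀ hx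
  have c1 : ER (SB T M (JJ T)) (fun f => ‖ZZ (PS 0 T) (tw (1 / 2 + a) f)‖ ^ 4 *
      ‖A (tw (1 / 2) f)‖ ^ 2) ≤ 2 ^ C * K := by
    have := hRz (a * Real.log T) (by
      rw [re_mul_ofReal]
      have := (abs_le.mp hare).1
      have h' : -(1 / Real.log T) * Real.log T = -1 := by field_simp
      nlinarith)
    rw [mul_div_assoc, div_self hLC, mul_one, norm_mul, ha, norm_real, Real.norm_eq_abs,
      abs_of_pos hL0, one_div_mul_cancel hL0.ne'] at this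
    refine this.trans (le_of_eq ?_)
    norm_num
  have c2 : ER (SB T M (JJ T)) (fun f => ‖ZZ (PS 0 T) (tw (1 / 2 + (starRingEnd ℂ) a) f)‖ ^ 4 *
      ‖A (tw (1 / 2) f)‖ ^ 2) ≤ 2 ^ C * K := by
    have := hRz ((starRingEnd ℂ) a * Real.log T) (by
      rw [re_mul_ofReal, conj_re]
      have := (abs_le.mp hare).1
      have h' : -(1 / Real.log T) * Real.log T = -1 := by field_simp
      nlinarith)
    rw [mul_div_assoc, div_self hLC, mul_one, norm_mul, RCLike.norm_conj, ha, norm_real,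
      Real.norm_eq_abs, abs_of_pos hL0, one_div_mul_cancel hL0.ne'] at this
    refine this.trans (le_of_eq ?_)
    norm_num
  have c3 : ER (SB T M (JJ T)) (fun f => ‖∑ n ∈ Finset.Icc 1 ⌊T⌋₊, qg φ T ν n * tw (1 / 2) f n‖ ^ 4 *
      ‖A (tw (1 / 2) f)‖ ^ 2) ≤ 7 ^ C * Ig * (1 + Real.log T * |ν|) ^ C * K := by
    set w : ℂ := 1 / 2 + ((1 / Real.log T : ℝ) : ℂ) + ν * I with hw
    have hwre : 0 < w.re := by
      have : w.re = 1 / 2 + 1 / Real.log T := by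
        rw [hw]; simp
      rw [this]; positivity
    obtain ⟨f1, f2⟩ := hFB _ (SB T M (JJ T)) hB T hT1 (fun n hn1 hn2 => mem_factored hT1 M (JJ T) hn1 hn2)
      w hwre (fun f => A (tw (1 / 2) f)) b4
    have e0 : ER (SB T M (JJ T)) (fun f => ‖∑ n ∈ Finset.Icc 1 ⌊T⌋₊, qg φ T ν n * tw (1 / 2) f n‖ ^ 4 *
      ‖A (tw (1 / 2) f)‖ ^ 2) = ER (SB T M (JJ T)) (fun f => ‖FourG.SG φ T (tw w f)‖ ^ 4 *
        ‖A (tw (1 / 2) f)‖ ^ 2) := by
      simp only [qg_sum, hw]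
    rw [e0]
    refine f1.trans ?_
    have hgi' : Integrable (fun ξ : ℝ => (g0 ξ * (1 + |ξ|) ^ C) *
        (7 ^ C * (1 + Real.log T * |ν|) ^ C * K)) := (hgi C).mul_const _
    have e1 : ∫ ξ : ℝ, (g0 ξ * (1 + |ξ|) ^ C) * (7 ^ C * (1 + Real.log T * |ν|) ^ C * K) =
        7 ^ C * Ig * (1 + Real.log T * |ν|) ^ C * K := by
      rw [integral_mul_const]; ring
    rw [← e1]
    refine integral_mono f2 hgi' fun ξ => ?_
    show g0 ξ * _ ≤ _
    rw [hUU]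
    have e2 : w + (1 - 2 * Real.pi * ξ * I) / Real.log T = (1 / 2 : ℂ) +
        ((2 : ℂ) + ((Real.log T * ν - 2 * Real.pi * ξ : ℝ) : ℂ) * I) / Real.log T := by
      rw [hw]
      push_cast
      field_simp
      ring
    rw [e2]
    have h5 := hRz ((2 : ℂ) + ((Real.log T * ν - 2 * Real.pi * ξ : ℝ) : ℂ) * I) (by
      rw [add_re, re_ofReal_mul, I_re]; norm_num)
    calc g0 ξ * ER (SB T M (JJ T)) (fun f =>
        ‖ZZ (PS 0 T) (tw ((1 / 2 : ℂ) + ((2 : ℂ) + ((Real.log T * ν - 2 * Real.pi * ξ : ℝ) : ℂ) * I) /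
          Real.log T) f)‖ ^ 4 * ‖A (tw (1 / 2) f)‖ ^ 2) ≤
        g0 ξ * ((1 + ‖(2 : ℂ) + ((Real.log T * ν - 2 * Real.pi * ξ : ℝ) : ℂ) * I‖) ^ C * K) :=
          mul_le_mul_of_nonneg_left h5 (hg0 ξ)
      _ ≤ g0 ξ * ((7 * (1 + Real.log T * |ν|) * (1 + |ξ|)) ^ C * K) := by
          have h6 := norm_z_le (ν := ν) (ξ := ξ) hL0
          refine mul_le_mul_of_nonneg_left ?_ (hg0 ξ)
          gcongr
      _ = (g0 ξ * (1 + |ξ|) ^ C) * (7 ^ C * (1 + Real.log T * |ν|) ^ C * K) := by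
          rw [mul_pow, mul_pow]; ring
  have hRZ' : ‖RZ T M G a a‖ ≤ (2 ^ C + 7 ^ C * Ig) * (1 + Real.log T * |ν|) ^ C * K := by
    have e : RZ T M G a a = ER (SB T M (JJ T)) (fun f => ZZ (PS 0 T) (tw (1 / 2 + a) f) *
        (starRingEnd ℂ) (ZZ (PS 0 T) (tw (1 / 2 + (starRingEnd ℂ) a) f)) *
        (((∑ n ∈ Finset.Icc 1 ⌊T⌋₊, qg φ T ν n * tw (1 / 2) f n) * A (tw (1 / 2) f)) *
          (starRingEnd ℂ) ((∑ n ∈ Finset.Icc 1 ⌊T⌋₊, qg φ T ν n * tw (1 / 2) f n) *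
            A (tw (1 / 2) f)))) := rfl
    rw [e]
    refine hRZ.trans ?_
    have h2C : (0 : ℝ) ≤ 2 ^ C * K := by positivity
    have hle : 2 ^ C * K ≤ 2 ^ C * (1 + Real.log T * |ν|) ^ C * K := by
      have : 2 ^ C * K * 1 ≤ 2 ^ C * K * (1 + Real.log T * |ν|) ^ C := by gcongr
      linarith
    have h7 : 0 ≤ 7 ^ C * Ig * (1 + Real.log T * |ν|) ^ C * K := by positivity
    have e3 : (2 ^ C + 7 ^ C * Ig) * (1 + Real.log T * |ν|) ^ C * K =
      2 ^ C * (1 + Real.log T * |ν|) ^ C * K + 7 ^ C * Ig * (1 + Real.log T * |ν|) ^ C * K := by ring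
    rw [e3]
    linarith
  -- final assembly
  have hDexp : D ≤ Real.exp M := by
    rw [← Real.exp_log hD0]
    apply Real.exp_le_exp.mpr
    have h8 : Real.log D ≤ ⌈Real.log D⌉₊ := Nat.le_ceil _
    have h9 : ((⌈Real.log D⌉₊ : ℕ) : ℝ) ≤ M := by exact_mod_cast hMD
    linarith
  have hLk : (Real.log T) ^ (k ^ 2) / Real.log T = (Real.log T) ^ (k ^ 2 - 1) := by
    rw [Real.rpow_sub hL0, Real.rpow_one]
  calc ‖RZ T M G a a‖ * ‖∏ p ∈ PS 0 T, (1 - (p : ℂ) ^ (-(1 + a + a)))‖ ≤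
      ((2 ^ C + 7 ^ C * Ig) * (1 + Real.log T * |ν|) ^ C * K) * (Cp / Real.log T) := by
        gcongr
    _ = D * Real.exp (C * M) * (1 + Real.log T * |ν|) ^ C *
        ((Real.log T) ^ (k ^ 2) / Real.log T) * ∏ j ∈ h, ss M (JJ T) j := by
        rw [hD, hK]; ring
    _ ≤ Real.exp M * Real.exp (C * M) *
        (1 + Real.log T * |ν|) ^ (C + 1) *
        ((Real.log T) ^ (k ^ 2) / Real.log T) * ∏ j ∈ h, ss M (JJ T) j := by
        have h11 : (1 + Real.log T * |ν|) ^ C ≤ (1 + Real.log T * |ν|) ^ (C + 1) :=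
          pow_le_pow_right₀ hx (by omega)
        have h12 : 0 ≤ (Real.log T) ^ (k ^ 2) / Real.log T := by
          have : 0 < (Real.log T) ^ (k ^ 2) := Real.rpow_pos_of_pos hL0 _
          positivity
        gcongr
    _ = _ := by
        rw [hLk, ← Real.exp_add]
        push_cast
        ring_nf

end K4
end Pool.Agent.Lib.MP_973905_nt
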