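import Pool.Agent.Lib.MP_973905_nt.K4.Defs

/-! Statements (as propositions) of the modules for the sharp upper bound `k → 2-`. -/

namespace Pool.Agent.Lib.MP_973905_nt
namespace K4

open MeasureTheory ProbabilityTheory Complex Filter Topology K1 F4

/-! ### Part G: the twisted second moment of F4 for general smooth cutoffs -/

/-- (G1) simple facts on the coefficients (as `F4.StCo`) -/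
def StCoG : Prop := ∀ φ : ℝ → ℝ, CutK φ → ∃ T₀ : ℝ, 3 ≤ T₀ ∧ ∀ T, T₀ ≤ T → ∀ (ν : ℝ) (b : ℕ → ℂ),
    Sh T b → (∀ n : ℕ, T ^ (502 / 1000 : ℝ) < n → cg φ T ν b n = 0) ∧
    ∑ n ∈ Finset.Icc 1 (Nh T), ‖cg φ T ν b n‖ ≤ T ^ (503 / 1000 : ℝ) ∧
    ∑ n ∈ Finset.Icc 1 (Nh T), ‖cg φ T ν b n‖ * (n : ℝ) ^ (-(1 / 2) : ℝ) ≤
      T ^ (252 / 1000 : ℝ) ∧
    ∑ n ∈ Finset.Icc 1 (Nh T), ‖cg φ T ν b n‖ * (n : ℝ) ^ (-(7 / 16) : ℝ) ≤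
      T ^ (284 / 1000 : ℝ) ∧
    (∀ Φ : ℕ → ℂ, ∑ n ∈ Finset.Icc 1 (Nh T), cg φ T ν b n * Φ n =
      ∑ d ∈ Finset.Icc 1 (Na T), ∑ n ∈ Finset.Icc 1 ⌊T⌋₊, b d * (qg φ T ν n * Φ (n * d))) ∧
    (∀ f : ℕ → ℂ, CMul f → ∑ n ∈ Finset.Icc 1 (Nh T), cg φ T ν b n * f n =
      (∑ n ∈ Finset.Icc 1 ⌊T⌋₊, qg φ T ν n * f n) * ∑ d ∈ Finset.Icc 1 (Na T), b d * f d)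

/-- (G2) all nonzero frequencies together (as `F4.StRem`) -/
def StRemG : Prop := ∀ φ : ℝ → ℝ, CutK φ → ∃ C : ℝ, 0 < C ∧ ∃ T₀ : ℝ, 3 ≤ T₀ ∧ ∀ T, T₀ ≤ T →
    ∀ X : ℝ, T ^ (999 / 1000 : ℝ) ≤ X → X ≤ T ^ (1 + 1 / 10000 : ℝ) → ∀ a c : ℂ, a.re = 9 / 16 →
    8 ≤ c.re → c.re ≤ 16 → ∀ (ν : ℝ) (b : ℕ → ℂ), Sh T b →
    ‖∑ h ∈ Finset.Icc 1 (Nh T), ∑ k ∈ Finset.Icc 1 (Nh T), cg φ T ν b h *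
      (starRingEnd ℂ) (cg φ T ν b k) * ((h * k : ℕ) : ℂ) ^ (a - 1) * F4.Rm X a c h k‖ ≤
      Real.exp (C * (‖a‖ + ‖c‖)) * (1 + |ν|) * T ^ (-(6635 / 10000) : ℝ)

/-- (G3) right edge (as `F4.StRight4`) -/
def StRightG : Prop := ∀ φ : ℝ → ℝ, CutK φ → ∃ C : ℝ, 0 < C ∧ ∃ T₀ : ℝ, 3 ≤ T₀ ∧ ∀ T, T₀ ≤ T →
    ∀ X : ℝ, T ^ (999 / 1000 : ℝ) ≤ X → X ≤ T ^ (1 + 1 / 10000 : ℝ) → ∀ a c : ℂ, a.re = 9 / 16 →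
    8 ≤ c.re → c.re ≤ 16 → ∀ (ν : ℝ) (b : ℕ → ℂ), Sh T b →
    ‖Jt X c (Nh T) (cg φ T ν b) a - Mt X c (Nh T) (cg φ T ν b) a‖ ≤
      Real.exp (C * (‖a‖ + ‖c‖)) * (1 + |ν|) * T ^ (-(6625 / 10000) : ℝ)

/-- (G4) three lines (as `F4.StThree`) -/
def StThreeG : Prop := ∀ φ : ℝ → ℝ, CutK φ → ∃ C : ℝ, 0 < C ∧ ∃ T₀ : ℝ, 3 ≤ T₀ ∧ ∀ T, T₀ ≤ T →
    ∀ X : ℝ, T ^ (999 / 1000 : ℝ) ≤ X → X ≤ T ^ (1 + 1 / 10000 : ℝ) → ∀ (ν : ℝ) (b : ℕ → ℂ), Sh T b →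
    ‖Js X 12 (Nh T) (cg φ T ν b) 0 -
      Real.circleAverage (Ms X 12 (Nh T) (cg φ T ν b)) 0 (1 / Real.log T)‖ ≤
      C * (1 + |ν|) * T ^ (-(1 / 100) : ℝ)

/-- (G5) asymptotic formula for the twisted second moment -/
def StJG : Prop := ∀ φ : ℝ → ℝ, CutK φ → ∃ C : ℝ, 0 < C ∧ ∃ T₀ : ℝ, 3 ≤ T₀ ∧ ∀ T, T₀ ≤ T →
    ∀ X : ℝ, T ^ (999 / 1000 : ℝ) ≤ X → X ≤ T ^ (1 + 1 / 10000 : ℝ) → ∀ (ν : ℝ) (b : ℕ → ℂ), Sh T b →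
    IntegrableOn (fun t : ℝ => ‖riemannZeta (1 / 2 + t * I)‖ ^ 2 *
      ‖HP (Nh T) (cg φ T ν b) t‖ ^ 2 * Wr X t) (Set.Ioi 0) ∧
    ‖((∫ t in Set.Ioi (0 : ℝ), ‖riemannZeta (1 / 2 + t * I)‖ ^ 2 *
      ‖HP (Nh T) (cg φ T ν b) t‖ ^ 2 * Wr X t : ℝ) : ℂ) -
      Real.circleAverage (Mt X 12 (Nh T) (cg φ T ν b)) 0 (1 / Real.log T)‖ ≤
      C * (1 + |ν|) * T ^ (-(1 / 200) : ℝ)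

/-- (G6) upper bound for the twisted second moment (as `F4.StTwist`); `C` does not depend on `φ` -/
def StTwistG : Prop := ∃ C : ℝ, 0 < C ∧ ∀ φ : ℝ → ℝ, CutK φ → ∃ C' : ℝ, 0 < C' ∧
    ∃ T₀ : ℝ, 3 ≤ T₀ ∧ ∀ T, T₀ ≤ T → ∀ X : ℝ, T ^ (999 / 1000 : ℝ) ≤ X →
    X ≤ T ^ (1 + 1 / 10000 : ℝ) → ∀ (ν : ℝ) (b : ℕ → ℂ), Sh T b → ∀ B : ℝ,
    (∀ a : ℂ, ‖a‖ = 1 / Real.log T → ‖ThreeLines.RF (Nh T) (cg φ T ν b) a‖ ≤ B) →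
    IntegrableOn (fun t : ℝ => ‖riemannZeta (1 / 2 + t * I)‖ ^ 2 *
      ‖HP (Nh T) (cg φ T ν b) t‖ ^ 2 * Wr X t) (Set.Ioi 0) ∧
    ∫ t in Set.Ioi (0 : ℝ), ‖riemannZeta (1 / 2 + t * I)‖ ^ 2 *
      ‖HP (Nh T) (cg φ T ν b) t‖ ^ 2 * Wr X t ≤
      C * Real.log T * B + C' * (1 + |ν|) * T ^ (-(1 / 200) : ℝ)

/-! ### Part R: the random model -/

/-- (R1) crude bound for the arithmetic factor (as `F4.StMain4`); `C` does not depend on `φ` -/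
def StMainC : Prop := ∃ C : ℕ, ∀ φ : ℝ → ℝ, CutK φ → ∃ M₀ : ℕ, ∀ M : ℕ, M₀ ≤ M → ∃ T₀ : ℝ, 3 ≤ T₀ ∧
    ∀ T, T₀ ≤ T → ∀ k : ℝ, 1 ≤ k → k ≤ 2 → ∀ g h : Finset ℕ, g ∪ h = Finset.range (JJ T + 1) →
    ∀ b : ℕ → ℂ, Sh T b → (∀ f : ℕ → ℂ, CMul f → AA T M (JJ T) (k - 2) g h f =
      ∑ n ∈ Finset.Icc 1 (Na T), b n * f n) → ∀ (ν : ℝ) (a : ℂ), ‖a‖ = 1 / Real.log T →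
    ‖ThreeLines.RF (Nh T) (cg φ T ν b) a‖ ≤ Real.exp (C * M) * (1 + Real.log T * |ν|) ^ C *
      (Real.log T) ^ (k ^ 2 - 1) * ∏ j ∈ h, ss M (JJ T) j

/-- (R2) sharp comparison of the twisted and the untwisted arithmetic factor -/
def StRed : Prop := ∀ φ : ℝ → ℝ, CutK φ → ∀ η : ℝ, 0 < η → ∃ M₀ : ℕ, ∀ M : ℕ, M₀ ≤ M →
    ∃ κ₁ : ℝ, 0 < κ₁ ∧ κ₁ ≤ 1 / 10 ∧ ∃ T₀ : ℝ, 3 ≤ T₀ ∧ ∀ T, T₀ ≤ T → ∀ k : ℝ, 2 - κ₁ ≤ k → k ≤ 2 →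
    ∀ b : ℕ → ℂ, Sh T b → (∀ f : ℕ → ℂ, CMul f → NN T M (k - 2) f =
      ∑ n ∈ Finset.Icc 1 (Na T), b n * f n) → ∀ (ν : ℝ) (a : ℂ),
    |ν| ≤ Real.exp (M / 3) / Real.log T → ‖a‖ = 1 / Real.log T →
    ‖ThreeLines.RF (Nh T) (cg φ T ν b) a - (((Real.log T) ^ (k ^ 2 - 4) : ℝ) : ℂ) *
      ThreeLines.RF (Nh T) (cg φ T ν b1) a‖ ≤ η * (Real.log T) ^ (k ^ 2 - 1)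

/-- (R3) the arithmetic factor of the bump -/
def StBumpRF : Prop := ∃ C : ℝ, 0 < C ∧ ∀ δ : ℝ, 0 < δ → δ ≤ 1 / 2000 → ∃ T₀ : ℝ, 3 ≤ T₀ ∧
    ∀ T, T₀ ≤ T → ∀ (ν : ℝ) (a : ℂ), ‖a‖ = 1 / Real.log T →
    ‖ThreeLines.RF (Nh T) (cg (fB δ) T ν b1) a‖ ≤ C * δ ^ 2 * (Real.log T) ^ 3

/-- (R4) the main term for `N = 1` -/
def StCirc : Prop := ∃ C : ℝ, 0 < C ∧ ∀ δ : ℝ, 0 < δ → δ ≤ 1 / 2000 → ∃ T₀ : ℝ, 3 ≤ T₀ ∧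
    ∀ T, T₀ ≤ T → ‖Real.circleAverage (Mt T 12 (Nh T) (cg (fA δ) T 0 b1)) 0 (1 / Real.log T) -
      (((Nat.factorial 11 : ℕ) * S1 δ T : ℝ) : ℂ)‖ ≤ C * (Real.log T) ^ 3

/-- (R5) -/
def StS1 : Prop := ∀ δ η : ℝ, 0 < δ → δ ≤ 1 / 8 → 0 < η → ∃ T₀ : ℝ, 3 ≤ T₀ ∧ ∀ T, T₀ ≤ T →
    0 ≤ S1 δ T ∧ S1 δ T ≤ (6 / Real.pi ^ 2 * (5 / 192) + η) * (Real.log T) ^ 4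

/-- (R6) -/
def StS2 : Prop := ∀ δ η : ℝ, 0 < δ → δ ≤ 1 / 8 → 0 < η → ∃ T₀ : ℝ, 3 ≤ T₀ ∧ ∀ T, T₀ ≤ T →
    0 ≤ S2 δ T ∧ S2 δ T ≤ (6 / Real.pi ^ 2 * (1 / 64) + η) * (Real.log T) ^ 4

/-- (R7) the pairing of `ζ²` with `conj A²` in the random model -/
def StPairR : Prop := ∀ δ η : ℝ, 0 < δ → δ ≤ 1 / 8 → 0 < η → ∃ M₀ : ℕ, ∀ M : ℕ, M₀ ≤ M →
    ∃ κ₁ : ℝ, 0 < κ₁ ∧ κ₁ ≤ 1 / 10 ∧ ∃ T₀ : ℝ, 3 ≤ T₀ ∧ ∀ T, T₀ ≤ T → ∀ k : ℝ, |k - 2| ≤ κ₁ →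
    ‖ER (SB T M (JJ T)) (fun f => ZZ (PS 0 T) (tw (1 / 2) f) ^ 2 *
        ((NN T M (k - 2) (tw (1 / 2) f)) * (starRingEnd ℂ) (SH δ T (tw (1 / 2) f) ^ 2 *
          NN T M (k - 2) (tw (1 / 2) f)))) -
      (((Real.log T) ^ (k ^ 2 - 4) * S2 δ T : ℝ) : ℂ)‖ ≤ η * (Real.log T) ^ (k ^ 2)

/-! ### Part A: analysis -/

/-- (A1) the pairing on Gaussian means of variance `T^{2-δ/2}` -/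
def StPairT : Prop := ∀ δ η : ℝ, 0 < δ → δ ≤ 1 / 8 → 0 < η → ∃ M₀ : ℕ, ∀ M : ℕ, M₀ ≤ M →
    ∃ κ₁ : ℝ, 0 < κ₁ ∧ κ₁ ≤ 1 / 10 ∧ ∃ T₀ : ℝ, 3 ≤ T₀ ∧ ∀ T, T₀ ≤ T → ∀ k : ℝ, |k - 2| ≤ κ₁ →
    ∀ τ : ℝ, T / Real.log T ≤ |τ| → |τ| ≤ 3 / 2 * T →
    ‖EG (K3.Td δ T) τ (fun t => riemannZeta (1 / 2 + t * I) ^ 2 *
        (starRingEnd ℂ) (SH δ T (fs (1 / 2 + t * I)) ^ 2) *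
        ((‖NN T M (k - 2) (fs (1 / 2 + t * I))‖ ^ 2 : ℝ) : ℂ)) -
      (((Real.log T) ^ (k ^ 2 - 4) * S2 δ T : ℝ) : ℂ)‖ ≤ η * (Real.log T) ^ (k ^ 2)

/-- (A2) the approximate functional equation with a bump as remainder -/
def StAfeB : Prop := ∀ A : ℕ, ∃ C : ℝ, 0 < C ∧ ∀ δ : ℝ, 0 < δ → δ ≤ 1 / 2000 → ∃ C' : ℝ, 0 < C' ∧
    ∃ T₀ : ℝ, 3 ≤ T₀ ∧ ∀ T, T₀ ≤ T → ∀ t : ℝ, T ^ (1 - δ / 4) ≤ t → t ≤ T ^ (1 + δ / 4) →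
    ‖RR δ T t‖ ^ 2 ≤ C * (∫ ν : ℝ, ‖∑ n ∈ Finset.Icc 1 ⌊T⌋₊, qg (fB δ) T ν n *
      fs (1 / 2 + t * I) n‖ ^ 2 * (δ * Real.log T * ((1 + δ * Real.log T * |ν|) ^ A)⁻¹ *
        Real.exp (-ν ^ 2))) + C' * T ^ (-(δ / 8))

/-- (A3) the remainder is small in the mean -/
def StBumpMom : Prop := ∀ ε : ℝ, 0 < ε → ∃ δ : ℝ, 0 < δ ∧ δ ≤ 1 / 2000 ∧ ∃ M₀ : ℕ, ∀ M : ℕ, M₀ ≤ M →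
    ∃ κ₁ : ℝ, 0 < κ₁ ∧ κ₁ ≤ 1 / 10 ∧ ∃ T₀ : ℝ, 3 ≤ T₀ ∧ ∀ T, T₀ ≤ T → ∀ k : ℝ, 2 - κ₁ ≤ k → k ≤ 2 →
    ∀ X : ℝ, T ^ (1 - δ / 8) ≤ X → X ≤ T →
    ∫ t in X..(2 * X), ‖riemannZeta (1 / 2 + t * I)‖ ^ 2 * ‖RR δ T t‖ ^ 2 *
      ‖NN T M (k - 2) (fs (1 / 2 + t * I))‖ ^ 2 ≤ ε * X * (Real.log T) ^ (k ^ 2)

/-- (A4) majorants of Karamata type -/
def StKar : Prop := ∀ u₀ u₁ ε : ℝ, 0 < u₀ → u₀ < u₁ → 0 < ε → ∃ (n : ℕ) (α : ℕ → ℝ),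
    (∀ u : ℝ, 0 < u → 0 ≤ ∑ j ∈ Finset.Icc 1 n, α j * (u ^ 11 * Real.exp (-(j * u)))) ∧
    (∀ u : ℝ, u₀ ≤ u → u ≤ u₁ → 1 ≤ ∑ j ∈ Finset.Icc 1 n, α j * (u ^ 11 * Real.exp (-(j * u)))) ∧
    ∑ j ∈ Finset.Icc 1 n, α j * ((Nat.factorial 11 : ℕ) / (j : ℝ) ^ 12) ≤ u₁ - u₀ + ε

/-- (A5) sharp upper bound for the mean of `|ζ|² |A|² |N|²` -/
def StSharpA : Prop := ∀ δ η : ℝ, 0 < δ → δ ≤ 1 / 2000 → 0 < η → ∃ M₀ : ℕ, ∀ M : ℕ, M₀ ≤ M →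
    ∃ κ₁ : ℝ, 0 < κ₁ ∧ κ₁ ≤ 1 / 10 ∧ ∀ u₀ u₁ : ℝ, 0 < u₀ → u₀ < u₁ → u₁ ≤ 2 → ∃ T₀ : ℝ, 3 ≤ T₀ ∧
    ∀ T, T₀ ≤ T → ∀ k : ℝ, 2 - κ₁ ≤ k → k ≤ 2 →
    ∫ t in (u₀ * T)..(u₁ * T), ‖riemannZeta (1 / 2 + t * I)‖ ^ 2 *
      ‖SH δ T (fs (1 / 2 + t * I))‖ ^ 2 * ‖NN T M (k - 2) (fs (1 / 2 + t * I))‖ ^ 2 ≤
      T * ((u₁ - u₀) * (Real.log T) ^ (k ^ 2 - 4) * S1 δ T + η * (Real.log T) ^ (k ^ 2))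

/-- (A6) sharp upper bound for the mollified fourth moment -/
def StSharp4 : Prop := ∀ η : ℝ, 0 < η → ∃ M₀ : ℕ, ∀ M : ℕ, M₀ ≤ M →
    ∃ κ₁ : ℝ, 0 < κ₁ ∧ κ₁ ≤ 1 / 10 ∧ ∃ T₀ : ℝ, 3 ≤ T₀ ∧ ∀ T, T₀ ≤ T → ∀ k : ℝ, 2 - κ₁ ≤ k → k ≤ 2 →
    T⁻¹ * ∫ t in (0 : ℝ)..T, ‖riemannZeta (1 / 2 + t * I)‖ ^ 4 *
      ‖NN T M (k - 2) (fs (1 / 2 + t * I))‖ ^ 2 ≤
      (1 / (2 * Real.pi ^ 2) + η) * (Real.log T) ^ (k ^ 2)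

/-- (A7) upper bound, `k → 2-` -/
def StUpperU : Prop := ∀ ε : ℝ, 0 < ε → ∃ k₁ : ℝ, 1 < k₁ ∧ k₁ < 2 ∧ ∃ T₀ : ℝ, 3 ≤ T₀ ∧
    ∀ T, T₀ ≤ T → ∀ k : ℝ, k₁ ≤ k → k ≤ 2 →
    T⁻¹ * ∫ t in (0 : ℝ)..T, ‖riemannZeta (1 / 2 + t * I)‖ ^ (2 * k) ≤
      (1 + ε) * (1 / (2 * Real.pi ^ 2)) * (Real.log T) ^ (k ^ 2)

/-- (A8) the final theorem -/
def StFinal : Prop := ∀ ε : ℝ, 0 < ε → ∃ k₁ : ℝ, 1 < k₁ ∧ k₁ < 2 ∧ ∃ T₀ : ℝ, 3 ≤ T₀ ∧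
    ∀ T, T₀ ≤ T → ∀ k : ℝ, k₁ ≤ k → k ≤ 2 →
    (T⁻¹ * ∫ t in (0 : ℝ)..T, ‖riemannZeta (1 / 2 + t * I)‖ ^ (2 * k)) /
      (cK k * (Real.log T) ^ (k ^ 2)) ≤ 1 + ε

end K4
end Pool.Agent.Lib.MP_973905_nt
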